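import Mathlib

set_option autoImplicit false

open scoped InnerProductSpace

namespace Pool.Agent.H25.Dga

variable {H : Type} [NormedAddCommGroup H] [InnerProductSpace ℝ H]

/-- Bounded real sequences. -/
abbrev Linf := lp (fun _ : ℕ => ℝ) ⊤

/-- The predual space: vectors of `H` with the norm
`(‖G‖ ^ 2 + (sup_m |⟪k m, G⟫|) ^ 2) ^ (1/2)`, realised inside an `ℓ²` sum. -/
def Zs (k : ℕ → H) : Submodule ℝ (WithLp 2 (H × Linf)) where
  carrier := {z | ∀ m, z.snd m = ⟪k m, z.fst⟫_ℝ}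
  add_mem' := by
    intro a b ha hb m
    simp only [Set.mem_ofPred_eq] at ha hb
    rw [WithLp.add_snd, WithLp.add_fst, inner_add_right, ← ha m, ← hb m, lp.coeFn_add,
      Pi.add_apply]
  zero_mem' := by
    intro m
    simp
  smul_mem' := by
    intro c a ha m
    simp only [Set.mem_ofPred_eq] at ha
    rw [WithLp.smul_snd, WithLp.smul_fst, inner_smul_right, ← ha m, lp.coeFn_smul,
      Pi.smul_apply, smul_eq_mul]

/-- The predual space as a normed space. -/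
def ZZ (k : ℕ → H) : Type := ↥(Zs k)

noncomputable instance (k : ℕ → H) : NormedAddCommGroup (ZZ k) :=
  inferInstanceAs (NormedAddCommGroup ↥(Zs k))

noncomputable instance (k : ℕ → H) : NormedSpace ℝ (ZZ k) :=
  inferInstanceAs (NormedSpace ℝ ↥(Zs k))

/-- Underlying pair. -/
def ZZ.val {k : ℕ → H} (z : ZZ k) : WithLp 2 (H × Linf) := Subtype.val (show ↥(Zs k) from z)

variable {k : ℕ → H}

/-- First component. -/
def fs (z : ZZ k) : H := (ZZ.val z).fst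
/-- Second component. -/
def sn (z : ZZ k) : Linf := (ZZ.val z).snd

lemma sn_apply (z : ZZ k) (m : ℕ) : sn z m = ⟪k m, fs z⟫_ℝ := (show Zs k from z).2 m

lemma norm_sq (z : ZZ k) : ‖z‖ ^ 2 = ‖fs z‖ ^ 2 + ‖sn z‖ ^ 2 :=
  WithLp.prod_norm_sq_eq_of_L2 (ZZ.val z)

lemma fs_add (z w : ZZ k) : fs (z + w) = fs z + fs w := rfl
lemma sn_add (z w : ZZ k) : sn (z + w) = sn z + sn w := rfl
lemma fs_sub (z w : ZZ k) : fs (z - w) = fs z - fs w := rfl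
lemma fs_smul (c : ℝ) (z : ZZ k) : fs (c • z) = c • fs z := rfl
lemma sn_sub (z w : ZZ k) : sn (z - w) = sn z - sn w := rfl

lemma norm_fs_le (z : ZZ k) : ‖fs z‖ ≤ ‖z‖ := by
  have h := norm_sq z
  have h1 := norm_nonneg z
  have h2 := norm_nonneg (fs z)
  nlinarith [sq_nonneg ‖sn z‖]

lemma norm_sn_le (z : ZZ k) : ‖sn z‖ ≤ ‖z‖ := by
  have h := norm_sq z
  have h1 := norm_nonneg z
  have h2 := norm_nonneg (sn z)
  nlinarith [sq_nonneg ‖fs z‖]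

lemma abs_inner_le_sn (z : ZZ k) (m : ℕ) : |⟪k m, fs z⟫_ℝ| ≤ ‖sn z‖ := by
  rw [← sn_apply]
  have := lp.norm_apply_le_norm (p := ⊤) (by simp) (sn z) m
  simpa using this

lemma norm_sn_le_of {z : ZZ k} {C : ℝ} (hC : 0 ≤ C) (h : ∀ m, |⟪k m, fs z⟫_ℝ| ≤ C) :
    ‖sn z‖ ≤ C := by
  apply lp.norm_le_of_forall_le hC
  intro m
  rw [sn_apply]
  exact h m

/-- Inclusion of `H`. -/
noncomputable def iota (hk : ∀ m, ‖k m‖ ^ 2 ≤ 5 / 4) (G : H) : ZZ k :=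
  (⟨WithLp.toLp 2 (G, ⟨fun m => ⟪k m, G⟫_ℝ, by
    apply memℓp_infty
    refine ⟨2 * ‖G‖, ?_⟩
    rintro _ ⟨m, rfl⟩
    have h1 : ‖k m‖ ≤ 2 := by
      have := hk m
      nlinarith [norm_nonneg (k m)]
    calc ‖⟪k m, G⟫_ℝ‖ ≤ ‖k m‖ * ‖G‖ := norm_inner_le_norm _ _
      _ ≤ 2 * ‖G‖ := by gcongr⟩), fun m => rfl⟩ : Zs k)

lemma fs_iota (hk : ∀ m, ‖k m‖ ^ 2 ≤ 5 / 4) (G : H) : fs (iota hk G) = G := rfl

/-- The functional on the predual given by a vector of `H`. -/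
noncomputable def brk (k : ℕ → H) : H →ₗ[ℝ] (ZZ k →L[ℝ] ℝ) where
  toFun x := LinearMap.mkContinuous
    { toFun := fun z => ⟪x, fs z⟫_ℝ
      map_add' := fun z w => by rw [fs_add, inner_add_right]
      map_smul' := fun c z => by rw [fs_smul, inner_smul_right]; rfl } ‖x‖ (fun z => by
        calc ‖⟪x, fs z⟫_ℝ‖ ≤ ‖x‖ * ‖fs z‖ := norm_inner_le_norm _ _
          _ ≤ ‖x‖ * ‖z‖ := by gcongr; exact norm_fs_le z)
  map_add' x y := by
    ext z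
    show ⟪x + y, fs z⟫_ℝ = ⟪x, fs z⟫_ℝ + ⟪y, fs z⟫_ℝ
    rw [inner_add_left]
  map_smul' c x := by
    ext z
    show ⟪c • x, fs z⟫_ℝ = c * ⟪x, fs z⟫_ℝ
    rw [real_inner_smul_left]

lemma brk_apply (x : H) (z : ZZ k) : brk k x z = ⟪x, fs z⟫_ℝ := rfl

lemma norm_brk_le (x : H) : ‖brk k x‖ ≤ ‖x‖ := by
  apply ContinuousLinearMap.opNorm_le_bound _ (norm_nonneg x)
  intro z
  rw [brk_apply]
  calc ‖⟪x, fs z⟫_ℝ‖ ≤ ‖x‖ * ‖fs z‖ := norm_inner_le_norm _ _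
    _ ≤ ‖x‖ * ‖z‖ := by gcongr; exact norm_fs_le z

/-- Operator norm from one sided bounds on the unit ball. -/
lemma opNorm_le_of_ball {Z : Type} [NormedAddCommGroup Z] [NormedSpace ℝ Z] (T : Z →L[ℝ] ℝ)
    {c : ℝ} (hc : 0 ≤ c) (h : ∀ z, ‖z‖ ≤ 1 → T z ≤ c) : ‖T‖ ≤ c := by
  apply ContinuousLinearMap.opNorm_le_bound _ hc
  have key : ∀ z, T z ≤ c * ‖z‖ := by
    intro z
    by_cases hz : z = 0
    · subst hz; simp
    · have hz' : 0 < ‖z‖ := norm_pos_iff.mpr hz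
      have h1 := h (‖z‖⁻¹ • z) (by rw [norm_smul, norm_inv, norm_norm, inv_mul_cancel₀ hz'.ne'])
      rw [map_smul, smul_eq_mul, inv_mul_le_iff₀ hz'] at h1
      linarith
  intro z
  rw [Real.norm_eq_abs, abs_le]
  constructor
  · have := key (-z)
    rw [map_neg, norm_neg] at this
    linarith
  · exact key z

lemma norm_add_le_ball (F G : ZZ k) (hF : ‖F‖ ≤ 1) (hG : ‖G‖ ≤ 1) :
    ‖F + G‖ ≤ 2 - ‖fs F - fs G‖ ^ 2 / 4 := by
  have h1 := norm_sq (F + G)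
  rw [fs_add, sn_add] at h1
  have h2 := parallelogram_law_with_norm ℝ (fs F) (fs G)
  have h3 : ‖sn F + sn G‖ ≤ ‖sn F‖ + ‖sn G‖ := norm_add_le _ _
  have h4 := norm_sq F
  have h5 := norm_sq G
  have h6 : ‖F + G‖ ^ 2 ≤ 4 - ‖fs F - fs G‖ ^ 2 := by
    have a1 : ‖sn F + sn G‖ ^ 2 ≤ 2 * ‖sn F‖ ^ 2 + 2 * ‖sn G‖ ^ 2 := by
      have := norm_nonneg (sn F + sn G)
      nlinarith [sq_nonneg (‖sn F‖ - ‖sn G‖)]
    have a2 : ‖F‖ ^ 2 ≤ 1 := by nlinarith [norm_nonneg F]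
    have a3 : ‖G‖ ^ 2 ≤ 1 := by nlinarith [norm_nonneg G]
    nlinarith
  set d := ‖fs F - fs G‖ with hd
  have hd0 : 0 ≤ d := norm_nonneg _
  have h7 : d ^ 2 ≤ 4 := by nlinarith [sq_nonneg ‖F + G‖]
  have h8 : 0 ≤ 2 - d ^ 2 / 4 := by linarith
  have h9 := norm_nonneg (F + G)
  by_contra hcon
  push Not at hcon
  nlinarith [sq_nonneg (d ^ 2)]

lemma norm_sub_le_ball (hk : ∀ m, ‖k m‖ ^ 2 ≤ 5 / 4) (F G : ZZ k) :
    ‖F - G‖ ≤ 3 / 2 * ‖fs F - fs G‖ := by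
  have h1 := norm_sq (F - G)
  have h2 : ‖sn (F - G)‖ ^ 2 ≤ 5 / 4 * ‖fs (F - G)‖ ^ 2 := by
    have h3 : ‖sn (F - G)‖ ≤ Real.sqrt (5 / 4) * ‖fs (F - G)‖ := by
      apply norm_sn_le_of (by positivity)
      intro m
      calc |⟪k m, fs (F - G)⟫_ℝ| ≤ ‖k m‖ * ‖fs (F - G)‖ := abs_real_inner_le_norm _ _
        _ ≤ Real.sqrt (5 / 4) * ‖fs (F - G)‖ := by
          gcongr
          exact Real.le_sqrt_of_sq_le (hk m)
    calc ‖sn (F - G)‖ ^ 2 ≤ (Real.sqrt (5 / 4) * ‖fs (F - G)‖) ^ 2 := by gcongr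
      _ = 5 / 4 * ‖fs (F - G)‖ ^ 2 := by
        rw [mul_pow, Real.sq_sqrt (by norm_num)]
  rw [fs_sub] at h1 h2
  have h4 : ‖F - G‖ ^ 2 ≤ (3 / 2 * ‖fs F - fs G‖) ^ 2 := by nlinarith
  exact (abs_le_of_sq_le_sq' h4 (by positivity)).2

lemma smooth (hk : ∀ m, ‖k m‖ ^ 2 ≤ 5 / 4) (x y : ZZ k →L[ℝ] ℝ) (hx : ‖x‖ ≤ 1) (hy : ‖y‖ ≤ 1)
    (u : ℝ) (hu : 0 ≤ u) : ‖x + u • y‖ + ‖x - u • y‖ ≤ 2 + 9 / 4 * u ^ 2 := by
  have key : ∀ F G : ZZ k, ‖F‖ ≤ 1 → ‖G‖ ≤ 1 →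
      (x + u • y) F + (x - u • y) G ≤ 2 + 9 / 4 * u ^ 2 := by
    intro F G hF hG
    have e : (x + u • y) F + (x - u • y) G = x (F + G) + u * y (F - G) := by
      simp only [_root_.add_apply, _root_.sub_apply,
        _root_.smul_apply, smul_eq_mul, map_add, map_sub]
      ring
    have h1 : x (F + G) ≤ ‖F + G‖ := by
      calc x (F + G) ≤ ‖x (F + G)‖ := le_abs_self _
        _ ≤ ‖x‖ * ‖F + G‖ := x.le_opNorm _
        _ ≤ 1 * ‖F + G‖ := by gcongr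
        _ = ‖F + G‖ := one_mul _
    have h2 : y (F - G) ≤ ‖F - G‖ := by
      calc y (F - G) ≤ ‖y (F - G)‖ := le_abs_self _
        _ ≤ ‖y‖ * ‖F - G‖ := y.le_opNorm _
        _ ≤ 1 * ‖F - G‖ := by gcongr
        _ = ‖F - G‖ := one_mul _
    have h3 := norm_add_le_ball F G hF hG
    have h4 := norm_sub_le_ball hk F G
    rw [e]
    have h5 : u * y (F - G) ≤ u * (3 / 2 * ‖fs F - fs G‖) :=
      mul_le_mul_of_nonneg_left (h2.trans h4) hu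
    nlinarith [sq_nonneg (‖fs F - fs G‖ / 2 - 3 / 2 * u)]
  have hR : (0 : ℝ) ≤ 2 + 9 / 4 * u ^ 2 := by positivity
  have h1 : ∀ G : ZZ k, ‖G‖ ≤ 1 → ‖x + u • y‖ ≤ 2 + 9 / 4 * u ^ 2 - (x - u • y) G := by
    intro G hG
    apply opNorm_le_of_ball
    · have := key 0 G (by simp) hG
      rw [map_zero] at this
      linarith
    · intro F hF
      have := key F G hF hG
      linarith
  have h2 : ‖x - u • y‖ ≤ 2 + 9 / 4 * u ^ 2 - ‖x + u • y‖ := by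
    apply opNorm_le_of_ball
    · have := h1 0 (by simp)
      rw [map_zero] at this
      linarith
    · intro G hG
      have := h1 G hG
      linarith
  linarith

end Pool.Agent.H25.Dga
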