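import Mathlib

set_option autoImplicit false

namespace Pool.Agent.H25.Dga

variable {Z : Type} [NormedAddCommGroup Z] [NormedSpace ℝ Z] [CompleteSpace Z]

/-- Abstract data: residuals `f`, steps `g` in `Z`, norming functionals `z`. -/
structure AData (f g : ℕ → Z) (z : ℕ → Z →L[ℝ] ℝ) : Prop where
  hsm : ∀ x y : Z, ‖x‖ ≤ 1 → ‖y‖ ≤ 1 → ∀ u : ℝ, 0 ≤ u →
    ‖x + u • y‖ + ‖x - u • y‖ ≤ 2 + 9 / 4 * u ^ 2
  hz : ∀ n, ‖z n‖ ≤ 1
  hf : ∀ n, z n (f n) = ‖f n‖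
  hf9 : ∀ n, 9 / 10 ≤ ‖f n‖
  hg : ∀ n, g n = f n - f (n + 1)
  h2 : ∀ n, z (n + 1) (g n) = 0
  h3 : ∀ n m, |z n (g m)| * ‖g n‖ ≤ z n (g n) * ‖g m‖
  h4 : ∀ n, 0 < ‖g n‖
  h5 : f 0 ∈ (Submodule.span ℝ (Set.range g)).topologicalClosure

variable {f g : ℕ → Z} {z : ℕ → Z →L[ℝ] ℝ}

/-- The Banach space carrying the example. -/
noncomputable abbrev XX (g : ℕ → Z) : Submodule ℝ Z :=
  (Submodule.span ℝ (Set.range g)).topologicalClosure

omit [CompleteSpace Z] in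
lemma g_mem (g : ℕ → Z) (n : ℕ) : g n ∈ XX g :=
  Submodule.le_topologicalClosure _ (Submodule.subset_span ⟨n, rfl⟩)

omit [CompleteSpace Z] in
lemma f_mem (d : AData f g z) (n : ℕ) : f n ∈ XX g := by
  induction n with
  | zero => exact d.h5
  | succ n ih =>
    have e : f (n + 1) = f n - g n := by
      rw [d.hg n]; abel
    rw [e]
    exact Submodule.sub_mem _ ih (g_mem g n)

/-- The abstract counterexample. -/
theorem not_main_of_data (d : AData f g z) :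
    ¬ (∀ (X : Type) [NormedAddCommGroup X] [NormedSpace ℝ X] [CompleteSpace X],
    ∀ (q γ : ℝ), 1 < q → q ≤ 2 →
    (∀ x y : X, ‖x‖ = 1 → ‖y‖ = 1 → ∀ u : ℝ, 0 < u →
        (‖x + u • y‖ + ‖x - u • y‖) / 2 - 1 ≤ γ * u ^ q) →
    ∀ D : Set X, (∀ g ∈ D, ‖g‖ = 1) → (∀ g ∈ D, -g ∈ D) →
    Dense ((Submodule.span ℝ D : Submodule ℝ X) : Set X) →
    ∀ (f : ℕ → X) (F : ℕ → X →L[ℝ] ℝ) (φ : ℕ → X) (a : ℕ → ℝ),
    (∀ m, ‖F m‖ = 1 ∧ F m (f m) = ‖f m‖) →
    (∀ m, φ m ∈ D ∧ ∀ g ∈ D, F m g ≤ F m (φ m)) →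
    (∀ m, ∀ b : ℝ, ‖f m - a m • φ m‖ ≤ ‖f m - b • φ m‖) →
    (∀ m, f (m + 1) = f m - a m • φ m) →
    Filter.Tendsto f Filter.atTop (nhds 0)) := by
  intro hall
  have hcomp : CompleteSpace (XX g) :=
    (Submodule.isClosed_topologicalClosure _).completeSpace_coe
  let gX : ℕ → XX g := fun n => ⟨g n, g_mem g n⟩
  let fX : ℕ → XX g := fun n => ⟨f n, f_mem d n⟩
  let a : ℕ → ℝ := fun n => ‖g n‖
  have ha : ∀ n, 0 < a n := d.h4
  let φ : ℕ → XX g := fun n => (a n)⁻¹ • gX n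
  have hφ : ∀ n, ‖φ n‖ = 1 := by
    intro n
    show ‖(a n)⁻¹ • gX n‖ = 1
    rw [norm_smul, norm_inv, Real.norm_eq_abs, abs_of_pos (ha n)]
    exact inv_mul_cancel₀ (ha n).ne'
  have haφ : ∀ n, a n • φ n = gX n := by
    intro n
    show a n • (a n)⁻¹ • gX n = gX n
    rw [smul_smul, mul_inv_cancel₀ (ha n).ne', one_smul]
  let D : Set (XX g) := {x | ∃ n, x = φ n ∨ x = -φ n}
  let ev : ℕ → (XX g) →L[ℝ] ℝ := fun n =>
    (z n).comp (XX g).subtypeL
  have hev : ∀ n (x : XX g), ev n x = z n (x : Z) := fun n x => rfl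
  have hevf : ∀ n, ev n (fX n) = ‖fX n‖ := by
    intro n
    rw [hev]
    exact d.hf n
  have hev1 : ∀ n, ‖ev n‖ = 1 := by
    intro n
    apply le_antisymm
    · apply ContinuousLinearMap.opNorm_le_bound _ zero_le_one
      intro x
      rw [hev, one_mul]
      calc ‖z n (x : Z)‖ ≤ ‖z n‖ * ‖(x : Z)‖ :=
            ContinuousLinearMap.le_opNorm _ _
        _ ≤ 1 * ‖(x : Z)‖ := by gcongr; exact d.hz n
        _ = ‖x‖ := by rw [one_mul]; rfl
    · have h1 : ‖ev n (fX n)‖ ≤ ‖ev n‖ * ‖fX n‖ := (ev n).le_opNorm _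
      rw [hevf n, norm_norm] at h1
      have h2 : 9 / 10 ≤ ‖fX n‖ := d.hf9 n
      by_contra hcon
      push Not at hcon
      nlinarith
  have hevg : ∀ n m, ev n (φ m) = (a m)⁻¹ * z n (g m) := by
    intro n m
    show ev n ((a m)⁻¹ • gX m) = _
    rw [map_smul, smul_eq_mul, hev]
  have hstep : ∀ n, fX (n + 1) = fX n - a n • φ n := by
    intro n
    rw [haφ n]
    apply Subtype.ext
    show f (n + 1) = f n - g n
    rw [d.hg n]; abel
  have key := hall (XX g) 2 (9 / 8) (by norm_num) le_rfl ?_ D ?_ ?_ ?_ fX ev φ a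
    (fun m => ⟨hev1 m, hevf m⟩) ?_ ?_ hstep
  · rw [Metric.tendsto_atTop] at key
    obtain ⟨N, hN⟩ := key (9 / 10) (by norm_num)
    have h1 := hN N le_rfl
    rw [dist_zero_right] at h1
    have h2 : 9 / 10 ≤ ‖fX N‖ := d.hf9 N
    linarith
  · -- smoothness
    intro x y hx hy u hu
    have h1 := d.hsm (x : Z) (y : Z) (le_of_eq hx) (le_of_eq hy) u
      hu.le
    have h2 : ‖x + u • y‖ + ‖x - u • y‖ ≤ 2 + 9 / 4 * u ^ 2 := h1
    have h3 : u ^ (2 : ℝ) = u ^ 2 := by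
      rw [← Real.rpow_natCast]; norm_num
    rw [h3]
    linarith
  · rintro g ⟨n, rfl | rfl⟩
    · exact hφ n
    · rw [norm_neg]; exact hφ n
  · rintro g ⟨n, rfl | rfl⟩
    · exact ⟨n, Or.inr rfl⟩
    · exact ⟨n, Or.inl (neg_neg _)⟩
  · -- density
    have hsub : ∀ y ∈ Submodule.span ℝ (Set.range g),
        ∃ hy : y ∈ XX g, (⟨y, hy⟩ : XX g) ∈ Submodule.span ℝ D := by
      intro y hy
      induction hy using Submodule.span_induction with
      | mem y hy =>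
        obtain ⟨n, rfl⟩ := hy
        refine ⟨g_mem g n, ?_⟩
        have : (⟨g n, g_mem g n⟩ : XX g) = a n • φ n := (haφ n).symm
        rw [this]
        exact Submodule.smul_mem _ _ (Submodule.subset_span ⟨n, Or.inl rfl⟩)
      | zero => exact ⟨Submodule.zero_mem _, Submodule.zero_mem _⟩
      | add x y _ _ hx hy =>
        obtain ⟨hx1, hx2⟩ := hx
        obtain ⟨hy1, hy2⟩ := hy
        exact ⟨Submodule.add_mem _ hx1 hy1, Submodule.add_mem _ hx2 hy2⟩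
      | smul t x _ hx =>
        obtain ⟨hx1, hx2⟩ := hx
        exact ⟨Submodule.smul_mem _ t hx1, Submodule.smul_mem _ t hx2⟩
    rw [Metric.dense_iff]
    intro x r hr
    have hx : (x : Z) ∈ closure
        (Submodule.span ℝ (Set.range g) : Set Z) := x.2
    rw [Metric.mem_closure_iff] at hx
    obtain ⟨y, hy, hxy⟩ := hx r hr
    obtain ⟨hy1, hy2⟩ := hsub y hy
    refine ⟨⟨y, hy1⟩, ?_, hy2⟩
    rw [Metric.mem_ball, dist_comm]
    exact hxy
  · -- selection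
    intro m
    refine ⟨⟨m, Or.inl rfl⟩, ?_⟩
    have hmain : ∀ n, |ev m (φ n)| ≤ ev m (φ m) := by
      intro n
      rw [hevg, hevg, abs_mul, abs_of_pos (inv_pos.mpr (ha n))]
      have h3 : |z m (g n)| * a m ≤ z m (g m) * a n := d.h3 m n
      rw [inv_mul_le_iff₀ (ha n), ← mul_assoc, mul_comm (a n), mul_assoc, le_inv_mul_iff₀ (ha m)]
      linarith
    rintro g ⟨n, rfl | rfl⟩
    · exact (le_abs_self _).trans (hmain n)
    · rw [map_neg]
      exact (neg_le_abs _).trans (hmain n)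
  · -- minimisation
    intro m b
    rw [← hstep m]
    have h0 : ev (m + 1) (φ m) = 0 := by
      rw [hevg, d.h2 m]; ring
    have h1 : ev (m + 1) (fX m - b • φ m) = ‖fX (m + 1)‖ := by
      have e1 : ev (m + 1) (fX m - b • φ m) = ev (m + 1) (fX m) - b * ev (m + 1) (φ m) := by
        rw [map_sub]
        congr 1
        exact (ev (m + 1)).map_smul b (φ m)
      have e2 : ‖fX (m + 1)‖ = ev (m + 1) (fX m) - a m * ev (m + 1) (φ m) := by
        rw [← hevf (m + 1), hstep m, map_sub]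
        congr 1
        exact (ev (m + 1)).map_smul (a m) (φ m)
      rw [e1, e2, h0]; ring
    calc ‖fX (m + 1)‖ = ev (m + 1) (fX m - b • φ m) := h1.symm
      _ ≤ ‖ev (m + 1) (fX m - b • φ m)‖ := le_abs_self _
      _ ≤ ‖ev (m + 1)‖ * ‖fX m - b • φ m‖ := (ev (m + 1)).le_opNorm _
      _ = ‖fX m - b • φ m‖ := by rw [hev1, one_mul]

end Pool.Agent.H25.Dga
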