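import Pool.Agent.H25.DgaA
import Pool.Agent.H25.DgaB

set_option autoImplicit false

open scoped InnerProductSpace

namespace Pool.Agent.H25.Dga

variable {H : Type} [NormedAddCommGroup H] [InnerProductSpace ℝ H]

/-- Residuals. -/
def fv (k F : ℕ → H) (p c : ℕ → ℝ) (n : ℕ) : H := c n • (p n • k n + F n)
/-- Steps. -/
def gv (k F : ℕ → H) (p c : ℕ → ℝ) (n : ℕ) : H := fv k F p c n - fv k F p c (n + 1)

/-- The inequalities which make the greedy algorithm run along `fv`. -/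
structure Data (k F : ℕ → H) (p c : ℕ → ℝ) : Prop where
  hk : ∀ m, ‖k m‖ ^ 2 ≤ 5 / 4
  hp0 : ∀ n, 1 ≤ p n
  hp : ∀ n, ⟪k n, F n⟫_ℝ = p n
  hpk : ∀ n m, |⟪k m, F n⟫_ℝ| ≤ p n
  hc : ∀ n, 9 / 10 ≤ c n
  h2 : ∀ n, ⟪gv k F p c n, F (n + 1)⟫_ℝ = 0
  h3 : ∀ n m, |⟪gv k F p c m, F n⟫_ℝ| * ‖brk k (gv k F p c n)‖
      ≤ ⟪gv k F p c n, F n⟫_ℝ * ‖brk k (gv k F p c m)‖
  h4 : ∀ n, 0 < ‖brk k (gv k F p c n)‖
  h5 : ∀ ε > 0, ∃ y ∈ Submodule.span ℝ (Set.range fun n => gv k F p c n),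
      ‖fv k F p c 0 - y‖ < ε

variable {k F : ℕ → H} {p c : ℕ → ℝ}

lemma sn_iota (d : Data k F p c) (n : ℕ) : ‖sn (iota d.hk (F n))‖ = p n := by
  apply le_antisymm
  · apply norm_sn_le_of (by linarith [d.hp0 n])
    intro m
    rw [fs_iota]
    exact d.hpk n m
  · have := abs_inner_le_sn (iota d.hk (F n)) n
    rw [fs_iota, d.hp n, abs_of_nonneg (by linarith [d.hp0 n])] at this
    exact this

lemma iota_sq (d : Data k F p c) (n : ℕ) :
    ‖iota d.hk (F n)‖ ^ 2 = ‖F n‖ ^ 2 + p n ^ 2 := by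
  rw [norm_sq, sn_iota d n, fs_iota]

lemma one_le_iota (d : Data k F p c) (n : ℕ) : 1 ≤ ‖iota d.hk (F n)‖ := by
  have h := iota_sq d n
  have h0 := d.hp0 n
  have h1 := norm_nonneg (iota d.hk (F n))
  nlinarith [sq_nonneg ‖F n‖]

lemma inner_f (d : Data k F p c) (n : ℕ) :
    ⟪fv k F p c n, F n⟫_ℝ = c n * ‖iota d.hk (F n)‖ ^ 2 := by
  rw [iota_sq d n]
  unfold fv
  rw [real_inner_smul_left, inner_add_left, real_inner_smul_left, d.hp n,
    real_inner_self_eq_norm_sq]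
  ring

lemma norm_f_le (d : Data k F p c) (n : ℕ) :
    ‖brk k (fv k F p c n)‖ ≤ c n * ‖iota d.hk (F n)‖ := by
  have hc := d.hc n
  apply ContinuousLinearMap.opNorm_le_bound _ (by positivity)
  intro z
  rw [brk_apply]
  have hp0 := d.hp0 n
  have e : ⟪fv k F p c n, fs z⟫_ℝ = c n * (p n * ⟪k n, fs z⟫_ℝ + ⟪F n, fs z⟫_ℝ) := by
    unfold fv
    rw [real_inner_smul_left, inner_add_left, real_inner_smul_left]
  have h1 : |⟪k n, fs z⟫_ℝ| ≤ ‖sn z‖ := abs_inner_le_sn z n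
  have h2 : |⟪F n, fs z⟫_ℝ| ≤ ‖F n‖ * ‖fs z‖ := abs_real_inner_le_norm _ _
  have h3 : |p n * ⟪k n, fs z⟫_ℝ + ⟪F n, fs z⟫_ℝ| ≤ p n * ‖sn z‖ + ‖F n‖ * ‖fs z‖ := by
    calc |p n * ⟪k n, fs z⟫_ℝ + ⟪F n, fs z⟫_ℝ|
        ≤ |p n * ⟪k n, fs z⟫_ℝ| + |⟪F n, fs z⟫_ℝ| := abs_add_le _ _
      _ ≤ p n * ‖sn z‖ + ‖F n‖ * ‖fs z‖ := by
        rw [abs_mul, abs_of_nonneg (by linarith : (0 : ℝ) ≤ p n)]
        gcongr
  have h4 : p n * ‖sn z‖ + ‖F n‖ * ‖fs z‖ ≤ ‖iota d.hk (F n)‖ * ‖z‖ := by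
    have hz := norm_sq z
    have hi := iota_sq d n
    have h5 : (p n * ‖sn z‖ + ‖F n‖ * ‖fs z‖) ^ 2 ≤ (‖iota d.hk (F n)‖ * ‖z‖) ^ 2 := by
      rw [mul_pow, hz, hi]
      nlinarith [sq_nonneg (p n * ‖fs z‖ - ‖F n‖ * ‖sn z‖)]
    exact (abs_le_of_sq_le_sq' h5 (by positivity)).2
  rw [e, norm_mul, Real.norm_eq_abs, Real.norm_eq_abs, abs_of_nonneg (by linarith : (0 : ℝ) ≤ c n)]
  rw [mul_assoc]
  gcongr
  exact h3.trans h4

/-- Unit norming vector in the predual. -/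
noncomputable def zv (d : Data k F p c) (n : ℕ) : ZZ k :=
  ‖iota d.hk (F n)‖⁻¹ • iota d.hk (F n)

lemma norm_zv (d : Data k F p c) (n : ℕ) : ‖zv d n‖ = 1 := by
  unfold zv
  have := one_le_iota d n
  rw [norm_smul, norm_inv, norm_norm, inv_mul_cancel₀ (by linarith)]

lemma brk_zv (d : Data k F p c) (x : H) (n : ℕ) :
    brk k x (zv d n) = ‖iota d.hk (F n)‖⁻¹ * ⟪x, F n⟫_ℝ := by
  unfold zv
  rw [map_smul, smul_eq_mul, brk_apply, fs_iota]

lemma f_zv (d : Data k F p c) (n : ℕ) :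
    brk k (fv k F p c n) (zv d n) = c n * ‖iota d.hk (F n)‖ := by
  have := one_le_iota d n
  rw [brk_zv, inner_f d n]
  field_simp

lemma norm_f (d : Data k F p c) (n : ℕ) :
    ‖brk k (fv k F p c n)‖ = c n * ‖iota d.hk (F n)‖ := by
  apply le_antisymm (norm_f_le d n)
  calc c n * ‖iota d.hk (F n)‖ = brk k (fv k F p c n) (zv d n) := (f_zv d n).symm
    _ ≤ ‖brk k (fv k F p c n) (zv d n)‖ := le_abs_self _
    _ ≤ ‖brk k (fv k F p c n)‖ * ‖zv d n‖ := ContinuousLinearMap.le_opNorm _ _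
    _ = ‖brk k (fv k F p c n)‖ := by rw [norm_zv, mul_one]

lemma norm_f_ge (d : Data k F p c) (n : ℕ) : 9 / 10 ≤ ‖brk k (fv k F p c n)‖ := by
  rw [norm_f d n]
  have h1 := one_le_iota d n
  have h2 := d.hc n
  nlinarith

/-- Evaluation functionals. -/
noncomputable def evz (d : Data k F p c) (n : ℕ) : (ZZ k →L[ℝ] ℝ) →L[ℝ] ℝ :=
  ContinuousLinearMap.apply ℝ ℝ (zv d n)

lemma evz_apply (d : Data k F p c) (n : ℕ) (x : ZZ k →L[ℝ] ℝ) : evz d n x = x (zv d n) := rfl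

theorem adata_of_data (d : Data k F p c) :
    AData (Z := ZZ k →L[ℝ] ℝ) (fun n => brk k (fv k F p c n)) (fun n => brk k (gv k F p c n))
      (fun n => evz d n) where
  hsm := fun x y hx hy u hu => smooth d.hk x y hx hy u hu
  hz := by
    intro n
    apply ContinuousLinearMap.opNorm_le_bound _ zero_le_one
    intro x
    rw [evz_apply d n x, one_mul]
    calc ‖x (zv d n)‖ ≤ ‖x‖ * ‖zv d n‖ := x.le_opNorm _
      _ = ‖x‖ := by rw [norm_zv d n, mul_one]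
  hf := by
    intro n
    rw [evz_apply, f_zv, norm_f d n]
  hf9 := norm_f_ge d
  hg := by
    intro n
    show brk k (gv k F p c n) = _
    unfold gv
    rw [map_sub]
  h2 := by
    intro n
    rw [evz_apply, brk_zv, d.h2 n, mul_zero]
  h3 := by
    intro n m
    rw [evz_apply, evz_apply, brk_zv, brk_zv]
    have hpos : 0 < ‖iota d.hk (F n)‖⁻¹ := by
      have := one_le_iota d n
      positivity
    rw [abs_mul, abs_of_pos hpos, mul_assoc, mul_assoc]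
    exact mul_le_mul_of_nonneg_left (d.h3 n m) hpos.le
  h4 := d.h4
  h5 := by
    rw [← SetLike.mem_coe, Submodule.topologicalClosure_coe, Metric.mem_closure_iff]
    intro ε hε
    obtain ⟨y, hy, hye⟩ := d.h5 ε hε
    refine ⟨brk k y, ?_, ?_⟩
    · have h1 : brk k y ∈ (Submodule.span ℝ (Set.range fun n => gv k F p c n)).map (brk k) :=
        Submodule.mem_map_of_mem hy
      rw [Submodule.map_span] at h1
      have h2 : (brk k) '' (Set.range fun n => gv k F p c n)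
          = Set.range fun n => brk k (gv k F p c n) := by
        rw [← Set.range_comp]; rfl
      rw [h2] at h1
      exact h1
    · rw [dist_eq_norm, ← map_sub]
      exact (norm_brk_le _).trans_lt hye

end Pool.Agent.H25.Dga
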