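import Mathlib

set_option autoImplicit false

open scoped InnerProductSpace

namespace Pool.Agent.H25.Dga

variable {H : Type} [NormedAddCommGroup H] [InnerProductSpace ℝ H]

/-- Circular arc between two consecutive vectors of the second family. -/
noncomputable def Varc (v : ℕ ⊕ ℕ → H) (j : ℕ) (t : ℝ) : H :=
  Real.cos t • v (Sum.inr j) + Real.sin t • v (Sum.inr (j + 1))

/-- Angle. -/
noncomputable def ang (n : ℕ) : ℝ := ((n : ℝ) / 2 ^ (Nat.log 2 n) - 1) * (Real.pi / 2)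

/-- Slowly rotating unit vectors. -/
noncomputable def Uv (v : ℕ ⊕ ℕ → H) (n : ℕ) : H := Varc v (Nat.log 2 n) (ang n)

variable {v : ℕ ⊕ ℕ → H}

lemma inner_v (hv : Orthonormal ℝ v) (a b : ℕ ⊕ ℕ) : ⟪v a, v b⟫_ℝ = if a = b then 1 else 0 :=
  orthonormal_iff_ite.mp hv a b

lemma inner_arc (hv : Orthonormal ℝ v) (j : ℕ) (t s : ℝ) :
    ⟪Varc v j t, Varc v j s⟫_ℝ = Real.cos (t - s) := by
  unfold Varc
  simp only [inner_add_left, inner_add_right, real_inner_smul_left, real_inner_smul_right,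
    inner_v hv]
  rw [Real.cos_sub]
  have h1 : (Sum.inr j : ℕ ⊕ ℕ) ≠ Sum.inr (j + 1) := by
    intro h; have := Sum.inr_injective h; omega
  have h2 : (Sum.inr (j + 1) : ℕ ⊕ ℕ) ≠ Sum.inr j := by
    intro h; have := Sum.inr_injective h; omega
  simp [h1, h2]
  ring

lemma inner_arc_far (hv : Orthonormal ℝ v) {j i : ℕ} (h : i + 2 ≤ j) (t s : ℝ) :
    ⟪Varc v j t, Varc v i s⟫_ℝ = 0 := by
  unfold Varc
  simp only [inner_add_left, inner_add_right, real_inner_smul_left, real_inner_smul_right,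
    inner_v hv]
  have h1 : (Sum.inr j : ℕ ⊕ ℕ) ≠ Sum.inr i := by
    intro h; have := Sum.inr_injective h; omega
  have h2 : (Sum.inr (j + 1) : ℕ ⊕ ℕ) ≠ Sum.inr i := by
    intro h; have := Sum.inr_injective h; omega
  have h3 : (Sum.inr j : ℕ ⊕ ℕ) ≠ Sum.inr (i + 1) := by
    intro h; have := Sum.inr_injective h; omega
  have h4 : (Sum.inr (j + 1) : ℕ ⊕ ℕ) ≠ Sum.inr (i + 1) := by
    intro h; have := Sum.inr_injective h; omega
  simp only [h1, h2, h3, h4, if_false]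
  ring

lemma norm_arc (hv : Orthonormal ℝ v) (j : ℕ) (t : ℝ) : ‖Varc v j t‖ = 1 := by
  have h := inner_arc hv j t t
  rw [sub_self, Real.cos_zero, real_inner_self_eq_norm_sq] at h
  have := norm_nonneg (Varc v j t)
  nlinarith

lemma norm_arc_sub (hv : Orthonormal ℝ v) (j : ℕ) (t s : ℝ) :
    ‖Varc v j t - Varc v j s‖ ≤ |t - s| := by
  have h1 : ‖Varc v j t - Varc v j s‖ ^ 2 ≤ |t - s| ^ 2 := by
    rw [norm_sub_sq_real, inner_arc hv, norm_arc hv, norm_arc hv, sq_abs]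
    have := Real.one_sub_sq_div_two_le_cos (x := t - s)
    linarith
  exact (abs_le_of_sq_le_sq' h1 (abs_nonneg _)).2

lemma arc_end (j : ℕ) : Varc v j (Real.pi / 2) = Varc v (j + 1) 0 := by
  unfold Varc
  simp

lemma U_succ {n : ℕ} (hn : 1 ≤ n) :
    Uv v (n + 1) = Varc v (Nat.log 2 n) (ang n + (Real.pi / 2) / 2 ^ (Nat.log 2 n)) := by
  set j := Nat.log 2 n with hj
  have h1 : 2 ^ j ≤ n := Nat.pow_log_le_self 2 (by omega)
  have h2 : n < 2 ^ (j + 1) := Nat.lt_pow_succ_log_self (by norm_num) n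
  by_cases h : n + 1 < 2 ^ (j + 1)
  · have hlog : Nat.log 2 (n + 1) = j :=
      (Nat.log_eq_iff (Or.inr ⟨by norm_num, by omega⟩)).mpr ⟨by omega, h⟩
    have e : ang (n + 1) = ang n + (Real.pi / 2) / 2 ^ j := by
      unfold ang
      rw [hlog, ← hj]
      push_cast
      field_simp
      ring
    unfold Uv
    rw [hlog, e]
  · have hn1 : n + 1 = 2 ^ (j + 1) := by omega
    have hlog : Nat.log 2 (n + 1) = j + 1 := by
      rw [hn1]; exact Nat.log_pow (by norm_num) _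
    have e1 : ang (n + 1) = 0 := by
      unfold ang
      rw [hlog, hn1]
      push_cast
      field_simp
      ring
    have e2 : ang n + (Real.pi / 2) / 2 ^ j = Real.pi / 2 := by
      unfold ang
      rw [← hj]
      have hc : (n : ℝ) = 2 ^ (j + 1) - 1 := by
        have : ((n + 1 : ℕ) : ℝ) = ((2 ^ (j + 1) : ℕ) : ℝ) := by rw [hn1]
        push_cast at this
        linarith
      rw [hc, pow_succ]
      field_simp
      ring
    unfold Uv
    rw [hlog, e1, e2, arc_end]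

lemma norm_U (hv : Orthonormal ℝ v) (n : ℕ) : ‖Uv v n‖ = 1 := norm_arc hv _ _

lemma norm_U_sub (hv : Orthonormal ℝ v) {n : ℕ} (hn : 1 ≤ n) :
    ‖Uv v n - Uv v (n + 1)‖ ≤ (Real.pi / 2) / 2 ^ (Nat.log 2 n) := by
  rw [U_succ hn]
  unfold Uv
  refine (norm_arc_sub hv _ _ _).trans ?_
  rw [sub_add_cancel_left, abs_neg, abs_of_nonneg (by positivity)]

lemma inv_pow_log {n : ℕ} (hn : 1 ≤ n) : 1 / (2 : ℝ) ^ (Nat.log 2 n) ≤ 2 / n := by
  have h2 : n < 2 ^ (Nat.log 2 n + 1) := Nat.lt_pow_succ_log_self (by norm_num) n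
  have h3 : (n : ℝ) < 2 ^ (Nat.log 2 n + 1) := by exact_mod_cast h2
  have h4 : (0 : ℝ) < n := by exact_mod_cast hn
  rw [div_le_div_iff₀ (by positivity) h4]
  rw [pow_succ] at h3
  linarith

lemma pi_lt_four : Real.pi < 4 := by
  have := Real.pi_lt_d2
  linarith

lemma norm_U_sub' (hv : Orthonormal ℝ v) {n : ℕ} (hn : 1 ≤ n) :
    ‖Uv v n - Uv v (n + 1)‖ ≤ 4 / n := by
  refine (norm_U_sub hv hn).trans ?_
  have h1 := inv_pow_log hn
  have h2 := pi_lt_four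
  have h3 : 0 < 1 / (2 : ℝ) ^ (Nat.log 2 n) := by positivity
  have h4 : (0 : ℝ) < Real.pi := Real.pi_pos
  calc (Real.pi / 2) / 2 ^ (Nat.log 2 n) = (Real.pi / 2) * (1 / 2 ^ (Nat.log 2 n)) := by ring
    _ ≤ 2 * (1 / 2 ^ (Nat.log 2 n)) := by
      apply mul_le_mul_of_nonneg_right _ h3.le
      linarith
    _ ≤ 2 * (2 / n) := by linarith
    _ = 4 / n := by ring

lemma inner_U_le (hv : Orthonormal ℝ v) (n m : ℕ) : |⟪Uv v n, Uv v m⟫_ℝ| ≤ 1 := by
  have := abs_real_inner_le_norm (Uv v n) (Uv v m)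
  rw [norm_U hv, norm_U hv] at this
  linarith

lemma inner_U_succ (hv : Orthonormal ℝ v) {n : ℕ} (hn : 1 ≤ n) :
    1 - ⟪Uv v n, Uv v (n + 1)⟫_ℝ ≤ 8 / (n : ℝ) ^ 2 := by
  have h1 := norm_U_sub' hv hn
  have h2 : ‖Uv v n - Uv v (n + 1)‖ ^ 2 ≤ (4 / n) ^ 2 := by gcongr
  rw [norm_sub_sq_real, norm_U hv, norm_U hv, div_pow] at h2
  have : (4 : ℝ) ^ 2 / (n : ℝ) ^ 2 = 2 * (8 / (n : ℝ) ^ 2) := by ring
  rw [this] at h2
  linarith

lemma inner_U_far (hv : Orthonormal ℝ v) {n k : ℕ} (hk : 1 ≤ k) (h : 4 * k ≤ n) :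
    ⟪Uv v n, Uv v k⟫_ℝ = 0 := by
  apply inner_arc_far hv
  have h1 : Nat.log 2 (k * 2 * 2) ≤ Nat.log 2 n := Nat.log_mono_right (by omega)
  rw [Nat.log_mul_base (by norm_num) (by omega), Nat.log_mul_base (by norm_num) (by omega)] at h1
  omega

lemma inner_U_diff (hv : Orthonormal ℝ v) {n k : ℕ} (hn : 1 ≤ n) (hk : 1 ≤ k) :
    |⟪Uv v n, Uv v k⟫_ℝ - ⟪Uv v n, Uv v (k + 1)⟫_ℝ| ≤ 8 / n := by
  rw [← inner_sub_right]
  by_cases h : Nat.log 2 k + 2 ≤ Nat.log 2 n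
  · have h1 : ⟪Uv v n, Uv v k⟫_ℝ = 0 := inner_arc_far hv h _ _
    have h2 : ⟪Uv v n, Uv v (k + 1)⟫_ℝ = 0 := by
      rw [U_succ hk]
      exact inner_arc_far hv h _ _
    rw [inner_sub_right, h1, h2]
    simp
    positivity
  · push Not at h
    have h1 : |⟪Uv v n, Uv v k - Uv v (k + 1)⟫_ℝ| ≤ ‖Uv v k - Uv v (k + 1)‖ := by
      have := abs_real_inner_le_norm (Uv v n) (Uv v k - Uv v (k + 1))
      rw [norm_U hv] at this
      linarith
    refine h1.trans ((norm_U_sub hv hk).trans ?_)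
    have h2 : (2 : ℝ) ^ (Nat.log 2 n) ≤ 2 * 2 ^ (Nat.log 2 k) := by
      have : (2 : ℝ) ^ (Nat.log 2 n) ≤ 2 ^ (Nat.log 2 k + 1) :=
        pow_le_pow_right₀ (by norm_num) (by omega)
      rw [pow_succ] at this
      linarith
    have h3 : 1 / (2 : ℝ) ^ (Nat.log 2 k) ≤ 2 * (1 / 2 ^ (Nat.log 2 n)) := by
      rw [mul_one_div, div_le_div_iff₀ (by positivity) (by positivity)]
      linarith
    have h4 := inv_pow_log hn
    have h5 := pi_lt_four
    have h6 : 0 < 1 / (2 : ℝ) ^ (Nat.log 2 k) := by positivity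
    calc (Real.pi / 2) / 2 ^ (Nat.log 2 k) = (Real.pi / 2) * (1 / 2 ^ (Nat.log 2 k)) := by ring
      _ ≤ 2 * (1 / 2 ^ (Nat.log 2 k)) := by
        apply mul_le_mul_of_nonneg_right _ h6.le
        linarith
      _ ≤ 2 * (2 * (1 / 2 ^ (Nat.log 2 n))) := by linarith
      _ ≤ 2 * (2 * (2 / n)) := by linarith
      _ = 8 / n := by ring

lemma inner_U_e (hv : Orthonormal ℝ v) (n i : ℕ) : ⟪Uv v n, v (Sum.inl i)⟫_ℝ = 0 := by
  unfold Uv Varc
  rw [inner_add_left, real_inner_smul_left, real_inner_smul_left, inner_v hv, inner_v hv]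
  simp

lemma inner_e_U (hv : Orthonormal ℝ v) (n i : ℕ) : ⟪v (Sum.inl i), Uv v n⟫_ℝ = 0 := by
  rw [real_inner_comm]; exact inner_U_e hv n i

end Pool.Agent.H25.Dga
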