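import Pool.Agent.H25.DgaC
import Pool.Agent.H25.DgaD

set_option autoImplicit false

open scoped InnerProductSpace

namespace Pool.Agent.H25.Dga

variable {H : Type} [NormedAddCommGroup H] [InnerProductSpace ℝ H]

/-- Shifted index. -/
def Nn (m : ℕ) : ℕ := m + 10 ^ 10

/-- Small amplitudes. -/
noncomputable def sg (m : ℕ) : ℝ := 1000 / ((m : ℝ) + 10 ^ 10)

lemma sg_eq (m : ℕ) : sg m = 1000 / (Nn m : ℝ) := by
  unfold sg Nn; push_cast; norm_num

lemma sg_pos (m : ℕ) : 0 < sg m := by unfold sg; positivity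

lemma sg_le (m : ℕ) : sg m ≤ 1 / 10 ^ 7 := by
  unfold sg
  rw [div_le_div_iff₀ (by positivity) (by positivity)]
  have : (0 : ℝ) ≤ m := Nat.cast_nonneg m
  linarith

lemma sg_diff (m : ℕ) : sg m - sg (m + 1) = sg m * sg (m + 1) / 1000 := by
  unfold sg
  have h : (0 : ℝ) ≤ m := Nat.cast_nonneg m
  have h1 : (m : ℝ) + 10 ^ 10 ≠ 0 := by positivity
  push_cast
  have h2 : (m : ℝ) + 1 + 10 ^ 10 ≠ 0 := by positivity
  field_simp
  ring

lemma sg_anti (m : ℕ) : sg (m + 1) ≤ sg m := by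
  have h := sg_diff m
  have h1 := sg_pos m
  have h2 := sg_pos (m + 1)
  have : 0 ≤ sg m * sg (m + 1) / 1000 := by positivity
  linarith

/-- Vector attached to three consecutive basis vectors. -/
noncomputable def Ev (v : ℕ ⊕ ℕ → H) (m : ℕ) : H :=
  v (Sum.inl (m + 2)) + v (Sum.inl (m + 1)) + (1 / 2 : ℝ) • v (Sum.inl m)

/-- Functionals. -/
noncomputable def Fm (v : ℕ ⊕ ℕ → H) (m : ℕ) : H := Uv v (Nn m) + sg m • Ev v m

/-- Points of the convex set. -/
noncomputable def km (v : ℕ ⊕ ℕ → H) (m : ℕ) : H :=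
  Uv v (Nn m) + (1 / 2 : ℝ) • v (Sum.inl (m + 2))

/-- Value of the functional at its point. -/
noncomputable def pm (m : ℕ) : ℝ := 1 + sg m / 2

/-- Weights. -/
noncomputable def ww (n m : ℕ) : ℝ :=
  if n = m then 1 else if n = m + 1 then 1 else if n = m + 2 then 1 / 2 else 0

lemma ww_nonneg (n m : ℕ) : 0 ≤ ww n m := by
  unfold ww; split_ifs <;> norm_num

lemma ww_le (n m : ℕ) : ww n m ≤ 1 := by
  unfold ww; split_ifs <;> norm_num

variable {v : ℕ ⊕ ℕ → H}

lemma inner_inl (hv : Orthonormal ℝ v) (a b : ℕ) :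
    ⟪v (Sum.inl a), v (Sum.inl b)⟫_ℝ = if a = b then 1 else 0 := by
  rw [inner_v hv]
  by_cases h : a = b
  · simp [h]
  · simp [h]

lemma inner_E_e (hv : Orthonormal ℝ v) (n m : ℕ) :
    ⟪Ev v n, v (Sum.inl (m + 2))⟫_ℝ = ww n m := by
  unfold Ev ww
  rw [inner_add_left, inner_add_left, real_inner_smul_left, inner_inl hv, inner_inl hv,
    inner_inl hv]
  by_cases h1 : n = m
  · subst h1; simp
  · by_cases h2 : n = m + 1
    · subst h2
      simp
    · by_cases h3 : n = m + 2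
      · subst h3
        simp
      · have a3 : n ≠ m + 2 := h3
        simp [a3, h1, h2]

lemma norm_E_sq (hv : Orthonormal ℝ v) (n : ℕ) : ‖Ev v n‖ ^ 2 = 9 / 4 := by
  rw [← real_inner_self_eq_norm_sq]
  unfold Ev
  simp only [inner_add_left, inner_add_right, real_inner_smul_left, real_inner_smul_right,
    inner_inl hv]
  simp
  norm_num

lemma norm_E (hv : Orthonormal ℝ v) (n : ℕ) : ‖Ev v n‖ = 3 / 2 := by
  have h := norm_E_sq hv n
  have h1 := norm_nonneg (Ev v n)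
  nlinarith

lemma inner_E_E (hv : Orthonormal ℝ v) (n m : ℕ) : |⟪Ev v n, Ev v m⟫_ℝ| ≤ 9 / 4 := by
  have := abs_real_inner_le_norm (Ev v n) (Ev v m)
  rw [norm_E hv, norm_E hv] at this
  linarith

lemma inner_U_E (hv : Orthonormal ℝ v) (n m : ℕ) : ⟪Uv v n, Ev v m⟫_ℝ = 0 := by
  unfold Ev
  rw [inner_add_right, inner_add_right, real_inner_smul_right, inner_U_e hv, inner_U_e hv,
    inner_U_e hv]
  ring

lemma inner_E_U (hv : Orthonormal ℝ v) (n m : ℕ) : ⟪Ev v m, Uv v n⟫_ℝ = 0 := by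
  rw [real_inner_comm]; exact inner_U_E hv n m

/-- Inner products of the rotating vectors. -/
noncomputable def uu (v : ℕ ⊕ ℕ → H) (n m : ℕ) : ℝ := ⟪Uv v (Nn n), Uv v (Nn m)⟫_ℝ

lemma inner_k_F (hv : Orthonormal ℝ v) (n m : ℕ) :
    ⟪km v m, Fm v n⟫_ℝ = uu v n m + 1 / 2 * sg n * ww n m := by
  unfold km Fm uu
  rw [inner_add_left, inner_add_right, inner_add_right, real_inner_smul_left,
    real_inner_smul_right, real_inner_smul_right, real_inner_smul_left, inner_U_E hv, inner_e_U hv,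
    real_inner_comm (Ev v n) (v (Sum.inl (m + 2))), inner_E_e hv,
    real_inner_comm (Uv v (Nn n)) (Uv v (Nn m))]
  ring

lemma inner_F_F (hv : Orthonormal ℝ v) (n m : ℕ) :
    ⟪Fm v m, Fm v n⟫_ℝ = uu v n m + sg n * sg m * ⟪Ev v n, Ev v m⟫_ℝ := by
  unfold Fm uu
  rw [inner_add_left, inner_add_right, inner_add_right, real_inner_smul_left,
    real_inner_smul_right, real_inner_smul_right, real_inner_smul_left, inner_U_E hv, inner_E_U hv,
    real_inner_comm (Ev v n) (Ev v m),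
    real_inner_comm (Uv v (Nn n)) (Uv v (Nn m))]
  ring

lemma uu_self (hv : Orthonormal ℝ v) (n : ℕ) : uu v n n = 1 := by
  unfold uu
  rw [real_inner_self_eq_norm_sq, norm_U hv]; norm_num

lemma uu_le (hv : Orthonormal ℝ v) (n m : ℕ) : |uu v n m| ≤ 1 := inner_U_le hv _ _

lemma one_le_Nn (m : ℕ) : 1 ≤ Nn m := by unfold Nn; omega

lemma uu_succ (hv : Orthonormal ℝ v) (m : ℕ) : 1 - uu v (m + 1) m ≤ 8 / 10 ^ 6 * sg m ^ 2 := by
  have h := inner_U_succ hv (one_le_Nn m)
  unfold uu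
  rw [real_inner_comm]
  have e : Nn (m + 1) = Nn m + 1 := by unfold Nn; omega
  rw [e, sg_eq]
  refine h.trans (le_of_eq ?_)
  have : (Nn m : ℝ) ≠ 0 := by
    have := one_le_Nn m
    positivity
  field_simp
  norm_num

lemma uu_diff (hv : Orthonormal ℝ v) (n m : ℕ) :
    |uu v n m - uu v n (m + 1)| ≤ 8 / 1000 * sg n := by
  have h := inner_U_diff hv (one_le_Nn n) (one_le_Nn m)
  unfold uu
  have e : Nn (m + 1) = Nn m + 1 := by unfold Nn; omega
  rw [e, sg_eq]
  refine h.trans (le_of_eq ?_)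
  have : (Nn n : ℝ) ≠ 0 := by
    have := one_le_Nn n
    positivity
  field_simp

lemma uu_far (hv : Orthonormal ℝ v) {n m : ℕ} (h : 4 * Nn m ≤ Nn n) : uu v n m = 0 :=
  inner_U_far hv (one_le_Nn m) h

/-- Inner products of unnormalised residuals with functionals. -/
noncomputable def qq (v : ℕ ⊕ ℕ → H) (n m : ℕ) : ℝ := ⟪pm m • km v m + Fm v m, Fm v n⟫_ℝ

lemma qq_eq (hv : Orthonormal ℝ v) (n m : ℕ) :
    qq v n m = (pm m + 1) * uu v n m + 1 / 2 * pm m * sg n * ww n m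
      + sg n * sg m * ⟪Ev v n, Ev v m⟫_ℝ := by
  unfold qq
  rw [inner_add_left, real_inner_smul_left, inner_k_F hv, inner_F_F hv]
  ring

lemma qq_self (hv : Orthonormal ℝ v) (n : ℕ) : 2 ≤ qq v n n := by
  rw [qq_eq hv, uu_self hv, real_inner_self_eq_norm_sq]
  have h1 := sg_pos n
  have h2 : 0 ≤ ww n n := ww_nonneg n n
  have h3 : 0 < pm n := by unfold pm; positivity
  have h4 : 0 ≤ 1 / 2 * pm n * sg n * ww n n := by positivity
  have h5 : 0 ≤ sg n * sg n * ‖Ev v n‖ ^ 2 := by positivity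
  have h6 : pm n = 1 + sg n / 2 := rfl
  linarith

/-- Normalising factors. -/
noncomputable def cm (v : ℕ ⊕ ℕ → H) : ℕ → ℝ
  | 0 => 1
  | m + 1 => cm v m * qq v (m + 1) m / qq v (m + 1) (m + 1)

lemma cm_succ (hv : Orthonormal ℝ v) (m : ℕ) :
    cm v (m + 1) * qq v (m + 1) (m + 1) = cm v m * qq v (m + 1) m := by
  have h := qq_self hv (m + 1)
  show cm v m * qq v (m + 1) m / qq v (m + 1) (m + 1) * qq v (m + 1) (m + 1) = _
  rw [div_mul_cancel₀]
  linarith

lemma qq_diff (hv : Orthonormal ℝ v) (m : ℕ) :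
    |qq v (m + 1) m - qq v (m + 1) (m + 1)| ≤ 47 / 10 * (sg m * sg (m + 1)) := by
  rw [qq_eq hv, qq_eq hv, uu_self hv]
  have w1 : ww (m + 1) m = 1 := by unfold ww; simp
  have w2 : ww (m + 1) (m + 1) = 1 := by unfold ww; simp
  rw [w1, w2]
  set a := sg m with ha
  set b := sg (m + 1) with hb
  have ha0 : 0 < a := sg_pos m
  have hb0 : 0 < b := sg_pos (m + 1)
  have ha1 : a ≤ 1 / 10 ^ 7 := sg_le m
  have hb1 : b ≤ 1 / 10 ^ 7 := sg_le (m + 1)
  have hab : a - b = a * b / 1000 := sg_diff m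
  have hba : b ≤ a := sg_anti m
  have hu := uu_succ hv m
  have hu1 := (abs_le.mp (uu_le hv (m + 1) m)).2
  set u := uu v (m + 1) m with hudef
  have hE1 := abs_le.mp (inner_E_E hv (m + 1) m)
  have hE2 := abs_le.mp (inner_E_E hv (m + 1) (m + 1))
  set W := ⟪Ev v (m + 1), Ev v m⟫_ℝ with hW
  set W' := ⟪Ev v (m + 1), Ev v (m + 1)⟫_ℝ with hW'
  have hp : pm m = 1 + a / 2 := rfl
  have hp' : pm (m + 1) = 1 + b / 2 := rfl
  rw [hp, hp']
  have hab0 : 0 < a * b := mul_pos ha0 hb0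
  have hbb : b * b ≤ a * b := by nlinarith
  have haa : a * a ≤ 11 / 10 * (a * b) := by
    have : a = b + a * b / 1000 := by linarith
    nlinarith
  have t1 : |a * b * W| ≤ 9 / 4 * (a * b) := by
    rw [abs_mul, abs_of_pos hab0]
    have := inner_E_E hv (m + 1) m
    nlinarith [abs_nonneg W]
  have t2 : |b * b * W'| ≤ 9 / 4 * (a * b) := by
    rw [abs_mul, abs_of_pos (mul_pos hb0 hb0)]
    have := inner_E_E hv (m + 1) (m + 1)
    have h0 := abs_nonneg W'
    calc b * b * |W'| ≤ b * b * (9 / 4) := by gcongr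
      _ ≤ a * b * (9 / 4) := by gcongr
      _ = 9 / 4 * (a * b) := by ring
  have t3 : |(2 + a / 2) * u - (2 + b / 2)| ≤ 1 / 10 * (a * b) := by
    have e : (2 + a / 2) * u - (2 + b / 2) = a * b / 2000 - (2 + a / 2) * (1 - u) := by
      have : a / 2 - b / 2 = a * b / 2000 := by linarith
      linear_combination this
    rw [e]
    have h1 : 0 ≤ 1 - u := by linarith
    have h2 : (2 + a / 2) * (1 - u) ≤ 3 * (8 / 10 ^ 6 * a ^ 2) := by
      apply mul_le_mul _ hu h1 (by norm_num)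
      linarith
    have h3 : 0 ≤ (2 + a / 2) * (1 - u) := by positivity
    rw [abs_le]
    constructor <;> nlinarith
  have t4 : |1 / 2 * (1 + a / 2) * b * 1 - 1 / 2 * (1 + b / 2) * b * 1| ≤ 1 / 100 * (a * b) := by
    have e : 1 / 2 * (1 + a / 2) * b * 1 - 1 / 2 * (1 + b / 2) * b * 1
        = a * b * b / 4000 := by
      have : a - b = a * b / 1000 := hab
      linear_combination (b / 4) * this
    rw [e, abs_of_pos (by positivity)]
    have : a * b * b ≤ a * b * 1 := by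
      apply mul_le_mul_of_nonneg_left _ hab0.le
      linarith
    linarith
  have t5 : b * a * W = a * b * W := by ring
  have s1 := abs_le.mp t1
  have s2 := abs_le.mp t2
  have s3 := abs_le.mp t3
  have s4 := abs_le.mp t4
  rw [abs_le]
  constructor <;> nlinarith

lemma cm_bound (hv : Orthonormal ℝ v) (m : ℕ) :
    |cm v m - 1| ≤ 24 * 10 ^ 5 * (1 / 10 ^ 10 - 1 / ((m : ℝ) + 10 ^ 10)) := by
  induction m with
  | zero => simp [cm]
  | succ m ih =>
    have hm : (0 : ℝ) ≤ m := Nat.cast_nonneg m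
    have hb : 24 * 10 ^ 5 * (1 / 10 ^ 10 - 1 / ((m : ℝ) + 10 ^ 10)) ≤ 1 / 1000 := by
      have : (0 : ℝ) ≤ 1 / ((m : ℝ) + 10 ^ 10) := by positivity
      nlinarith
    have hc := abs_le.mp (ih.trans hb)
    have hq := qq_self hv (m + 1)
    have hd := qq_diff hv m
    have hs1 := sg_pos m
    have hs2 := sg_pos (m + 1)
    have e : cm v (m + 1) - cm v m
        = cm v m * (qq v (m + 1) m - qq v (m + 1) (m + 1)) / qq v (m + 1) (m + 1) := by
      show cm v m * qq v (m + 1) m / qq v (m + 1) (m + 1) - cm v m = _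
      have : qq v (m + 1) (m + 1) ≠ 0 := by linarith
      field_simp
    have h1 : |cm v (m + 1) - cm v m| ≤ 24 / 10 * (sg m * sg (m + 1)) := by
      rw [e, abs_div, abs_mul, abs_of_pos (by linarith : 0 < qq v (m + 1) (m + 1)),
        div_le_iff₀ (by linarith)]
      have h2 : |cm v m| ≤ 1001 / 1000 := by
        rw [abs_le]; constructor <;> linarith
      have h3 : 0 < sg m * sg (m + 1) := mul_pos hs1 hs2
      calc |cm v m| * |qq v (m + 1) m - qq v (m + 1) (m + 1)|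
          ≤ 1001 / 1000 * (47 / 10 * (sg m * sg (m + 1))) := by gcongr
        _ ≤ 24 / 10 * (sg m * sg (m + 1)) * 2 := by nlinarith
        _ ≤ 24 / 10 * (sg m * sg (m + 1)) * qq v (m + 1) (m + 1) := by gcongr
    have h4 : sg m * sg (m + 1) = 10 ^ 6 * (1 / ((m : ℝ) + 10 ^ 10)
        - 1 / (((m + 1 : ℕ) : ℝ) + 10 ^ 10)) := by
      unfold sg
      push_cast
      have a1 : (m : ℝ) + 10 ^ 10 ≠ 0 := by positivity
      have a2 : (m : ℝ) + 1 + 10 ^ 10 ≠ 0 := by positivity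
      field_simp
      ring
    rw [h4] at h1
    calc |cm v (m + 1) - 1| ≤ |cm v (m + 1) - cm v m| + |cm v m - 1| := by
          have := abs_add_le (cm v (m + 1) - cm v m) (cm v m - 1)
          simpa using this
      _ ≤ _ := by linarith

lemma cm_close (hv : Orthonormal ℝ v) (m : ℕ) : |cm v m - 1| ≤ 1 / 1000 := by
  have h := cm_bound hv m
  have hm : (0 : ℝ) ≤ m := Nat.cast_nonneg m
  have : (0 : ℝ) ≤ 1 / ((m : ℝ) + 10 ^ 10) := by positivity
  nlinarith

lemma cm_step (hv : Orthonormal ℝ v) (m : ℕ) :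
    |cm v (m + 1) - cm v m| ≤ 24 / 10 * (sg m * sg (m + 1)) := by
  have hc := abs_le.mp (cm_close hv m)
  have hq := qq_self hv (m + 1)
  have hd := qq_diff hv m
  have hs1 := sg_pos m
  have hs2 := sg_pos (m + 1)
  have e : cm v (m + 1) - cm v m
      = cm v m * (qq v (m + 1) m - qq v (m + 1) (m + 1)) / qq v (m + 1) (m + 1) := by
    show cm v m * qq v (m + 1) m / qq v (m + 1) (m + 1) - cm v m = _
    have : qq v (m + 1) (m + 1) ≠ 0 := by linarith
    field_simp
  rw [e, abs_div, abs_mul, abs_of_pos (by linarith : 0 < qq v (m + 1) (m + 1)),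
    div_le_iff₀ (by linarith)]
  have h2 : |cm v m| ≤ 1001 / 1000 := by
    rw [abs_le]; constructor <;> linarith
  have h3 : 0 < sg m * sg (m + 1) := mul_pos hs1 hs2
  calc |cm v m| * |qq v (m + 1) m - qq v (m + 1) (m + 1)|
      ≤ 1001 / 1000 * (47 / 10 * (sg m * sg (m + 1))) := by gcongr
    _ ≤ 24 / 10 * (sg m * sg (m + 1)) * 2 := by nlinarith
    _ ≤ 24 / 10 * (sg m * sg (m + 1)) * qq v (m + 1) (m + 1) := by gcongr

end Pool.Agent.H25.Dga
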