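import Pool.Agent.H25.DgaE

set_option autoImplicit false

open scoped InnerProductSpace

namespace Pool.Agent.H25.Dga

variable {H : Type} [NormedAddCommGroup H] [InnerProductSpace ℝ H]
variable {v : ℕ ⊕ ℕ → H}

/-- Residuals of the example. -/
noncomputable abbrev fx (v : ℕ ⊕ ℕ → H) : ℕ → H := fv (km v) (Fm v) pm (cm v)
/-- Steps of the example. -/
noncomputable abbrev gx (v : ℕ ⊕ ℕ → H) : ℕ → H := gv (km v) (Fm v) pm (cm v)

lemma inner_fx (n m : ℕ) : ⟪fx v m, Fm v n⟫_ℝ = cm v m * qq v n m := by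
  unfold qq
  show ⟪cm v m • (pm m • km v m + Fm v m), Fm v n⟫_ℝ = _
  rw [real_inner_smul_left]

/-- Inner products of steps with functionals. -/
noncomputable def DD (v : ℕ ⊕ ℕ → H) (n m : ℕ) : ℝ := ⟪gx v m, Fm v n⟫_ℝ

lemma DD_eq (n m : ℕ) : DD v n m = cm v m * qq v n m - cm v (m + 1) * qq v n (m + 1) := by
  unfold DD
  show ⟪fx v m - fx v (m + 1), Fm v n⟫_ℝ = _
  rw [inner_sub_left, inner_fx, inner_fx]

lemma DD_succ (hv : Orthonormal ℝ v) (n : ℕ) : DD v (n + 1) n = 0 := by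
  rw [DD_eq, cm_succ hv]; ring

/-- Decomposition of the inner products. -/
lemma DD_split (hv : Orthonormal ℝ v) (n m : ℕ) :
    |DD v n m - 1 / 2 * sg n * (ww n m - ww n (m + 1))| ≤ 2 / 100 * sg n := by
  rw [DD_eq, qq_eq hv, qq_eq hv]
  set c := cm v m with hc
  set c' := cm v (m + 1) with hc'
  set s := sg n with hs
  set a := sg m with ha
  set b := sg (m + 1) with hb
  set u := uu v n m with hu
  set u' := uu v n (m + 1) with hu'
  set w := ww n m with hw
  set w' := ww n (m + 1) with hw'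
  set W := ⟪Ev v n, Ev v m⟫_ℝ with hW
  set W' := ⟪Ev v n, Ev v (m + 1)⟫_ℝ with hW'
  have hp : pm m = 1 + a / 2 := rfl
  have hp' : pm (m + 1) = 1 + b / 2 := rfl
  rw [hp, hp']
  have s0 : 0 < s := sg_pos n
  have a0 : 0 < a := sg_pos m
  have b0 : 0 < b := sg_pos (m + 1)
  have a1 : a ≤ 1 / 10 ^ 7 := sg_le m
  have b1 : b ≤ 1 / 10 ^ 7 := sg_le (m + 1)
  have hc1 := abs_le.mp (cm_close hv m)
  have hc2 := abs_le.mp (cm_close hv (m + 1))
  have hcs := cm_step hv m
  have hud := abs_le.mp (uu_diff hv n m)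
  have hu1 := uu_le hv n m
  have hu2 := uu_le hv n (m + 1)
  have hw0 : 0 ≤ w := ww_nonneg n m
  have hw1 : w ≤ 1 := ww_le n m
  have hw0' : 0 ≤ w' := ww_nonneg n (m + 1)
  have hw1' : w' ≤ 1 := ww_le n (m + 1)
  have hWb := inner_E_E hv n m
  have hWb' := inner_E_E hv n (m + 1)
  have hab : a - b = a * b / 1000 := sg_diff m
  have hab0 : 0 < a * b := mul_pos a0 b0
  -- first part
  have T1 : |c * (2 + a / 2) * u - c' * (2 + b / 2) * u'| ≤ 17 / 1000 * s := by
    have e : c * (2 + a / 2) * u - c' * (2 + b / 2) * u'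
        = c * (2 + a / 2) * (u - u') + (c * (2 + a / 2) - c' * (2 + b / 2)) * u' := by ring
    have e1 : |c * (2 + a / 2) * (u - u')| ≤ 202 / 100 * (8 / 1000 * s) := by
      rw [abs_mul]
      have x1 : |c * (2 + a / 2)| ≤ 202 / 100 := by
        rw [abs_le]; constructor <;> nlinarith
      have x2 : |u - u'| ≤ 8 / 1000 * s := abs_le.mpr hud
      gcongr
    have e2 : |(c * (2 + a / 2) - c' * (2 + b / 2)) * u'| ≤ 1 / 10000 * s := by
      by_cases hfar : 4 * Nn (m + 1) ≤ Nn n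
      · have : u' = 0 := uu_far hv hfar
        rw [this, mul_zero, abs_zero]
        positivity
      · push Not at hfar
        have hb4 : b ≤ 4 * s := by
          rw [hb, hs, sg_eq, sg_eq]
          have h1 : (Nn n : ℝ) < 4 * Nn (m + 1) := by exact_mod_cast hfar
          have h2 : (0 : ℝ) < Nn n := Nat.cast_pos.mpr (one_le_Nn n)
          have h3 : (0 : ℝ) < Nn (m + 1) := Nat.cast_pos.mpr (one_le_Nn (m + 1))
          rw [← mul_div_assoc, div_le_div_iff₀ h3 h2]
          linarith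
        have hr : |c * (2 + a / 2) - c' * (2 + b / 2)| ≤ 6 * (a * b) := by
          have e3 : c * (2 + a / 2) - c' * (2 + b / 2)
              = -(c' - c) * (2 + a / 2) + c' * (a * b / 2000) := by
            have : a / 2 - b / 2 = a * b / 2000 := by linarith
            linear_combination c' * this
          rw [e3]
          have y1 : |-(c' - c) * (2 + a / 2)| ≤ 24 / 10 * (a * b) * (21 / 10) := by
            rw [abs_mul, abs_neg]
            have : |2 + a / 2| ≤ 21 / 10 := by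
              rw [abs_le]; constructor <;> linarith
            gcongr
          have y2 : |c' * (a * b / 2000)| ≤ 2 * (a * b / 2000) := by
            rw [abs_mul, abs_of_pos (by positivity : 0 < a * b / 2000)]
            have : |c'| ≤ 2 := by rw [abs_le]; constructor <;> linarith
            gcongr
          calc |-(c' - c) * (2 + a / 2) + c' * (a * b / 2000)|
              ≤ |-(c' - c) * (2 + a / 2)| + |c' * (a * b / 2000)| := abs_add_le _ _
            _ ≤ 6 * (a * b) := by linarith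
        rw [abs_mul]
        calc |c * (2 + a / 2) - c' * (2 + b / 2)| * |u'| ≤ 6 * (a * b) * 1 :=
              mul_le_mul hr hu2 (abs_nonneg _) (by positivity)
          _ ≤ 6 * (1 / 10 ^ 7 * (4 * s)) * 1 := by gcongr
          _ ≤ 1 / 10000 * s := by linarith
    rw [e]
    calc |c * (2 + a / 2) * (u - u') + (c * (2 + a / 2) - c' * (2 + b / 2)) * u'|
        ≤ |c * (2 + a / 2) * (u - u')| + |(c * (2 + a / 2) - c' * (2 + b / 2)) * u'| :=
          abs_add_le _ _
      _ ≤ 17 / 1000 * s := by linarith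
  -- second part
  have T2 : |(c * (1 + a / 2) - 1) * w - (c' * (1 + b / 2) - 1) * w'| ≤ 21 / 10000 := by
    have x1 : |c * (1 + a / 2) - 1| ≤ 105 / 100000 := by
      rw [abs_le]; constructor <;> nlinarith
    have x2 : |c' * (1 + b / 2) - 1| ≤ 105 / 100000 := by
      rw [abs_le]; constructor <;> nlinarith
    have y1 : |(c * (1 + a / 2) - 1) * w| ≤ 105 / 100000 * 1 := by
      rw [abs_mul, abs_of_nonneg hw0]; gcongr
    have y2 : |(c' * (1 + b / 2) - 1) * w'| ≤ 105 / 100000 * 1 := by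
      rw [abs_mul, abs_of_nonneg hw0']; gcongr
    calc |(c * (1 + a / 2) - 1) * w - (c' * (1 + b / 2) - 1) * w'|
        ≤ |(c * (1 + a / 2) - 1) * w| + |(c' * (1 + b / 2) - 1) * w'| := abs_sub _ _
      _ ≤ 21 / 10000 := by linarith
  -- third part
  have T3 : |c * (a * W) - c' * (b * W')| ≤ 1 / 10000 := by
    have x1 : |c * (a * W)| ≤ 2 * (1 / 10 ^ 7 * (9 / 4)) := by
      rw [abs_mul, abs_mul, abs_of_pos a0]
      have : |c| ≤ 2 := by rw [abs_le]; constructor <;> linarith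
      gcongr
    have x2 : |c' * (b * W')| ≤ 2 * (1 / 10 ^ 7 * (9 / 4)) := by
      rw [abs_mul, abs_mul, abs_of_pos b0]
      have : |c'| ≤ 2 := by rw [abs_le]; constructor <;> linarith
      gcongr
    calc |c * (a * W) - c' * (b * W')| ≤ |c * (a * W)| + |c' * (b * W')| := abs_sub _ _
      _ ≤ 1 / 10000 := by linarith
  have e : c * ((1 + a / 2 + 1) * u + 1 / 2 * (1 + a / 2) * s * w + s * a * W)
      - c' * ((1 + b / 2 + 1) * u' + 1 / 2 * (1 + b / 2) * s * w' + s * b * W')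
      - 1 / 2 * s * (w - w')
      = (c * (2 + a / 2) * u - c' * (2 + b / 2) * u')
        + 1 / 2 * s * ((c * (1 + a / 2) - 1) * w - (c' * (1 + b / 2) - 1) * w')
        + s * (c * (a * W) - c' * (b * W')) := by ring
  rw [e]
  have S2 : |1 / 2 * s * ((c * (1 + a / 2) - 1) * w - (c' * (1 + b / 2) - 1) * w')|
      ≤ 1 / 2 * s * (21 / 10000) := by
    rw [abs_mul, abs_of_pos (by positivity : 0 < 1 / 2 * s)]
    gcongr
  have S3 : |s * (c * (a * W) - c' * (b * W'))| ≤ s * (1 / 10000) := by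
    rw [abs_mul, abs_of_pos s0]
    gcongr
  calc |(c * (2 + a / 2) * u - c' * (2 + b / 2) * u')
        + 1 / 2 * s * ((c * (1 + a / 2) - 1) * w - (c' * (1 + b / 2) - 1) * w')
        + s * (c * (a * W) - c' * (b * W'))|
      ≤ |c * (2 + a / 2) * u - c' * (2 + b / 2) * u'|
        + |1 / 2 * s * ((c * (1 + a / 2) - 1) * w - (c' * (1 + b / 2) - 1) * w')|
        + |s * (c * (a * W) - c' * (b * W'))| := abs_add_three _ _ _
    _ ≤ 2 / 100 * s := by linarith

lemma ww_diff_self (n : ℕ) : ww n n - ww n (n + 1) = 1 := by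
  unfold ww
  have h2 : n ≠ n + 1 := by omega
  have h3 : n ≠ n + 1 + 1 := by omega
  have h4 : n ≠ n + 1 + 2 := by omega
  rw [if_pos rfl, if_neg h2, if_neg h3, if_neg h4]
  norm_num

lemma ww_diff_ne {n m : ℕ} (h : n ≠ m) : |ww n m - ww n (m + 1)| ≤ 1 / 2 := by
  unfold ww
  rw [if_neg h]
  by_cases h1 : n = m + 1
  · rw [if_pos h1, if_pos h1]; norm_num
  · rw [if_neg h1, if_neg h1]
    by_cases h2 : n = m + 2
    · have h3 : n = m + 1 + 1 := by omega
      rw [if_pos h2, if_pos h3]; norm_num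
    · have h3 : n ≠ m + 1 + 1 := by omega
      rw [if_neg h2, if_neg h3]
      split_ifs <;> norm_num

lemma DD_main (hv : Orthonormal ℝ v) (n : ℕ) : 48 / 100 * sg n ≤ DD v n n := by
  have h := abs_le.mp (DD_split hv n n)
  rw [ww_diff_self] at h
  linarith

lemma DD_off (hv : Orthonormal ℝ v) {n m : ℕ} (hnm : n ≠ m) : |DD v n m| ≤ 27 / 100 * sg n := by
  have h := abs_le.mp (DD_split hv n m)
  have h1 := abs_le.mp (ww_diff_ne hnm)
  have s0 := sg_pos n
  rw [abs_le]
  constructor <;> nlinarith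

lemma norm_v (hv : Orthonormal ℝ v) (a : ℕ ⊕ ℕ) : ‖v a‖ = 1 := hv.1 a

/-- The main part of a step. -/
lemma gx_main (hv : Orthonormal ℝ v) (m : ℕ) :
    ‖gx v m - (1 / 2 : ℝ) • (v (Sum.inl (m + 2)) - v (Sum.inl (m + 1 + 2)))‖ ≤ 1 / 100 := by
  set c := cm v m with hc
  set c' := cm v (m + 1) with hc'
  set a := sg m with ha
  set b := sg (m + 1) with hb
  have a0 : 0 < a := sg_pos m
  have b0 : 0 < b := sg_pos (m + 1)
  have a1 : a ≤ 1 / 10 ^ 7 := sg_le m
  have b1 : b ≤ 1 / 10 ^ 7 := sg_le (m + 1)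
  have hc1 := abs_le.mp (cm_close hv m)
  have hc2 := abs_le.mp (cm_close hv (m + 1))
  have e : gx v m - (1 / 2 : ℝ) • (v (Sum.inl (m + 2)) - v (Sum.inl (m + 1 + 2)))
      = (c * (2 + a / 2)) • (Uv v (Nn m) - Uv v (Nn m + 1))
        + (c * (2 + a / 2) - c' * (2 + b / 2)) • Uv v (Nn m + 1)
        + ((c * (1 + a / 2) - 1) / 2) • v (Sum.inl (m + 2))
        - ((c' * (1 + b / 2) - 1) / 2) • v (Sum.inl (m + 1 + 2))
        + (c * a) • Ev v m - (c' * b) • Ev v (m + 1) := by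
    have eN : Nn (m + 1) = Nn m + 1 := by unfold Nn; omega
    show cm v m • (pm m • km v m + Fm v m) - cm v (m + 1) • (pm (m + 1) • km v (m + 1)
      + Fm v (m + 1)) - _ = _
    unfold km Fm
    rw [eN]
    have hp : pm m = 1 + a / 2 := rfl
    have hp' : pm (m + 1) = 1 + b / 2 := rfl
    rw [hp, hp', ← hc, ← hc', ← ha, ← hb]
    module
  rw [e]
  have n1 : ‖(c * (2 + a / 2)) • (Uv v (Nn m) - Uv v (Nn m + 1))‖ ≤ 202 / 100 * (4 / 10 ^ 10) := by
    rw [norm_smul, Real.norm_eq_abs]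
    have x1 : |c * (2 + a / 2)| ≤ 202 / 100 := by
      rw [abs_le]; constructor <;> nlinarith
    have x2 : ‖Uv v (Nn m) - Uv v (Nn m + 1)‖ ≤ 4 / 10 ^ 10 := by
      refine (norm_U_sub' hv (one_le_Nn m)).trans ?_
      have : (10 : ℝ) ^ 10 ≤ Nn m := by
        unfold Nn; push_cast
        have : (0 : ℝ) ≤ m := Nat.cast_nonneg m
        linarith
      gcongr
    gcongr
  have n2 : ‖(c * (2 + a / 2) - c' * (2 + b / 2)) • Uv v (Nn m + 1)‖ ≤ 5 / 1000 := by
    rw [norm_smul, Real.norm_eq_abs, norm_U hv, mul_one, abs_le]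
    constructor <;> nlinarith
  have n3 : ‖((c * (1 + a / 2) - 1) / 2) • v (Sum.inl (m + 2))‖ ≤ 1 / 1000 := by
    rw [norm_smul, Real.norm_eq_abs, norm_v hv, mul_one, abs_le]
    constructor <;> nlinarith
  have n4 : ‖((c' * (1 + b / 2) - 1) / 2) • v (Sum.inl (m + 1 + 2))‖ ≤ 1 / 1000 := by
    rw [norm_smul, Real.norm_eq_abs, norm_v hv, mul_one, abs_le]
    constructor <;> nlinarith
  have n5 : ‖(c * a) • Ev v m‖ ≤ 1 / 1000 := by
    rw [norm_smul, Real.norm_eq_abs, norm_E hv]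
    have : |c * a| ≤ 1 / 10000 := by
      rw [abs_le]; constructor <;> nlinarith
    linarith
  have n6 : ‖(c' * b) • Ev v (m + 1)‖ ≤ 1 / 1000 := by
    rw [norm_smul, Real.norm_eq_abs, norm_E hv]
    have : |c' * b| ≤ 1 / 10000 := by
      rw [abs_le]; constructor <;> nlinarith
    linarith
  refine (norm_sub_le _ _).trans ?_
  refine (add_le_add (norm_add_le _ _) le_rfl).trans ?_
  refine (add_le_add (add_le_add (norm_sub_le _ _) le_rfl) le_rfl).trans ?_
  refine (add_le_add (add_le_add (add_le_add (norm_add_le _ _) le_rfl) le_rfl) le_rfl).trans ?_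
  refine (add_le_add (add_le_add (add_le_add (add_le_add (norm_add_le _ _) le_rfl) le_rfl) le_rfl)
    le_rfl).trans ?_
  linarith

lemma norm_diff_e (hv : Orthonormal ℝ v) (m : ℕ) :
    ‖v (Sum.inl (m + 2)) - v (Sum.inl (m + 1 + 2))‖ ^ 2 = 2 := by
  rw [norm_sub_sq_real, norm_v hv, norm_v hv, inner_inl hv, if_neg (by omega)]
  norm_num

lemma km_sq (hv : Orthonormal ℝ v) (m : ℕ) : ‖km v m‖ ^ 2 ≤ 5 / 4 := by
  unfold km
  rw [norm_add_sq_real, norm_U hv, real_inner_smul_right, inner_U_e hv, norm_smul, norm_v hv]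
  norm_num

lemma norm_brk_gx_le (hv : Orthonormal ℝ v) (m : ℕ) : ‖brk (km v) (gx v m)‖ ≤ 72 / 100 := by
  refine (norm_brk_le _).trans ?_
  have h := gx_main hv m
  have h2 := norm_diff_e hv m
  set G := v (Sum.inl (m + 2)) - v (Sum.inl (m + 1 + 2)) with hG
  have h3 : ‖(1 / 2 : ℝ) • G‖ ≤ 71 / 100 := by
    rw [norm_smul]
    have := norm_nonneg G
    have h4 : ‖G‖ ≤ 142 / 100 := by nlinarith
    norm_num
    linarith
  calc ‖gx v m‖ = ‖(gx v m - (1 / 2 : ℝ) • G) + (1 / 2 : ℝ) • G‖ := by rw [sub_add_cancel]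
    _ ≤ ‖gx v m - (1 / 2 : ℝ) • G‖ + ‖(1 / 2 : ℝ) • G‖ := norm_add_le _ _
    _ ≤ 72 / 100 := by linarith

lemma norm_brk_gx_ge (hv : Orthonormal ℝ v) (m : ℕ) : 65 / 100 ≤ ‖brk (km v) (gx v m)‖ := by
  have h := gx_main hv m
  have h2 := norm_diff_e hv m
  set G := v (Sum.inl (m + 2)) - v (Sum.inl (m + 1 + 2)) with hG
  have hG0 := norm_nonneg G
  have hG1 : ‖G‖ ≤ 142 / 100 := by nlinarith
  set z := iota (km_sq hv) G with hz
  have hsn : ‖sn z‖ ≤ 1 / 2 := by
    apply norm_sn_le_of (by norm_num)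
    intro j
    rw [hz, fs_iota, hG]
    unfold km
    rw [inner_add_left, inner_sub_right, inner_sub_right, inner_U_e hv, inner_U_e hv,
      real_inner_smul_left, real_inner_smul_left, inner_inl hv, inner_inl hv]
    by_cases h1 : j + 2 = m + 2
    · rw [if_pos h1, if_neg (by omega)]; norm_num
    · rw [if_neg h1]
      by_cases h3 : j + 2 = m + 1 + 2
      · rw [if_pos h3, abs_le]; constructor <;> norm_num
      · rw [if_neg h3]; norm_num
  have hzn : ‖z‖ ≤ 3 / 2 := by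
    have h1 := norm_sq z
    rw [hz, fs_iota, h2] at h1
    have h3 := norm_nonneg (sn z)
    have h4 := norm_nonneg z
    nlinarith
  have hin : 98 / 100 ≤ ⟪gx v m, G⟫_ℝ := by
    have e : ⟪gx v m, G⟫_ℝ = ⟪gx v m - (1 / 2 : ℝ) • G, G⟫_ℝ + 1 / 2 * ‖G‖ ^ 2 := by
      rw [inner_sub_left, real_inner_smul_left, real_inner_self_eq_norm_sq]; ring
    rw [e, h2]
    have h5 := abs_real_inner_le_norm (gx v m - (1 / 2 : ℝ) • G) G
    have h6 : ‖gx v m - (1 / 2 : ℝ) • G‖ * ‖G‖ ≤ 1 / 100 * (142 / 100) := by gcongr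
    have h7 := abs_le.mp (h5.trans h6)
    linarith
  have h8 : |⟪gx v m, G⟫_ℝ| ≤ ‖brk (km v) (gx v m)‖ * ‖z‖ := by
    have := (brk (km v) (gx v m)).le_opNorm z
    rw [brk_apply, hz, fs_iota] at this
    exact this
  have h9 := le_abs_self ⟪gx v m, G⟫_ℝ
  have h10 := norm_nonneg (brk (km v) (gx v m))
  by_contra hcon
  push Not at hcon
  nlinarith

end Pool.Agent.H25.Dga
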