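import Pool.Agent.H25.DgaF

set_option autoImplicit false

open scoped InnerProductSpace

namespace Pool.Agent.H25.Dga

variable {H : Type} [NormedAddCommGroup H] [InnerProductSpace ℝ H]
variable {v : ℕ ⊕ ℕ → H}

lemma xm_eq (m : ℕ) : pm m • km v m + Fm v m = (2 + sg m / 2) • Uv v (Nn m)
    + (1 / 2 * (1 + sg m / 2) + sg m) • v (Sum.inl (m + 2)) + sg m • v (Sum.inl (m + 1))
    + (sg m / 2) • v (Sum.inl m) := by
  unfold km Fm Ev pm
  module

lemma inner_x_far (hv : Orthonormal ℝ v) {n m : ℕ} (h : 4 * Nn m ≤ Nn n) :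
    ⟪pm n • km v n + Fm v n, pm m • km v m + Fm v m⟫_ℝ = 0 := by
  rw [xm_eq, xm_eq]
  have hu : ⟪Uv v (Nn n), Uv v (Nn m)⟫_ℝ = 0 := uu_far hv h
  have hnm : m + 3 ≤ n := by
    unfold Nn at h
    omega
  simp only [inner_add_left, inner_add_right, real_inner_smul_left, real_inner_smul_right,
    hu, inner_U_e hv, inner_e_U hv, inner_inl hv]
  have a1 : n + 2 ≠ m + 2 := by omega
  have a2 : n + 2 ≠ m + 1 := by omega
  have a3 : n + 2 ≠ m := by omega
  have a4 : n + 1 ≠ m + 2 := by omega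
  have a5 : n + 1 ≠ m + 1 := by omega
  have a6 : n + 1 ≠ m := by omega
  have a7 : n ≠ m + 2 := by omega
  have a8 : n ≠ m + 1 := by omega
  have a9 : n ≠ m := by omega
  rw [if_neg a1, if_neg a2, if_neg a3, if_neg a4, if_neg a5, if_neg a6, if_neg a7, if_neg a8,
    if_neg a9]
  ring

lemma inner_fx_far (hv : Orthonormal ℝ v) {n m : ℕ} (h : 4 * Nn m ≤ Nn n) :
    ⟪fx v n, fx v m⟫_ℝ = 0 := by
  show ⟪cm v n • (pm n • km v n + Fm v n), cm v m • (pm m • km v m + Fm v m)⟫_ℝ = 0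
  rw [real_inner_smul_left, real_inner_smul_right, inner_x_far hv h]
  ring

lemma norm_fx_le (hv : Orthonormal ℝ v) (m : ℕ) : ‖fx v m‖ ≤ 3 := by
  show ‖cm v m • (pm m • km v m + Fm v m)‖ ≤ 3
  rw [xm_eq, norm_smul, Real.norm_eq_abs]
  have a0 : 0 < sg m := sg_pos m
  have a1 : sg m ≤ 1 / 10 ^ 7 := sg_le m
  have hc := abs_le.mp (cm_close hv m)
  have hc' : |cm v m| ≤ 1001 / 1000 := by rw [abs_le]; constructor <;> linarith
  have n1 : ‖(2 + sg m / 2) • Uv v (Nn m)‖ ≤ 201 / 100 := by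
    rw [norm_smul, Real.norm_eq_abs, norm_U hv, mul_one, abs_le]; constructor <;> linarith
  have n2 : ‖(1 / 2 * (1 + sg m / 2) + sg m) • v (Sum.inl (m + 2))‖ ≤ 51 / 100 := by
    rw [norm_smul, Real.norm_eq_abs, norm_v hv, mul_one, abs_le]; constructor <;> linarith
  have n3 : ‖sg m • v (Sum.inl (m + 1))‖ ≤ 1 / 100 := by
    rw [norm_smul, Real.norm_eq_abs, norm_v hv, mul_one, abs_le]; constructor <;> linarith
  have n4 : ‖(sg m / 2) • v (Sum.inl m)‖ ≤ 1 / 100 := by
    rw [norm_smul, Real.norm_eq_abs, norm_v hv, mul_one, abs_le]; constructor <;> linarith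
  have h1 : ‖(2 + sg m / 2) • Uv v (Nn m)
    + (1 / 2 * (1 + sg m / 2) + sg m) • v (Sum.inl (m + 2)) + sg m • v (Sum.inl (m + 1))
    + (sg m / 2) • v (Sum.inl m)‖ ≤ 254 / 100 := by
    refine (norm_add_le _ _).trans ?_
    refine (add_le_add (norm_add_le _ _) le_rfl).trans ?_
    refine (add_le_add (add_le_add (norm_add_le _ _) le_rfl) le_rfl).trans ?_
    linarith
  calc _ ≤ 1001 / 1000 * (254 / 100) := mul_le_mul hc' h1 (norm_nonneg _) (by norm_num)
    _ ≤ 3 := by norm_num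

/-- Sparse indices. -/
def idx (j : ℕ) : ℕ := 4 ^ j * 10 ^ 10 - 10 ^ 10

lemma Nn_idx (j : ℕ) : Nn (idx j) = 4 ^ j * 10 ^ 10 := by
  unfold Nn idx
  have h : 1 ≤ 4 ^ j := Nat.one_le_pow _ _ (by norm_num)
  have h2 : 1 * 10 ^ 10 ≤ 4 ^ j * 10 ^ 10 := Nat.mul_le_mul_right _ h
  omega

lemma idx_far {i j : ℕ} (h : i < j) : 4 * Nn (idx i) ≤ Nn (idx j) := by
  rw [Nn_idx, Nn_idx]
  have h1 : 4 ^ (i + 1) ≤ 4 ^ j := Nat.pow_le_pow_right (by norm_num) h
  calc 4 * (4 ^ i * 10 ^ 10) = 4 ^ (i + 1) * 10 ^ 10 := by ring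
    _ ≤ 4 ^ j * 10 ^ 10 := Nat.mul_le_mul_right _ h1

lemma norm_sum_fx (hv : Orthonormal ℝ v) (J : ℕ) :
    ‖∑ j ∈ Finset.range J, fx v (idx j)‖ ^ 2 ≤ 9 * J := by
  induction J with
  | zero => simp
  | succ J ih =>
    rw [Finset.sum_range_succ, norm_add_sq_real]
    have h0 : ⟪∑ j ∈ Finset.range J, fx v (idx j), fx v (idx J)⟫_ℝ = 0 := by
      rw [sum_inner]
      apply Finset.sum_eq_zero
      intro j hj
      rw [real_inner_comm]
      exact inner_fx_far hv (idx_far (Finset.mem_range.mp hj))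
    rw [h0]
    have h1 := norm_fx_le hv (idx J)
    have h2 := norm_nonneg (fx v (idx J))
    push_cast
    nlinarith

lemma fx_sub_mem (n : ℕ) :
    fx v 0 - fx v n ∈ Submodule.span ℝ (Set.range fun n => gx v n) := by
  have h : fx v 0 - fx v n = ∑ i ∈ Finset.range n, gx v i := by
    rw [← Finset.sum_range_sub' (fun i => fx v i) n]
    rfl
  rw [h]
  exact Submodule.sum_mem _ (fun i _ => Submodule.subset_span ⟨i, rfl⟩)

lemma h5_example (hv : Orthonormal ℝ v) : ∀ ε > 0,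
    ∃ y ∈ Submodule.span ℝ (Set.range fun n => gx v n), ‖fx v 0 - y‖ < ε := by
  intro ε hε
  obtain ⟨J, hJ⟩ := exists_nat_gt (9 / ε ^ 2)
  have hJ0 : (0 : ℝ) < J := lt_trans (by positivity) hJ
  refine ⟨(J : ℝ)⁻¹ • ∑ j ∈ Finset.range J, (fx v 0 - fx v (idx j)), ?_, ?_⟩
  · exact Submodule.smul_mem _ _ (Submodule.sum_mem _ (fun j _ => fx_sub_mem (idx j)))
  · have e : fx v 0 - (J : ℝ)⁻¹ • ∑ j ∈ Finset.range J, (fx v 0 - fx v (idx j))
        = (J : ℝ)⁻¹ • ∑ j ∈ Finset.range J, fx v (idx j) := by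
      rw [Finset.sum_sub_distrib, Finset.sum_const, Finset.card_range, smul_sub,
        ← Nat.cast_smul_eq_nsmul ℝ, smul_smul, inv_mul_cancel₀ hJ0.ne', one_smul]
      abel
    rw [e, norm_smul, norm_inv, Real.norm_eq_abs, abs_of_pos hJ0]
    have h1 := norm_sum_fx hv J
    set S := ‖∑ j ∈ Finset.range J, fx v (idx j)‖ with hS
    have hS0 : 0 ≤ S := norm_nonneg _
    rw [inv_mul_lt_iff₀ hJ0]
    have h2 : 9 < J * ε ^ 2 := by
      rw [div_lt_iff₀ (by positivity)] at hJ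
      exact hJ
    by_contra hcon
    push Not at hcon
    have h3 : (J * ε) ^ 2 ≤ S ^ 2 := by
      apply pow_le_pow_left₀ (by positivity) hcon
    nlinarith

/-- The example satisfies all requirements. -/
theorem data_example (hv : Orthonormal ℝ v) : Data (km v) (Fm v) pm (cm v) where
  hk := km_sq hv
  hp0 := by
    intro n
    have := sg_pos n
    unfold pm
    linarith
  hp := by
    intro n
    rw [inner_k_F hv, uu_self hv]
    have : ww n n = 1 := by unfold ww; simp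
    rw [this]
    unfold pm
    ring
  hpk := by
    intro n m
    rw [inner_k_F hv]
    have h1 := abs_le.mp (uu_le hv n m)
    have h2 := ww_nonneg n m
    have h3 := ww_le n m
    have h4 := sg_pos n
    unfold pm
    rw [abs_le]
    constructor <;> nlinarith
  hc := by
    intro n
    have := abs_le.mp (cm_close hv n)
    linarith
  h2 := fun n => DD_succ hv n
  h3 := by
    intro n m
    show |DD v n m| * ‖brk (km v) (gx v n)‖ ≤ DD v n n * ‖brk (km v) (gx v m)‖
    by_cases h : n = m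
    · subst h
      have h1 := DD_main hv n
      have h2 := sg_pos n
      rw [abs_of_nonneg (by linarith)]
    · have h1 := DD_main hv n
      have h2 := DD_off hv h
      have h3 := norm_brk_gx_le hv n
      have h4 := norm_brk_gx_ge hv m
      have h5 := sg_pos n
      calc |DD v n m| * ‖brk (km v) (gx v n)‖ ≤ (27 / 100 * sg n) * (72 / 100) :=
            mul_le_mul h2 h3 (norm_nonneg _) (by positivity)
        _ ≤ (48 / 100 * sg n) * (65 / 100) := by nlinarith
        _ ≤ DD v n n * ‖brk (km v) (gx v m)‖ :=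
            mul_le_mul h1 h4 (by norm_num) (by linarith)
  h4 := by
    intro n
    have := norm_brk_gx_ge hv n
    show 0 < ‖brk (km v) (gx v n)‖
    linarith
  h5 := h5_example hv

/-- Existence of an orthonormal family of the required shape. -/
lemma exists_family : ∃ v : ℕ ⊕ ℕ → lp (fun _ : ℕ ⊕ ℕ => ℝ) 2, Orthonormal ℝ v :=
  ⟨_, (HilbertBasis.ofRepr (LinearIsometryEquiv.refl ℝ (lp (fun _ : ℕ ⊕ ℕ => ℝ) 2))).orthonormal⟩

end Pool.Agent.H25.Dga
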