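import Pool.Agent.H25.FaDefs

/-!
# Fourier decay bounds the Hausdorff dimension from below
-/

open MeasureTheory Filter
open scoped ENNReal NNReal Topology

noncomputable section

namespace Pool.Agent.H25.FA

/-- Gaussian kernel. -/
def gk (r z : ℝ) : ℝ := Real.exp (-(Real.pi / r ^ 2) * z ^ 2)

lemma gk_eq_fourier {r : ℝ} (hr : 0 < r) (z : ℝ) :
    ((gk r z : ℝ) : ℂ) = ∫ ξ : ℝ, ((r * Real.exp (-(Real.pi * r ^ 2) * ξ ^ 2) : ℝ) : ℂ) *
      Complex.exp (-(2 * Real.pi * ξ * z : ℝ) * Complex.I) := by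
  have hb : 0 < ((Real.pi * r ^ 2 : ℝ) : ℂ).re := by
    rw [Complex.ofReal_re]; positivity
  have h := fourierIntegral_gaussian hb ((-(2 * Real.pi * z) : ℝ) : ℂ)
  have h2 : ∀ ξ : ℝ, ((r * Real.exp (-(Real.pi * r ^ 2) * ξ ^ 2) : ℝ) : ℂ) *
      Complex.exp (-(2 * Real.pi * ξ * z : ℝ) * Complex.I) =
      (r : ℂ) * (Complex.exp (Complex.I * ((-(2 * Real.pi * z) : ℝ) : ℂ) * ξ) *
        Complex.exp (-((Real.pi * r ^ 2 : ℝ) : ℂ) * ξ ^ 2)) := by
    intro ξ
    push_cast
    rw [mul_assoc, mul_comm (Complex.exp (-(Real.pi * r ^ 2) * ξ ^ 2))]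
    congr 2
    congr 1
    ring
  simp_rw [h2]
  rw [integral_const_mul, h]
  have h3 : (((Real.pi : ℂ) / ((Real.pi * r ^ 2 : ℝ) : ℂ)) ^ (1 / 2 : ℂ)) = ((1 / r : ℝ) : ℂ) := by
    have : (Real.pi : ℂ) / ((Real.pi * r ^ 2 : ℝ) : ℂ) = (((1 / r) ^ 2 : ℝ) : ℂ) := by
      rw [← Complex.ofReal_div]
      congr 1
      field_simp
    rw [this]
    have h5 : (1 / 2 : ℂ) = ((1 / 2 : ℝ) : ℂ) := by push_cast; rfl
    rw [h5, ← Complex.ofReal_cpow (by positivity)]
    congr 1
    rw [← Real.sqrt_eq_rpow, Real.sqrt_sq (by positivity)]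
  rw [h3, gk]
  rw [← mul_assoc, ← Complex.ofReal_mul]
  have h4 : r * (1 / r) = 1 := by field_simp
  rw [h4, Complex.ofReal_one, one_mul, Complex.ofReal_exp]
  congr 1
  push_cast
  field_simp
  ring

lemma gk_pos (r z : ℝ) : 0 < gk r z := Real.exp_pos _

lemma gk_le_one (r z : ℝ) : gk r z ≤ 1 := by
  rw [gk, Real.exp_le_one_iff]
  have : 0 ≤ Real.pi / r ^ 2 * z ^ 2 := by positivity
  linarith

lemma gk_ge {r z : ℝ} (hr : 0 < r) (hz : |z| ≤ r) : Real.exp (-Real.pi) ≤ gk r z := by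
  rw [gk, Real.exp_le_exp]
  have h1 : z ^ 2 ≤ r ^ 2 := sq_le_sq' (by linarith [neg_abs_le z]) ((le_abs_self z).trans hz)
  have h2 : Real.pi / r ^ 2 * z ^ 2 ≤ Real.pi / r ^ 2 * r ^ 2 := by gcongr
  have h3 : Real.pi / r ^ 2 * r ^ 2 = Real.pi := by field_simp
  linarith

lemma continuous_gk (r : ℝ) : Continuous (gk r) := by
  unfold gk; fun_prop

lemma integrable_G {r : ℝ} (hr : 0 < r) :
    Integrable (fun ξ : ℝ => r * Real.exp (-(Real.pi * r ^ 2) * ξ ^ 2)) :=
  (integrable_exp_neg_mul_sq (by positivity)).const_mul r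

lemma ft_norm_le (μ : Measure ℝ) [IsProbabilityMeasure μ] (ξ : ℝ) : ‖ft μ ξ‖ ≤ 1 := by
  refine (norm_integral_le_integral_norm _).trans ?_
  simp only [← neg_mul, ← Complex.ofReal_neg, Complex.norm_exp_ofReal_mul_I]
  simp

lemma continuous_ft (μ : Measure ℝ) [IsProbabilityMeasure μ] : Continuous (ft μ) := by
  apply continuous_of_dominated (bound := fun _ => (1 : ℝ))
  · intro ξ
    apply Continuous.aestronglyMeasurable
    fun_prop
  · intro ξ
    filter_upwards with x
    rw [← Complex.ofReal_neg, Complex.norm_exp_ofReal_mul_I]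
  · exact integrable_const _
  · filter_upwards with x
    fun_prop

lemma energy_eq (μ : Measure ℝ) [IsProbabilityMeasure μ] {r : ℝ} (hr : 0 < r) :
    ∫ z, gk r (z.1 - z.2) ∂(μ.prod μ) =
      ∫ ξ : ℝ, r * Real.exp (-(Real.pi * r ^ 2) * ξ ^ 2) * ‖ft μ ξ‖ ^ 2 := by
  set G : ℝ → ℝ := fun ξ => r * Real.exp (-(Real.pi * r ^ 2) * ξ ^ 2) with hG
  have h1 : ∀ z : ℝ × ℝ, ((gk r (z.1 - z.2) : ℝ) : ℂ) = ∫ ξ : ℝ, (G ξ : ℂ) *
      Complex.exp (-(2 * Real.pi * ξ * (z.1 - z.2) : ℝ) * Complex.I) := fun z => gk_eq_fourier hr _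
  have hint : Integrable (Function.uncurry fun (z : ℝ × ℝ) (ξ : ℝ) => (G ξ : ℂ) *
      Complex.exp (-(2 * Real.pi * ξ * (z.1 - z.2) : ℝ) * Complex.I))
      ((μ.prod μ).prod volume) := by
    have h2 : Integrable (fun w : (ℝ × ℝ) × ℝ => (1 : ℂ) * (G w.2 : ℂ))
        ((μ.prod μ).prod volume) :=
      (integrable_const (1 : ℂ)).mul_prod ((integrable_G hr).ofReal)
    refine h2.mono ?_ ?_
    · apply Continuous.aestronglyMeasurable
      simp only [Function.uncurry_def, hG]
      fun_prop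
    · filter_upwards with w
      simp only [Function.uncurry_def, norm_mul, one_mul]
      have : ‖Complex.exp (-(2 * Real.pi * w.2 * (w.1.1 - w.1.2) : ℝ) * Complex.I)‖ = 1 := by
        rw [← Complex.ofReal_neg, Complex.norm_exp_ofReal_mul_I]
      rw [this, mul_one]
  have h3 : ((∫ z, gk r (z.1 - z.2) ∂(μ.prod μ) : ℝ) : ℂ) =
      ∫ ξ : ℝ, ∫ z : ℝ × ℝ, (G ξ : ℂ) *
        Complex.exp (-(2 * Real.pi * ξ * (z.1 - z.2) : ℝ) * Complex.I) ∂(μ.prod μ) := by
    rw [← integral_complex_ofReal]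
    simp_rw [h1]
    exact integral_integral_swap hint
  have h4 : ∀ ξ : ℝ, ∫ z : ℝ × ℝ, (G ξ : ℂ) *
        Complex.exp (-(2 * Real.pi * ξ * (z.1 - z.2) : ℝ) * Complex.I) ∂(μ.prod μ) =
        ((G ξ * ‖ft μ ξ‖ ^ 2 : ℝ) : ℂ) := by
    intro ξ
    rw [integral_const_mul]
    have h5 : ∀ z : ℝ × ℝ, Complex.exp (-(2 * Real.pi * ξ * (z.1 - z.2) : ℝ) * Complex.I) =
        Complex.exp (-(2 * Real.pi * ξ * z.1 : ℝ) * Complex.I) *
        (starRingEnd ℂ) (Complex.exp (-(2 * Real.pi * ξ * z.2 : ℝ) * Complex.I)) := by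
      intro z
      rw [← Complex.exp_conj, ← Complex.exp_add]
      congr 1
      simp only [map_mul, map_neg, Complex.conj_ofReal, Complex.conj_I]
      push_cast
      ring
    simp_rw [h5]
    rw [integral_prod_mul (f := fun x : ℝ => Complex.exp (-(2 * Real.pi * ξ * x : ℝ) * Complex.I))
      (g := fun x : ℝ => (starRingEnd ℂ)
        (Complex.exp (-(2 * Real.pi * ξ * x : ℝ) * Complex.I))), integral_conj]
    change (G ξ : ℂ) * (ft μ ξ * (starRingEnd ℂ) (ft μ ξ)) = _
    rw [Complex.mul_conj, Complex.normSq_eq_norm_sq]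
    push_cast
    rfl
  simp_rw [h4] at h3
  rw [integral_complex_ofReal] at h3
  exact_mod_cast h3

lemma integrable_abs_rpow {u : ℝ} (hu : u < 1) :
    Integrable (fun ζ : ℝ => |ζ| ^ (-u) * Real.exp (-Real.pi * ζ ^ 2)) := by
  have h1 : IntegrableOn (fun ζ : ℝ => |ζ| ^ (-u) * Real.exp (-Real.pi * ζ ^ 2)) (Set.Ioi 0) := by
    refine (integrableOn_rpow_mul_exp_neg_mul_sq Real.pi_pos
      (show -1 < -u by linarith)).congr_fun ?_ measurableSet_Ioi
    intro ζ hζ
    have hζ' : (0 : ℝ) < ζ := hζ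
    simp only [abs_of_pos hζ']
  rw [← integrableOn_univ, ← @Set.Iio_union_Ici _ _ (0 : ℝ), integrableOn_union,
    integrableOn_Ici_iff_integrableOn_Ioi]
  refine ⟨?_, h1⟩
  rw [← (Measure.measurePreserving_neg (volume : Measure ℝ)).integrableOn_comp_preimage
      (Homeomorph.neg ℝ).measurableEmbedding]
  simpa only [Function.comp_def, neg_sq, Set.neg_preimage, Set.neg_Iio, neg_zero, abs_neg] using h1

/-- Gaussian energy bound from Fourier decay. -/
lemma energy_le (μ : Measure ℝ) [IsProbabilityMeasure μ] {u C : ℝ} (hu : u < 1) (hC : 0 ≤ C)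
    (hμ : ∀ ξ : ℝ, ξ ≠ 0 → ‖ft μ ξ‖ ^ 2 ≤ C * |ξ| ^ (-u)) :
    ∃ K : ℝ, 0 ≤ K ∧ ∀ r : ℝ, 0 < r → ∫ z, gk r (z.1 - z.2) ∂(μ.prod μ) ≤ K * r ^ u := by
  set I₀ : ℝ := ∫ ζ : ℝ, |ζ| ^ (-u) * Real.exp (-Real.pi * ζ ^ 2) with hI
  have hI0 : 0 ≤ I₀ := integral_nonneg fun ζ => by positivity
  refine ⟨C * I₀, by positivity, fun r hr => ?_⟩
  rw [energy_eq μ hr]
  have h1 : ∀ ξ : ℝ, r * Real.exp (-(Real.pi * r ^ 2) * ξ ^ 2) * (C * |ξ| ^ (-u)) =
      (C * r * r ^ u) * (|r * ξ| ^ (-u) * Real.exp (-Real.pi * (r * ξ) ^ 2)) := by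
    intro ξ
    rw [abs_mul, Real.mul_rpow (abs_nonneg _) (abs_nonneg _), abs_of_pos hr]
    have h2 : r ^ u * r ^ (-u) = 1 := by
      rw [← Real.rpow_add hr, add_neg_cancel, Real.rpow_zero]
    have h3 : -(Real.pi * r ^ 2) * ξ ^ 2 = -Real.pi * (r * ξ) ^ 2 := by ring
    rw [h3]
    calc _ = (C * r * |ξ| ^ (-u) * Real.exp (-Real.pi * (r * ξ) ^ 2)) * 1 := by ring
      _ = _ := by rw [← h2]; ring
  have hint : Integrable (fun ξ : ℝ => r * Real.exp (-(Real.pi * r ^ 2) * ξ ^ 2) *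
      (C * |ξ| ^ (-u))) := by
    simp_rw [h1]
    exact ((integrable_abs_rpow hu).comp_mul_left' hr.ne').const_mul _
  calc ∫ ξ : ℝ, r * Real.exp (-(Real.pi * r ^ 2) * ξ ^ 2) * ‖ft μ ξ‖ ^ 2
      ≤ ∫ ξ : ℝ, r * Real.exp (-(Real.pi * r ^ 2) * ξ ^ 2) * (C * |ξ| ^ (-u)) := by
        apply integral_mono_of_nonneg
        · filter_upwards with ξ
          positivity
        · exact hint
        · have h0 : ∀ᵐ ξ : ℝ, ξ ≠ 0 := by
            simp [ae_iff, measure_singleton]
          filter_upwards [h0] with ξ hξ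
          have := hμ ξ hξ
          gcongr
    _ = (C * r * r ^ u) * ∫ ξ : ℝ, (|r * ξ| ^ (-u) * Real.exp (-Real.pi * (r * ξ) ^ 2)) := by
        simp_rw [h1]
        rw [integral_const_mul]
    _ = C * I₀ * r ^ u := by
        rw [Measure.integral_comp_mul_left
          (fun ζ : ℝ => |ζ| ^ (-u) * Real.exp (-Real.pi * ζ ^ 2)) r, ← hI, abs_of_pos (by positivity),
          smul_eq_mul]
        field_simp

/-- Gaussian potential at scale `r`. -/
def pot (μ : Measure ℝ) (r x : ℝ) : ℝ≥0∞ := ∫⁻ y, ENNReal.ofReal (gk r (x - y)) ∂μ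

lemma measurable_pot (μ : Measure ℝ) [IsProbabilityMeasure μ] (r : ℝ) : Measurable (pot μ r) := by
  apply Measurable.lintegral_prod_right' (f := fun z : ℝ × ℝ => ENNReal.ofReal (gk r (z.1 - z.2)))
  have := continuous_gk r
  fun_prop

lemma lintegral_pot (μ : Measure ℝ) [IsProbabilityMeasure μ] (r : ℝ) :
    ∫⁻ x, pot μ r x ∂μ = ENNReal.ofReal (∫ z, gk r (z.1 - z.2) ∂(μ.prod μ)) := by
  have hm : Measurable fun z : ℝ × ℝ => gk r (z.1 - z.2) := by
    have := continuous_gk r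
    fun_prop
  rw [ofReal_integral_eq_lintegral_ofReal, lintegral_prod]
  · rfl
  · exact hm.ennreal_ofReal.aemeasurable
  · refine Integrable.of_bound hm.aestronglyMeasurable 1 ?_
    filter_upwards with z
    rw [Real.norm_of_nonneg (gk_pos _ _).le]
    exact gk_le_one _ _
  · filter_upwards with z
    exact (gk_pos _ _).le

lemma ball_le_pot (μ : Measure ℝ) {r : ℝ} (hr : 0 < r) (x : ℝ) :
    μ (Metric.closedBall x r) ≤ ENNReal.ofReal (Real.exp Real.pi) * pot μ r x := by
  have h1 : ∫⁻ _ in Metric.closedBall x r, ENNReal.ofReal (Real.exp (-Real.pi)) ∂μ ≤ pot μ r x := by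
    refine (lintegral_mono_ae ?_).trans (setLIntegral_le_lintegral (Metric.closedBall x r) _)
    filter_upwards [ae_restrict_mem measurableSet_closedBall] with y hy
    apply ENNReal.ofReal_le_ofReal
    apply gk_ge hr
    rw [Metric.mem_closedBall, Real.dist_eq, abs_sub_comm] at hy
    exact hy
  rw [lintegral_const, Measure.restrict_apply_univ] at h1
  calc μ (Metric.closedBall x r) = ENNReal.ofReal (Real.exp Real.pi) *
        (ENNReal.ofReal (Real.exp (-Real.pi)) * μ (Metric.closedBall x r)) := by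
        rw [← mul_assoc, ← ENNReal.ofReal_mul (Real.exp_pos _).le, ← Real.exp_add]
        simp
    _ ≤ _ := by gcongr

lemma le_dimH_aux (μ : Measure ℝ) [IsProbabilityMeasure μ] {E : Set ℝ} (hE : MeasurableSet E)
    (hμE : μ E = 1) {u v K : ℝ} (hv : 0 < v) (huv : v < u)
    (hK : ∀ r : ℝ, 0 < r → ∫ z, gk r (z.1 - z.2) ∂(μ.prod μ) ≤ K * r ^ u) :
    ENNReal.ofReal v ≤ dimH E := by
  have hK0 : 0 ≤ K := by
    have h1 := hK 1 one_pos
    rw [Real.one_rpow, mul_one] at h1
    exact (integral_nonneg fun z => (gk_pos _ _).le).trans h1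
  set rr : ℕ → ℝ := fun n => (1 / 2) ^ n with hrr
  have hrr0 : ∀ n, 0 < rr n := fun n => by positivity
  set q : ℝ := (2 : ℝ) ^ (v - u) with hq
  have hq0 : 0 < q := by positivity
  have hq1 : q < 1 := Real.rpow_lt_one_of_one_lt_of_neg (by norm_num) (by linarith)
  set S : ℝ → ℝ≥0∞ := fun x => ∑' n, ENNReal.ofReal (((2 : ℝ) ^ v) ^ n) * pot μ (rr n) x with hS
  have hSm : Measurable S :=
    Measurable.tsum fun n => (measurable_pot μ (rr n)).const_mul _
  have hSint : ∫⁻ x, S x ∂μ ≤ ∑' n, ENNReal.ofReal (K * q ^ n) := by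
    rw [hS, lintegral_tsum fun n => ((measurable_pot μ (rr n)).const_mul _).aemeasurable]
    refine ENNReal.tsum_le_tsum fun n => ?_
    rw [lintegral_const_mul _ (measurable_pot μ (rr n)), lintegral_pot,
      ← ENNReal.ofReal_mul (by positivity)]
    apply ENNReal.ofReal_le_ofReal
    calc ((2 : ℝ) ^ v) ^ n * ∫ z, gk (rr n) (z.1 - z.2) ∂(μ.prod μ)
        ≤ ((2 : ℝ) ^ v) ^ n * (K * (rr n) ^ u) := by
          gcongr
          exact hK _ (hrr0 n)
      _ = K * (((2 : ℝ) ^ v) ^ n * ((2 : ℝ) ^ (-u)) ^ n) := by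
          have : (rr n) ^ u = ((2 : ℝ) ^ (-u)) ^ n := by
            change ((1 / 2 : ℝ) ^ n) ^ u = _
            rw [← Real.rpow_natCast, ← Real.rpow_natCast, ← Real.rpow_mul (by norm_num),
              ← Real.rpow_mul (by norm_num), one_div, Real.inv_rpow (by norm_num),
              ← Real.rpow_neg (by norm_num)]
            congr 1
            ring
          rw [this]
          ring
      _ = K * q ^ n := by
          rw [← mul_pow, ← Real.rpow_add (by norm_num), hq, sub_eq_add_neg]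
  have hsum : ∑' n, ENNReal.ofReal (K * q ^ n) ≠ ∞ := by
    rw [← ENNReal.ofReal_tsum_of_nonneg (fun n => by positivity)
      ((summable_geometric_of_lt_one hq0.le hq1).mul_left K)]
    exact ENNReal.ofReal_ne_top
  have hfin : ∀ᵐ x ∂μ, S x < ∞ :=
    ae_lt_top hSm (ne_top_of_le_ne_top hsum hSint)
  -- a set of positive measure where `S` is bounded
  obtain ⟨M, hM⟩ : ∃ M : ℕ, μ (E ∩ {x | S x ≤ M}) ≠ 0 := by
    by_contra hcon
    push Not at hcon
    have h1 : E ⊆ (⋃ M : ℕ, E ∩ {x | S x ≤ M}) ∪ {x | ¬ S x < ∞} := by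
      intro x hx
      by_cases hx' : S x < ∞
      · left
        obtain ⟨M, hM⟩ := ENNReal.exists_nat_gt hx'.ne
        exact Set.mem_iUnion.2 ⟨M, hx, hM.le⟩
      · right; exact hx'
    have h2 : μ E ≤ 0 := by
      refine (measure_mono h1).trans ((measure_union_le _ _).trans ?_)
      rw [measure_iUnion_null hcon, zero_add]
      exact hfin.le
    rw [hμE] at h2
    simp at h2
  set A : Set ℝ := E ∩ {x | S x ≤ M} with hA
  have hAm : MeasurableSet A := hE.inter (measurableSet_le hSm measurable_const)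
  -- balls around points of `A`
  set c : ℝ := Real.exp Real.pi * M with hc
  have hball : ∀ x ∈ A, ∀ n, μ (Metric.closedBall x (rr n)) ≤ ENNReal.ofReal (c * (rr n) ^ v) := by
    intro x hx n
    have h1 : ENNReal.ofReal (((2 : ℝ) ^ v) ^ n) * pot μ (rr n) x ≤ M :=
      (ENNReal.le_tsum n).trans hx.2
    have h2 : (rr n) ^ v * ((2 : ℝ) ^ v) ^ n = 1 := by
      change ((1 / 2 : ℝ) ^ n) ^ v * _ = _
      rw [← Real.rpow_natCast, ← Real.rpow_natCast, ← Real.rpow_mul (by norm_num),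
        ← Real.rpow_mul (by norm_num), one_div, Real.inv_rpow (by norm_num), mul_comm v]
      field_simp
    calc μ (Metric.closedBall x (rr n)) ≤ ENNReal.ofReal (Real.exp Real.pi) * pot μ (rr n) x :=
          ball_le_pot μ (hrr0 n) x
      _ = ENNReal.ofReal (Real.exp Real.pi * (rr n) ^ v) *
          (ENNReal.ofReal (((2 : ℝ) ^ v) ^ n) * pot μ (rr n) x) := by
          rw [← mul_assoc, ← ENNReal.ofReal_mul (by positivity), mul_assoc, h2, mul_one]
      _ ≤ ENNReal.ofReal (Real.exp Real.pi * (rr n) ^ v) * M := by gcongr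
      _ = ENNReal.ofReal (c * (rr n) ^ v) := by
          rw [← ENNReal.ofReal_natCast, ← ENNReal.ofReal_mul (by positivity)]
          congr 1
          ring
  have hc0 : 0 ≤ c := by positivity
  set c' : ℝ := c * 2 ^ v + 1 with hc'
  have hc'0 : 0 < c' := by positivity
  have hν : (ENNReal.ofReal c')⁻¹ • μ.restrict A ≤ μH[v] := by
    apply Measure.le_hausdorffMeasure v _ 1 one_pos
    intro T hT
    rw [Measure.smul_apply, smul_eq_mul, Measure.restrict_apply' hAm]
    have hmain : μ (T ∩ A) ≤ ENNReal.ofReal c' * Metric.ediam T ^ v := by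
      rcases Set.eq_empty_or_nonempty (T ∩ A) with h0 | ⟨x, hxT, hxA⟩
      · rw [h0, measure_empty]; exact zero_le
      have hTfin : Metric.ediam T ≠ ∞ := ne_top_of_le_ne_top ENNReal.one_ne_top hT
      set d : ℝ := (Metric.ediam T).toReal with hd
      have hd0 : 0 ≤ d := ENNReal.toReal_nonneg
      have hd1 : d ≤ 1 := by
        rw [hd]; exact ENNReal.toReal_le_of_le_ofReal one_pos.le (by simpa using hT)
      have hdd : Metric.ediam T = ENNReal.ofReal d := (ENNReal.ofReal_toReal hTfin).symm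
      have hsub : ∀ ρ : ℝ, d ≤ ρ → T ∩ A ⊆ Metric.closedBall x ρ := by
        intro ρ hρ y hy
        rw [Metric.mem_closedBall]
        have h1 : edist y x ≤ Metric.ediam T := Metric.edist_le_ediam_of_mem hy.1 hxT
        rw [hdd, edist_dist] at h1
        exact ((ENNReal.ofReal_le_ofReal_iff hd0).1 h1).trans hρ
      rcases hd0.eq_or_lt with hd00 | hdpos
      · -- diameter zero: the point has measure zero
        have h1 : Tendsto (fun n : ℕ => ENNReal.ofReal (c * (rr n) ^ v)) atTop (𝓝 0) := by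
          have h2 : Tendsto (fun n : ℕ => c * (rr n) ^ v) atTop (𝓝 (c * 0)) := by
            apply Tendsto.const_mul
            have h3 : Tendsto rr atTop (𝓝 0) :=
              tendsto_pow_atTop_nhds_zero_of_lt_one (by norm_num) (by norm_num)
            have h4 := h3.rpow_const (p := v) (Or.inr hv.le)
            rwa [Real.zero_rpow hv.ne'] at h4
          rw [mul_zero] at h2
          have := ENNReal.tendsto_ofReal h2
          rwa [ENNReal.ofReal_zero] at this
        have h5 : μ (T ∩ A) ≤ 0 := by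
          refine ge_of_tendsto' h1 fun n => ?_
          exact (measure_mono (hsub (rr n) (by rw [← hd00]; exact (hrr0 n).le))).trans
            (hball x hxA n)
        exact h5.trans zero_le
      · obtain ⟨n, hn1, hn2⟩ := exists_nat_pow_near_of_lt_one hdpos hd1
          (show (0 : ℝ) < 1 / 2 by norm_num) (by norm_num)
        calc μ (T ∩ A) ≤ μ (Metric.closedBall x (rr n)) := measure_mono (hsub _ hn2)
          _ ≤ ENNReal.ofReal (c * (rr n) ^ v) := hball x hxA n
          _ ≤ ENNReal.ofReal (c' * d ^ v) := by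
              apply ENNReal.ofReal_le_ofReal
              have h6 : rr n ≤ 2 * d := by
                have : rr n = 2 * (1 / 2) ^ (n + 1) := by rw [hrr, pow_succ]; ring
                rw [this]
                linarith
              calc c * (rr n) ^ v ≤ c * (2 * d) ^ v := by
                    gcongr
                _ = c * 2 ^ v * d ^ v := by rw [Real.mul_rpow (by norm_num) hd0]; ring
                _ ≤ c' * d ^ v := by
                    gcongr
                    rw [hc']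
                    linarith
          _ = ENNReal.ofReal c' * Metric.ediam T ^ v := by
              rw [hdd, ENNReal.ofReal_mul hc'0.le, ENNReal.ofReal_rpow_of_pos hdpos]
    calc (ENNReal.ofReal c')⁻¹ * μ (T ∩ A)
        ≤ (ENNReal.ofReal c')⁻¹ * (ENNReal.ofReal c' * Metric.ediam T ^ v) := by gcongr
      _ = Metric.ediam T ^ v := by
          rw [← mul_assoc, ENNReal.inv_mul_cancel (by simpa using hc'0) ENNReal.ofReal_ne_top,
            one_mul]
  have hne : μH[((v.toNNReal : ℝ≥0) : ℝ)] E ≠ 0 := by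
    rw [Real.coe_toNNReal _ hv.le]
    intro h0
    have h1 := hν E
    rw [h0, Measure.smul_apply, smul_eq_mul, Measure.restrict_apply hE] at h1
    have h2 : E ∩ A = A := by
      rw [hA]; ext x; simp
    rw [h2] at h1
    have h3 : (ENNReal.ofReal c')⁻¹ * μ A = 0 := le_antisymm h1 zero_le
    rcases mul_eq_zero.1 h3 with h4 | h4
    · rw [ENNReal.inv_eq_zero] at h4
      exact ENNReal.ofReal_ne_top h4
    · exact hM h4
  exact le_dimH_of_hausdorffMeasure_ne_zero hne

/-- The Fourier dimension is at most the Hausdorff dimension. -/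
theorem dimF_le_dimH {E : Set ℝ} (hE : MeasurableSet E) : dimF E ≤ dimH E := by
  apply sSup_le
  rintro _ ⟨s, hs0, hs1, rfl, μ, hμ, hμE, C, hC⟩
  have hC0 : 0 ≤ C := by
    have := hC 1 one_ne_zero
    rw [abs_one, Real.one_rpow, mul_one] at this
    exact (norm_nonneg _).trans this
  -- it suffices to bound by all smaller exponents
  apply le_of_forall_lt
  intro a ha
  have ha' : a < ∞ := ha.trans_le le_top
  set v₀ : ℝ := a.toReal with hv₀
  have hav : a = ENNReal.ofReal v₀ := (ENNReal.ofReal_toReal ha'.ne).symm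
  have hv₀0 : 0 ≤ v₀ := ENNReal.toReal_nonneg
  have hv₀s : v₀ < s := by
    rw [hav] at ha
    exact (ENNReal.ofReal_lt_ofReal_iff_of_nonneg hv₀0).1 ha
  obtain ⟨u, hu1, hu2⟩ := exists_between hv₀s
  obtain ⟨v, hv1, hv2⟩ := exists_between hu1
  have hu : u < 1 := by linarith
  have hdec : ∀ ξ : ℝ, ξ ≠ 0 → ‖ft μ ξ‖ ^ 2 ≤ (C ^ 2 + 1) * |ξ| ^ (-u) := by
    intro ξ hξ
    have hξ' : 0 < |ξ| := abs_pos.2 hξ
    rcases le_total |ξ| 1 with h1 | h1
    · have h2 : 1 ≤ |ξ| ^ (-u) := Real.one_le_rpow_of_pos_of_le_one_of_nonpos hξ' h1 (by linarith)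
      have h3 : ‖ft μ ξ‖ ^ 2 ≤ 1 := pow_le_one₀ (norm_nonneg _) (ft_norm_le μ ξ)
      nlinarith [sq_nonneg C]
    · calc ‖ft μ ξ‖ ^ 2 ≤ (C * |ξ| ^ (-(s / 2))) ^ 2 := by
            gcongr
            exact hC ξ hξ
        _ = C ^ 2 * |ξ| ^ (-s) := by
            rw [mul_pow, ← Real.rpow_natCast (|ξ| ^ (-(s / 2))), ← Real.rpow_mul hξ'.le]
            congr 2
            push_cast
            ring
        _ ≤ C ^ 2 * |ξ| ^ (-u) := by
            gcongr
        _ ≤ (C ^ 2 + 1) * |ξ| ^ (-u) := by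
            gcongr
            linarith
  obtain ⟨K, hK0, hK⟩ := energy_le μ hu (by positivity) hdec
  have := le_dimH_aux μ hE hμE (lt_of_le_of_lt hv₀0 hv1) hv2 hK
  refine lt_of_lt_of_le ?_ this
  rw [hav]
  exact (ENNReal.ofReal_lt_ofReal_iff_of_nonneg hv₀0).2 hv1

end Pool.Agent.H25.FA
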