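import Pool.Agent.H25.FaTree
import Pool.Agent.H25.FaUp

/-!
# Fourier decay of the natural measure
-/

open MeasureTheory Filter ProbabilityTheory
open scoped ENNReal NNReal Topology

noncomputable section

namespace Pool.Agent.H25.FA

variable {N : ℕ} {ρ : ℝ} {b : Fin N → ℝ}

/-- the uniform measure on `Fin N` -/
def unif (N : ℕ) (hN : 0 < N) : Measure (Fin N) :=
  haveI : Nonempty (Fin N) := ⟨⟨0, hN⟩⟩
  (PMF.uniformOfFintype (Fin N)).toMeasure

instance (hN : 0 < N) : IsProbabilityMeasure (unif N hN) := by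
  unfold unif; infer_instance

lemma unif_singleton (hN : 0 < N) (i : Fin N) : unif N hN {i} = (N : ℝ≥0∞)⁻¹ := by
  have : Nonempty (Fin N) := ⟨⟨0, hN⟩⟩
  rw [unif, PMF.toMeasure_apply_singleton _ _ (MeasurableSet.singleton i)]
  simp

/-- the uniform product measure on addresses -/
def PP (N : ℕ) (hN : 0 < N) : Measure (ℕ → Fin N) := Measure.infinitePi fun _ => unif N hN

instance (hN : 0 < N) : IsProbabilityMeasure (PP N hN) := by
  unfold PP; infer_instance

lemma PP_pre (hN : 0 < N) (j : ℕ) (v : Fin j → Fin N) :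
    PP N hN {ω | pre ω j = v} = ((N : ℝ≥0∞) ^ j)⁻¹ := by
  have h1 : {ω : ℕ → Fin N | pre ω j = v} =
      Set.pi (Finset.range j : Finset ℕ) fun i => if h : i < j then {v ⟨i, h⟩} else Set.univ := by
    ext ω
    simp only [Set.mem_ofPred_eq, Set.mem_pi, Finset.coe_range, Set.mem_Iio]
    constructor
    · intro h i hi
      rw [dif_pos hi, ← h]
      rfl
    · intro h
      funext i
      have := h i i.2
      rw [dif_pos i.2] at this
      exact this
  rw [h1, PP, Measure.infinitePi_pi _ (fun i _ => by split_ifs <;> measurability)]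
  rw [Finset.prod_congr rfl (g := fun _ => (N : ℝ≥0∞)⁻¹)]
  · rw [Finset.prod_const, Finset.card_range, ENNReal.inv_pow]
  · intro i hi
    rw [dif_pos (Finset.mem_range.1 hi), unif_singleton]

lemma measurable_pre (j : ℕ) : Measurable fun ω : ℕ → Fin N => pre ω j := by
  unfold pre; fun_prop

lemma integral_level (hN : 0 < N) (j : ℕ) (g : (Fin j → Fin N) → ℂ) :
    ∫ ω, g (pre ω j) ∂(PP N hN) = ((N : ℂ) ^ j)⁻¹ * ∑ v, g v := by
  have h1 : ∫ ω, g (pre ω j) ∂(PP N hN) = ∫ v, g v ∂((PP N hN).map fun ω => pre ω j) := by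
    rw [integral_map (measurable_pre j).aemeasurable]
    exact (measurable_of_finite g).aestronglyMeasurable
  have : IsProbabilityMeasure ((PP N hN).map fun ω => pre ω j) :=
    Measure.isProbabilityMeasure_map (measurable_pre j).aemeasurable
  rw [h1, integral_fintype Integrable.of_finite, Finset.mul_sum]
  refine Finset.sum_congr rfl fun v _ => ?_
  have h2 : ((PP N hN).map fun ω => pre ω j).real {v} = ((N : ℝ) ^ j)⁻¹ := by
    rw [Measure.real, Measure.map_apply (measurable_pre j) (MeasurableSet.singleton v)]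
    have : (fun ω : ℕ → Fin N => pre ω j) ⁻¹' {v} = {ω | pre ω j = v} := rfl
    rw [this, PP_pre]
    simp
  rw [h2, Complex.real_smul]
  push_cast
  rfl

/-- the natural measure -/
def mu (ρ : ℝ) (b : Fin N → ℝ) (hN : 0 < N) : Measure ℝ := (PP N hN).map (pt ρ b hN)

lemma measurable_pt (hN : 0 < N) (H : Hyp ρ b) : Measurable (pt ρ b hN) :=
  (continuous_pt hN H).measurable

lemma isProb_mu (hN : 0 < N) (H : Hyp ρ b) : IsProbabilityMeasure (mu ρ b hN) :=
  Measure.isProbabilityMeasure_map (measurable_pt hN H).aemeasurable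

lemma ft_mu (hN : 0 < N) (H : Hyp ρ b) (ξ : ℝ) :
    ft (mu ρ b hN) ξ = ∫ ω, ee (2 * Real.pi * ξ * pt ρ b hN ω) ∂(PP N hN) := by
  have h1 : ∀ x : ℝ, Complex.exp (-(2 * Real.pi * ξ * x : ℝ) * Complex.I) =
      ee (2 * Real.pi * ξ * x) := fun x => rfl
  simp only [ft, mu, h1]
  rw [integral_map (measurable_pt hN H).aemeasurable]
  have := continuous_ee
  exact Continuous.aestronglyMeasurable (by fun_prop)

lemma integrable_ee (hN : 0 < N) {f : (ℕ → Fin N) → ℝ} (hf : Measurable f) :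
    Integrable (fun ω => ee (f ω)) (PP N hN) := by
  refine Integrable.of_bound (continuous_ee.measurable.comp hf).aestronglyMeasurable 1 ?_
  filter_upwards with ω
  exact (norm_ee _).le

lemma ft_lip (hN : 0 < N) (H : Hyp ρ b) (ξ η : ℝ) :
    ‖ft (mu ρ b hN) ξ - ft (mu ρ b hN) η‖ ≤ 2 * Real.pi * |ξ - η| := by
  have hm := measurable_pt hN H
  rw [ft_mu hN H, ft_mu hN H, ← integral_sub (integrable_ee hN (by fun_prop))
    (integrable_ee hN (by fun_prop))]
  have := norm_integral_le_of_norm_le_const (μ := PP N hN)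
    (f := fun ω => ee (2 * Real.pi * ξ * pt ρ b hN ω) - ee (2 * Real.pi * η * pt ρ b hN ω))
    (C := 2 * Real.pi * |ξ - η|) (Eventually.of_forall fun ω => by
      refine (norm_ee_sub_le _ _).trans ?_
      have h1 : 2 * Real.pi * ξ * pt ρ b hN ω - 2 * Real.pi * η * pt ρ b hN ω =
        2 * Real.pi * (ξ - η) * pt ρ b hN ω := by ring
      have h2 := pt_mem hN H ω
      rw [h1, abs_mul, abs_mul, abs_of_pos (by positivity : 0 < 2 * Real.pi), abs_of_nonneg h2.1]
      exact mul_le_of_le_one_right (by positivity) h2.2)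
  simpa using this

lemma ft_level (hN : 0 < N) (H : Hyp ρ b) (j m : ℕ) :
    ‖ft (mu ρ b hN) (Real.sqrt m) - ((N : ℂ) ^ j)⁻¹ * SS (pos ρ b hN j) (fr m)‖ ≤
      fr m * ρ ^ j := by
  have hm := measurable_pt hN H
  have hfr : 0 ≤ fr m := by unfold fr; positivity
  have hx : Measurable (xx ρ b hN j) := by
    have : xx ρ b hN j = (pos ρ b hN j) ∘ fun ω => pre ω j := rfl
    rw [this]
    exact (measurable_of_finite _).comp (measurable_pre j)
  have h1 : ((N : ℂ) ^ j)⁻¹ * SS (pos ρ b hN j) (fr m) =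
      ∫ ω, ee (fr m * xx ρ b hN j ω) ∂(PP N hN) := by
    rw [SS, ← integral_level hN j]
    rfl
  rw [h1, ft_mu hN H, ← integral_sub (integrable_ee hN (by fun_prop))
    (integrable_ee hN (by fun_prop))]
  have := norm_integral_le_of_norm_le_const (μ := PP N hN)
    (f := fun ω => ee (2 * Real.pi * Real.sqrt m * pt ρ b hN ω) - ee (fr m * xx ρ b hN j ω))
    (C := fr m * ρ ^ j) (Eventually.of_forall fun ω => by
      refine (norm_ee_sub_le _ _).trans ?_
      have h1 : 2 * Real.pi * Real.sqrt m * pt ρ b hN ω - fr m * xx ρ b hN j ω =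
        fr m * (pt ρ b hN ω - xx ρ b hN j ω) := by rw [fr]; ring
      have h2 := pt_ge_xx hN H j ω
      have h3 := pt_le_xx hN H j ω
      rw [h1, abs_mul, abs_of_nonneg hfr, abs_of_nonneg (by linarith)]
      gcongr
      linarith)
  simpa using this

/-- normalised exponential sums -/
def aa (ρ : ℝ) (b : Fin N → ℝ) (hN : 0 < N) (m j : ℕ) : ℝ :=
  ‖SS (pos ρ b hN j) (fr m)‖ / (N : ℝ) ^ j

lemma aa_step (hN : 0 < N) (m j : ℕ) :
    aa ρ b hN m (j + 1) ≤ ‖ww (fr m * ρ ^ (j + 1))‖ * aa ρ b hN m j +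
      2 * bb m * (1 / Real.sqrt N) ^ (j + 1) := by
  have hN' : (0 : ℝ) < N := by exact_mod_cast hN
  have h1 := SS_step (ρ := ρ) (b := b) hN j m
  have h2 : Real.sqrt ((N : ℝ) ^ (j + 1)) / (N : ℝ) ^ (j + 1) = (1 / Real.sqrt N) ^ (j + 1) := by
    have h3 : Real.sqrt ((N : ℝ) ^ (j + 1)) = Real.sqrt N ^ (j + 1) := by
      rw [Real.sqrt_eq_iff_mul_self_eq (by positivity) (by positivity), ← mul_pow,
        Real.mul_self_sqrt hN'.le]
    have h4 : (N : ℝ) ^ (j + 1) = Real.sqrt N ^ (j + 1) * Real.sqrt N ^ (j + 1) := by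
      rw [← mul_pow, Real.mul_self_sqrt hN'.le]
    rw [h3, h4, one_div_pow]
    have : Real.sqrt N ^ (j + 1) ≠ 0 := by positivity
    field_simp
  rw [aa, aa, div_le_iff₀ (by positivity)]
  refine h1.trans (le_of_eq ?_)
  rw [← h2]
  have : (N : ℝ) ^ j ≠ 0 := by positivity
  field_simp
  ring

lemma aa_zero (hN : 0 < N) (m : ℕ) : aa ρ b hN m 0 = 1 := by
  simp [aa, SS, pos, ee_zero]

lemma aa_high (hN : 0 < N) (hρ0 : 0 < ρ) (hρ1 : ρ < 1) (m j : ℕ)
    (hj : 4 * Real.sqrt N ≤ fr m * ρ ^ j) :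
    aa ρ b hN m j ≤ (1 / Real.sqrt N) ^ j * (1 + 4 * bb m) := by
  have hN' : (0 : ℝ) < N := by exact_mod_cast hN
  have hsN : 0 < Real.sqrt N := Real.sqrt_pos.2 hN'
  have hb := bb_nonneg m
  have hfr : 0 ≤ fr m := by unfold fr; positivity
  induction j with
  | zero =>
    rw [aa_zero]
    simpa using hb
  | succ j ih =>
    have h1 : fr m * ρ ^ (j + 1) ≤ fr m * ρ ^ j := by
      rw [pow_succ]
      gcongr
      exact mul_le_of_le_one_right (by positivity) hρ1.le
    have h2 := ih (hj.trans h1)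
    have h3 : 0 < fr m * ρ ^ (j + 1) := lt_of_lt_of_le (by positivity) hj
    have h4 : ‖ww (fr m * ρ ^ (j + 1))‖ ≤ 1 / (2 * Real.sqrt N) := by
      refine (norm_ww_le h3.ne').trans ?_
      rw [abs_of_pos h3]
      calc 2 / (fr m * ρ ^ (j + 1)) ≤ 2 / (4 * Real.sqrt N) := by gcongr
        _ = 1 / (2 * Real.sqrt N) := by field_simp; norm_num
    have h0 : 0 ≤ aa ρ b hN m j := by unfold aa; positivity
    calc aa ρ b hN m (j + 1) ≤ _ := aa_step hN m j
      _ ≤ 1 / (2 * Real.sqrt N) * ((1 / Real.sqrt N) ^ j * (1 + 4 * bb m)) +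
          2 * bb m * (1 / Real.sqrt N) ^ (j + 1) := by gcongr
      _ = (1 / Real.sqrt N) ^ (j + 1) * (1 / 2 + 4 * bb m) := by
          rw [pow_succ]; field_simp; ring
      _ ≤ (1 / Real.sqrt N) ^ (j + 1) * (1 + 4 * bb m) := by
          gcongr
          norm_num

lemma aa_low (hN : 4 ≤ N) (m J j : ℕ) (hJ : J ≤ j) :
    aa ρ b (by omega) m j + 2 * bb m * (1 / Real.sqrt N) ^ j ≤
      aa ρ b (by omega) m J + 2 * bb m * (1 / Real.sqrt N) ^ J := by
  have hN' : (0 : ℝ) < N := by exact_mod_cast (by omega : 0 < N)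
  have hsN : 0 < Real.sqrt N := Real.sqrt_pos.2 hN'
  have hb := bb_nonneg m
  have hq : 1 / Real.sqrt N ≤ 1 / 2 := by
    gcongr
    have : (2 : ℝ) = Real.sqrt 4 := by
      rw [show (4 : ℝ) = 2 ^ 2 by norm_num, Real.sqrt_sq (by norm_num)]
    rw [this]
    apply Real.sqrt_le_sqrt
    exact_mod_cast hN
  induction j, hJ using Nat.le_induction with
  | base => exact le_rfl
  | succ j hj ih =>
    refine le_trans ?_ ih
    have h0 : 0 ≤ aa ρ b (by omega : 0 < N) m j := by unfold aa; positivity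
    have h1 := aa_step (ρ := ρ) (b := b) (by omega : 0 < N) m j
    have h2 : ‖ww (fr m * ρ ^ (j + 1))‖ * aa ρ b (by omega : 0 < N) m j ≤
        aa ρ b (by omega : 0 < N) m j := mul_le_of_le_one_left h0 (norm_ww_le_one _)
    have h3 : (1 / Real.sqrt N) ^ (j + 1) ≤ (1 / Real.sqrt N) ^ j * (1 / 2) := by
      rw [pow_succ]
      gcongr
    have h4 : 4 * bb m * (1 / Real.sqrt N) ^ (j + 1) ≤
        4 * bb m * ((1 / Real.sqrt N) ^ j * (1 / 2)) := by gcongr
    linarith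

lemma ft_le_of_high (hN : 4 ≤ N) (H : Hyp ρ b) (m J : ℕ)
    (hJ : 4 * Real.sqrt N ≤ fr m * ρ ^ J) :
    ‖ft (mu ρ b (by omega : 0 < N)) (Real.sqrt m)‖ ≤ (1 / Real.sqrt N) ^ J * (1 + 6 * bb m) := by
  have hN0 : 0 < N := by omega
  have hN' : (0 : ℝ) < N := by exact_mod_cast hN0
  have hsN : 0 < Real.sqrt N := Real.sqrt_pos.2 hN'
  have hb := bb_nonneg m
  have h1 := aa_high (b := b) hN0 H.pos H.lt m J hJ
  have h2 : ∀ j ≥ J, ‖ft (mu ρ b hN0) (Real.sqrt m)‖ ≤
      fr m * ρ ^ j + (1 / Real.sqrt N) ^ J * (1 + 6 * bb m) := by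
    intro j hj
    have h3 := ft_level hN0 H j m
    have h4 := aa_low (ρ := ρ) (b := b) hN m J j hj
    have h5 : ‖((N : ℂ) ^ j)⁻¹ * SS (pos ρ b hN0 j) (fr m)‖ = aa ρ b hN0 m j := by
      rw [aa, norm_mul, norm_inv, norm_pow, Complex.norm_natCast, div_eq_inv_mul]
    have h6 : ‖ft (mu ρ b hN0) (Real.sqrt m)‖ ≤
        ‖ft (mu ρ b hN0) (Real.sqrt m) - ((N : ℂ) ^ j)⁻¹ * SS (pos ρ b hN0 j) (fr m)‖ +
        ‖((N : ℂ) ^ j)⁻¹ * SS (pos ρ b hN0 j) (fr m)‖ := by
      have := norm_add_le (ft (mu ρ b hN0) (Real.sqrt m) -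
        ((N : ℂ) ^ j)⁻¹ * SS (pos ρ b hN0 j) (fr m)) (((N : ℂ) ^ j)⁻¹ * SS (pos ρ b hN0 j) (fr m))
      rwa [sub_add_cancel] at this
    rw [h5] at h6
    have h7 : 0 ≤ 2 * bb m * (1 / Real.sqrt N) ^ j := by positivity
    have h8 : (1 / Real.sqrt N) ^ J * (1 + 6 * bb m) =
      (1 / Real.sqrt N) ^ J * (1 + 4 * bb m) + 2 * bb m * (1 / Real.sqrt N) ^ J := by ring
    rw [h8]
    linarith
  have h3 : Tendsto (fun j : ℕ => fr m * ρ ^ j + (1 / Real.sqrt N) ^ J * (1 + 6 * bb m)) atTop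
      (𝓝 (fr m * 0 + (1 / Real.sqrt N) ^ J * (1 + 6 * bb m))) :=
    ((tendsto_pow_atTop_nhds_zero_of_lt_one H.pos.le H.lt).const_mul _).add_const _
  rw [mul_zero, zero_add] at h3
  exact ge_of_tendsto h3 (eventually_atTop.2 ⟨J, h2⟩)

/-- decay on the grid -/
lemma ft_grid (hN : 4 ≤ N) (H : Hyp ρ b) {s : ℝ} (hs : 0 ≤ s) (hNs : 1 ≤ N * ρ ^ s) (m : ℕ)
    (hm : 1 ≤ m) :
    ‖ft (mu ρ b (by omega : 0 < N)) (Real.sqrt m)‖ ≤
      (4 * Real.sqrt N / ρ) ^ (s / 2) * (1 + 6 * bb m) * fr m ^ (-(s / 2)) := by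
  have hN0 : 0 < N := by omega
  have hN' : (0 : ℝ) < N := by exact_mod_cast hN0
  have hsN : 0 < Real.sqrt N := Real.sqrt_pos.2 hN'
  have hb := bb_nonneg m
  have hρ := H.pos
  have hρ1 := H.lt
  have : IsProbabilityMeasure (mu ρ b hN0) := isProb_mu hN0 H
  have hfr : 0 < fr m := by
    have : (0 : ℝ) < m := by exact_mod_cast hm
    unfold fr; positivity
  have hkey : (4 * Real.sqrt N / ρ) ^ (s / 2) * fr m ^ (-(s / 2)) =
      (4 * Real.sqrt N / (fr m * ρ)) ^ (s / 2) := by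
    rw [Real.rpow_neg hfr.le, ← Real.inv_rpow hfr.le, ← Real.mul_rpow (by positivity)
      (by positivity)]
    congr 1
    field_simp
  have hgoal : (4 * Real.sqrt N / ρ) ^ (s / 2) * (1 + 6 * bb m) * fr m ^ (-(s / 2)) =
      (4 * Real.sqrt N / (fr m * ρ)) ^ (s / 2) * (1 + 6 * bb m) := by
    rw [← hkey]; ring
  rw [hgoal]
  rcases le_or_gt (4 * Real.sqrt N) (fr m) with h | h
  · have h1 : 4 * Real.sqrt N / fr m ≤ 1 := by rwa [div_le_one hfr]
    obtain ⟨J, hJ1, hJ2⟩ := exists_nat_pow_near_of_lt_one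
      (show 0 < 4 * Real.sqrt N / fr m by positivity) h1 hρ hρ1
    have h2 : 4 * Real.sqrt N ≤ fr m * ρ ^ J := by
      rw [div_le_iff₀ hfr] at hJ2
      linarith
    refine (ft_le_of_high hN H m J h2).trans ?_
    have h3 : (1 / Real.sqrt N) ≤ ρ ^ (s / 2) := by
      have h4 : (1 / Real.sqrt N) ^ 2 ≤ (ρ ^ (s / 2)) ^ 2 := by
        rw [div_pow, one_pow, Real.sq_sqrt hN'.le, ← Real.rpow_natCast (ρ ^ (s / 2)),
          ← Real.rpow_mul hρ.le, div_le_iff₀ hN']
        have : s / 2 * ((2 : ℕ) : ℝ) = s := by push_cast; ring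
        rw [this]
        linarith
      exact (pow_le_pow_iff_left₀ (by positivity) (by positivity) two_ne_zero).1 h4
    have h5 : (1 / Real.sqrt N) ^ J ≤ (4 * Real.sqrt N / (fr m * ρ)) ^ (s / 2) := by
      calc (1 / Real.sqrt N) ^ J ≤ (ρ ^ (s / 2)) ^ J := by gcongr
        _ = (ρ ^ J) ^ (s / 2) := by
            rw [← Real.rpow_natCast, ← Real.rpow_natCast, ← Real.rpow_mul hρ.le,
              ← Real.rpow_mul hρ.le, mul_comm]
        _ ≤ (4 * Real.sqrt N / (fr m * ρ)) ^ (s / 2) := by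
            apply Real.rpow_le_rpow (by positivity) _ (by positivity)
            rw [← div_div, le_div_iff₀ hρ, ← pow_succ]
            exact hJ1.le
    gcongr
  · have h1 : 1 ≤ (4 * Real.sqrt N / (fr m * ρ)) ^ (s / 2) := by
      apply Real.one_le_rpow _ (by positivity)
      rw [one_le_div (by positivity)]
      have : fr m * ρ ≤ fr m := mul_le_of_le_one_right hfr.le hρ1.le
      linarith
    calc ‖ft (mu ρ b hN0) (Real.sqrt m)‖ ≤ 1 := ft_norm_le _ _
      _ ≤ 1 * (1 + 6 * bb m) := by linarith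
      _ ≤ _ := by gcongr

end Pool.Agent.H25.FA
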