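import Mathlib

/-!
# Sets avoiding approximate arithmetic progressions, Fourier dimension: definitions
-/

open MeasureTheory
open scoped ENNReal

namespace Pool.Agent.H25.FA

/-- `E` `ε`-avoids `k`-term arithmetic progressions: every progression `a, a + λ, …, a + (k-1)λ`
with `λ > 0` has a term `p` such that `|x - p| ≥ ε λ` for all `x ∈ E`. -/
def Avoids (k : ℕ) (ε : ℝ) (E : Set ℝ) : Prop :=
  ∀ a lam : ℝ, 0 < lam → ∃ i : ℕ, i < k ∧ ∀ x ∈ E, ε * lam ≤ |x - (a + i * lam)|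

/-- The Fourier transform `ξ ↦ ∫ exp(-2πi ξ x) dμ(x)` of a measure on the line. -/
noncomputable def ft (μ : Measure ℝ) (ξ : ℝ) : ℂ :=
  ∫ x, Complex.exp (-(2 * Real.pi * ξ * x : ℝ) * Complex.I) ∂μ

/-- The Fourier dimension of a set `E ⊆ ℝ`: the supremum of all `s ∈ [0, 1]` such that some Borel
probability measure `μ` with `μ(E) = 1` satisfies `|μ̂(ξ)| ≤ C |ξ|^(-s/2)` for all `ξ ≠ 0`. -/
noncomputable def dimF (E : Set ℝ) : ℝ≥0∞ :=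
  sSup {d | ∃ s : ℝ, 0 ≤ s ∧ s ≤ 1 ∧ d = ENNReal.ofReal s ∧
    ∃ μ : Measure ℝ, IsProbabilityMeasure μ ∧ μ E = 1 ∧
      ∃ C : ℝ, ∀ ξ : ℝ, ξ ≠ 0 → ‖ft μ ξ‖ ≤ C * |ξ| ^ (-(s / 2))}

lemma Avoids.mono {k : ℕ} {ε : ℝ} {E F : Set ℝ} (hE : Avoids k ε E) (h : F ⊆ E) :
    Avoids k ε F := by
  intro a lam hlam
  obtain ⟨i, hi, H⟩ := hE a lam hlam
  exact ⟨i, hi, fun x hx => H x (h hx)⟩

end Pool.Agent.H25.FA
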