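import Pool.Agent.H25.FaDefs

/-!
# Random translations: one level
-/

open MeasureTheory Filter ProbabilityTheory
open scoped ENNReal NNReal Topology

noncomputable section

namespace Pool.Agent.H25.FA

/-- `exp(-i x)` -/
def ee (x : ℝ) : ℂ := Complex.exp (-(x : ℂ) * Complex.I)

lemma norm_ee (x : ℝ) : ‖ee x‖ = 1 := by
  rw [ee, ← Complex.ofReal_neg, Complex.norm_exp_ofReal_mul_I]

lemma ee_add (x y : ℝ) : ee (x + y) = ee x * ee y := by
  rw [ee, ee, ee, ← Complex.exp_add]
  congr 1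
  push_cast
  ring

lemma ee_zero : ee 0 = 1 := by simp [ee]

lemma continuous_ee : Continuous ee := by unfold ee; fun_prop

lemma norm_ee_sub_le (x y : ℝ) : ‖ee x - ee y‖ ≤ |x - y| := by
  have h1 : ee x - ee y = ee y * (ee (x - y) - 1) := by
    rw [mul_sub, mul_one, ← ee_add]
    congr 2
    ring
  rw [h1, norm_mul, norm_ee, one_mul, ee]
  have h2 := Real.norm_exp_I_mul_ofReal_sub_one_le (x := -(x - y))
  rw [Real.norm_eq_abs, abs_neg] at h2
  refine le_trans (le_of_eq ?_) h2
  congr 2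
  congr 1
  push_cast
  ring

/-- the uniform distribution on `[0, 1]` -/
def P0 : Measure ℝ := volume.restrict (Set.Icc 0 1)

instance : IsProbabilityMeasure P0 := ⟨by simp [P0]⟩

/-- the characteristic function of the uniform distribution -/
def ww (η : ℝ) : ℂ := ∫ t, ee (η * t) ∂P0

lemma norm_ww_le_one (η : ℝ) : ‖ww η‖ ≤ 1 := by
  refine (norm_integral_le_integral_norm _).trans ?_
  simp [norm_ee]

lemma norm_ww_le {η : ℝ} (hη : η ≠ 0) : ‖ww η‖ ≤ 2 / |η| := by
  have h1 : ww η = ∫ t in (0 : ℝ)..1, Complex.exp ((-(η : ℂ) * Complex.I) * t) := by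
    rw [ww, P0, intervalIntegral.integral_of_le zero_le_one, integral_Icc_eq_integral_Ioc]
    refine integral_congr_ae (Eventually.of_forall fun t => ?_)
    simp only [ee]
    congr 1
    push_cast
    ring
  have hc : (-(η : ℂ) * Complex.I) ≠ 0 := by
    simp [hη]
  rw [h1, integral_exp_mul_complex hc, norm_div]
  have h2 : ‖(-(η : ℂ) * Complex.I)‖ = |η| := by simp
  rw [h2]
  gcongr
  refine (norm_sub_le _ _).trans ?_
  have h3 : ∀ b : ℝ, ‖Complex.exp ((-(η : ℂ) * Complex.I) * b)‖ = 1 := by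
    intro b
    have : (-(η : ℂ) * Complex.I) * b = ((-(η * b) : ℝ) : ℂ) * Complex.I := by push_cast; ring
    rw [this, Complex.norm_exp_ofReal_mul_I]
  rw [h3, h3]
  norm_num

variable {V : Type} [Fintype V]

lemma hoeff_one (f : V → ℝ → ℝ) (hf : ∀ v, Measurable (f v)) (hb : ∀ v x, f v x ∈ Set.Icc (-1) 1)
    {lam : ℝ} (hl : 0 ≤ lam) :
    (Measure.pi fun _ : V => P0).real {τ | lam ≤ ∑ v, (f v (τ v) - ∫ x, f v x ∂P0)} ≤
      Real.exp (-lam ^ 2 / (2 * Fintype.card V)) := by
  have hind : iIndepFun (fun v (τ : V → ℝ) => f v (τ v) - ∫ x, f v x ∂P0)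
      (Measure.pi fun _ : V => P0) :=
    iIndepFun_pi (X := fun v x => f v x - ∫ x, f v x ∂P0)
      fun v => ((hf v).sub_const _).aemeasurable
  have hsub : ∀ v ∈ (Finset.univ : Finset V),
      HasSubgaussianMGF (fun τ : V → ℝ => f v (τ v) - ∫ x, f v x ∂P0) 1
        (Measure.pi fun _ : V => P0) := by
    intro v _
    have h1 := hasSubgaussianMGF_of_mem_Icc (μ := Measure.pi fun _ : V => P0)
      (X := fun τ : V → ℝ => f v (τ v)) (a := -1) (b := 1)
      ((hf v).comp (measurable_pi_apply v)).aemeasurable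
      (Eventually.of_forall fun τ => hb v _)
    have h2 : ∫ τ : V → ℝ, f v (τ v) ∂(Measure.pi fun _ : V => P0) = ∫ x, f v x ∂P0 := by
      have h3 := (measurePreserving_eval (fun _ : V => P0) v).map_eq
      have h4 := integral_map (μ := Measure.pi fun _ : V => P0) (f := f v)
        (measurable_pi_apply v).aemeasurable (hf v).aestronglyMeasurable
      have h5 : Function.eval v = fun τ : V → ℝ => τ v := rfl
      rw [h5] at h3
      rw [h3] at h4
      exact h4.symm
    rw [h2] at h1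
    have h6 : (‖(1 : ℝ) - -1‖₊ / 2) ^ 2 = 1 := by
      have : (‖(1 : ℝ) - -1‖₊ : ℝ≥0) = 2 := by
        ext; norm_num
      rw [this]
      norm_num
    rw [h6] at h1
    exact h1
  have := HasSubgaussianMGF.measure_sum_ge_le_of_iIndepFun hind hsub hl
  simpa using this

/-- the four directions -/
def dir4 : Fin 4 → ℂ := ![1, -1, -Complex.I, Complex.I]

lemma norm_dir4 (i : Fin 4) : ‖dir4 i‖ = 1 := by
  fin_cases i <;> simp [dir4]

lemma norm_le_of_dir4 {z : ℂ} {b : ℝ} (h : ∀ i, (dir4 i * z).re ≤ b) : ‖z‖ ≤ 2 * b := by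
  have h0 := h 0
  have h1 := h 1
  have h2 := h 2
  have h3 := h 3
  simp only [dir4, Matrix.cons_val_zero, Matrix.cons_val_one, Matrix.cons_val, one_mul, neg_mul,
    Complex.neg_re, Complex.mul_re, Complex.I_re, Complex.I_im, zero_mul, zero_sub, one_mul,
    neg_neg] at h0 h1 h2 h3
  have h4 := Complex.norm_le_abs_re_add_abs_im z
  have h5 : |z.re| ≤ b := abs_le.2 ⟨by linarith, h0⟩
  have h6 : |z.im| ≤ b := abs_le.2 ⟨by linarith, h2⟩
  linarith

/-- the size of the allowed fluctuation at the `m`-th frequency -/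
def bb (m : ℕ) : ℝ := Real.sqrt (8 * (1 + Real.log (m + 2)))

lemma bb_sq (m : ℕ) : bb m ^ 2 = 8 * (1 + Real.log (m + 2)) := by
  rw [bb, Real.sq_sqrt]
  have : 0 ≤ Real.log ((m : ℝ) + 2) := Real.log_nonneg (by linarith [Nat.cast_nonneg (α := ℝ) m])
  positivity

lemma bb_nonneg (m : ℕ) : 0 ≤ bb m := Real.sqrt_nonneg _

lemma exp_bb (m : ℕ) : Real.exp (-(bb m ^ 2) / 2) ≤ Real.exp (-4) / ((m + 1) * (m + 2)) := by
  rw [bb_sq]
  have hm : (0 : ℝ) ≤ m := Nat.cast_nonneg m
  have h1 : -(8 * (1 + Real.log (m + 2))) / 2 = -4 + -(4 * Real.log (m + 2)) := by ring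
  have hl : 0 ≤ Real.log ((m : ℝ) + 2) := Real.log_nonneg (by linarith)
  have h2 : Real.exp (-(4 * Real.log (m + 2))) ≤ 1 / ((m + 1) * (m + 2)) := by
    calc Real.exp (-(4 * Real.log (m + 2))) ≤ Real.exp (-(2 * Real.log (m + 2))) := by
          apply Real.exp_le_exp.2; linarith
      _ = 1 / ((m + 2) * (m + 2)) := by
          rw [Real.exp_neg, two_mul, Real.exp_add, Real.exp_log (by linarith), one_div]
      _ ≤ 1 / ((m + 1) * (m + 2)) := by
          gcongr
          norm_num
  rw [h1, Real.exp_add]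
  calc Real.exp (-4) * Real.exp (-(4 * Real.log (m + 2)))
      ≤ Real.exp (-4) * (1 / ((m + 1) * (m + 2))) := by gcongr
    _ = _ := by ring

lemma sum_tele (M : ℕ) : ∑ m ∈ Finset.range M, (1 : ℝ) / (((m : ℝ) + 1) * (m + 2)) =
    1 - 1 / ((M : ℝ) + 1) := by
  induction M with
  | zero => simp
  | succ M ih =>
    rw [Finset.sum_range_succ, ih]
    push_cast
    field_simp
    ring

theorem level_bound [Nonempty V] (c : ℕ → V → ℂ) (hc : ∀ m v, ‖c m v‖ ≤ 1) (η : ℕ → ℝ) :
    ∃ τ : V → ℝ, (∀ v, τ v ∈ Set.Icc (0 : ℝ) 1) ∧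
      ∀ m, ‖∑ v, c m v * (ee (η m * τ v) - ww (η m))‖ ≤
        2 * (Real.sqrt (Fintype.card V) * bb m) := by
  set P : Measure (V → ℝ) := Measure.pi fun _ : V => P0 with hP
  set n : ℝ := (Fintype.card V : ℝ) with hn
  have hn0 : 0 < n := by
    rw [hn]; exact_mod_cast Fintype.card_pos
  set f : ℕ → Fin 4 → V → ℝ → ℝ := fun m i v t => (dir4 i * (c m v * ee (η m * t))).re with hf
  have hfm : ∀ m i v, Measurable (f m i v) := by
    intro m i v
    have := continuous_ee
    apply Continuous.measurable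
    simp only [hf]
    fun_prop
  have hfb : ∀ m i v t, f m i v t ∈ Set.Icc (-1) 1 := by
    intro m i v t
    have h1 : |f m i v t| ≤ 1 := by
      refine (Complex.abs_re_le_norm _).trans ?_
      rw [norm_mul, norm_mul, norm_dir4, norm_ee, one_mul, mul_one]
      exact hc m v
    exact abs_le.1 h1
  have hfint : ∀ m i v, ∫ t, f m i v t ∂P0 = (dir4 i * (c m v * ww (η m))).re := by
    intro m i v
    have hint : Integrable (fun t => dir4 i * (c m v * ee (η m * t))) P0 := by
      refine Integrable.of_bound ?_ 1 ?_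
      · have := continuous_ee
        apply Continuous.aestronglyMeasurable
        fun_prop
      · filter_upwards with t
        rw [norm_mul, norm_mul, norm_dir4, norm_ee, one_mul, mul_one]
        exact hc m v
    simp only [hf]
    have h1 := integral_re hint
    simp only [RCLike.re_eq_complex_re] at h1
    rw [h1, integral_const_mul, integral_const_mul]
    rfl
  set B : ℕ → Set (V → ℝ) := fun m => ⋃ i : Fin 4,
    {τ | Real.sqrt n * bb m ≤ ∑ v, (f m i v (τ v) - ∫ t, f m i v t ∂P0)} with hB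
  have hBm : ∀ m, P (B m) ≤ ENNReal.ofReal (4 * (Real.exp (-4) / ((m + 1) * (m + 2)))) := by
    intro m
    refine (measure_iUnion_le _).trans ?_
    rw [tsum_fintype]
    have h1 : ∀ i : Fin 4, P {τ | Real.sqrt n * bb m ≤
        ∑ v, (f m i v (τ v) - ∫ t, f m i v t ∂P0)} ≤
        ENNReal.ofReal (Real.exp (-4) / ((m + 1) * (m + 2))) := by
      intro i
      have h2 := hoeff_one (f m i) (hfm m i) (hfb m i) (lam := Real.sqrt n * bb m)
        (mul_nonneg (Real.sqrt_nonneg _) (bb_nonneg m))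
      rw [← ENNReal.ofReal_toReal (measure_ne_top P _)]
      apply ENNReal.ofReal_le_ofReal
      refine h2.trans ?_
      rw [mul_pow, Real.sq_sqrt hn0.le, ← hn]
      have h3 : -(n * bb m ^ 2) / (2 * n) = -(bb m ^ 2) / 2 := by field_simp
      rw [h3]
      exact exp_bb m
    refine (Finset.sum_le_sum fun i _ => h1 i).trans ?_
    rw [Finset.sum_const, Finset.card_univ, Fintype.card_fin, nsmul_eq_mul,
      ENNReal.ofReal_mul (by norm_num)]
    norm_num
  set Z : Set (V → ℝ) := {τ | ¬ ∀ v, τ v ∈ Set.Icc (0 : ℝ) 1} with hZ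
  have hZ0 : P Z = 0 := by
    have h1 : ∀ᵐ τ ∂P, ∀ v, τ v ∈ Set.Icc (0 : ℝ) 1 := by
      rw [ae_all_iff]
      intro v
      have h2 : ∀ᵐ t ∂P0, t ∈ Set.Icc (0 : ℝ) 1 := ae_restrict_mem measurableSet_Icc
      exact (measurePreserving_eval (fun _ : V => P0) v).quasiMeasurePreserving.ae h2
    exact h1
  have htot : P ((⋃ m, B m) ∪ Z) < 1 := by
    calc P ((⋃ m, B m) ∪ Z) ≤ P (⋃ m, B m) + P Z := measure_union_le _ _
      _ = P (⋃ m, B m) := by rw [hZ0, add_zero]
      _ ≤ ∑' m, P (B m) := measure_iUnion_le _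
      _ ≤ ∑' m : ℕ, ENNReal.ofReal (4 * (Real.exp (-4) / ((m + 1) * (m + 2)))) :=
          ENNReal.tsum_le_tsum hBm
      _ ≤ ENNReal.ofReal (4 * Real.exp (-4)) := by
          apply ENNReal.tsum_le_of_sum_range_le
          intro M
          rw [← ENNReal.ofReal_sum_of_nonneg (fun m _ => by positivity)]
          apply ENNReal.ofReal_le_ofReal
          have h1 : ∑ m ∈ Finset.range M, 4 * (Real.exp (-4) / (((m : ℝ) + 1) * (m + 2))) =
              4 * Real.exp (-4) * ∑ m ∈ Finset.range M, (1 : ℝ) / (((m : ℝ) + 1) * (m + 2)) := by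
            rw [Finset.mul_sum]
            refine Finset.sum_congr rfl fun m _ => ?_
            ring
          rw [h1, sum_tele]
          have h2 : 0 ≤ 1 / ((M : ℝ) + 1) := by positivity
          have h3 : 0 < Real.exp (-4) := Real.exp_pos _
          nlinarith
      _ < 1 := by
          rw [← ENNReal.ofReal_one]
          rw [ENNReal.ofReal_lt_ofReal_iff one_pos]
          have h1 : (4 : ℝ) + 1 ≤ Real.exp 4 := Real.add_one_le_exp 4
          rw [Real.exp_neg]
          have h2 : 0 < Real.exp 4 := Real.exp_pos _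
          rw [← div_eq_mul_inv, div_lt_one h2]
          linarith
  obtain ⟨τ, hτ⟩ : ∃ τ, τ ∉ (⋃ m, B m) ∪ Z := by
    by_contra hcon
    push Not at hcon
    have : (⋃ m, B m) ∪ Z = Set.univ := Set.eq_univ_of_forall hcon
    rw [this, measure_univ] at htot
    exact lt_irrefl _ htot
  rw [Set.mem_union, not_or] at hτ
  refine ⟨τ, by_contra hτ.2, fun m => ?_⟩
  have h1 : τ ∉ B m := fun h => hτ.1 (Set.mem_iUnion.2 ⟨m, h⟩)
  apply norm_le_of_dir4
  intro i
  have h2 : ¬ (Real.sqrt n * bb m ≤ ∑ v, (f m i v (τ v) - ∫ t, f m i v t ∂P0)) :=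
    fun h => h1 (Set.mem_iUnion.2 ⟨i, h⟩)
  have h3 : (dir4 i * ∑ v, c m v * (ee (η m * τ v) - ww (η m))).re =
      ∑ v, (f m i v (τ v) - ∫ t, f m i v t ∂P0) := by
    rw [Finset.mul_sum, Complex.re_sum]
    refine Finset.sum_congr rfl fun v _ => ?_
    rw [hfint]
    simp only [hf]
    rw [← Complex.sub_re]
    congr 1
    ring
  rw [h3]
  exact (not_le.1 h2).le

end Pool.Agent.H25.FA
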