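import Pool.Agent.H25.FaDefs

/-!
# Patterns in sets of large Hausdorff dimension
-/

open MeasureTheory Filter
open scoped ENNReal NNReal Topology

noncomputable section

namespace Pool.Agent.H25.FA

/-- dyadic cells of level `j` met by `E` -/
def cellSet (E : Set ℝ) (j : ℕ) : Set ℤ := (fun x : ℝ => ⌊x * 2 ^ j⌋) '' E

lemma cellSet_finite {E : Set ℝ} (hE : Bornology.IsBounded E) (j : ℕ) : (cellSet E j).Finite := by
  obtain ⟨R, hR⟩ := hE.subset_closedBall 0
  apply (Set.finite_Icc (⌊-(R * 2 ^ j)⌋ : ℤ) ⌊R * 2 ^ j⌋).subset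
  rintro _ ⟨x, hx, rfl⟩
  have h1 := hR hx
  rw [Metric.mem_closedBall, Real.dist_eq, sub_zero, abs_le] at h1
  refine ⟨Int.floor_mono ?_, Int.floor_mono ?_⟩
  · rw [← neg_mul]; gcongr; exact h1.1
  · gcongr; exact h1.2

/-- dyadic cells of level `j` met by `E`, as a finset -/
def cells (E : Set ℝ) (hE : Bornology.IsBounded E) (j : ℕ) : Finset ℤ :=
  (cellSet_finite hE j).toFinset

variable {E : Set ℝ} {hE : Bornology.IsBounded E}

lemma mem_cells {j : ℕ} {i : ℤ} : i ∈ cells E hE j ↔ ∃ x ∈ E, ⌊x * 2 ^ j⌋ = i := by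
  simp [cells, cellSet]

lemma floor_parent (x : ℝ) (j n : ℕ) : ⌊x * 2 ^ (j + n)⌋ / (2 ^ n : ℤ) = ⌊x * 2 ^ j⌋ := by
  have h1 := Int.floor_div_natCast (x * 2 ^ (j + n)) (2 ^ n)
  push_cast at h1
  rw [← h1]
  congr 1
  rw [pow_add]
  field_simp

lemma parent_mem {j n : ℕ} {i : ℤ} (hi : i ∈ cells E hE (j + n)) : i / (2 ^ n : ℤ) ∈ cells E hE j := by
  obtain ⟨x, hx, rfl⟩ := mem_cells.1 hi
  exact mem_cells.2 ⟨x, hx, (floor_parent x j n).symm⟩

/-- the cells of level `j + n` inside the cell `v` of level `j` -/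
def sub (E : Set ℝ) (hE : Bornology.IsBounded E) (j n : ℕ) (v : ℤ) : Finset ℤ :=
  (cells E hE (j + n)).filter fun i => i / (2 ^ n : ℤ) = v

lemma card_sub_le (j n : ℕ) (v : ℤ) : (sub E hE j n v).card ≤ 2 ^ n := by
  have h1 : sub E hE j n v ⊆ Finset.Ico (v * 2 ^ n) ((v + 1) * 2 ^ n) := by
    intro i hi
    have h2 := (Finset.mem_filter.1 hi).2
    have hp : (0 : ℤ) < 2 ^ n := by positivity
    rw [Finset.mem_Ico]
    constructor
    · rw [← h2]; exact Int.ediv_mul_le _ hp.ne'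
    · rw [← h2]; exact Int.lt_ediv_add_one_mul_self _ hp
  refine (Finset.card_le_card h1).trans ?_
  rw [Int.card_Ico]
  have : (v + 1) * 2 ^ n - v * 2 ^ n = ((2 ^ n : ℕ) : ℤ) := by push_cast; ring
  rw [this, Int.toNat_natCast]

lemma card_cells_add (j n : ℕ) :
    (cells E hE (j + n)).card = ∑ v ∈ cells E hE j, (sub E hE j n v).card := by
  apply Finset.card_eq_sum_card_fiberwise
  intro i hi
  exact parent_mem hi

/-- The rich cells of level `j + n` inside the cell `v` of level `j`. -/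
def rich (E : Set ℝ) (hE : Bornology.IsBounded E) (j n m : ℕ) (v : ℤ) : Finset ℤ :=
  (sub E hE j n v).filter fun w => 3 ≤ (sub E hE (j + n) m w).card

lemma card_rec {j n m T : ℕ} (hT : ∀ v, (rich E hE j n m v).card ≤ T) :
    (cells E hE (j + n + m)).card ≤
      2 * (cells E hE (j + n)).card + 2 ^ m * (T * (cells E hE j).card) := by
  classical
  rw [card_cells_add (j + n) m]
  have h1 : ∀ w ∈ cells E hE (j + n), (sub E hE (j + n) m w).card ≤
      2 + if 3 ≤ (sub E hE (j + n) m w).card then 2 ^ m else 0 := by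
    intro w _
    split_ifs with h
    · exact (card_sub_le _ _ _).trans (by omega)
    · omega
  refine (Finset.sum_le_sum h1).trans ?_
  rw [Finset.sum_add_distrib, Finset.sum_const, smul_eq_mul, mul_comm _ 2, ← Finset.sum_filter,
    Finset.sum_const, smul_eq_mul, mul_comm _ (2 ^ m)]
  gcongr
  have h2 : ((cells E hE (j + n)).filter fun w => 3 ≤ (sub E hE (j + n) m w).card).card =
      ∑ v ∈ cells E hE j, (rich E hE j n m v).card := by
    rw [Finset.card_eq_sum_card_fiberwise (f := fun w => w / (2 ^ n : ℤ)) (t := cells E hE j)]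
    · refine Finset.sum_congr rfl fun v _ => ?_
      congr 1
      ext w
      simp only [rich, sub, Finset.mem_filter]
      tauto
    · intro w hw
      exact parent_mem (Finset.mem_filter.1 hw).1
  rw [h2]
  refine (Finset.sum_le_sum fun v _ => hT v).trans ?_
  rw [Finset.sum_const, smul_eq_mul, mul_comm]

/-- A rich cell contains two points of `E` far apart. -/
lemma rich_points {j n m : ℕ} {v w : ℤ} (hw : w ∈ rich E hE j n m v) :
    ∃ x ∈ E, ∃ y ∈ E, (w : ℝ) ≤ x * 2 ^ (j + n) ∧ y * 2 ^ (j + n) < w + 1 ∧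
      1 ≤ (y - x) * 2 ^ (j + n + m) := by
  obtain ⟨hws, hw3⟩ := Finset.mem_filter.1 hw
  have hne : (sub E hE (j + n) m w).Nonempty := Finset.card_pos.1 (by omega)
  set s := sub E hE (j + n) m w with hs
  set i₁ := s.min' hne with hi₁
  set i₂ := s.max' hne with hi₂
  have h1 : i₁ + 2 ≤ i₂ := by
    by_contra hcon
    push Not at hcon
    have : s ⊆ Finset.Icc i₁ (i₁ + 1) := by
      intro i hi
      rw [Finset.mem_Icc]
      have := s.min'_le i hi
      have := s.le_max' i hi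
      omega
    have h2 := Finset.card_le_card this
    rw [Int.card_Icc] at h2
    omega
  have m1 : i₁ ∈ s := s.min'_mem hne
  have m2 : i₂ ∈ s := s.max'_mem hne
  obtain ⟨c1, p1⟩ := Finset.mem_filter.1 m1
  obtain ⟨c2, p2⟩ := Finset.mem_filter.1 m2
  obtain ⟨x, hx, hxi⟩ := mem_cells.1 c1
  obtain ⟨y, hy, hyi⟩ := mem_cells.1 c2
  refine ⟨x, hx, y, hy, ?_, ?_, ?_⟩
  · rw [← p1, ← hxi, floor_parent]; exact Int.floor_le _
  · rw [← p2, ← hyi, floor_parent]; exact Int.lt_floor_add_one _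
  · have h2 := Int.floor_le (y * 2 ^ (j + n + m))
    have h3 := Int.lt_floor_add_one (x * 2 ^ (j + n + m))
    rw [hyi] at h2
    rw [hxi] at h3
    have h4 : (i₁ : ℝ) + 2 ≤ i₂ := by exact_mod_cast h1
    nlinarith

lemma growth {a : ℕ → ℝ} (ha : ∀ j, 0 ≤ a j) {n m : ℕ} (hm : 0 < m) {T θ : ℝ} (hT : 0 ≤ T)
    (hrec : ∀ j, a (j + n + m) ≤ 2 * a (j + n) + 2 ^ m * (T * a j))
    (h1 : 2 * (2 : ℝ) ^ (-(m * θ)) ≤ 1 / 2)
    (h2 : 2 ^ m * T * (2 : ℝ) ^ (-((n + m) * θ)) ≤ 1 / 2) :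
    ∃ C : ℝ, 0 ≤ C ∧ ∀ j : ℕ, a j ≤ C * (2 : ℝ) ^ (j * θ) := by
  set C : ℝ := ∑ i ∈ Finset.range (n + m), a i * (2 : ℝ) ^ (-(i * θ)) with hC
  have hterm : ∀ i, 0 ≤ a i * (2 : ℝ) ^ (-(i * θ)) := fun i => mul_nonneg (ha i) (by positivity)
  have hC0 : 0 ≤ C := Finset.sum_nonneg fun i _ => hterm i
  refine ⟨C, hC0, fun j => ?_⟩
  induction j using Nat.strong_induction_on with
  | _ j ih =>
    rcases lt_or_ge j (n + m) with hj | hj
    · have h3 : a j * (2 : ℝ) ^ (-(j * θ)) ≤ C :=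
        Finset.single_le_sum (f := fun i : ℕ => a i * (2 : ℝ) ^ (-(i * θ)))
          (fun i _ => hterm i) (Finset.mem_range.2 hj)
      calc a j = a j * (2 : ℝ) ^ (-(j * θ)) * (2 : ℝ) ^ (j * θ) := by
            rw [mul_assoc, ← Real.rpow_add (by norm_num), neg_add_cancel, Real.rpow_zero, mul_one]
        _ ≤ C * (2 : ℝ) ^ (j * θ) := by gcongr
    · obtain ⟨i, rfl⟩ : ∃ i, j = i + n + m := ⟨j - (n + m), by omega⟩
      have h3 := ih (i + n) (by omega)
      have h4 := ih i (by omega)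
      have e1 : (2 : ℝ) ^ ((i + n : ℕ) * θ) =
          (2 : ℝ) ^ ((i + n + m : ℕ) * θ) * (2 : ℝ) ^ (-(m * θ)) := by
        rw [← Real.rpow_add (by norm_num)]
        congr 1
        push_cast
        ring
      have e2 : (2 : ℝ) ^ (i * θ) =
          (2 : ℝ) ^ ((i + n + m : ℕ) * θ) * (2 : ℝ) ^ (-((n + m) * θ)) := by
        rw [← Real.rpow_add (by norm_num)]
        congr 1
        push_cast
        ring
      calc a (i + n + m) ≤ 2 * a (i + n) + 2 ^ m * (T * a i) := hrec i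
        _ ≤ 2 * (C * (2 : ℝ) ^ ((i + n : ℕ) * θ)) + 2 ^ m * (T * (C * (2 : ℝ) ^ (i * θ))) := by
            gcongr
        _ = C * (2 : ℝ) ^ ((i + n + m : ℕ) * θ) * (2 * (2 : ℝ) ^ (-(m * θ)) +
              2 ^ m * T * (2 : ℝ) ^ (-((n + m) * θ))) := by
            rw [e1, e2]; ring
        _ ≤ C * (2 : ℝ) ^ ((i + n + m : ℕ) * θ) * 1 := by
            gcongr
            linarith
        _ = _ := mul_one _

lemma dimH_le_of_growth {θ C : ℝ} (hθ : 0 ≤ θ)
    (h : ∀ j : ℕ, ((cells E hE j).card : ℝ) ≤ C * (2 : ℝ) ^ (j * θ)) :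
    dimH E ≤ ENNReal.ofReal θ := by
  have hm : μH[θ] E ≤ ENNReal.ofReal C := by
    have h1 := Measure.hausdorffMeasure_le_liminf_sum (ι := fun j : ℕ => cells E hE j) θ E
      (l := atTop) (fun j : ℕ => ENNReal.ofReal ((1 / 2) ^ j)) (by
        rw [← ENNReal.ofReal_zero]
        exact ENNReal.tendsto_ofReal
          (tendsto_pow_atTop_nhds_zero_of_lt_one (by norm_num) (by norm_num)))
      (fun j i => Set.Ico ((i : ℝ) / 2 ^ j) ((i + 1 : ℝ) / 2 ^ j))
      (Eventually.of_forall fun j i => by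
        rw [Real.ediam_Ico]
        apply ENNReal.ofReal_le_ofReal
        rw [← sub_div, add_sub_cancel_left, one_div_pow])
      (Eventually.of_forall fun j x hx => by
        have h2 : ⌊x * 2 ^ j⌋ ∈ cells E hE j := mem_cells.2 ⟨x, hx, rfl⟩
        refine Set.mem_iUnion.2 ⟨⟨_, h2⟩, ?_⟩
        have hp : (0 : ℝ) < 2 ^ j := by positivity
        constructor
        · rw [div_le_iff₀ hp]; exact Int.floor_le _
        · rw [lt_div_iff₀ hp]; exact Int.lt_floor_add_one _)
    refine h1.trans ?_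
    refine Filter.liminf_le_of_le ⟨0, Eventually.of_forall fun _ => zero_le⟩ fun b hb => ?_
    obtain ⟨j, hj⟩ := hb.exists
    refine hj.trans ?_
    have h3 : ∀ i : cells E hE j, Metric.ediam (Set.Ico ((i : ℝ) / 2 ^ j) ((i + 1 : ℝ) / 2 ^ j)) ^ θ
        = ENNReal.ofReal ((2 : ℝ) ^ (-(j * θ))) := by
      intro i
      rw [Real.ediam_Ico, ← sub_div, add_sub_cancel_left,
        ENNReal.ofReal_rpow_of_pos (by positivity)]
      congr 1
      rw [one_div, Real.inv_rpow (by positivity), ← Real.rpow_natCast, ← Real.rpow_mul (by norm_num),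
        Real.rpow_neg (by norm_num)]
    rw [Finset.sum_congr rfl fun i _ => h3 i, Finset.sum_const, Finset.card_univ,
      Fintype.card_coe, nsmul_eq_mul, ← ENNReal.ofReal_natCast, ← ENNReal.ofReal_mul (by positivity)]
    apply ENNReal.ofReal_le_ofReal
    calc ((cells E hE j).card : ℝ) * (2 : ℝ) ^ (-(j * θ))
        ≤ C * (2 : ℝ) ^ (j * θ) * (2 : ℝ) ^ (-(j * θ)) := by gcongr; exact h j
      _ = C := by
          rw [mul_assoc, ← Real.rpow_add (by norm_num), add_neg_cancel, Real.rpow_zero, mul_one]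
  have h4 : μH[((θ.toNNReal : ℝ≥0) : ℝ)] E ≠ ∞ := by
    rw [Real.coe_toNNReal _ hθ]
    exact ne_top_of_le_ne_top ENNReal.ofReal_ne_top hm
  exact dimH_le_of_hausdorffMeasure_ne_top h4

/-- A bounded set of dimension larger than `θ` has, for all large `n`, a cell with more than
`2^{n t}` rich cells `n` levels below. -/
lemma exists_rich (hE : Bornology.IsBounded E) {t θ : ℝ} (ht : 0 < t) (htθ : t < θ)
    (hdim : ENNReal.ofReal θ < dimH E) :
    ∃ m : ℕ, ∃ n₀ : ℕ, ∀ n ≥ n₀, ∃ (j : ℕ) (v : ℤ),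
      (2 : ℝ) ^ (n * t) < (rich E hE j n m v).card + 1 := by
  have hθ : 0 < θ := ht.trans htθ
  obtain ⟨m, hm⟩ := exists_nat_gt (2 / θ)
  have hm0 : 0 < m := by
    rcases Nat.eq_zero_or_pos m with h | h
    · rw [h, Nat.cast_zero] at hm
      have : 0 < 2 / θ := by positivity
      linarith
    · exact h
  obtain ⟨n₀, hn₀⟩ := exists_nat_gt ((m + 1) / (θ - t))
  refine ⟨m, n₀, fun n hn => ?_⟩
  by_contra hcon
  push Not at hcon
  set T : ℕ := ⌊(2 : ℝ) ^ (n * t)⌋₊ with hT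
  have hTv : ∀ j v, (rich E hE j n m v).card ≤ T := by
    intro j v
    have h1 := hcon j v
    rw [hT]
    apply Nat.le_floor
    linarith
  have hTle : (T : ℝ) ≤ (2 : ℝ) ^ (n * t) := Nat.floor_le (by positivity)
  have hθt : 0 < θ - t := sub_pos.2 htθ
  have hmθ : 2 < m * θ := by rwa [div_lt_iff₀ hθ] at hm
  have hnθ : (m : ℝ) + 1 < n * (θ - t) := by
    rw [div_lt_iff₀ hθt] at hn₀
    refine hn₀.trans_le ?_
    gcongr
  have key := growth (a := fun j => ((cells E hE j).card : ℝ)) (fun j => Nat.cast_nonneg _) hm0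
    (T := T) (θ := θ) (n := n) (Nat.cast_nonneg _) (fun j => by
      have := card_rec (E := E) (hE := hE) (j := j) (n := n) (m := m) (T := T) (hTv j)
      exact_mod_cast this) ?_ ?_
  · obtain ⟨C, -, hC⟩ := key
    exact absurd (dimH_le_of_growth hθ.le hC) (not_le.2 hdim)
  · have h1 : (2 : ℝ) ^ (-(m * θ)) ≤ (2 : ℝ) ^ (-2 : ℝ) :=
      Real.rpow_le_rpow_of_exponent_le (by norm_num) (by linarith)
    have h2 : (2 : ℝ) ^ (-2 : ℝ) = 1 / 4 := by
      rw [Real.rpow_neg (by norm_num)]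
      norm_num
    have h3 := h1.trans_eq h2
    calc 2 * (2 : ℝ) ^ (-(m * θ)) ≤ 2 * (1 / 4) := by gcongr
      _ = 1 / 2 := by norm_num
  · calc (2 : ℝ) ^ m * T * (2 : ℝ) ^ (-((n + m) * θ))
        ≤ (2 : ℝ) ^ m * (2 : ℝ) ^ (n * t) * (2 : ℝ) ^ (-((n + m) * θ)) := by gcongr
      _ = (2 : ℝ) ^ ((m : ℝ) + n * t + -((n + m) * θ)) := by
          rw [Real.rpow_add (by norm_num), Real.rpow_add (by norm_num), Real.rpow_natCast]
      _ ≤ (2 : ℝ) ^ (-1 : ℝ) := by
          apply Real.rpow_le_rpow_of_exponent_le (by norm_num)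
          nlinarith
      _ = 1 / 2 := by rw [Real.rpow_neg_one]; norm_num

/-- The pattern property: no progression is within `ε λ` of the hulls `[lo, hi]`, unless all terms
are close to the same hull. -/
def Pattern (k : ℕ) (ε : ℝ) {N : ℕ} (lo hi : Fin N → ℝ) : Prop :=
  ∀ a lam : ℝ, 0 < lam → ∀ c : ℕ → Fin N, (∃ i < k, ∃ i' < k, c i ≠ c i') →
    ∃ i < k, ¬ (lo (c i) - ε * lam < a + i * lam ∧ a + i * lam < hi (c i) + ε * lam)

theorem exists_pattern {k : ℕ} {ε : ℝ} (hε0 : 0 < ε) (hε1 : ε < 1) (hA : Avoids k ε E)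
    (hE : Bornology.IsBounded E) {t : ℝ} (ht : 0 < t) (hdim : ENNReal.ofReal t < dimH E) :
    ∃ m L n₀ : ℕ, 0 < L ∧ ∀ n ≥ n₀, ∃ (N : ℕ) (lo hi : Fin N → ℝ),
      (2 : ℝ) ^ (n * t) ≤ L * (N + 1) ∧ N ≤ 2 ^ n ∧
      (∀ i, 0 ≤ lo i ∧ hi i ≤ 1 ∧ lo i + (1 / 2) ^ (n + m) ≤ hi i) ∧ Pattern k ε lo hi := by
  classical
  obtain ⟨θ', h1, h2⟩ := exists_between hdim
  have hθ' : θ' ≠ ∞ := (h2.trans_le le_top).ne
  set θ : ℝ := θ'.toReal with hθ
  have hθ'' : θ' = ENNReal.ofReal θ := (ENNReal.ofReal_toReal hθ').symm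
  have htθ : t < θ := by
    rw [hθ''] at h1
    exact (ENNReal.ofReal_lt_ofReal_iff_of_nonneg ht.le).1 h1
  rw [hθ''] at h2
  obtain ⟨m, n₀, H⟩ := exists_rich hE ht htθ h2
  obtain ⟨L, hL⟩ := exists_nat_gt ((k + 2) / ε + 1)
  have hL1 : (k + 2 : ℝ) < (L - 1) * ε := by
    have : (k + 2) / ε < (L : ℝ) - 1 := by linarith
    rwa [div_lt_iff₀ hε0] at this
  have hL0 : 0 < L := by
    rcases Nat.eq_zero_or_pos L with h | h
    · rw [h, Nat.cast_zero] at hL1
      have : (0 : ℝ) ≤ k := Nat.cast_nonneg k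
      linarith
    · exact h
  refine ⟨m, L, n₀, hL0, fun n hn => ?_⟩
  obtain ⟨j, v, hcard⟩ := H n hn
  set R := rich E hE j n m v with hR
  -- a residue class
  obtain ⟨r, -, hr⟩ : ∃ r ∈ Finset.Ico (0 : ℤ) L, R.card / L ≤ (R.filter fun w => w % L = r).card := by
    apply Finset.exists_le_card_fiber_of_mul_le_card_of_maps_to
    · intro w _
      rw [Finset.mem_Ico]
      exact ⟨Int.emod_nonneg _ (by omega), Int.emod_lt_of_pos _ (by omega)⟩
    · exact ⟨0, by rw [Finset.mem_Ico]; omega⟩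
    · rw [Int.card_Ico, sub_zero, Int.toNat_natCast]
      exact Nat.mul_div_le _ _
  set R' := R.filter fun w => w % L = r with hR'
  set N := R'.card with hN
  set e : Fin N ≃ R' := R'.equivFin.symm with he
  have hmem : ∀ i : Fin N, ((e i : ℤ)) ∈ R := fun i => (Finset.mem_filter.1 (e i).2).1
  have hmod : ∀ i : Fin N, ((e i : ℤ)) % L = r := fun i => (Finset.mem_filter.1 (e i).2).2
  choose x hx y hy hxw hyw hxy using fun i : Fin N => rich_points (hmem i)
  have hp : (0 : ℝ) < 2 ^ j := by positivity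
  have hD : (0 : ℝ) < 2 ^ n := by positivity
  have hv : ∀ i : Fin N, (v : ℝ) * 2 ^ n ≤ (e i : ℤ) ∧ ((e i : ℤ) : ℝ) + 1 ≤ (v + 1) * 2 ^ n := by
    intro i
    have h3 := (Finset.mem_filter.1 (Finset.mem_filter.1 (hmem i)).1).2
    have hpz : (0 : ℤ) < 2 ^ n := by positivity
    constructor
    · have : v * 2 ^ n ≤ (e i : ℤ) := by
        rw [← h3]; exact Int.ediv_mul_le _ hpz.ne'
      exact_mod_cast this
    · have : (e i : ℤ) + 1 ≤ (v + 1) * 2 ^ n := by
        rw [← h3]; exact Int.lt_ediv_add_one_mul_self _ hpz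
      exact_mod_cast this
  have hpow : (2 : ℝ) ^ (j + n) = 2 ^ j * 2 ^ n := pow_add _ _ _
  -- scaled positions
  have hlo : ∀ i, ((e i : ℤ) : ℝ) - v * 2 ^ n ≤ (x i * 2 ^ j - v) * 2 ^ n := by
    intro i
    have := hxw i
    rw [hpow] at this
    linarith
  have hhi : ∀ i, (y i * 2 ^ j - v) * 2 ^ n < ((e i : ℤ) : ℝ) + 1 - v * 2 ^ n := by
    intro i
    have := hyw i
    rw [hpow] at this
    linarith
  refine ⟨N, fun i => x i * 2 ^ j - v, fun i => y i * 2 ^ j - v, ?_, ?_, ?_, ?_⟩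
  · have h3 : R.card + 1 ≤ L * (N + 1) := by
      have h4 : R.card < L * (R.card / L + 1) := Nat.lt_mul_div_succ _ hL0
      have h5 : L * (R.card / L + 1) ≤ L * (N + 1) := by gcongr
      omega
    have h4 : ((R.card : ℝ) + 1) ≤ L * (N + 1) := by exact_mod_cast h3
    exact hcard.le.trans h4
  · calc N ≤ R.card := Finset.card_le_card (Finset.filter_subset _ _)
      _ ≤ (sub E hE j n v).card := Finset.card_le_card (Finset.filter_subset _ _)
      _ ≤ 2 ^ n := card_sub_le _ _ _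
  · intro i
    refine ⟨?_, ?_, ?_⟩
    · have h3 := hlo i
      have h4 := (hv i).1
      have h5 : 0 ≤ (x i * 2 ^ j - v) * 2 ^ n := by linarith
      exact nonneg_of_mul_nonneg_left h5 hD
    · have h3 := hhi i
      have h4 := (hv i).2
      have h5 : (y i * 2 ^ j - v) * 2 ^ n ≤ 1 * 2 ^ n := by linarith
      exact le_of_mul_le_mul_right h5 hD
    · have h3 := hxy i
      have h4 : (2 : ℝ) ^ (j + n + m) = 2 ^ j * 2 ^ (n + m) := by rw [add_assoc, pow_add]
      rw [h4] at h3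
      have h5 : (1 / 2 : ℝ) ^ (n + m) ≤ (y i - x i) * 2 ^ j := by
        rw [one_div_pow, div_le_iff₀ (by positivity)]
        linarith
      linarith
  · intro a lam hlam c hc
    by_contra hcon
    push Not at hcon
    -- the gap is large
    have hgap : ∀ i < k, ∀ i' < k, ((e (c i) : ℤ)) < (e (c i') : ℤ) → 1 < 2 ^ n * (ε * lam) := by
      intro i hi i' hi' hlt
      have h3 : (L : ℤ) ≤ (e (c i') : ℤ) - (e (c i) : ℤ) := by
        have h4 : (L : ℤ) ∣ (e (c i') : ℤ) - (e (c i) : ℤ) := by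
          apply Int.dvd_of_emod_eq_zero
          rw [Int.sub_emod, hmod, hmod, sub_self, Int.zero_emod]
        exact Int.le_of_dvd (by omega) h4
      have h3' : (L : ℝ) ≤ ((e (c i') : ℤ) : ℝ) - ((e (c i) : ℤ) : ℝ) := by exact_mod_cast h3
      have h5 := (hcon i hi).2
      have h6 := (hcon i' hi').1
      have h7 := hhi (c i)
      have h8 := hlo (c i')
      have h9 : ((i' : ℝ) - i) * lam ≤ k * lam := by
        gcongr
        have : (i' : ℝ) ≤ k := by exact_mod_cast hi'.le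
        have : (0 : ℝ) ≤ i := Nat.cast_nonneg i
        linarith
      have h10 : (a + i * lam) * 2 ^ n < ((e (c i) : ℤ) : ℝ) + 1 - v * 2 ^ n + ε * lam * 2 ^ n := by
        have : (a + i * lam) * 2 ^ n < (y (c i) * 2 ^ j - v + ε * lam) * 2 ^ n := by gcongr
        linarith
      have h11 : ((e (c i') : ℤ) : ℝ) - v * 2 ^ n - ε * lam * 2 ^ n < (a + i' * lam) * 2 ^ n := by
        have : (x (c i') * 2 ^ j - v - ε * lam) * 2 ^ n < (a + i' * lam) * 2 ^ n := by gcongr
        linarith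
      have h12 : (L : ℝ) - 1 < (k * lam + 2 * (ε * lam)) * 2 ^ n := by
        have : ((i' : ℝ) - i) * lam * 2 ^ n ≤ k * lam * 2 ^ n := by gcongr
        linarith
      have h13 : k * lam + 2 * (ε * lam) ≤ (k + 2) * lam := by nlinarith
      have h14 : (L : ℝ) - 1 < (k + 2) * lam * 2 ^ n := h12.trans_le (by gcongr)
      have h15 : (k + 2 : ℝ) < (k + 2) * lam * 2 ^ n * ε := hL1.trans_le (by gcongr)
      have hk2 : (0 : ℝ) < k + 2 := by positivity
      have h16 : (k + 2 : ℝ) * 1 < (k + 2) * (2 ^ n * (ε * lam)) := by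
        rw [mul_one]
        refine h15.trans_eq ?_
        ring
      exact lt_of_mul_lt_mul_left h16 hk2.le
    have hbig : 1 < 2 ^ n * (ε * lam) := by
      obtain ⟨i, hi, i', hi', hne⟩ := hc
      have hne' : (e (c i) : ℤ) ≠ (e (c i') : ℤ) := by
        intro h
        exact hne (e.injective (Subtype.ext h))
      rcases lt_or_gt_of_ne hne' with h | h
      · exact hgap i hi i' hi' h
      · exact hgap i' hi' i hi h
    obtain ⟨i, hi, hfar⟩ := hA ((a + v) / 2 ^ j) (lam / 2 ^ j) (by positivity)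
    have hfar' : ∀ z ∈ E, ε * lam ≤ |z * 2 ^ j - v - (a + i * lam)| := by
      intro z hz
      have h3 := hfar z hz
      have h4 : z * 2 ^ j - v - (a + i * lam) =
          (z - ((a + v) / 2 ^ j + i * (lam / 2 ^ j))) * 2 ^ j := by
        field_simp
        ring
      rw [h4, abs_mul, abs_of_pos hp]
      calc ε * lam = ε * (lam / 2 ^ j) * 2 ^ j := by field_simp
        _ ≤ _ := by gcongr
    obtain ⟨h3, h4⟩ := hcon i hi
    have h5 := hfar' _ (hx (c i))
    have h6 := hfar' _ (hy (c i))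
    have h7 := hlo (c i)
    have h8 := hhi (c i)
    have h9 : (y (c i) * 2 ^ j - v) - (x (c i) * 2 ^ j - v) < ε * lam := by
      have : ((y (c i) * 2 ^ j - v) - (x (c i) * 2 ^ j - v)) * 2 ^ n < ε * lam * 2 ^ n := by
        linarith
      exact lt_of_mul_lt_mul_right this hD.le
    rcases le_abs'.1 h5 with h | h
    · rcases le_abs'.1 h6 with h' | h'
      · linarith
      · linarith [mul_pos hε0 hlam]
    · linarith

end Pool.Agent.H25.FA
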