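import Pool.Agent.H25.FaDecay
import Pool.Agent.H25.FaPat

/-!
# Main theorem
-/

open MeasureTheory Filter ProbabilityTheory
open scoped ENNReal NNReal Topology

noncomputable section

namespace Pool.Agent.H25.FA

variable {N : ℕ} {ρ : ℝ} {b : Fin N → ℝ}

lemma bb_le {δ : ℝ} (hδ : 0 < δ) {m : ℕ} (hm : 1 ≤ m) :
    1 + 6 * bb m ≤ (1 + 6 * Real.sqrt (8 * (1 + 3 ^ δ / δ))) * (m : ℝ) ^ (δ / 2) := by
  have hm' : (1 : ℝ) ≤ m := by exact_mod_cast hm
  have hm0 : (0 : ℝ) ≤ m := by linarith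
  have h1 : 1 ≤ (m : ℝ) ^ (δ / 2) := Real.one_le_rpow hm' (by positivity)
  have h2 : 1 ≤ (m : ℝ) ^ δ := Real.one_le_rpow hm' hδ.le
  have h3 : Real.log ((m : ℝ) + 2) ≤ 3 ^ δ / δ * (m : ℝ) ^ δ := by
    calc Real.log ((m : ℝ) + 2) ≤ Real.log (3 * m) := Real.log_le_log (by linarith) (by linarith)
      _ ≤ (3 * m) ^ δ / δ := Real.log_le_rpow_div (by positivity) hδ
      _ = 3 ^ δ / δ * (m : ℝ) ^ δ := by
          rw [Real.mul_rpow (by norm_num) hm0]
          ring
  have h4 : bb m ≤ Real.sqrt (8 * (1 + 3 ^ δ / δ)) * (m : ℝ) ^ (δ / 2) := by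
    have h5 : (m : ℝ) ^ (δ / 2) = Real.sqrt ((m : ℝ) ^ δ) := by
      rw [Real.sqrt_eq_rpow, ← Real.rpow_mul hm0]
      congr 1
      ring
    rw [h5, ← Real.sqrt_mul (by positivity), bb]
    apply Real.sqrt_le_sqrt
    nlinarith
  linarith

lemma ft_neg (μ : Measure ℝ) (ξ : ℝ) : ft μ (-ξ) = (starRingEnd ℂ) (ft μ ξ) := by
  rw [ft, ft, ← integral_conj]
  congr 1
  funext x
  rw [← Complex.exp_conj]
  congr 1
  simp only [map_mul, map_neg, Complex.conj_ofReal, Complex.conj_I]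
  push_cast
  ring

theorem decay (hN : 4 ≤ N) (H : Hyp ρ b) {s s' : ℝ} (hs' : 0 ≤ s') (hs2 : s' ≤ 2) (hss : s' < s)
    (hNs : 1 ≤ N * ρ ^ s) :
    ∃ C : ℝ, ∀ ξ : ℝ, ξ ≠ 0 → ‖ft (mu ρ b (by omega : 0 < N)) ξ‖ ≤ C * |ξ| ^ (-(s' / 2)) := by
  have hN0 : 0 < N := by omega
  have hs : 0 ≤ s := hs'.trans hss.le
  have hρ := H.pos
  have hprob : IsProbabilityMeasure (mu ρ b hN0) := isProb_mu hN0 H
  set δ : ℝ := (s - s') / 2 with hδ
  have hδ0 : 0 < δ := by rw [hδ]; linarith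
  set K : ℝ := (4 * Real.sqrt N / ρ) ^ (s / 2) with hK
  have hK0 : 0 ≤ K := by rw [hK]; positivity
  set D : ℝ := 1 + 6 * Real.sqrt (8 * (1 + 3 ^ δ / δ)) with hD
  have hD0 : 0 ≤ D := by rw [hD]; positivity
  set C : ℝ := K * D + 2 * Real.pi + 1 with hC
  have hpi : 0 < Real.pi := Real.pi_pos
  have hKD : 0 ≤ K * D := by positivity
  have hC1 : 1 ≤ C := by
    rw [hC]; linarith
  -- positive frequencies
  have hpos : ∀ ξ : ℝ, 0 < ξ → ‖ft (mu ρ b hN0) ξ‖ ≤ C * ξ ^ (-(s' / 2)) := by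
    intro ξ hξ
    rcases le_or_gt 1 ξ with h1 | h1
    · set m : ℕ := ⌊ξ ^ 2⌋₊ with hm
      have hm1 : 1 ≤ m := by
        rw [hm, Nat.one_le_floor_iff]
        nlinarith
      have hmle : (m : ℝ) ≤ ξ ^ 2 := Nat.floor_le (by positivity)
      have hmlt : ξ ^ 2 < m + 1 := Nat.lt_floor_add_one _
      have hm1' : (1 : ℝ) ≤ m := by exact_mod_cast hm1
      have hm0 : (0 : ℝ) ≤ m := by linarith
      set r : ℝ := Real.sqrt m with hr
      have hr0 : 0 ≤ r := Real.sqrt_nonneg _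
      have hrr : r ^ 2 = m := Real.sq_sqrt hm0
      have hrle : r ≤ ξ := by
        nlinarith
      have hdiff : |ξ - r| ≤ 1 / ξ := by
        rw [abs_of_nonneg (by linarith), le_div_iff₀ hξ]
        nlinarith
      have hrge : ξ / 2 ≤ r := by
        have h2 : (ξ / 2) ^ 2 ≤ r ^ 2 := by
          rw [hrr]
          nlinarith
        exact (pow_le_pow_iff_left₀ (by positivity) hr0 two_ne_zero).1 h2
      have hfr : ξ ≤ fr m := by
        rw [fr, ← hr]
        have : (1 : ℝ) ≤ Real.pi := by linarith [Real.pi_gt_three]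
        nlinarith
      have h2 := ft_grid hN H hs hNs m hm1
      have h3 : ‖ft (mu ρ b hN0) r‖ ≤ K * D * ξ ^ (-(s' / 2)) := by
        calc ‖ft (mu ρ b hN0) r‖ ≤ K * (1 + 6 * bb m) * fr m ^ (-(s / 2)) := h2
          _ ≤ K * (D * (m : ℝ) ^ (δ / 2)) * ξ ^ (-(s / 2)) := by
              have e1 := bb_le hδ0 hm1
              have e2 : fr m ^ (-(s / 2)) ≤ ξ ^ (-(s / 2)) :=
                Real.rpow_le_rpow_of_nonpos hξ hfr (by linarith)
              have e3 : 0 ≤ fr m ^ (-(s / 2)) := Real.rpow_nonneg (hξ.le.trans hfr) _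
              have e4 := bb_nonneg m
              exact mul_le_mul (mul_le_mul_of_nonneg_left e1 hK0) e2 e3 (by positivity)
          _ ≤ K * (D * ξ ^ δ) * ξ ^ (-(s / 2)) := by
              gcongr
              calc (m : ℝ) ^ (δ / 2) ≤ (ξ ^ 2) ^ (δ / 2) := by gcongr
                _ = ξ ^ δ := by
                    rw [← Real.rpow_natCast, ← Real.rpow_mul hξ.le]
                    congr 1
                    push_cast
                    ring
          _ = K * D * ξ ^ (-(s' / 2)) := by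
              have : ξ ^ (-(s' / 2)) = ξ ^ δ * ξ ^ (-(s / 2)) := by
                rw [← Real.rpow_add hξ]
                congr 1
                rw [hδ]
                ring
              rw [this]
              ring
      have h4 := ft_lip hN0 H ξ r
      have h5 : 1 / ξ ≤ ξ ^ (-(s' / 2)) := by
        rw [one_div, ← Real.rpow_neg_one]
        apply Real.rpow_le_rpow_of_exponent_le h1
        linarith
      calc ‖ft (mu ρ b hN0) ξ‖ ≤ ‖ft (mu ρ b hN0) ξ - ft (mu ρ b hN0) r‖ + ‖ft (mu ρ b hN0) r‖ := by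
            have := norm_add_le (ft (mu ρ b hN0) ξ - ft (mu ρ b hN0) r) (ft (mu ρ b hN0) r)
            rwa [sub_add_cancel] at this
        _ ≤ 2 * Real.pi * ξ ^ (-(s' / 2)) + K * D * ξ ^ (-(s' / 2)) := by
            apply add_le_add _ h3
            refine h4.trans ?_
            gcongr
            exact hdiff.trans h5
        _ ≤ C * ξ ^ (-(s' / 2)) := by
            have : 0 ≤ ξ ^ (-(s' / 2)) := by positivity
            rw [hC]
            nlinarith
    · have h2 : 1 ≤ ξ ^ (-(s' / 2)) :=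
        Real.one_le_rpow_of_pos_of_le_one_of_nonpos hξ h1.le (by linarith)
      calc ‖ft (mu ρ b hN0) ξ‖ ≤ 1 := ft_norm_le _ _
        _ ≤ C * 1 := by linarith
        _ ≤ C * ξ ^ (-(s' / 2)) := by gcongr
  refine ⟨C, fun ξ hξ => ?_⟩
  rcases lt_or_gt_of_ne hξ with h | h
  · have h1 := hpos (-ξ) (by linarith)
    rw [abs_of_neg h]
    rwa [ft_neg, Complex.norm_conj] at h1
  · rw [abs_of_pos h]
    exact hpos ξ h

/-- The random self-similar set avoids progressions if the pattern does. -/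
theorem avoids_range {k : ℕ} (hk : 3 ≤ k) {ε : ℝ} (hε0 : 0 < ε) (hε1 : ε < 1) (hN0 : 0 < N)
    (H : Hyp ρ b) {lo hi : Fin N → ℝ} (hlo : ∀ i, lo i ≤ b i) (hhi : ∀ i, b i + 2 * ρ ≤ hi i)
    (hP : Pattern k ε lo hi) : Avoids k ε (Set.range (pt ρ b hN0)) := by
  intro a lam hlam
  by_contra hcon
  push Not at hcon
  have hcon' : ∀ i : ℕ, ∃ ω : ℕ → Fin N, i < k → |pt ρ b hN0 ω - (a + i * lam)| < ε * lam := by
    intro i
    by_cases hi' : i < k
    · obtain ⟨_, ⟨ω, rfl⟩, h⟩ := hcon i hi'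
      exact ⟨ω, fun _ => h⟩
    · exact ⟨fun _ => ⟨0, hN0⟩, fun h => absurd h hi'⟩
  choose ω hω using hcon'
  -- not all addresses agree
  have hne : ∃ j : ℕ, ∃ i < k, ω i j ≠ ω 0 j := by
    by_contra hall
    push Not at hall
    have h1 : ω (k - 1) = ω 0 := by
      funext j
      exact hall j (k - 1) (by omega)
    have h2 := hω 0 (by omega)
    have h3 := hω (k - 1) (by omega)
    rw [h1] at h3
    have h4 : ((k - 1 : ℕ) : ℝ) = k - 1 := by
      rw [Nat.cast_sub (by omega)]; norm_num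
    rw [h4] at h3
    rw [abs_lt] at h2 h3
    have h5 : (3 : ℝ) ≤ k := by exact_mod_cast hk
    simp only [Nat.cast_zero, zero_mul, add_zero] at h2
    nlinarith [h2.1, h2.2, h3.1, h3.2]
  classical
  set j := Nat.find hne with hj
  obtain ⟨i₀, hi₀, hne₀⟩ := Nat.find_spec hne
  have hbelow : ∀ j' < j, ∀ i < k, ω i j' = ω 0 j' := by
    intro j' hj' i hi'
    by_contra hcon2
    exact Nat.find_min hne hj' ⟨i, hi', hcon2⟩
  have hpre : ∀ i < k, pre (ω i) j = pre (ω 0) j := by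
    intro i hi'
    funext l
    exact hbelow l l.2 i hi'
  set X : ℝ := pos ρ b hN0 j (pre (ω 0) j) with hX
  have hρj : 0 < ρ ^ j := pow_pos H.pos j
  obtain ⟨i, hi', hfail⟩ := hP ((a - X) / ρ ^ j) (lam / ρ ^ j) (by positivity) (fun i => ω i j)
    ⟨i₀, hi₀, 0, by omega, hne₀⟩
  apply hfail
  have h1 := pt_ge hN0 H j (ω i)
  have h2 := pt_le hN0 H j (ω i)
  rw [hpre i hi'] at h1 h2
  have h3 := abs_lt.1 (hω i hi')
  have h4 : (a - X) / ρ ^ j + i * (lam / ρ ^ j) = (a + i * lam - X) / ρ ^ j := by ring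
  have h5 : ε * (lam / ρ ^ j) = (ε * lam) / ρ ^ j := by ring
  rw [h4, h5]
  constructor
  · rw [lt_div_iff₀ hρj, sub_mul, div_mul_cancel₀ _ hρj.ne']
    have h6 : lo (ω i j) * ρ ^ j ≤ ρ ^ j * b (ω i j) := by
      rw [mul_comm]
      gcongr
      exact hlo _
    change X + _ ≤ _ at h1
    linarith
  · rw [div_lt_iff₀ hρj, add_mul, div_mul_cancel₀ _ hρj.ne']
    have h6 : ρ ^ j * (b (ω i j) + 2 * ρ) ≤ hi (ω i j) * ρ ^ j := by
      rw [mul_comm]
      gcongr
      exact hhi _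
    change _ ≤ X + _ at h2
    linarith

/-- From a bounded avoiding set to a compact avoiding set with large Fourier dimension. -/
theorem exists_compact {k : ℕ} (hk : 3 ≤ k) {ε : ℝ} (hε0 : 0 < ε) (hε1 : ε < 1) {E : Set ℝ}
    (hA : Avoids k ε E) (hE : Bornology.IsBounded E) {t s' : ℝ} (hs' : 0 ≤ s') (hs1 : s' ≤ 1)
    (hst : s' < t) (hdim : ENNReal.ofReal t < dimH E) :
    ∃ F : Set ℝ, IsCompact F ∧ Avoids k ε F ∧ ENNReal.ofReal s' ≤ dimF F := by
  have ht : 0 < t := lt_of_le_of_lt hs' hst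
  obtain ⟨m, L, n₀, hL0, Hn⟩ := exists_pattern hε0 hε1 hA hE ht hdim
  obtain ⟨s, hs1', hs2'⟩ := exists_between hst
  have hL : (0 : ℝ) < L := by exact_mod_cast hL0
  have hts : 0 < t - s := by linarith
  -- choose `n` large
  obtain ⟨M, hM⟩ : ∃ M : ℕ, (5 : ℝ) * L ≤ 2 ^ M := by
    obtain ⟨M, hM⟩ := pow_unbounded_of_one_lt (5 * L : ℝ) (one_lt_two)
    exact ⟨M, hM.le⟩
  obtain ⟨n₁, hn₁⟩ := exists_nat_gt ((M + 1 + (m + 1) * s) / (t - s))
  set n := max n₀ n₁ with hn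
  have hnn : ((M : ℝ) + 1 + (m + 1) * s) < n * (t - s) := by
    rw [div_lt_iff₀ hts] at hn₁
    refine hn₁.trans_le ?_
    gcongr
    exact_mod_cast le_max_right _ _
  obtain ⟨N, lo, hi, hNbig, hNle, hlh, hP⟩ := Hn n (le_max_left _ _)
  have hs0 : 0 ≤ s := hs'.trans hs1'.le
  have hNt : (2 : ℝ) ^ ((M : ℝ) + 1 + (m + 1) * s + n * s) ≤ L * (N + 1) := by
    refine le_trans ?_ hNbig
    apply Real.rpow_le_rpow_of_exponent_le (by norm_num)
    linarith
  -- `N` is at least `2^(n s + (m+1) s)` and at least 4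
  have hNs0 : (2 : ℝ) ^ ((n + m + 1 : ℝ) * s) * (2 * 2 ^ M) ≤ L * (N + 1) := by
    have h1 : (2 : ℝ) ^ ((n + m + 1 : ℝ) * s) * (2 * 2 ^ M) =
        (2 : ℝ) ^ ((M : ℝ) + 1 + (m + 1) * s + n * s) := by
      have h2 : (2 : ℝ) * 2 ^ M = (2 : ℝ) ^ ((M : ℝ) + 1) := by
        rw [Real.rpow_add (by norm_num), Real.rpow_one, Real.rpow_natCast]
        ring
      rw [h2, ← Real.rpow_add (by norm_num)]
      congr 1
      ring
    rw [h1]
    exact hNt
  have hone : 1 ≤ (2 : ℝ) ^ ((n + m + 1 : ℝ) * s) :=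
    Real.one_le_rpow (by norm_num) (by positivity)
  have hN10 : 10 * (2 : ℝ) ^ ((n + m + 1 : ℝ) * s) ≤ N + 1 := by
    have h1 : (2 : ℝ) ^ ((n + m + 1 : ℝ) * s) * (2 * (5 * L)) ≤ L * (N + 1) := by
      refine le_trans ?_ hNs0
      gcongr
    have h2 : L * (10 * (2 : ℝ) ^ ((n + m + 1 : ℝ) * s)) ≤ L * (N + 1) := by
      refine le_trans (le_of_eq ?_) h1
      ring
    exact le_of_mul_le_mul_left h2 hL
  have hN4 : 4 ≤ N := by
    have : (9 : ℝ) ≤ N := by linarith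
    have h9 : 9 ≤ N := by exact_mod_cast this
    omega
  have hN0 : 0 < N := by omega
  set ρ : ℝ := (1 / 2) ^ (n + m + 1) with hρ
  have hρ0 : 0 < ρ := by rw [hρ]; positivity
  have hρ2 : 2 * ρ = (1 / 2) ^ (n + m) := by
    rw [hρ, pow_succ]; ring
  have hρ1 : ρ < 1 := by
    rw [hρ]
    exact pow_lt_one₀ (by norm_num) (by norm_num) (by omega)
  have H : Hyp ρ lo :=
    { pos := hρ0
      lt := hρ1
      b0 := fun i => (hlh i).1
      b1 := fun i => by
        rw [hρ2]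
        exact (hlh i).2.2.trans (hlh i).2.1 }
  have hNs : 1 ≤ N * ρ ^ s := by
    have h1 : ρ ^ s = ((2 : ℝ) ^ ((n + m + 1 : ℝ) * s))⁻¹ := by
      rw [hρ, ← Real.rpow_natCast, ← Real.rpow_mul (by norm_num), one_div,
        Real.inv_rpow (by norm_num)]
      push_cast
      rfl
    rw [h1, ← div_eq_mul_inv, one_le_div (by positivity)]
    linarith
  refine ⟨Set.range (pt ρ lo hN0), isCompact_range (continuous_pt hN0 H), ?_, ?_⟩
  · exact avoids_range hk hε0 hε1 hN0 H (fun i => le_rfl) (fun i => by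
      rw [hρ2]; exact (hlh i).2.2) hP
  · obtain ⟨C, hC⟩ := decay hN4 H hs' (by linarith) hs1' hNs
    refine le_sSup ⟨s', hs', hs1, rfl, mu ρ lo hN0, isProb_mu hN0 H, ?_, C, hC⟩
    have hc : IsCompact (Set.range (pt ρ lo hN0)) := isCompact_range (continuous_pt hN0 H)
    rw [mu, Measure.map_apply (measurable_pt hN0 H) hc.measurableSet]
    have : pt ρ lo hN0 ⁻¹' Set.range (pt ρ lo hN0) = Set.univ := by
      ext ω; simp
    rw [this, measure_univ]

/-- **Main theorem.** -/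
theorem main {k : ℕ} (hk : 3 ≤ k) {ε : ℝ} (hε0 : 0 < ε) (hε1 : ε < 1) :
    sSup {d | ∃ E : Set ℝ, Bornology.IsBounded E ∧ Avoids k ε E ∧ d = dimH E} =
      sSup {d | ∃ E : Set ℝ, MeasurableSet E ∧ Avoids k ε E ∧ d = dimF E} := by
  apply le_antisymm
  · apply sSup_le
    rintro _ ⟨E, hE, hA, rfl⟩
    apply le_of_forall_lt
    intro a ha
    obtain ⟨a', haa', ha'⟩ := exists_between ha
    have h1 : dimH E ≤ 1 := by
      refine (dimH_mono (Set.subset_univ E)).trans ?_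
      rw [Real.dimH_univ]
    have ha1 : a' < 1 := ha'.trans_le h1
    have hfin' : a' ≠ ∞ := (ha1.trans_le le_top).ne
    have hfin : a ≠ ∞ := ((haa'.trans ha1).trans_le le_top).ne
    set t : ℝ := a'.toReal with ht
    set s' : ℝ := a.toReal with hs'
    have e1 : a' = ENNReal.ofReal t := (ENNReal.ofReal_toReal hfin').symm
    have e2 : a = ENNReal.ofReal s' := (ENNReal.ofReal_toReal hfin).symm
    have hs0 : 0 ≤ s' := ENNReal.toReal_nonneg
    obtain ⟨a'', haa'', ha''⟩ := exists_between haa'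
    have hfin'' : a'' ≠ ∞ := (ha''.trans_le le_top).ne
    set s'' : ℝ := a''.toReal with hs''
    have e3 : a'' = ENNReal.ofReal s'' := (ENNReal.ofReal_toReal hfin'').symm
    have hs''0 : 0 ≤ s'' := ENNReal.toReal_nonneg
    have hst : s'' < t := by
      rw [e1, e3] at ha''
      exact (ENNReal.ofReal_lt_ofReal_iff_of_nonneg hs''0).1 ha''
    have ht1 : t ≤ 1 := by
      rw [ht]
      exact ENNReal.toReal_le_of_le_ofReal one_pos.le (by simpa using ha1.le)
    obtain ⟨F, hF, hFA, hFd⟩ := exists_compact hk hε0 hε1 hA hE hs''0 (by linarith) hst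
      (by rw [← e1]; exact ha')
    calc a < a'' := haa''
      _ = ENNReal.ofReal s'' := e3
      _ ≤ dimF F := hFd
      _ ≤ sSup {d | ∃ E : Set ℝ, MeasurableSet E ∧ Avoids k ε E ∧ d = dimF E} :=
          le_sSup ⟨F, hF.measurableSet, hFA, rfl⟩
  · apply sSup_le
    rintro _ ⟨E, hE, hA, rfl⟩
    refine (dimF_le_dimH hE).trans ?_
    have h1 : E = ⋃ n : ℕ, E ∩ Metric.closedBall 0 n := by
      rw [← Set.inter_iUnion, Metric.iUnion_closedBall_nat, Set.inter_univ]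
    rw [h1, dimH_iUnion]
    apply iSup_le
    intro n
    exact le_sSup ⟨_, Metric.isBounded_closedBall.subset Set.inter_subset_right,
      hA.mono Set.inter_subset_left, rfl⟩

end Pool.Agent.H25.FA
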