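import Pool.Agent.H25.FaHoef

/-!
# The random self-similar set
-/

open MeasureTheory Filter ProbabilityTheory
open scoped ENNReal NNReal Topology

noncomputable section

namespace Pool.Agent.H25.FA

variable {N : ℕ} (ρ : ℝ) (b : Fin N → ℝ)

/-- positions of the next level -/
def nxt (j : ℕ) (x : (Fin j → Fin N) → ℝ) (τ : (Fin (j + 1) → Fin N) → ℝ) :
    (Fin (j + 1) → Fin N) → ℝ :=
  fun v => x (Fin.init v) + ρ ^ j * (b (v (Fin.last j)) + ρ * τ v)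

/-- the exponential sum of a level -/
def SS {j : ℕ} (x : (Fin j → Fin N) → ℝ) (ξ : ℝ) : ℂ := ∑ v, ee (ξ * x v)

/-- the `m`-th frequency -/
def fr (m : ℕ) : ℝ := 2 * Real.pi * Real.sqrt m

lemma sum_snoc {M : Type*} [AddCommMonoid M] {j : ℕ} (g : (Fin (j + 1) → Fin N) → M) :
    ∑ v, g v = ∑ w : Fin j → Fin N, ∑ i : Fin N, g (Fin.snoc w i) := by
  rw [← (Fin.snocEquiv fun _ : Fin (j + 1) => Fin N).sum_comp g, Fintype.sum_prod_type_right]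
  rfl

lemma exists_step (hN : 0 < N) (j : ℕ) (x : (Fin j → Fin N) → ℝ) :
    ∃ τ : (Fin (j + 1) → Fin N) → ℝ, (∀ v, τ v ∈ Set.Icc (0 : ℝ) 1) ∧
      ∀ m, ‖SS (nxt ρ b j x τ) (fr m)‖ ≤ ‖ww (fr m * ρ ^ (j + 1))‖ * (N * ‖SS x (fr m)‖) +
        2 * (Real.sqrt ((N : ℝ) ^ (j + 1)) * bb m) := by
  have : Nonempty (Fin N) := ⟨⟨0, hN⟩⟩
  obtain ⟨τ, hτ, H⟩ := level_bound (V := Fin (j + 1) → Fin N)
    (fun m v => ee (fr m * (x (Fin.init v) + ρ ^ j * b (v (Fin.last j)))))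
    (fun m v => (norm_ee _).le) (fun m => fr m * ρ ^ (j + 1))
  refine ⟨τ, hτ, fun m => ?_⟩
  have h1 : SS (nxt ρ b j x τ) (fr m) =
      (∑ v, ee (fr m * (x (Fin.init v) + ρ ^ j * b (v (Fin.last j)))) *
        (ee (fr m * ρ ^ (j + 1) * τ v) - ww (fr m * ρ ^ (j + 1)))) +
      ww (fr m * ρ ^ (j + 1)) *
        ∑ v : Fin (j + 1) → Fin N, ee (fr m * (x (Fin.init v) + ρ ^ j * b (v (Fin.last j)))) := by
    rw [Finset.mul_sum, ← Finset.sum_add_distrib, SS]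
    refine Finset.sum_congr rfl fun v _ => ?_
    have : ee (fr m * nxt ρ b j x τ v) = ee (fr m * (x (Fin.init v) + ρ ^ j * b (v (Fin.last j)))) *
        ee (fr m * ρ ^ (j + 1) * τ v) := by
      rw [← ee_add, nxt]
      congr 1
      rw [pow_succ]
      ring
    rw [this]
    ring
  have h2 : ‖∑ v : Fin (j + 1) → Fin N,
      ee (fr m * (x (Fin.init v) + ρ ^ j * b (v (Fin.last j))))‖ ≤ N * ‖SS x (fr m)‖ := by
    have h3 : ∑ v : Fin (j + 1) → Fin N, ee (fr m * (x (Fin.init v) + ρ ^ j * b (v (Fin.last j)))) =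
        (∑ i : Fin N, ee (fr m * (ρ ^ j * b i))) * SS x (fr m) := by
      rw [sum_snoc, SS, Finset.mul_sum]
      refine Finset.sum_congr rfl fun w _ => ?_
      rw [Finset.sum_mul]
      refine Finset.sum_congr rfl fun i _ => ?_
      rw [← ee_add, Fin.init_snoc, Fin.snoc_last]
      congr 1
      ring
    rw [h3, norm_mul]
    gcongr
    refine (norm_sum_le _ _).trans ?_
    simp [norm_ee]
  have h4 := H m
  have h5 : ((Fintype.card (Fin (j + 1) → Fin N) : ℕ) : ℝ) = (N : ℝ) ^ (j + 1) := by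
    simp
  rw [h5] at h4
  rw [h1]
  calc _ ≤ _ := norm_add_le _ _
    _ ≤ 2 * (Real.sqrt ((N : ℝ) ^ (j + 1)) * bb m) +
        ‖ww (fr m * ρ ^ (j + 1))‖ * (N * ‖SS x (fr m)‖) := by
        rw [norm_mul]
        gcongr
    _ = _ := add_comm _ _

/-- the translations of a level -/
def tau (hN : 0 < N) (j : ℕ) (x : (Fin j → Fin N) → ℝ) : (Fin (j + 1) → Fin N) → ℝ :=
  Classical.choose (exists_step ρ b hN j x)

/-- the positions of the intervals of level `j` -/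
def pos (hN : 0 < N) : (j : ℕ) → (Fin j → Fin N) → ℝ
  | 0 => fun _ => 0
  | j + 1 => nxt ρ b j (pos hN j) (tau ρ b hN j (pos hN j))

variable {ρ b}

lemma tau_mem (hN : 0 < N) (j : ℕ) (x : (Fin j → Fin N) → ℝ) (v : Fin (j + 1) → Fin N) :
    tau ρ b hN j x v ∈ Set.Icc (0 : ℝ) 1 := (Classical.choose_spec (exists_step ρ b hN j x)).1 v

lemma SS_step (hN : 0 < N) (j m : ℕ) :
    ‖SS (pos ρ b hN (j + 1)) (fr m)‖ ≤
      ‖ww (fr m * ρ ^ (j + 1))‖ * (N * ‖SS (pos ρ b hN j) (fr m)‖) +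
        2 * (Real.sqrt ((N : ℝ) ^ (j + 1)) * bb m) :=
  (Classical.choose_spec (exists_step ρ b hN j (pos ρ b hN j))).2 m

/-- the prefix of length `j` -/
def pre (ω : ℕ → Fin N) (j : ℕ) : Fin j → Fin N := fun i => ω i

lemma init_pre (ω : ℕ → Fin N) (j : ℕ) : Fin.init (pre ω (j + 1)) = pre ω j := rfl

lemma last_pre (ω : ℕ → Fin N) (j : ℕ) : pre ω (j + 1) (Fin.last j) = ω j := rfl

/-- position of the point with address `ω` up to level `j` -/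
def xx (ρ : ℝ) (b : Fin N → ℝ) (hN : 0 < N) (j : ℕ) (ω : ℕ → Fin N) : ℝ :=
  pos ρ b hN j (pre ω j)

/-- the digit of level `j` -/
def dd (ρ : ℝ) (b : Fin N → ℝ) (hN : 0 < N) (j : ℕ) (ω : ℕ → Fin N) : ℝ :=
  b (ω j) + ρ * tau ρ b hN j (pos ρ b hN j) (pre ω (j + 1))

lemma xx_succ (hN : 0 < N) (j : ℕ) (ω : ℕ → Fin N) :
    xx ρ b hN (j + 1) ω = xx ρ b hN j ω + ρ ^ j * dd ρ b hN j ω := rfl

lemma xx_eq_sum (hN : 0 < N) (j : ℕ) (ω : ℕ → Fin N) :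
    xx ρ b hN j ω = ∑ i ∈ Finset.range j, ρ ^ i * dd ρ b hN i ω := by
  induction j with
  | zero => rfl
  | succ j ih => rw [xx_succ, ih, Finset.sum_range_succ]

/-- hypotheses on the pattern -/
structure Hyp (ρ : ℝ) (b : Fin N → ℝ) : Prop where
  pos : 0 < ρ
  lt : ρ < 1
  b0 : ∀ i, 0 ≤ b i
  b1 : ∀ i, b i + 2 * ρ ≤ 1

lemma dd_ge (hN : 0 < N) (H : Hyp ρ b) (j : ℕ) (ω : ℕ → Fin N) : b (ω j) ≤ dd ρ b hN j ω := by
  have := (tau_mem (ρ := ρ) (b := b) hN j (pos ρ b hN j) (pre ω (j + 1))).1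
  have h2 := mul_nonneg H.pos.le this
  rw [dd]
  linarith

lemma dd_le (hN : 0 < N) (H : Hyp ρ b) (j : ℕ) (ω : ℕ → Fin N) :
    dd ρ b hN j ω ≤ b (ω j) + ρ := by
  have := (tau_mem (ρ := ρ) (b := b) hN j (pos ρ b hN j) (pre ω (j + 1))).2
  have h2 := mul_le_mul_of_nonneg_left this H.pos.le
  rw [dd]
  linarith

lemma dd_nonneg (hN : 0 < N) (H : Hyp ρ b) (j : ℕ) (ω : ℕ → Fin N) : 0 ≤ dd ρ b hN j ω :=
  (H.b0 _).trans (dd_ge hN H j ω)

lemma dd_le' (hN : 0 < N) (H : Hyp ρ b) (j : ℕ) (ω : ℕ → Fin N) : dd ρ b hN j ω ≤ 1 - ρ := by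
  have h1 := dd_le hN H j ω
  have h2 := H.b1 (ω j)
  linarith

/-- the point with address `ω` -/
def pt (ρ : ℝ) (b : Fin N → ℝ) (hN : 0 < N) (ω : ℕ → Fin N) : ℝ := ∑' j, ρ ^ j * dd ρ b hN j ω

lemma summable_dd (hN : 0 < N) (H : Hyp ρ b) (ω : ℕ → Fin N) :
    Summable fun j => ρ ^ j * dd ρ b hN j ω := by
  refine Summable.of_nonneg_of_le (fun j => mul_nonneg (pow_nonneg H.pos.le _) (dd_nonneg hN H j ω))
    (fun j => ?_) (summable_geometric_of_lt_one H.pos.le H.lt)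
  have h1 := dd_le' hN H j ω
  have h2 := H.pos
  calc ρ ^ j * dd ρ b hN j ω ≤ ρ ^ j * 1 := by
        gcongr
        linarith
    _ = ρ ^ j := mul_one _

lemma pt_eq (hN : 0 < N) (H : Hyp ρ b) (j : ℕ) (ω : ℕ → Fin N) :
    pt ρ b hN ω = xx ρ b hN j ω + ∑' i, ρ ^ (i + j) * dd ρ b hN (i + j) ω := by
  rw [xx_eq_sum, pt, (summable_dd hN H ω).sum_add_tsum_nat_add j]

lemma tail_nonneg (hN : 0 < N) (H : Hyp ρ b) (j : ℕ) (ω : ℕ → Fin N) :
    0 ≤ ∑' i, ρ ^ (i + j) * dd ρ b hN (i + j) ω :=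
  tsum_nonneg fun i => mul_nonneg (pow_nonneg H.pos.le _) (dd_nonneg hN H _ ω)

lemma tail_le (hN : 0 < N) (H : Hyp ρ b) (j : ℕ) (ω : ℕ → Fin N) :
    ∑' i, ρ ^ (i + j) * dd ρ b hN (i + j) ω ≤ ρ ^ j := by
  have h1 : ∀ i, ρ ^ (i + j) * dd ρ b hN (i + j) ω ≤ (ρ ^ j * (1 - ρ)) * ρ ^ i := by
    intro i
    have := dd_le' hN H (i + j) ω
    have h2 := H.pos
    calc ρ ^ (i + j) * dd ρ b hN (i + j) ω ≤ ρ ^ (i + j) * (1 - ρ) := by gcongr
      _ = _ := by rw [pow_add]; ring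
  have hs : Summable fun i => ρ ^ (i + j) * dd ρ b hN (i + j) ω :=
    (summable_nat_add_iff j).2 (summable_dd hN H ω)
  calc _ ≤ ∑' i, (ρ ^ j * (1 - ρ)) * ρ ^ i :=
        hs.tsum_le_tsum h1 ((summable_geometric_of_lt_one H.pos.le H.lt).mul_left _)
    _ = ρ ^ j := by
        rw [tsum_mul_left, tsum_geometric_of_lt_one H.pos.le H.lt]
        have : 1 - ρ ≠ 0 := by linarith [H.lt]
        field_simp

lemma pt_ge_xx (hN : 0 < N) (H : Hyp ρ b) (j : ℕ) (ω : ℕ → Fin N) :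
    xx ρ b hN j ω ≤ pt ρ b hN ω := by
  have := tail_nonneg hN H j ω
  rw [pt_eq hN H j]
  linarith

lemma pt_le_xx (hN : 0 < N) (H : Hyp ρ b) (j : ℕ) (ω : ℕ → Fin N) :
    pt ρ b hN ω ≤ xx ρ b hN j ω + ρ ^ j := by
  have := tail_le hN H j ω
  rw [pt_eq hN H j]
  linarith

/-- the point lies in the interval of its first letter after any prefix -/
lemma pt_ge (hN : 0 < N) (H : Hyp ρ b) (j : ℕ) (ω : ℕ → Fin N) :
    pos ρ b hN j (pre ω j) + ρ ^ j * b (ω j) ≤ pt ρ b hN ω := by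
  have h1 := pt_ge_xx hN H (j + 1) ω
  rw [xx_succ] at h1
  have h2 := mul_le_mul_of_nonneg_left (dd_ge hN H j ω) (pow_nonneg H.pos.le j)
  change xx ρ b hN j ω + _ ≤ _
  linarith

lemma pt_le (hN : 0 < N) (H : Hyp ρ b) (j : ℕ) (ω : ℕ → Fin N) :
    pt ρ b hN ω ≤ pos ρ b hN j (pre ω j) + ρ ^ j * (b (ω j) + 2 * ρ) := by
  have h1 := pt_le_xx hN H (j + 1) ω
  rw [xx_succ] at h1
  have h2 := mul_le_mul_of_nonneg_left (dd_le hN H j ω) (pow_nonneg H.pos.le j)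
  change _ ≤ xx ρ b hN j ω + _
  have h3 : ρ ^ (j + 1) = ρ ^ j * ρ := pow_succ _ _
  rw [h3] at h1
  linarith

lemma pt_mem (hN : 0 < N) (H : Hyp ρ b) (ω : ℕ → Fin N) : pt ρ b hN ω ∈ Set.Icc (0 : ℝ) 1 := by
  have h1 := pt_ge_xx hN H 0 ω
  have h2 := pt_le_xx hN H 0 ω
  have h3 : xx ρ b hN 0 ω = 0 := rfl
  rw [h3] at h1 h2
  rw [pow_zero, zero_add] at h2
  exact ⟨h1, h2⟩

lemma continuous_dd (hN : 0 < N) (j : ℕ) : Continuous (dd ρ b hN j) := by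
  have h1 : Continuous fun ω : ℕ → Fin N => pre ω (j + 1) := by
    unfold pre; fun_prop
  have h2 : dd ρ b hN j = (fun v : Fin (j + 1) → Fin N =>
      b (v (Fin.last j)) + ρ * tau ρ b hN j (pos ρ b hN j) v) ∘ fun ω => pre ω (j + 1) := rfl
  rw [h2]
  exact (continuous_of_discreteTopology).comp h1

lemma continuous_pt (hN : 0 < N) (H : Hyp ρ b) : Continuous (pt ρ b hN) := by
  apply continuous_tsum (u := fun j => ρ ^ j)
  · intro j
    exact continuous_const.mul (continuous_dd hN j)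
  · exact summable_geometric_of_lt_one H.pos.le H.lt
  · intro j ω
    rw [Real.norm_of_nonneg (mul_nonneg (pow_nonneg H.pos.le _) (dd_nonneg hN H j ω))]
    have h1 := dd_le' hN H j ω
    have h2 := H.pos
    calc ρ ^ j * dd ρ b hN j ω ≤ ρ ^ j * 1 := by
          gcongr
          linarith
      _ = ρ ^ j := mul_one _

end Pool.Agent.H25.FA
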