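import Mathlib

set_option autoImplicit false

open Filter Topology

namespace Pool.Agent.H25.LinDim

/-- The index set: finite binary words times three coordinates. -/
abbrev Dx := List Bool × Fin 3
/-- The Cantor space of branches. -/
abbrev Xx := ℕ → Bool
/-- Bounded real functions on the index set. -/
abbrev Ell := lp (fun _ : Dx => ℝ) ⊤
/-- Vectors with three coordinates. -/
abbrev V3 := Fin 3 → ℝ

/-- The initial segment of length `n` of a branch. -/
def node (x : Xx) (n : ℕ) : List Bool := (List.range n).map x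

lemma node_length (x : Xx) (n : ℕ) : (node x n).length = n := by
  simp [node]

lemma node_inj {x y : Xx} {n : ℕ} (h : node x n = node y n) : ∀ i < n, x i = y i := by
  intro i hi
  have := (List.map_inj_left.mp h) i (List.mem_range.mpr hi)
  exact this

lemma node_ne {x y : Xx} (h : x ≠ y) : ∃ K, ∀ n ≥ K, node x n ≠ node y n := by
  obtain ⟨i, hi⟩ := Function.ne_iff.mp h
  refine ⟨i + 1, fun n hn hxy => hi (node_inj hxy i (by omega))⟩

/-- Unit coordinate vectors. -/
noncomputable def del (q : Dx) : Ell := lp.single ⊤ q (1 : ℝ)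

lemma del_apply (q p : Dx) : (del q : Dx → ℝ) p = if p = q then 1 else 0 := by
  unfold del
  rw [lp.single_apply]
  by_cases h : p = q
  · subst h; simp
  · simp [h]

/-- The function which is `w` along the branch `x` and zero elsewhere. -/
def indFun (x : Xx) (w : V3) : Dx → ℝ := fun q => if q.1 = node x q.1.length then w q.2 else 0

lemma indFun_le (x : Xx) (w : V3) (q : Dx) : |indFun x w q| ≤ ‖w‖ := by
  unfold indFun
  split_ifs
  · exact norm_le_pi_norm w q.2
  · simp

lemma indFun_mem (x : Xx) (w : V3) : Memℓp (indFun x w) ⊤ := by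
  apply memℓp_infty
  refine ⟨‖w‖, ?_⟩
  rintro _ ⟨q, rfl⟩
  exact indFun_le x w q

/-- The element of the ambient space given by `indFun`. -/
noncomputable def ind (x : Xx) (w : V3) : Ell := ⟨indFun x w, indFun_mem x w⟩

lemma ind_apply (x : Xx) (w : V3) (q : Dx) :
    (ind x w : Dx → ℝ) q = if q.1 = node x q.1.length then w q.2 else 0 := rfl

lemma ind_add (x : Xx) (w w' : V3) : ind x (w + w') = ind x w + ind x w' := by
  ext q
  simp only [ind_apply, lp.coeFn_add, Pi.add_apply]
  split_ifs <;> simp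

lemma ind_smul (x : Xx) (c : ℝ) (w : V3) : ind x (c • w) = c • ind x w := by
  ext q
  simp only [ind_apply, lp.coeFn_smul, Pi.smul_apply]
  split_ifs <;> simp

lemma ind_zero (x : Xx) : ind x 0 = 0 := by
  have := ind_smul x 0 0
  simpa using this

lemma norm_apply_le (f : Ell) (q : Dx) : |f q| ≤ ‖f‖ := by
  have := lp.norm_apply_le_norm (p := ⊤) (by simp) f q
  simpa using this

lemma norm_le_of {f : Ell} {C : ℝ} (hC : 0 ≤ C) (h : ∀ q, |f q| ≤ C) : ‖f‖ ≤ C :=
  lp.norm_le_of_forall_le hC (fun q => by simpa using h q)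

/-- Convergence along a branch. -/
def ConvTo (g : Ell) (y : Xx) (L : V3) : Prop :=
  ∀ i, Tendsto (fun n => g (node y n, i)) atTop (𝓝 (L i))

lemma ConvTo.unique {g : Ell} {y : Xx} {L L' : V3} (h : ConvTo g y L) (h' : ConvTo g y L') :
    L = L' := by
  funext i
  exact tendsto_nhds_unique (h i) (h' i)

lemma ConvTo.add {g g' : Ell} {y : Xx} {L L' : V3} (h : ConvTo g y L) (h' : ConvTo g' y L') :
    ConvTo (g + g') y (L + L') := by
  intro i
  simpa using (h i).add (h' i)

lemma ConvTo.smul {g : Ell} {y : Xx} {L : V3} (c : ℝ) (h : ConvTo g y L) :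
    ConvTo (c • g) y (c • L) := by
  intro i
  simpa using (h i).const_mul c

lemma ConvTo.zero (y : Xx) : ConvTo 0 y 0 := by
  intro i
  simp

lemma convTo_del (q : Dx) (y : Xx) : ConvTo (del q) y 0 := by
  intro i
  apply tendsto_const_nhds.congr'
  filter_upwards [eventually_gt_atTop q.1.length] with n hn
  rw [del_apply, if_neg]
  · rfl
  · intro h
    have := congrArg (fun p : Dx => p.1.length) h
    simp only [node_length] at this
    omega

lemma convTo_ind_self (x : Xx) (w : V3) : ConvTo (ind x w) x w := by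
  intro i
  apply tendsto_const_nhds.congr'
  filter_upwards with n
  rw [ind_apply]
  simp [node_length]

lemma convTo_ind_ne {x y : Xx} (h : x ≠ y) (w : V3) : ConvTo (ind x w) y 0 := by
  intro i
  obtain ⟨K, hK⟩ := node_ne h
  apply tendsto_const_nhds.congr'
  filter_upwards [eventually_ge_atTop K] with n hn
  rw [ind_apply]
  simp only [node_length]
  rw [if_neg]
  · rfl
  · exact fun h' => hK n hn h'.symm

lemma ConvTo.norm_le {g : Ell} {y : Xx} {L : V3} (h : ConvTo g y L) : ‖L‖ ≤ ‖g‖ := by
  rw [pi_norm_le_iff_of_nonneg (norm_nonneg _)]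
  intro i
  have h1 : Tendsto (fun n => |g (node y n, i)|) atTop (𝓝 |L i|) := (h i).abs
  exact le_of_tendsto' h1 (fun n => norm_apply_le g _)

/-- The submodule of functions converging along `y` to an element of `S`. -/
def convSub (y : Xx) (S : Submodule ℝ V3) : Submodule ℝ Ell where
  carrier := {g | ∃ L ∈ S, ConvTo g y L}
  add_mem' := by
    rintro a b ⟨L, hL, h⟩ ⟨L', hL', h'⟩
    exact ⟨L + L', S.add_mem hL hL', h.add h'⟩
  zero_mem' := ⟨0, S.zero_mem, ConvTo.zero y⟩
  smul_mem' := by
    rintro c a ⟨L, hL, h⟩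
    exact ⟨c • L, S.smul_mem c hL, h.smul c⟩

lemma isClosed_convSub (y : Xx) (S : Submodule ℝ V3) : IsClosed (convSub y S : Set Ell) := by
  apply isClosed_of_closure_subset
  intro g hg
  rw [Metric.mem_closure_iff] at hg
  have hpos : ∀ k : ℕ, (0 : ℝ) < 1 / ((k : ℝ) + 1) := fun k => by positivity
  choose gk hgk hdist using fun k : ℕ => hg (1 / ((k : ℝ) + 1)) (hpos k)
  choose L hL hconv using hgk
  have hcau : CauchySeq L := by
    rw [Metric.cauchySeq_iff]
    intro ε hε
    obtain ⟨N, hN⟩ := exists_nat_one_div_lt (half_pos hε)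
    refine ⟨N, fun m hm n hn => ?_⟩
    have h1 : ConvTo (gk m - gk n) y (L m - L n) := by
      have := (hconv m).add ((hconv n).smul (-1))
      simpa [sub_eq_add_neg] using this
    have h2 : ‖L m - L n‖ ≤ ‖gk m - gk n‖ := h1.norm_le
    have h3 : dist (gk m) (gk n) ≤ dist g (gk m) + dist g (gk n) := by
      rw [dist_comm g (gk m)]
      exact dist_triangle _ _ _
    have h4 : 1 / ((m : ℝ) + 1) ≤ 1 / ((N : ℝ) + 1) := by
      apply one_div_le_one_div_of_le (by positivity)
      have : (N : ℝ) ≤ m := by exact_mod_cast hm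
      linarith
    have h5 : 1 / ((n : ℝ) + 1) ≤ 1 / ((N : ℝ) + 1) := by
      apply one_div_le_one_div_of_le (by positivity)
      have : (N : ℝ) ≤ n := by exact_mod_cast hn
      linarith
    rw [dist_eq_norm]
    rw [dist_eq_norm] at h3
    have := hdist m
    have := hdist n
    linarith
  obtain ⟨L₀, hL₀⟩ := cauchySeq_tendsto_of_complete hcau
  refine ⟨L₀, ?_, ?_⟩
  · have hcl : IsClosed (S : Set V3) := Submodule.closed_of_finiteDimensional S
    exact hcl.mem_of_tendsto hL₀ (Eventually.of_forall hL)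
  · intro i
    rw [Metric.tendsto_atTop]
    intro ε hε
    have hL₀i : Tendsto (fun k => L k i) atTop (𝓝 (L₀ i)) := (tendsto_pi_nhds.mp hL₀) i
    rw [Metric.tendsto_atTop] at hL₀i
    obtain ⟨N₁, hN₁⟩ := hL₀i (ε / 3) (by positivity)
    obtain ⟨N₂, hN₂⟩ := exists_nat_one_div_lt (show (0 : ℝ) < ε / 3 by positivity)
    set k := max N₁ N₂ with hk
    have h1 := hconv k i
    rw [Metric.tendsto_atTop] at h1
    obtain ⟨N₃, hN₃⟩ := h1 (ε / 3) (by positivity)
    refine ⟨N₃, fun n hn => ?_⟩
    have ha := hN₃ n hn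
    have hb := hN₁ k (le_max_left _ _)
    have hc : dist (g (node y n, i)) (gk k (node y n, i)) < ε / 3 := by
      have h4 : 1 / ((k : ℝ) + 1) ≤ 1 / ((N₂ : ℝ) + 1) := by
        apply one_div_le_one_div_of_le (by positivity)
        have : (N₂ : ℝ) ≤ k := by exact_mod_cast (le_max_right _ _)
        linarith
      have h5 : |(g - gk k) (node y n, i)| ≤ ‖g - gk k‖ := norm_apply_le _ _
      have h6 := hdist k
      rw [dist_eq_norm] at h6
      rw [Real.dist_eq]
      simp only [lp.coeFn_sub, Pi.sub_apply] at h5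
      linarith
    calc dist (g (node y n, i)) (L₀ i)
        ≤ dist (g (node y n, i)) (gk k (node y n, i)) + dist (gk k (node y n, i)) (L k i)
          + dist (L k i) (L₀ i) := dist_triangle4 _ _ _ _
      _ < ε / 3 + ε / 3 + ε / 3 := by linarith
      _ = ε := by ring

/-- Generators of the spaces. -/
def gens (S : Xx → Submodule ℝ V3) : Set Ell :=
  Set.range del ∪ {f | ∃ x, ∃ w ∈ S x, f = ind x w}

/-- The closed subspace attached to a choice of subspaces. -/
noncomputable def HS (S : Xx → Submodule ℝ V3) : Submodule ℝ Ell :=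
  (Submodule.span ℝ (gens S)).topologicalClosure

lemma del_mem (S : Xx → Submodule ℝ V3) (q : Dx) : del q ∈ HS S :=
  Submodule.le_topologicalClosure _ (Submodule.subset_span (Or.inl ⟨q, rfl⟩))

lemma ind_mem {S : Xx → Submodule ℝ V3} {x : Xx} {w : V3} (h : w ∈ S x) : ind x w ∈ HS S :=
  Submodule.le_topologicalClosure _ (Submodule.subset_span (Or.inr ⟨x, w, h, rfl⟩))

lemma HS_mono {S S' : Xx → Submodule ℝ V3} (h : ∀ x, S x ≤ S' x) : HS S ≤ HS S' := by
  apply Submodule.topologicalClosure_mono
  apply Submodule.span_mono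
  rintro f (hf | ⟨x, w, hw, rfl⟩)
  · exact Or.inl hf
  · exact Or.inr ⟨x, w, h x hw, rfl⟩

lemma conv_of_mem {S : Xx → Submodule ℝ V3} {g : Ell} (hg : g ∈ HS S) (y : Xx) :
    ∃ L ∈ S y, ConvTo g y L := by
  have hle : HS S ≤ convSub y (S y) := by
    apply Submodule.topologicalClosure_minimal _ _ (isClosed_convSub y (S y))
    rw [Submodule.span_le]
    rintro f (⟨q, rfl⟩ | ⟨x, w, hw, rfl⟩)
    · exact ⟨0, (S y).zero_mem, convTo_del q y⟩
    · by_cases hxy : x = y
      · subst hxy
        exact ⟨w, hw, convTo_ind_self x w⟩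
      · exact ⟨0, (S y).zero_mem, convTo_ind_ne hxy w⟩
  exact hle hg

end Pool.Agent.H25.LinDim
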