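import Pool.Agent.H25.LinDimA

set_option autoImplicit false

open Filter Topology

namespace Pool.Agent.H25.LinDim

lemma exists_level (s : Finset Xx) :
    ∃ K, ∀ x ∈ s, ∀ y ∈ s, x ≠ y → ∀ n ≥ K, node x n ≠ node y n := by
  classical
  have h : ∀ x y : Xx, ∃ K, x ≠ y → ∀ n ≥ K, node x n ≠ node y n := by
    intro x y
    by_cases hxy : x = y
    · exact ⟨0, fun h => absurd hxy h⟩
    · obtain ⟨K, hK⟩ := node_ne hxy
      exact ⟨K, fun _ => hK⟩
  choose k hk using h
  refine ⟨s.sup (fun x => s.sup (fun y => k x y)), fun x hx y hy hxy n hn => hk x y hxy n ?_⟩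
  have h1 : k x y ≤ s.sup (fun y => k x y) := Finset.le_sup (f := fun y => k x y) hy
  have h2 : s.sup (fun y => k x y) ≤ s.sup (fun x => s.sup (fun y => k x y)) :=
    Finset.le_sup (f := fun x => s.sup (fun y => k x y)) hx
  omega

lemma prod_mk_sum {ι : Type} (s : Finset ι) (f : ι → Ell) (g : ι → ℝ) :
    ∑ i ∈ s, (f i, g i) = ((∑ i ∈ s, f i : Ell), ∑ i ∈ s, g i) := by
  apply Prod.ext
  · rw [Prod.fst_sum]
  · rw [Prod.snd_sum]

lemma lp_sum_apply {ι : Type} (s : Finset ι) (f : ι → Ell) (q : Dx) :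
    (∑ i ∈ s, f i : Ell) q = ∑ i ∈ s, f i q := by
  rw [lp.coeFn_sum]
  simp

/-- Finite combination with small tail after removing a finitely supported part. -/
lemma exists_tail (s : Finset Xx) (w : Xx → V3) (C : ℝ) (hC : 0 ≤ C) (hw : ∀ x ∈ s, ‖w x‖ ≤ C) :
    ∃ (Q : Finset Dx) (c : Dx → ℝ),
      ‖(∑ x ∈ s, ind x (w x)) - ∑ q ∈ Q, c q • del q‖ ≤ C := by
  classical
  obtain ⟨K, hK⟩ := exists_level s
  have hfin : ({l : List Bool | l.length < K} ×ˢ (Set.univ : Set (Fin 3))).Finite :=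
    (List.finite_length_lt Bool K).prod Set.finite_univ
  refine ⟨hfin.toFinset, fun q => (∑ x ∈ s, ind x (w x) : Ell) q, ?_⟩
  apply norm_le_of hC
  intro q
  have hval : ((∑ x ∈ s, ind x (w x)) - ∑ p ∈ hfin.toFinset,
      ((∑ x ∈ s, ind x (w x) : Ell) p) • del p : Ell) q
      = (∑ x ∈ s, ind x (w x) : Ell) q
        - if q.1.length < K then (∑ x ∈ s, ind x (w x) : Ell) q else 0 := by
    rw [lp.coeFn_sub, Pi.sub_apply]
    congr 1
    rw [lp_sum_apply]
    have : ∀ p ∈ hfin.toFinset, (((∑ x ∈ s, ind x (w x) : Ell) p) • del p : Ell) q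
        = if q = p then (∑ x ∈ s, ind x (w x) : Ell) p else 0 := by
      intro p _
      rw [lp.coeFn_smul, Pi.smul_apply, del_apply]
      split_ifs <;> simp
    rw [Finset.sum_congr rfl this, Finset.sum_ite_eq]
    simp
  rw [hval]
  by_cases hq : q.1.length < K
  · rw [if_pos hq]; simpa using hC
  · rw [if_neg hq, sub_zero, lp_sum_apply]
    simp only [ind_apply]
    by_cases hex : ∃ x ∈ s, q.1 = node x q.1.length
    · obtain ⟨x, hx, hqx⟩ := hex
      rw [Finset.sum_eq_single x]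
      · rw [if_pos hqx]
        exact (norm_le_pi_norm (w x) q.2).trans (hw x hx)
      · intro y hy hyx
        rw [if_neg]
        intro hqy
        exact hK y hy x hx hyx q.1.length (by omega) (hqy.symm.trans hqx)
      · intro h; exact absurd hx h
    · push Not at hex
      rw [Finset.sum_eq_zero]
      · simpa using hC
      · intro x hx
        rw [if_neg (hex x hx)]

lemma countable_graph (Γ : Submodule ℝ (Ell × ℝ)) (hδ : ∀ q, (del q, (0 : ℝ)) ∈ Γ) (C : ℝ)
    (hC0 : 0 ≤ C) (hC : ∀ f L, (f, L) ∈ Γ → |L| ≤ C * ‖f‖) :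
    {x : Xx | ∃ w L, (ind x w, L) ∈ Γ ∧ L ≠ 0}.Countable := by
  classical
  set A := {x : Xx | ∃ w L, (ind x w, L) ∈ Γ ∧ L ≠ 0} with hA
  have h1 : ∀ x ∈ A, ∃ w L, (ind x w, L) ∈ Γ ∧ 0 < L ∧ ‖w‖ ≤ 1 := by
    rintro x ⟨w, L, hwL, hL⟩
    have hpos : 0 < 1 + ‖w‖ := by positivity
    refine ⟨(SignType.sign L * (1 + ‖w‖)⁻¹ : ℝ) • w, (SignType.sign L * (1 + ‖w‖)⁻¹ : ℝ) * L,
      ?_, ?_, ?_⟩
    · have := Γ.smul_mem (SignType.sign L * (1 + ‖w‖)⁻¹ : ℝ) hwL
      rw [ind_smul]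
      simpa using this
    · have : (SignType.sign L * (1 + ‖w‖)⁻¹ : ℝ) * L = (1 + ‖w‖)⁻¹ * |L| := by
        rw [mul_right_comm, sign_mul_self]; ring
      rw [this]
      have : 0 < |L| := abs_pos.mpr hL
      positivity
    · rw [norm_smul]
      have : ‖(SignType.sign L * (1 + ‖w‖)⁻¹ : ℝ)‖ ≤ (1 + ‖w‖)⁻¹ := by
        rw [norm_mul, Real.norm_eq_abs, Real.norm_eq_abs, abs_of_pos (inv_pos.mpr hpos)]
        have : |((SignType.sign L : SignType) : ℝ)| ≤ 1 := by
          rcases lt_trichotomy L 0 with h | h | h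
          · simp [h]
          · simp [h]
          · simp [h]
        nlinarith [inv_pos.mpr hpos]
      calc ‖(SignType.sign L * (1 + ‖w‖)⁻¹ : ℝ)‖ * ‖w‖ ≤ (1 + ‖w‖)⁻¹ * ‖w‖ := by gcongr
        _ ≤ 1 := by
          rw [inv_mul_le_iff₀ hpos]; linarith
  choose! w L hwL hLpos hw using h1
  set a : Xx → ℝ := fun x => if x ∈ A then L x else 0 with ha
  have ha0 : 0 ≤ a := by
    intro x
    simp only [ha, Pi.zero_apply]
    split_ifs with h
    · exact (hLpos x h).le
    · exact le_rfl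
  have hsum : ∀ s : Finset Xx, ∑ x ∈ s, a x ≤ C := by
    intro s
    set s' := s.filter (· ∈ A) with hs'
    have hs : ∑ x ∈ s, a x = ∑ x ∈ s', L x := by
      rw [hs', Finset.sum_filter]
    obtain ⟨Q, c, hQ⟩ := exists_tail s' w 1 zero_le_one
      (fun x hx => hw x (Finset.mem_filter.mp hx).2)
    have hmem : ((∑ x ∈ s', ind x (w x)) - ∑ q ∈ Q, c q • del q, ∑ x ∈ s', L x) ∈ Γ := by
      have e1 : ((∑ x ∈ s', ind x (w x) : Ell), ∑ x ∈ s', L x) ∈ Γ := by
        have : (∑ x ∈ s', (ind x (w x), L x)) ∈ Γ :=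
          Γ.sum_mem (fun x hx => hwL x (Finset.mem_filter.mp hx).2)
        rwa [prod_mk_sum] at this
      have e2 : ((∑ q ∈ Q, c q • del q : Ell), (0 : ℝ)) ∈ Γ := by
        have : (∑ q ∈ Q, c q • (del q, (0 : ℝ))) ∈ Γ :=
          Γ.sum_mem (fun q _ => Γ.smul_mem _ (hδ q))
        simp only [Prod.smul_mk, smul_zero] at this
        rw [prod_mk_sum] at this
        simpa using this
      simpa using Γ.sub_mem e1 e2
    have h2 := hC _ _ hmem
    rw [hs]
    calc ∑ x ∈ s', L x ≤ |∑ x ∈ s', L x| := le_abs_self _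
      _ ≤ C * _ := h2
      _ ≤ C * 1 := by gcongr
      _ = C := mul_one C
  have hsummable : Summable a := summable_of_sum_le ha0 hsum
  refine hsummable.countable_support.mono ?_
  intro x hx
  rw [Function.mem_support]
  simp only [ha, if_pos hx]
  exact (hLpos x hx).ne'

end Pool.Agent.H25.LinDim
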