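import Pool.Agent.H25.LinDimB

set_option autoImplicit false

open Filter Topology

namespace Pool.Agent.H25.LinDim

/-- Operators given by a matrix with absolutely summable rows. -/
def IsMat (B : Ell →L[ℝ] Ell) : Prop :=
  ∀ (f : Ell) (p : Dx), HasSum (fun q => f q * (B (del q)) p) ((B f) p)

lemma norm_signsum_le (s : Finset Dx) (a : Dx → ℝ) :
    ‖(∑ q ∈ s, (SignType.sign (a q) : ℝ) • del q : Ell)‖ ≤ 1 := by
  classical
  apply norm_le_of zero_le_one
  intro p
  rw [lp_sum_apply]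
  have : ∀ q ∈ s, (((SignType.sign (a q) : ℝ) • del q : Ell)) p
      = if p = q then (SignType.sign (a q) : ℝ) else 0 := by
    intro q _
    rw [lp.coeFn_smul, Pi.smul_apply, del_apply]
    split_ifs <;> simp
  rw [Finset.sum_congr rfl this, Finset.sum_ite_eq]
  split_ifs
  · rcases lt_trichotomy (a p) 0 with h | h | h
    · simp [h]
    · simp [h]
    · simp [h]
  · simp

lemma row_bound (H : Submodule ℝ Ell) (hH : ∀ q, del q ∈ H) (T : H →L[ℝ] Ell) (p : Dx)
    (s : Finset Dx) : ∑ q ∈ s, |(T ⟨del q, hH q⟩) p| ≤ ‖T‖ := by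
  set a : Dx → ℝ := fun q => (T ⟨del q, hH q⟩) p with ha
  set f : H := ∑ q ∈ s, (SignType.sign (a q) : ℝ) • (⟨del q, hH q⟩ : H) with hf
  have hfn : ‖f‖ ≤ 1 := by
    have : ‖f‖ = ‖(f : Ell)‖ := rfl
    rw [this, hf]
    have h2 : ((∑ q ∈ s, (SignType.sign (a q) : ℝ) • (⟨del q, hH q⟩ : H) : H) : Ell)
        = ∑ q ∈ s, (SignType.sign (a q) : ℝ) • del q := by
      simp
    rw [h2]
    exact norm_signsum_le s a
  have h1 : (T f) p = ∑ q ∈ s, |a q| := by
    rw [hf, map_sum, lp_sum_apply]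
    apply Finset.sum_congr rfl
    intro q _
    rw [map_smul, lp.coeFn_smul, Pi.smul_apply, smul_eq_mul]
    exact sign_mul_self _
  calc ∑ q ∈ s, |a q| = (T f) p := h1.symm
    _ ≤ |(T f) p| := le_abs_self _
    _ ≤ ‖T f‖ := norm_apply_le _ _
    _ ≤ ‖T‖ * ‖f‖ := T.le_opNorm f
    _ ≤ ‖T‖ * 1 := by gcongr
    _ = ‖T‖ := mul_one _

lemma exists_mat (H : Submodule ℝ Ell) (hH : ∀ q, del q ∈ H) (T : H →L[ℝ] Ell) :
    ∃ B : Ell →L[ℝ] Ell, IsMat B ∧ ∀ q, B (del q) = T ⟨del q, hH q⟩ := by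
  classical
  set a : Dx → Dx → ℝ := fun p q => (T ⟨del q, hH q⟩) p with ha
  have hsa : ∀ p, Summable (fun q => |a p q|) := fun p =>
    summable_of_sum_le (fun q => abs_nonneg _) (fun s => row_bound H hH T p s)
  have htsum : ∀ p, ∑' q, |a p q| ≤ ‖T‖ := fun p =>
    (hsa p).tsum_le_of_sum_le (fun s => row_bound H hH T p s)
  have hbd : ∀ (f : Ell) p q, |f q * a p q| ≤ ‖f‖ * |a p q| := by
    intro f p q
    rw [abs_mul]
    gcongr
    exact norm_apply_le f q
  have hs : ∀ (f : Ell) p, Summable (fun q => f q * a p q) := fun f p =>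
    Summable.of_norm_bounded ((hsa p).mul_left ‖f‖) (fun q => hbd f p q)
  have hle : ∀ (f : Ell) p, |∑' q, f q * a p q| ≤ ‖T‖ * ‖f‖ := by
    intro f p
    have h1 : ‖∑' q, f q * a p q‖ ≤ ∑' q, ‖f‖ * |a p q| :=
      tsum_of_norm_bounded ((hsa p).mul_left ‖f‖).hasSum (fun q => hbd f p q)
    rw [tsum_mul_left] at h1
    calc |∑' q, f q * a p q| ≤ ‖f‖ * ∑' q, |a p q| := h1
      _ ≤ ‖f‖ * ‖T‖ := by gcongr; exact htsum p
      _ = ‖T‖ * ‖f‖ := mul_comm _ _
  have hmem : ∀ f : Ell, Memℓp (fun p : Dx => ∑' q, f q * a p q) ⊤ := by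
    intro f
    apply memℓp_infty
    refine ⟨‖T‖ * ‖f‖, ?_⟩
    rintro _ ⟨p, rfl⟩
    exact hle f p
  let L : Ell →ₗ[ℝ] Ell :=
    { toFun := fun f => ⟨fun p : Dx => ∑' q, f q * a p q, hmem f⟩
      map_add' := by
        intro f g
        ext p
        have e : ∀ q, (f + g : Ell) q * a p q = f q * a p q + g q * a p q := by
          intro q; rw [lp.coeFn_add, Pi.add_apply]; ring
        show ∑' q, (f + g : Ell) q * a p q = (∑' q, f q * a p q) + ∑' q, g q * a p q
        rw [← (hs f p).tsum_add (hs g p)]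
        exact tsum_congr e
      map_smul' := by
        intro c f
        ext p
        have e : ∀ q, (c • f : Ell) q * a p q = c * (f q * a p q) := by
          intro q; rw [lp.coeFn_smul, Pi.smul_apply, smul_eq_mul]; ring
        show ∑' q, (c • f : Ell) q * a p q = c * ∑' q, f q * a p q
        rw [← tsum_mul_left]
        exact tsum_congr e }
  have hLn : ∀ f, ‖L f‖ ≤ ‖T‖ * ‖f‖ := fun f =>
    norm_le_of (by positivity) (fun p => hle f p)
  have hLap : ∀ f p, (L.mkContinuous ‖T‖ hLn f) p = ∑' q, f q * a p q := fun f p => rfl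
  have hdel : ∀ q, L.mkContinuous ‖T‖ hLn (del q) = T ⟨del q, hH q⟩ := by
    intro q
    ext p
    rw [hLap]
    rw [tsum_eq_single q]
    · rw [del_apply, if_pos rfl, one_mul]
    · intro r hr
      rw [del_apply, if_neg hr, zero_mul]
  refine ⟨L.mkContinuous ‖T‖ hLn, ?_, hdel⟩
  intro f p
  rw [hLap]
  have : (fun q => f q * (L.mkContinuous ‖T‖ hLn (del q)) p) = fun q => f q * a p q := by
    funext q
    rw [hdel q]
  rw [this]
  exact (hs f p).hasSum

/-- Two operators agreeing on the unit vectors agree on all but countably many branches. -/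
lemma countable_exc {S : Xx → Submodule ℝ V3} (T : HS S →L[ℝ] Ell) (B : Ell →L[ℝ] Ell)
    (hB : ∀ q, B (del q) = T ⟨del q, del_mem S q⟩) :
    {x : Xx | ∃ w, ∃ h : w ∈ S x, T ⟨ind x w, ind_mem h⟩ ≠ B (ind x w)}.Countable := by
  have key : ∀ p : Dx, {x : Xx | ∃ w, ∃ h : w ∈ S x,
      (T ⟨ind x w, ind_mem h⟩) p ≠ (B (ind x w)) p}.Countable := by
    intro p
    let Γ : Submodule ℝ (Ell × ℝ) :=
      { carrier := {z | ∃ h : z.1 ∈ HS S, z.2 = (T ⟨z.1, h⟩) p - (B z.1) p}
        add_mem' := by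
          rintro ⟨f, L⟩ ⟨g, M⟩ ⟨hf, hL⟩ ⟨hg, hM⟩
          refine ⟨(HS S).add_mem hf hg, ?_⟩
          simp only at hL hM
          have e : (⟨f + g, (HS S).add_mem hf hg⟩ : HS S) = ⟨f, hf⟩ + ⟨g, hg⟩ := rfl
          show L + M = (T ⟨f + g, _⟩) p - (B (f + g)) p
          rw [e, map_add, map_add, lp.coeFn_add, lp.coeFn_add, Pi.add_apply, Pi.add_apply, hL, hM]
          ring
        zero_mem' := by
          refine ⟨(HS S).zero_mem, ?_⟩
          have e : (⟨0, (HS S).zero_mem⟩ : HS S) = 0 := rfl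
          show (0 : ℝ) = (T ⟨0, _⟩) p - (B 0) p
          rw [e, map_zero, map_zero]
          simp
        smul_mem' := by
          rintro c ⟨f, L⟩ ⟨hf, hL⟩
          refine ⟨(HS S).smul_mem c hf, ?_⟩
          simp only at hL
          have e : (⟨c • f, (HS S).smul_mem c hf⟩ : HS S) = c • ⟨f, hf⟩ := rfl
          show c * L = (T ⟨c • f, _⟩) p - (B (c • f)) p
          rw [e, map_smul, map_smul, lp.coeFn_smul, lp.coeFn_smul, Pi.smul_apply, Pi.smul_apply, hL]
          simp only [smul_eq_mul]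
          ring }
    have hc := countable_graph Γ ?_ (‖T‖ + ‖B‖) (by positivity) ?_
    · refine hc.mono ?_
      rintro x ⟨w, h, hne⟩
      exact ⟨w, (T ⟨ind x w, ind_mem h⟩) p - (B (ind x w)) p, ⟨ind_mem h, rfl⟩,
        sub_ne_zero.mpr hne⟩
    · intro q
      refine ⟨del_mem S q, ?_⟩
      show (0 : ℝ) = (T ⟨del q, _⟩) p - (B (del q)) p
      rw [hB q]; ring
    · rintro f L ⟨h, hL⟩
      simp only at hL
      rw [hL]
      have h1 : |(T ⟨f, h⟩) p| ≤ ‖T‖ * ‖f‖ :=
        (norm_apply_le _ _).trans (T.le_opNorm ⟨f, h⟩)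
      have h2 : |(B f) p| ≤ ‖B‖ * ‖f‖ := (norm_apply_le _ _).trans (B.le_opNorm f)
      calc |(T ⟨f, h⟩) p - (B f) p| ≤ |(T ⟨f, h⟩) p| + |(B f) p| := abs_sub _ _
        _ ≤ (‖T‖ + ‖B‖) * ‖f‖ := by linarith
  refine (Set.countable_iUnion key).mono ?_
  rintro x ⟨w, h, hne⟩
  rw [Set.mem_iUnion]
  by_contra hcon
  push Not at hcon
  apply hne
  ext p
  by_contra h3
  exact hcon p ⟨w, h, h3⟩

/-- Off-diagonal limits vanish for all but countably many branches. -/
lemma countable_offdiag (B : Ell →L[ℝ] Ell) (y : Xx) (hy : ∀ q, ConvTo (B (del q)) y 0) :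
    {x : Xx | ∃ w L, ConvTo (B (ind x w)) y L ∧ L ≠ 0}.Countable := by
  have key : ∀ i : Fin 3, {x : Xx | ∃ w, ∃ l : ℝ,
      Tendsto (fun n => (B (ind x w)) (node y n, i)) atTop (𝓝 l) ∧ l ≠ 0}.Countable := by
    intro i
    let Γ : Submodule ℝ (Ell × ℝ) :=
      { carrier := {z | Tendsto (fun n => (B z.1) (node y n, i)) atTop (𝓝 z.2)}
        add_mem' := by
          rintro ⟨f, L⟩ ⟨g, M⟩ hf hg
          simp only [Set.mem_ofPred_eq] at hf hg ⊢
          have := hf.add hg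
          simpa using this
        zero_mem' := by
          simp
        smul_mem' := by
          rintro c ⟨f, L⟩ hf
          simp only [Set.mem_ofPred_eq] at hf ⊢
          have := hf.const_mul c
          simpa using this }
    have hc := countable_graph Γ ?_ ‖B‖ (by positivity) ?_
    · refine hc.mono ?_
      rintro x ⟨w, l, h, hne⟩
      exact ⟨w, l, h, hne⟩
    · intro q
      exact hy q i
    · intro f L h
      have h1 : Tendsto (fun n => |(B f) (node y n, i)|) atTop (𝓝 |L|) :=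
        (show Tendsto (fun n => (B f) (node y n, i)) atTop (𝓝 L) from h).abs
      exact le_of_tendsto' h1 (fun n => (norm_apply_le _ _).trans (B.le_opNorm f))
  refine (Set.countable_iUnion key).mono ?_
  rintro x ⟨w, L, h, hne⟩
  rw [Set.mem_iUnion]
  obtain ⟨i, hi⟩ := Function.ne_iff.mp hne
  exact ⟨i, w, L i, h i, hi⟩

end Pool.Agent.H25.LinDim
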