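import Pool.Agent.H25.LinDimC

set_option autoImplicit false

open Filter Topology

namespace Pool.Agent.H25.LinDim

/-- Finite combination of branch functions as a linear map. -/
noncomputable def indLin (x : Xx) : V3 →ₗ[ℝ] Ell where
  toFun := ind x
  map_add' := ind_add x
  map_smul' := ind_smul x

/-- The linear map from finitely supported families. -/
noncomputable def Phi : (Xx →₀ V3) →ₗ[ℝ] Ell := Finsupp.lsum ℝ indLin

lemma Phi_apply (w : Xx →₀ V3) : Phi w = ∑ x ∈ w.support, ind x (w x) := by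
  unfold Phi
  rw [Finsupp.lsum_apply]
  rfl

lemma convTo_Phi (w : Xx →₀ V3) (x : Xx) : ConvTo (Phi w) x (w x) := by
  classical
  induction w using Finsupp.induction_linear with
  | zero => rw [map_zero]; exact ConvTo.zero x
  | add f g hf hg => rw [map_add]; exact hf.add hg
  | single y v =>
    have h1 : Phi (Finsupp.single y v) = ind y v := by
      unfold Phi
      rw [Finsupp.lsum_single]
      rfl
    rw [h1]
    by_cases h : y = x
    · subst h
      rw [Finsupp.single_eq_same]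
      exact convTo_ind_self y v
    · rw [Finsupp.single_eq_of_ne (Ne.symm h)]
      exact convTo_ind_ne h v

lemma convTo_of_span_del {c : Ell} (hc : c ∈ Submodule.span ℝ (Set.range del)) (x : Xx) :
    ConvTo c x 0 := by
  have hle : Submodule.span ℝ (Set.range del) ≤ convSub x ⊥ := by
    rw [Submodule.span_le]
    rintro _ ⟨q, rfl⟩
    exact ⟨0, Submodule.zero_mem _, convTo_del q x⟩
  obtain ⟨L, hL, h⟩ := hle hc
  rw [Submodule.mem_bot] at hL
  rwa [hL] at h

lemma span_repr {S : Xx → Submodule ℝ V3} {h : Ell} (hh : h ∈ Submodule.span ℝ (gens S)) :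
    ∃ c ∈ Submodule.span ℝ (Set.range del), ∃ w : Xx →₀ V3, h = c + Phi w := by
  classical
  induction hh using Submodule.span_induction with
  | mem f hf =>
    rcases hf with hf | ⟨x, w, hw, rfl⟩
    · exact ⟨f, Submodule.subset_span hf, 0, by simp⟩
    · refine ⟨0, Submodule.zero_mem _, Finsupp.single x w, ?_⟩
      unfold Phi
      rw [Finsupp.lsum_single, zero_add]
      rfl
  | zero => exact ⟨0, Submodule.zero_mem _, 0, by simp⟩
  | add f g _ _ hf hg =>
    obtain ⟨c, hc, w, rfl⟩ := hf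
    obtain ⟨c', hc', w', rfl⟩ := hg
    refine ⟨c + c', Submodule.add_mem _ hc hc', w + w', ?_⟩
    rw [map_add]; abel
  | smul a f _ hf =>
    obtain ⟨c, hc, w, rfl⟩ := hf
    refine ⟨a • c, Submodule.smul_mem _ a hc, a • w, ?_⟩
    rw [map_smul, smul_add]

/-- Countable generating set attached to a set of branches. -/
def cgens (Y : Set Xx) : Set Ell :=
  Set.range del ∪ ⋃ y ∈ Y, Set.range (fun i : Fin 3 => ind y (Pi.single i 1))

lemma countable_cgens {Y : Set Xx} (hY : Y.Countable) : (cgens Y).Countable := by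
  apply (Set.countable_range del).union
  exact hY.biUnion (fun y _ => Set.countable_range _)

lemma ind_mem_cgens {Y : Set Xx} {y : Xx} (hy : y ∈ Y) (w : V3) :
    ind y w ∈ Submodule.span ℝ (cgens Y) := by
  have h1 : w = ∑ i, w i • (Pi.single i (1 : ℝ) : V3) := by
    funext j
    simp [Finset.sum_apply, Pi.single_apply]
  rw [h1]
  have h2 : ind y (∑ i, w i • (Pi.single i (1 : ℝ) : V3))
      = ∑ i, w i • ind y (Pi.single i (1 : ℝ)) := by
    have : ∀ v, ind y v = indLin y v := fun v => rfl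
    rw [this, map_sum]
    apply Finset.sum_congr rfl
    intro i _
    rw [map_smul]
    rfl
  rw [h2]
  apply Submodule.sum_mem
  intro i _
  apply Submodule.smul_mem
  apply Submodule.subset_span
  right
  simp only [Set.mem_iUnion]
  exact ⟨y, hy, i, rfl⟩

lemma isSeparable_GY {Y : Set Xx} (hY : Y.Countable) (S : Xx → Submodule ℝ V3) :
    TopologicalSpace.IsSeparable {g : Ell | g ∈ HS S ∧ ∀ y ∉ Y, ConvTo g y 0} := by
  classical
  have hsep : TopologicalSpace.IsSeparable (closure (Submodule.span ℝ (cgens Y) : Set Ell)) :=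
    ((countable_cgens hY).isSeparable.span (R := ℝ)).closure
  refine hsep.mono ?_
  rintro g ⟨hg, hgY⟩
  rw [Metric.mem_closure_iff]
  intro ε hε
  have hg' : g ∈ closure (Submodule.span ℝ (gens S) : Set Ell) := hg
  rw [Metric.mem_closure_iff] at hg'
  obtain ⟨h, hh, hd⟩ := hg' (ε / 2) (half_pos hε)
  obtain ⟨c, hc, w, rfl⟩ := span_repr hh
  have hw : ∀ x ∉ Y, ‖w x‖ ≤ ε / 2 := by
    intro x hx
    have h1 : ConvTo (c + Phi w + (-1 : ℝ) • g) x (0 + w x + (-1 : ℝ) • 0) :=
      ((convTo_of_span_del hc x).add (convTo_Phi w x)).add ((hgY x hx).smul (-1))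
    have h2 := h1.norm_le
    have h3 : c + Phi w + (-1 : ℝ) • g = -(g - (c + Phi w)) := by
      rw [neg_one_smul]; abel
    rw [h3, norm_neg, ← dist_eq_norm] at h2
    simp only [zero_add, smul_zero, add_zero] at h2
    linarith
  set s := w.support.filter (· ∉ Y) with hs
  set s' := w.support.filter (· ∈ Y) with hs'
  obtain ⟨Q, a, hQ⟩ := exists_tail s w (ε / 2) (by linarith)
    (fun x hx => hw x (Finset.mem_filter.mp hx).2)
  have hsplit : Phi w = (∑ x ∈ s', ind x (w x)) + ∑ x ∈ s, ind x (w x) := by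
    rw [Phi_apply, hs, hs', Finset.sum_filter_add_sum_filter_not]
  refine ⟨c + (∑ x ∈ s', ind x (w x)) + ∑ q ∈ Q, a q • del q, ?_, ?_⟩
  · have hsub : Submodule.span ℝ (Set.range del) ≤ Submodule.span ℝ (cgens Y) :=
      Submodule.span_mono Set.subset_union_left
    apply Submodule.add_mem
    · apply Submodule.add_mem
      · exact hsub hc
      · apply Submodule.sum_mem
        intro x hx
        exact ind_mem_cgens (Finset.mem_filter.mp hx).2 _
    · apply Submodule.sum_mem
      intro q _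
      apply Submodule.smul_mem
      exact hsub (Submodule.subset_span ⟨q, rfl⟩)
  · have e : g - (c + (∑ x ∈ s', ind x (w x)) + ∑ q ∈ Q, a q • del q)
        = (g - (c + Phi w)) + ((∑ x ∈ s, ind x (w x)) - ∑ q ∈ Q, a q • del q) := by
      rw [hsplit]; abel
    rw [dist_eq_norm, e]
    rw [dist_eq_norm] at hd
    calc ‖(g - (c + Phi w)) + ((∑ x ∈ s, ind x (w x)) - ∑ q ∈ Q, a q • del q)‖
        ≤ ‖g - (c + Phi w)‖ + ‖(∑ x ∈ s, ind x (w x)) - ∑ q ∈ Q, a q • del q‖ := norm_add_le _ _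
      _ < ε / 2 + ε / 2 := by linarith
      _ = ε := by ring

lemma norm_ind_sub {x y : Xx} (h : x ≠ y) (w w' : V3) : ‖w‖ ≤ ‖ind x w - ind y w'‖ := by
  have h1 : ConvTo (ind x w + (-1 : ℝ) • ind y w') x (w + (-1 : ℝ) • 0) :=
    (convTo_ind_self x w).add ((convTo_ind_ne (Ne.symm h) w').smul (-1))
  have h2 := h1.norm_le
  have h3 : ind x w + (-1 : ℝ) • ind y w' = ind x w - ind y w' := by
    rw [neg_one_smul]; abel
  rw [h3] at h2
  simpa using h2

/-- A bounded below operator maps only countably many branches into a separable set. -/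
lemma countable_sep {S : Xx → Submodule ℝ V3} (T : HS S →L[ℝ] Ell) (C : ℝ)
    (hT : ∀ f : HS S, ‖f‖ ≤ C * ‖T f‖) (G : Set Ell) (hG : TopologicalSpace.IsSeparable G) :
    {x : Xx | ∃ w, ∃ h : w ∈ S x, w ≠ 0 ∧ ∀ a : ℝ, T (a • ⟨ind x w, ind_mem h⟩) ∈ G}.Countable := by
  classical
  set A := {x : Xx | ∃ w, ∃ h : w ∈ S x, w ≠ 0 ∧ ∀ a : ℝ, T (a • ⟨ind x w, ind_mem h⟩) ∈ G}
  have h1 : ∀ x ∈ A, ∃ w, ∃ h : w ∈ S x, ‖w‖ = 1 ∧ T ⟨ind x w, ind_mem h⟩ ∈ G := by
    rintro x ⟨w, h, hw, ha⟩
    have hw' : ‖w‖ ≠ 0 := norm_ne_zero_iff.mpr hw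
    refine ⟨‖w‖⁻¹ • w, (S x).smul_mem _ h, ?_, ?_⟩
    · rw [norm_smul, norm_inv, norm_norm, inv_mul_cancel₀ hw']
    · have e : (⟨ind x (‖w‖⁻¹ • w), ind_mem ((S x).smul_mem _ h)⟩ : HS S)
          = ‖w‖⁻¹ • ⟨ind x w, ind_mem h⟩ := by
        apply Subtype.ext
        show ind x (‖w‖⁻¹ • w) = ‖w‖⁻¹ • ind x w
        exact ind_smul x _ _
      rw [e]
      exact ha _
  choose! w hS hw hTG using h1
  obtain ⟨U, hUc, hUd⟩ := hG
  have hC' : 0 < |C| + 1 := by positivity
  have h2 : ∀ x (hx : x ∈ A), ∃ u ∈ U, dist (T ⟨ind x (w x), ind_mem (hS x hx)⟩) u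
      < 1 / (2 * (|C| + 1)) := by
    intro x hx
    have := hUd (hTG x hx)
    rw [Metric.mem_closure_iff] at this
    exact this _ (by positivity)
  choose! u hu hdu using h2
  apply Set.MapsTo.countable_of_injOn (f := u) (t := U) (fun x hx => hu x hx) _ hUc
  intro x hx y hy hxy
  by_contra hne
  have h3 := hdu x hx
  have h4 := hdu y hy
  rw [← hxy] at h4
  set tx : HS S := ⟨ind x (w x), ind_mem (hS x hx)⟩ with htx
  set ty : HS S := ⟨ind y (w y), ind_mem (hS y hy)⟩ with hty
  have h5 : dist (T tx) (T ty) < 1 / (|C| + 1) := by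
    calc dist (T tx) (T ty) ≤ dist (T tx) (u x) + dist (T ty) (u x) := dist_triangle_right _ _ _
      _ < 1 / (2 * (|C| + 1)) + 1 / (2 * (|C| + 1)) := by linarith
      _ = 1 / (|C| + 1) := by field_simp; ring
  have h6 : (1 : ℝ) ≤ ‖tx - ty‖ := by
    have : ‖tx - ty‖ = ‖ind x (w x) - ind y (w y)‖ := rfl
    rw [this, ← hw x hx]
    exact norm_ind_sub hne _ _
  have h7 := hT (tx - ty)
  rw [map_sub, ← dist_eq_norm (T tx)] at h7
  have h8 : C * dist (T tx) (T ty) ≤ |C| * dist (T tx) (T ty) :=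
    mul_le_mul_of_nonneg_right (le_abs_self C) dist_nonneg
  have h9 : |C| * dist (T tx) (T ty) ≤ (|C| + 1) * dist (T tx) (T ty) := by
    have := dist_nonneg (x := T tx) (y := T ty)
    linarith
  have h10 : (|C| + 1) * dist (T tx) (T ty) < 1 := by
    rw [lt_div_iff₀ hC'] at h5
    linarith
  linarith

end Pool.Agent.H25.LinDim
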