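import Mathlib

set_option autoImplicit false

open Cardinal

namespace Pool.Agent.H25.LinDim

/-- Choice of pairwise disjoint pairs by recursion along a well order. -/
lemma sdr {I X : Type} (hI : #I ≤ 𝔠) (hX : 𝔠 ≤ #X) (σ : I → X → X)
    (hσ : ∀ i y, {x | σ i x = y}.Countable) :
    ∃ ξ : I → X, ∀ i j, i ≠ j →
      ξ i ≠ ξ j ∧ ξ i ≠ σ j (ξ j) ∧ σ i (ξ i) ≠ σ j (ξ j) := by
  classical
  obtain ⟨r, wo, hr⟩ := Cardinal.exists_ord_eq I
  have hseg : ∀ i, #{j // r j i} < 𝔠 := by
    intro i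
    have h1 := card_typein_lt (r := r) i hr
    rw [Ordinal.card_typein] at h1
    exact h1.trans_le hI
  let used : (i : I) → ((j : I) → r j i → X) → Set X := fun i g =>
    (Set.range fun j : {j // r j i} => g j.1 j.2) ∪
      (Set.range fun j : {j // r j i} => σ j.1 (g j.1 j.2))
  have hused : ∀ i g, #(used i g) < 𝔠 := by
    intro i g
    refine (mk_union_le _ _).trans_lt ?_
    apply add_lt_of_lt aleph0_le_continuum
    · exact mk_range_le.trans_lt (hseg i)
    · exact mk_range_le.trans_lt (hseg i)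
  let bad : (i : I) → ((j : I) → r j i → X) → Set X := fun i g =>
    used i g ∪ ⋃ y : used i g, {x | σ i x = y.1}
  have hbad : ∀ i g, #(bad i g) < 𝔠 := by
    intro i g
    refine (mk_union_le _ _).trans_lt ?_
    apply add_lt_of_lt aleph0_le_continuum (hused i g)
    refine (mk_iUnion_le _).trans_lt ?_
    refine (mul_le_mul' le_rfl (ciSup_le' (a := ℵ₀) ?_)).trans_lt ?_
    · intro y
      exact (hσ i y.1).le_aleph0
    · exact mul_lt_of_lt aleph0_le_continuum (hused i g) aleph0_lt_continuum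
  have hex : ∀ i g, ∃ x, x ∉ bad i g := by
    intro i g
    by_contra hcon
    push Not at hcon
    have h1 : bad i g = Set.univ := Set.eq_univ_of_forall hcon
    have h2 := hbad i g
    rw [h1, mk_univ] at h2
    exact absurd h2 (not_lt.mpr hX)
  choose pick hpick using hex
  let ξ : I → X := wo.wf.fix pick
  have hfix : ∀ i, ξ i = pick i (fun j _ => ξ j) := fun i => wo.wf.fix_eq pick i
  have hnb : ∀ i, ξ i ∉ bad i (fun j _ => ξ j) := by
    intro i
    have h := hpick i (fun j _ => ξ j)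
    rw [← hfix i] at h
    exact h
  have key : ∀ i j, r j i → ξ i ≠ ξ j ∧ ξ i ≠ σ j (ξ j) ∧ σ i (ξ i) ≠ σ j (ξ j)
      ∧ σ i (ξ i) ≠ ξ j := by
    intro i j hji
    have hb := hnb i
    have hu1 : ξ j ∈ used i (fun j _ => ξ j) := Or.inl ⟨⟨j, hji⟩, rfl⟩
    have hu2 : σ j (ξ j) ∈ used i (fun j _ => ξ j) := Or.inr ⟨⟨j, hji⟩, rfl⟩
    refine ⟨?_, ?_, ?_, ?_⟩
    · intro h
      exact hb (Or.inl (by rw [h]; exact hu1))
    · intro h
      exact hb (Or.inl (by rw [h]; exact hu2))
    · intro h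
      apply hb
      right
      rw [Set.mem_iUnion]
      exact ⟨⟨_, hu2⟩, h⟩
    · intro h
      apply hb
      right
      rw [Set.mem_iUnion]
      exact ⟨⟨_, hu1⟩, h⟩
  refine ⟨ξ, fun i j hij => ?_⟩
  rcases trichotomous_of r i j with h | h | h
  · obtain ⟨a, b, c, d⟩ := key j i h
    exact ⟨a.symm, d.symm, c.symm⟩
  · exact absurd h hij
  · obtain ⟨a, b, c, d⟩ := key i j h
    exact ⟨a, b, c⟩

end Pool.Agent.H25.LinDim
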