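import Pool.Agent.H25.LinDimD
import Pool.Agent.H25.LinDimE

set_option autoImplicit false

open Filter Topology

namespace Pool.Agent.H25.LinDim

/-- Branches along which some column does not tend to zero. -/
def ZB (B : Ell →L[ℝ] Ell) : Set Xx := {y | ¬ ∀ q, ConvTo (B (del q)) y 0}

/-- A branch `y ≠ x` along which the image of a branch function at `x` has a nonzero limit. -/
def HasOff (B : Ell →L[ℝ] Ell) (x : Xx) : Prop :=
  ∃ y, y ∉ ZB B ∧ y ≠ x ∧ ∃ w L, ConvTo (B (ind x w)) y L ∧ L ≠ 0

open Classical in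
/-- The partner branch. -/
noncomputable def sig (B : Ell →L[ℝ] Ell) (x : Xx) : Xx :=
  if h : HasOff B x then Classical.choose h else x

lemma sig_spec {B : Ell →L[ℝ] Ell} {x : Xx} (h : HasOff B x) :
    sig B x ∉ ZB B ∧ sig B x ≠ x ∧ ∃ w L, ConvTo (B (ind x w)) (sig B x) L ∧ L ≠ 0 := by
  unfold sig
  rw [dif_pos h]
  exact Classical.choose_spec h

lemma sig_neg {B : Ell →L[ℝ] Ell} {x : Xx} (h : ¬ HasOff B x) : sig B x = x := by
  unfold sig
  rw [dif_neg h]

lemma sig_fiber (B : Ell →L[ℝ] Ell) (y : Xx) : {x | sig B x = y}.Countable := by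
  by_cases hy : y ∈ ZB B
  · refine (Set.countable_singleton y).mono ?_
    intro x hx
    rw [Set.mem_ofPred_eq] at hx
    by_cases h : HasOff B x
    · exact absurd (hx ▸ hy) (sig_spec h).1
    · rw [sig_neg h] at hx
      exact hx
  · have hy' : ∀ q, ConvTo (B (del q)) y 0 := by
      unfold ZB at hy
      simpa using hy
    refine ((countable_offdiag B y hy').union (Set.countable_singleton y)).mono ?_
    intro x hx
    rw [Set.mem_ofPred_eq] at hx
    by_cases h : HasOff B x
    · left
      have := (sig_spec h).2.2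
      rw [hx] at this
      exact this
    · right
      rw [sig_neg h] at hx
      exact hx

/-- Vectors orthogonal to `a`. -/
def perp (a : V3) : Submodule ℝ V3 where
  carrier := {w | w ⬝ᵥ a = 0}
  add_mem' := by
    intro u w hu hw
    simp only [Set.mem_ofPred_eq] at *
    rw [add_dotProduct, hu, hw, add_zero]
  zero_mem' := by simp
  smul_mem' := by
    intro c u hu
    simp only [Set.mem_ofPred_eq] at *
    rw [smul_dotProduct, hu, smul_zero]

lemma mem_perp {a w : V3} : w ∈ perp a ↔ w ⬝ᵥ a = 0 := Iff.rfl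

lemma exists_perp (w : V3) : ∃ a : V3, a ≠ 0 ∧ w ⬝ᵥ a = 0 := by
  by_cases h : w 0 = 0
  · refine ⟨![1, 0, 0], ?_, ?_⟩
    · intro h0
      have := congrFun h0 0
      simp at this
    · simp [dotProduct, Fin.sum_univ_three, h]
  · refine ⟨![w 1, - w 0, 0], ?_, ?_⟩
    · intro h0
      have := congrFun h0 1
      simp at this
      exact h this
    · simp [dotProduct, Fin.sum_univ_three]
      ring

/-- A linear map whose quadratic form vanishes has a kernel in odd dimension. -/
lemma exists_ker (N : V3 →ₗ[ℝ] V3) (hN : ∀ w, N w ⬝ᵥ w = 0) : ∃ a, a ≠ 0 ∧ N a = 0 := by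
  set M := LinearMap.toMatrix' N with hM
  have hMv : ∀ w, M.mulVec w = N w := fun w => by
    rw [hM, LinearMap.toMatrix'_mulVec]
  have hpol : ∀ u w, N u ⬝ᵥ w + N w ⬝ᵥ u = 0 := by
    intro u w
    have h1 := hN (u + w)
    rw [map_add, add_dotProduct, dotProduct_add, dotProduct_add, hN u, hN w] at h1
    linarith
  have hskew : M.transpose = -M := by
    ext i j
    have h1 := hpol (Pi.single i 1) (Pi.single j 1)
    rw [← hMv, ← hMv] at h1
    simp only [Matrix.mulVec_single_one, dotProduct_single, mul_one, Matrix.col_apply] at h1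
    rw [Matrix.transpose_apply, Matrix.neg_apply]
    linarith
  have hdet : M.det = 0 := by
    have h1 : M.det = - M.det := by
      conv_lhs => rw [← Matrix.det_transpose, hskew]
      rw [Matrix.det_neg, Fintype.card_fin]
      ring
    linarith
  obtain ⟨a, ha, h0⟩ := Matrix.exists_mulVec_eq_zero_iff.mpr hdet
  exact ⟨a, ha, by rw [← hMv]; exact h0⟩

/-- The full space. -/
noncomputable abbrev Gfull : Submodule ℝ Ell := HS (fun _ => ⊤)

/-- The limit along the branch `x`, as a linear map. -/
lemma exists_N (B : Ell →L[ℝ] Ell) (x : Xx) (hG : ∀ w, B (ind x w) ∈ Gfull) :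
    ∃ N : V3 →ₗ[ℝ] V3, ∀ w, ConvTo (B (ind x w)) x (N w) := by
  have h1 : ∀ w, ∃ L, ConvTo (B (ind x w)) x L := fun w => by
    obtain ⟨L, _, h⟩ := conv_of_mem (hG w) x
    exact ⟨L, h⟩
  choose N hN using h1
  refine ⟨{ toFun := N, map_add' := ?_, map_smul' := ?_ }, hN⟩
  · intro u w
    have := (hN u).add (hN w)
    rw [← map_add, ← ind_add] at this
    exact (hN (u + w)).unique this
  · intro c w
    have := (hN w).smul c
    rw [← map_smul, ← ind_smul] at this
    exact (hN (c • w)).unique this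

lemma choice1 (B : Ell →L[ℝ] Ell) (x : Xx) :
    ∃ a c : V3, a ≠ 0 ∧ c ≠ 0 ∧ (sig B x = x → a = c) ∧
      ∀ v : Xx → V3, v x = a → v (sig B x) = c →
        B (ind x a) ∈ HS (fun z => perp (v z)) → ∀ z ∉ ZB B, ConvTo (B (ind x a)) z 0 := by
  by_cases hG : ∀ w, B (ind x w) ∈ Gfull
  · by_cases hoff : HasOff B x
    · obtain ⟨h1, h2, w, L, hL, hL0⟩ := sig_spec hoff
      refine ⟨w, L, ?_, hL0, fun h => absurd h h2, ?_⟩
      · rintro rfl
        rw [ind_zero, map_zero] at hL
        exact hL0 (hL.unique (ConvTo.zero _))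
      · intro v hvx hvy hmem
        exfalso
        obtain ⟨L', hL'm, hL'⟩ := conv_of_mem hmem (sig B x)
        rw [hL'.unique hL, mem_perp, hvy] at hL'm
        exact hL0 (dotProduct_self_eq_zero.mp hL'm)
    · obtain ⟨N, hN⟩ := exists_N B x hG
      have hs := sig_neg hoff
      by_cases hq : ∀ w, N w ⬝ᵥ w = 0
      · obtain ⟨a, ha, hNa⟩ := exists_ker N hq
        refine ⟨a, a, ha, ha, fun _ => rfl, ?_⟩
        intro v hvx hvy hmem z hz
        by_cases hzx : z = x
        · subst hzx
          have := hN a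
          rw [hNa] at this
          exact this
        · obtain ⟨L, _, hL⟩ := conv_of_mem hmem z
          by_cases hL0 : L = 0
          · rw [hL0] at hL; exact hL
          · exact absurd ⟨z, hz, hzx, a, L, hL, hL0⟩ hoff
      · push Not at hq
        obtain ⟨w, hw⟩ := hq
        have hw0 : w ≠ 0 := by
          rintro rfl
          apply hw
          simp
        refine ⟨w, w, hw0, hw0, fun _ => rfl, ?_⟩
        intro v hvx hvy hmem
        exfalso
        obtain ⟨L', hL'm, hL'⟩ := conv_of_mem hmem x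
        rw [hL'.unique (hN w), mem_perp, hvx] at hL'm
        exact hw hL'm
  · push Not at hG
    obtain ⟨w, hw⟩ := hG
    have hw0 : w ≠ 0 := by
      rintro rfl
      apply hw
      rw [ind_zero, map_zero]
      exact Submodule.zero_mem _
    refine ⟨w, w, hw0, hw0, fun _ => rfl, ?_⟩
    intro v hvx hvy hmem
    exact absurd (HS_mono (fun z => le_top) hmem) hw

lemma choice2 (B : Ell →L[ℝ] Ell) (x : Xx) :
    ∃ a c : V3, a ≠ 0 ∧ c ≠ 0 ∧ (sig B x = x → a = c) ∧
      ∀ v : Xx → V3, v x = a → v (sig B x) = c →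
        (∀ w ∈ perp a, B (ind x w) ∈ HS (fun z => Submodule.span ℝ {v z})) →
        ∃ w ∈ perp a, w ≠ 0 ∧ ∀ z ∉ ZB B, ConvTo (B (ind x w)) z 0 := by
  by_cases hG : ∀ w, B (ind x w) ∈ Gfull
  · by_cases hoff : HasOff B x
    · obtain ⟨h1, h2, w, L, hL, hL0⟩ := sig_spec hoff
      obtain ⟨a, ha, hwa⟩ := exists_perp w
      obtain ⟨c, hc, hLc⟩ := exists_perp L
      refine ⟨a, c, ha, hc, fun h => absurd h h2, ?_⟩
      intro v hvx hvy hmem
      exfalso
      obtain ⟨L', hL'm, hL'⟩ := conv_of_mem (hmem w hwa) (sig B x)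
      rw [hL'.unique hL, hvy, Submodule.mem_span_singleton] at hL'm
      obtain ⟨t, ht⟩ := hL'm
      apply hL0
      apply dotProduct_self_eq_zero.mp
      conv_lhs => rw [← ht]
      rw [← ht] at hLc
      rw [smul_dotProduct, dotProduct_smul]
      rw [smul_dotProduct] at hLc
      rw [smul_eq_mul, smul_eq_mul]
      rw [smul_eq_mul] at hLc
      rcases mul_eq_zero.mp hLc with h | h
      · rw [h]; ring
      · rw [h]; ring
    · obtain ⟨N, hN⟩ := exists_N B x hG
      have hs := sig_neg hoff
      have he : (![1, 0, 0] : V3) ≠ 0 := by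
        intro h0
        have := congrFun h0 0
        simp at this
      refine ⟨![1, 0, 0], ![1, 0, 0], he, he, fun _ => rfl, ?_⟩
      intro v hvx hvy hmem
      have hNm : ∀ w ∈ perp ![1, 0, 0], ∃ t : ℝ, N w = t • (![1, 0, 0] : V3) := by
        intro w hw
        obtain ⟨L', hL'm, hL'⟩ := conv_of_mem (hmem w hw) x
        rw [hL'.unique (hN w), hvx, Submodule.mem_span_singleton] at hL'm
        obtain ⟨t, ht⟩ := hL'm
        exact ⟨t, ht.symm⟩
      have hp2 : (![0, 1, 0] : V3) ∈ perp ![1, 0, 0] := by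
        rw [mem_perp]; simp [dotProduct, Fin.sum_univ_three]
      have hp3 : (![0, 0, 1] : V3) ∈ perp ![1, 0, 0] := by
        rw [mem_perp]; simp [dotProduct, Fin.sum_univ_three]
      obtain ⟨s, hs2⟩ := hNm _ hp2
      obtain ⟨t, ht3⟩ := hNm _ hp3
      have hker : ∃ w ∈ perp ![1, 0, 0], w ≠ 0 ∧ N w = 0 := by
        by_cases hs0 : s = 0
        · refine ⟨_, hp2, ?_, ?_⟩
          · intro h0
            have := congrFun h0 1
            simp at this
          · rw [hs2, hs0, zero_smul]
        · refine ⟨t • ![0, 1, 0] - s • ![0, 0, 1],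
            (perp _).sub_mem ((perp _).smul_mem _ hp2) ((perp _).smul_mem _ hp3), ?_, ?_⟩
          · intro h0
            have := congrFun h0 2
            simp at this
            exact hs0 this
          · rw [map_sub, map_smul, map_smul, hs2, ht3, smul_smul, smul_smul, mul_comm t s, sub_self]
      obtain ⟨w, hwp, hw0, hNw⟩ := hker
      refine ⟨w, hwp, hw0, ?_⟩
      intro z hz
      by_cases hzx : z = x
      · subst hzx
        have := hN w
        rw [hNw] at this
        exact this
      · obtain ⟨L, _, hL⟩ := conv_of_mem (hG w) z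
        by_cases hL0 : L = 0
        · rw [hL0] at hL; exact hL
        · exact absurd ⟨z, hz, hzx, w, L, hL, hL0⟩ hoff
  · push Not at hG
    obtain ⟨w, hw⟩ := hG
    obtain ⟨a, ha, hwa⟩ := exists_perp w
    refine ⟨a, a, ha, ha, fun _ => rfl, ?_⟩
    intro v hvx hvy hmem
    exact absurd (HS_mono (fun z => le_top) (hmem w hwa)) hw

/-- An element of one of the spaces has nonzero limits along countably many branches only. -/
lemma countable_supp {S : Xx → Submodule ℝ V3} {g : Ell} (hg : g ∈ HS S) :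
    {y | ¬ ConvTo g y 0}.Countable := by
  have hg' : g ∈ closure (Submodule.span ℝ (gens S) : Set Ell) := hg
  rw [Metric.mem_closure_iff] at hg'
  have hpos : ∀ k : ℕ, (0 : ℝ) < 1 / ((k : ℝ) + 1) := fun k => by positivity
  choose h hh hd using fun k : ℕ => hg' (1 / ((k : ℝ) + 1)) (hpos k)
  choose c hc w hw using fun k => span_repr (hh k)
  refine (Set.countable_iUnion (fun k => (w k).support.countable_toSet)).mono ?_
  intro y hy
  rw [Set.mem_iUnion]
  by_contra hcon
  push Not at hcon
  apply hy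
  obtain ⟨L, _, hL⟩ := conv_of_mem hg y
  have hwk : ∀ k, w k y = 0 := by
    intro k
    have := hcon k
    rw [Finset.mem_coe, Finsupp.notMem_support_iff] at this
    exact this
  have hLk : ∀ k : ℕ, ‖L‖ ≤ 1 / ((k : ℝ) + 1) := by
    intro k
    have h1 : ConvTo (g + (-1 : ℝ) • (c k + Phi (w k))) y (L + (-1 : ℝ) • (0 + w k y)) :=
      hL.add (((convTo_of_span_del (hc k) y).add (convTo_Phi (w k) y)).smul (-1))
    rw [hwk k, add_zero, smul_zero, add_zero] at h1
    have h2 := h1.norm_le
    have h4 : g + (-1 : ℝ) • (c k + Phi (w k)) = g - h k := by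
      rw [hw k, neg_one_smul, sub_eq_add_neg]
    rw [h4] at h2
    have h3 := (hd k).le
    rw [dist_eq_norm] at h3
    linarith
  have hL0 : L = 0 := by
    by_contra hne
    have hp : 0 < ‖L‖ := norm_pos_iff.mpr hne
    obtain ⟨k, hk⟩ := exists_nat_one_div_lt hp
    exact absurd (hLk k) (not_le.mpr hk)
  rw [hL0] at hL
  exact hL

end Pool.Agent.H25.LinDim
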