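import Pool.Agent.H25.LinDimF

set_option autoImplicit false

open Filter Topology Cardinal

namespace Pool.Agent.H25.LinDim

/-- Operators given by matrices. -/
abbrev MatOp := {B : Ell →L[ℝ] Ell // IsMat B}

lemma card_Dx : #Dx = ℵ₀ := by
  have : Infinite Dx := inferInstance
  have : Countable Dx := inferInstance
  exact mk_eq_aleph0 Dx

lemma card_MatOp : #MatOp ≤ 𝔠 := by
  have hinj : Function.Injective (fun (B : MatOp) (p q : Dx) => (B.1 (del q)) p) := by
    rintro ⟨B, hB⟩ ⟨B', hB'⟩ h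
    apply Subtype.ext
    apply ContinuousLinearMap.ext
    intro f
    ext p
    have h1 := hB f p
    have h2 := hB' f p
    have h3 : ∀ q, (B (del q)) p = (B' (del q)) p := fun q => congrFun (congrFun h p) q
    simp only [h3] at h1
    exact h1.unique h2
  refine (mk_le_of_injective hinj).trans ?_
  rw [← Cardinal.power_def, ← Cardinal.power_def, card_Dx, mk_real, continuum_power_aleph0,
    continuum_power_aleph0]

lemma card_Xx : #Xx = 𝔠 := by
  rw [← Cardinal.power_def, mk_bool, mk_nat, two_power_aleph0]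

lemma card_tasks : #(MatOp × Bool × Xx) ≤ 𝔠 := by
  rw [mk_prod, mk_prod, card_Xx]
  simp only [lift_id, mk_bool]
  have h1 : (2 : Cardinal) * 𝔠 = 𝔠 := by
    have := nat_mul_continuum (n := 2) (by norm_num)
    exact_mod_cast this
  rw [h1]
  calc #MatOp * 𝔠 ≤ 𝔠 * 𝔠 := mul_le_mul' card_MatOp le_rfl
    _ = 𝔠 := continuum_mul_self

lemma not_countable_Xx : ¬ (Set.univ : Set Xx).Countable := by
  intro h
  have h1 := h.le_aleph0
  rw [mk_univ, card_Xx] at h1
  exact absurd h1 (not_le.mpr aleph0_lt_continuum)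

/-- The choice of directions. -/
lemma exists_v : ∃ v : Xx → V3, ∃ ξ : MatOp × Bool × Xx → Xx, Function.Injective ξ ∧
    (∀ (B : MatOp) (t : Xx), B.1 (ind (ξ (B, true, t)) (v (ξ (B, true, t)))) ∈ HS (fun z => perp (v z)) →
      ∀ z ∉ ZB B.1, ConvTo (B.1 (ind (ξ (B, true, t)) (v (ξ (B, true, t))))) z 0) ∧
    (∀ (B : MatOp) (t : Xx), (∀ w ∈ perp (v (ξ (B, false, t))),
        B.1 (ind (ξ (B, false, t)) w) ∈ HS (fun z => Submodule.span ℝ {v z})) →
      ∃ w ∈ perp (v (ξ (B, false, t))), w ≠ 0 ∧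
        ∀ z ∉ ZB B.1, ConvTo (B.1 (ind (ξ (B, false, t)) w)) z 0) ∧ (∀ x, v x ≠ 0) := by
  classical
  obtain ⟨ξ, hξ⟩ := sdr (I := MatOp × Bool × Xx) (X := Xx) card_tasks card_Xx.ge
    (fun i x => sig i.1.1 x) (fun i y => sig_fiber i.1.1 y)
  have hch : ∀ i : MatOp × Bool × Xx, ∃ ac : V3 × V3, ac.1 ≠ 0 ∧ ac.2 ≠ 0 ∧
      (sig i.1.1 (ξ i) = ξ i → ac.1 = ac.2) ∧
      (i.2.1 = true → ∀ v : Xx → V3, v (ξ i) = ac.1 → v (sig i.1.1 (ξ i)) = ac.2 →
        i.1.1 (ind (ξ i) ac.1) ∈ HS (fun z => perp (v z)) →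
          ∀ z ∉ ZB i.1.1, ConvTo (i.1.1 (ind (ξ i) ac.1)) z 0) ∧
      (i.2.1 = false → ∀ v : Xx → V3, v (ξ i) = ac.1 → v (sig i.1.1 (ξ i)) = ac.2 →
        (∀ w ∈ perp ac.1, i.1.1 (ind (ξ i) w) ∈ HS (fun z => Submodule.span ℝ {v z})) →
        ∃ w ∈ perp ac.1, w ≠ 0 ∧ ∀ z ∉ ZB i.1.1, ConvTo (i.1.1 (ind (ξ i) w)) z 0) := by
    rintro ⟨B, k, t⟩
    cases k with
    | true =>
      obtain ⟨a, c, h1, h2, h3, h4⟩ := choice1 B.1 (ξ (B, true, t))
      exact ⟨(a, c), h1, h2, h3, fun _ => h4, fun h => absurd h (by simp)⟩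
    | false =>
      obtain ⟨a, c, h1, h2, h3, h4⟩ := choice2 B.1 (ξ (B, false, t))
      exact ⟨(a, c), h1, h2, h3, fun h => absurd h (by simp), fun _ => h4⟩
  choose ac hac1 hac2 hac3 hact hacf using hch
  let v : Xx → V3 := fun z =>
    if h : ∃ i, ξ i = z then (ac (Classical.choose h)).1
    else if h : ∃ i : MatOp × Bool × Xx, sig i.1.1 (ξ i) = z then (ac (Classical.choose h)).2
    else ![1, 0, 0]
  have hv1 : ∀ i, v (ξ i) = (ac i).1 := by
    intro i
    have h : ∃ j, ξ j = ξ i := ⟨i, rfl⟩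
    have h1 : v (ξ i) = (ac (Classical.choose h)).1 := dif_pos h
    rw [h1]
    have h2 : Classical.choose h = i := by
      by_contra hne
      exact (hξ _ _ hne).1 (Classical.choose_spec h)
    rw [h2]
  have hv2 : ∀ i : MatOp × Bool × Xx, v (sig i.1.1 (ξ i)) = (ac i).2 := by
    intro i
    by_cases h : ∃ j, ξ j = sig i.1.1 (ξ i)
    · have h1 : v (sig i.1.1 (ξ i)) = (ac (Classical.choose h)).1 := dif_pos h
      rw [h1]
      have h2 : Classical.choose h = i := by
        by_contra hne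
        exact (hξ _ _ hne).2.1 (Classical.choose_spec h)
      have h3 := Classical.choose_spec h
      rw [h2] at h3 ⊢
      exact hac3 i h3.symm
    · have h' : ∃ j : MatOp × Bool × Xx, sig j.1.1 (ξ j) = sig i.1.1 (ξ i) := ⟨i, rfl⟩
      have h1 : v (sig i.1.1 (ξ i)) = (ac (Classical.choose h')).2 := by
        show (if h : ∃ j, ξ j = sig i.1.1 (ξ i) then _ else _) = _
        rw [dif_neg h, dif_pos h']
      rw [h1]
      have h2 : Classical.choose h' = i := by
        by_contra hne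
        exact (hξ _ _ hne).2.2 (Classical.choose_spec h')
      rw [h2]
  refine ⟨v, ξ, ?_, ?_, ?_, ?_⟩
  · intro i j hij
    by_contra hne
    exact (hξ i j hne).1 hij
  · intro B t
    have h := hact (B, true, t) rfl v (hv1 _) (hv2 _)
    rw [hv1 (B, true, t)]
    exact h
  · intro B t
    have h := hacf (B, false, t) rfl v (hv1 _) (hv2 _)
    rw [hv1 (B, false, t)]
    exact h
  · intro x
    by_cases h : ∃ j, ξ j = x
    · have h1 : v x = (ac (Classical.choose h)).1 := dif_pos h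
      rw [h1]; exact hac1 _
    · by_cases h' : ∃ j : MatOp × Bool × Xx, sig j.1.1 (ξ j) = x
      · have h1 : v x = (ac (Classical.choose h')).2 := by
          show (if h : ∃ j, ξ j = x then _ else _) = _
          rw [dif_neg h, dif_pos h']
        rw [h1]; exact hac2 _
      · have h1 : v x = ![1, 0, 0] := by
          show (if h : ∃ j, ξ j = x then _ else _) = _
          rw [dif_neg h, dif_neg h']
        rw [h1]
        intro h0
        have := congrFun h0 0
        simp at this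

/-- General obstruction: no operator bounded below. -/
lemma no_embed {S S' : Xx → Submodule ℝ V3} (k : Bool) (ξ : MatOp × Bool × Xx → Xx)
    (hξ : Function.Injective ξ)
    (hkey : ∀ (B : MatOp) (t : Xx), (∀ w ∈ S (ξ (B, k, t)), B.1 (ind (ξ (B, k, t)) w) ∈ HS S') →
      ∃ w ∈ S (ξ (B, k, t)), w ≠ 0 ∧ ∀ z ∉ ZB B.1, ConvTo (B.1 (ind (ξ (B, k, t)) w)) z 0) :
    ¬ ∃ (T : HS S →L[ℝ] HS S') (C : ℝ), ∀ x : HS S, ‖x‖ ≤ C * ‖T x‖ := by
  rintro ⟨T, C, hT⟩
  let T' : HS S →L[ℝ] Ell := (HS S').subtypeL.comp T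
  have hT' : ∀ f : HS S, ‖f‖ ≤ C * ‖T' f‖ := hT
  obtain ⟨B, hBm, hBd⟩ := exists_mat (HS S) (del_mem S) T'
  have hZ : (ZB B).Countable := by
    have h1 : ∀ q : Dx, {y | ¬ ConvTo (B (del q)) y 0}.Countable := by
      intro q
      rw [hBd q]
      exact countable_supp (T ⟨del q, del_mem S q⟩).2
    refine (Set.countable_iUnion h1).mono ?_
    intro y hy
    rw [Set.mem_iUnion]
    by_contra hcon
    push Not at hcon
    apply hy
    intro q
    have := hcon q
    simpa using this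
  have hExc := countable_exc T' B hBd
  have hSep := isSeparable_GY hZ S'
  have hQ := countable_sep T' C hT' _ hSep
  have hall : Set.MapsTo (fun t => ξ (⟨B, hBm⟩, k, t)) Set.univ
      ({x : Xx | ∃ w, ∃ h : w ∈ S x, T' ⟨ind x w, ind_mem h⟩ ≠ B (ind x w)} ∪
      {x : Xx | ∃ w, ∃ h : w ∈ S x, w ≠ 0 ∧ ∀ a : ℝ, T' (a • ⟨ind x w, ind_mem h⟩) ∈
        {g : Ell | g ∈ HS S' ∧ ∀ y ∉ ZB B, ConvTo g y 0}}) := by
    intro t _
    by_cases hx : ξ (⟨B, hBm⟩, k, t) ∈ {x : Xx | ∃ w, ∃ h : w ∈ S x,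
        T' ⟨ind x w, ind_mem h⟩ ≠ B (ind x w)}
    · exact Or.inl hx
    · right
      have hx' : ∀ w (h : w ∈ S (ξ (⟨B, hBm⟩, k, t))),
          T' ⟨ind (ξ (⟨B, hBm⟩, k, t)) w, ind_mem h⟩ = B (ind (ξ (⟨B, hBm⟩, k, t)) w) := by
        intro w h
        by_contra hne
        exact hx ⟨w, h, hne⟩
      obtain ⟨w, hw, hw0, hwz⟩ := hkey ⟨B, hBm⟩ t (by
        intro w h
        show B (ind (ξ (⟨B, hBm⟩, k, t)) w) ∈ HS S'
        rw [← hx' w h]
        exact (T ⟨ind (ξ (⟨B, hBm⟩, k, t)) w, ind_mem h⟩).2)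
      refine ⟨w, hw, hw0, ?_⟩
      intro a
      have hm : T' (a • (⟨ind (ξ (⟨B, hBm⟩, k, t)) w, ind_mem hw⟩ : HS S)) ∈ HS S' :=
        (T (a • (⟨ind (ξ (⟨B, hBm⟩, k, t)) w, ind_mem hw⟩ : HS S))).2
      refine ⟨hm, ?_⟩
      intro y hy
      rw [map_smul, hx' w hw]
      have h2 := (hwz y hy).smul a
      rw [smul_zero] at h2
      exact h2
  have hinj : Set.InjOn (fun t => ξ (⟨B, hBm⟩, k, t)) Set.univ := by
    intro t _ t' _ h
    have := hξ h
    simpa using this
  exact not_countable_Xx (Set.MapsTo.countable_of_injOn hall hinj (hExc.union hQ))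

/-- Pointwise action of a matrix. -/
noncomputable def mop (M : Matrix (Fin 3) (Fin 3) ℝ) : Ell →L[ℝ] Ell :=
  LinearMap.mkContinuous
    { toFun := fun f => ⟨fun q => ∑ j, M q.2 j * f (q.1, j), by
        apply memℓp_infty
        refine ⟨(∑ i, ∑ j, |M i j|) * ‖f‖, ?_⟩
        rintro _ ⟨q, rfl⟩
        have h1 : ‖∑ j, M q.2 j * f (q.1, j)‖ ≤ ∑ j, |M q.2 j| * ‖f‖ := by
          refine (norm_sum_le _ _).trans (Finset.sum_le_sum fun j _ => ?_)
          rw [Real.norm_eq_abs, abs_mul]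
          gcongr
          exact norm_apply_le f _
        refine h1.trans ?_
        rw [← Finset.sum_mul]
        apply mul_le_mul_of_nonneg_right _ (norm_nonneg f)
        exact Finset.single_le_sum (f := fun i => ∑ j, |M i j|)
          (fun i _ => Finset.sum_nonneg fun j _ => abs_nonneg _) (Finset.mem_univ q.2)⟩
      map_add' := by
        intro f g
        ext q
        have e : ∀ j, M q.2 j * (f + g : Ell) (q.1, j)
            = M q.2 j * f (q.1, j) + M q.2 j * g (q.1, j) := by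
          intro j
          rw [lp.coeFn_add, Pi.add_apply]; ring
        show ∑ j, M q.2 j * (f + g : Ell) (q.1, j)
          = (∑ j, M q.2 j * f (q.1, j)) + ∑ j, M q.2 j * g (q.1, j)
        rw [← Finset.sum_add_distrib]
        exact Finset.sum_congr rfl (fun j _ => e j)
      map_smul' := by
        intro c f
        ext q
        have e : ∀ j, M q.2 j * (c • f : Ell) (q.1, j) = c * (M q.2 j * f (q.1, j)) := by
          intro j
          rw [lp.coeFn_smul, Pi.smul_apply, smul_eq_mul]; ring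
        show ∑ j, M q.2 j * (c • f : Ell) (q.1, j) = c * ∑ j, M q.2 j * f (q.1, j)
        rw [Finset.mul_sum]
        exact Finset.sum_congr rfl (fun j _ => e j) }
    (∑ i, ∑ j, |M i j|) (by
      intro f
      apply norm_le_of (by positivity)
      intro q
      have h1 : ‖∑ j, M q.2 j * f (q.1, j)‖ ≤ ∑ j, |M q.2 j| * ‖f‖ := by
        refine (norm_sum_le _ _).trans (Finset.sum_le_sum fun j _ => ?_)
        rw [Real.norm_eq_abs, abs_mul]
        gcongr
        exact norm_apply_le f _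
      refine h1.trans ?_
      rw [← Finset.sum_mul]
      apply mul_le_mul_of_nonneg_right _ (norm_nonneg f)
      exact Finset.single_le_sum (f := fun i => ∑ j, |M i j|)
        (fun i _ => Finset.sum_nonneg fun j _ => abs_nonneg _) (Finset.mem_univ q.2))

lemma mop_apply (M : Matrix (Fin 3) (Fin 3) ℝ) (f : Ell) (q : Dx) :
    (mop M f) q = ∑ j, M q.2 j * f (q.1, j) := rfl

lemma mop_ind (M : Matrix (Fin 3) (Fin 3) ℝ) (x : Xx) (w : V3) :
    mop M (ind x w) = ind x (M.mulVec w) := by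
  ext q
  rw [mop_apply, ind_apply]
  simp only [ind_apply]
  split_ifs
  · rfl
  · simp

lemma mop_del (M : Matrix (Fin 3) (Fin 3) ℝ) (q : Dx) :
    mop M (del q) = ∑ i, M i q.2 • del (q.1, i) := by
  classical
  ext p
  rw [mop_apply, lp_sum_apply]
  simp only [lp.coeFn_smul, Pi.smul_apply, del_apply, smul_eq_mul]
  obtain ⟨d, i⟩ := p
  obtain ⟨e, k⟩ := q
  simp only [Prod.mk.injEq]
  by_cases h : d = e
  · subst h
    simp
  · simp [h]

lemma mop_maps (M : Matrix (Fin 3) (Fin 3) ℝ) {S S' : Xx → Submodule ℝ V3}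
    (h : ∀ x, ∀ w ∈ S x, M.mulVec w ∈ S' x) : ∀ f ∈ HS S, mop M f ∈ HS S' := by
  have hle : HS S ≤ (HS S').comap (mop M).toLinearMap := by
    apply Submodule.topologicalClosure_minimal
    · rw [Submodule.span_le]
      rintro f (⟨q, rfl⟩ | ⟨x, w, hw, rfl⟩)
      · show mop M (del q) ∈ HS S'
        rw [mop_del]
        apply Submodule.sum_mem
        intro i _
        exact Submodule.smul_mem _ _ (del_mem S' _)
      · show mop M (ind x w) ∈ HS S'
        rw [mop_ind]
        exact ind_mem (h x w hw)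
    · exact (Submodule.isClosed_topologicalClosure _).preimage (mop M).continuous
  intro f hf
  exact hle hf

end Pool.Agent.H25.LinDim
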