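import Mathlib

/-!
# Idempotents in contractive representations on `L^p`, `p ≠ 2`

If `P` is an idempotent operator on `L^p(μ)` (`1 ≤ p < ∞`, `p ≠ 2`) such that `P + λ (1 - P)` is
contractive for all unimodular `λ`, then `‖z‖^p = ‖P z‖^p + ‖(1 - P) z‖^p` for all `z`.
-/

open scoped ENNReal
open MeasureTheory

noncomputable section

namespace Pool.Agent.H25.SR

section real

lemma add_rpow_lt {x y q : ℝ} (hx : 0 < x) (hy : 0 < y) (hq : 1 < q) :
    x ^ q + y ^ q < (x + y) ^ q := by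
  have hs : 0 < x + y := by positivity
  have h1 : (x / (x + y)) ^ q < x / (x + y) := by
    have := Real.rpow_lt_rpow_of_exponent_gt (x := x / (x + y)) (by positivity)
      (by rw [div_lt_one hs]; linarith) hq
    simpa using this
  have h2 : (y / (x + y)) ^ q < y / (x + y) := by
    have := Real.rpow_lt_rpow_of_exponent_gt (x := y / (x + y)) (by positivity)
      (by rw [div_lt_one hs]; linarith) hq
    simpa using this
  rw [Real.div_rpow hx.le hs.le] at h1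
  rw [Real.div_rpow hy.le hs.le] at h2
  have h3 : x / (x + y) + y / (x + y) = 1 := by field_simp
  have h4 : 0 < (x + y) ^ q := Real.rpow_pos_of_pos hs q
  have h5 : x ^ q / (x + y) ^ q + y ^ q / (x + y) ^ q < 1 := by linarith
  rw [← add_div, div_lt_one h4] at h5
  exact h5

lemma lt_add_rpow {x y q : ℝ} (hx : 0 < x) (hy : 0 < y) (hq : q < 1) :
    (x + y) ^ q < x ^ q + y ^ q := by
  have hs : 0 < x + y := by positivity
  have h1 : x / (x + y) < (x / (x + y)) ^ q := by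
    have := Real.rpow_lt_rpow_of_exponent_gt (x := x / (x + y)) (by positivity)
      (by rw [div_lt_one hs]; linarith) hq
    simpa using this
  have h2 : y / (x + y) < (y / (x + y)) ^ q := by
    have := Real.rpow_lt_rpow_of_exponent_gt (x := y / (x + y)) (by positivity)
      (by rw [div_lt_one hs]; linarith) hq
    simpa using this
  rw [Real.div_rpow hx.le hs.le] at h1
  rw [Real.div_rpow hy.le hs.le] at h2
  have h3 : x / (x + y) + y / (x + y) = 1 := by field_simp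
  have h4 : 0 < (x + y) ^ q := Real.rpow_pos_of_pos hs q
  have h5 : 1 < x ^ q / (x + y) ^ q + y ^ q / (x + y) ^ q := by linarith
  rw [← add_div, one_lt_div h4] at h5
  exact h5

/-- The Clarkson defect. -/
def clk (r : ℝ) (a b : ℂ) : ℝ :=
  ‖a + b‖ ^ r + ‖a - b‖ ^ r - 2 * (‖a‖ ^ r + ‖b‖ ^ r)

lemma norm_rpow_half (r : ℝ) (a : ℂ) : ‖a‖ ^ r = (‖a‖ ^ 2) ^ (r / 2) := by
  rw [← Real.rpow_natCast, ← Real.rpow_mul (norm_nonneg _)]
  congr 1
  push_cast
  ring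

lemma clk_eq_zero_of {r : ℝ} (hr : 0 < r) {a b : ℂ} (hab : a = 0 ∨ b = 0) : clk r a b = 0 := by
  rcases hab with rfl | rfl
  · simp [clk, Real.zero_rpow hr.ne']
    ring
  · simp [clk, Real.zero_rpow hr.ne']
    ring

lemma clk_pos {r : ℝ} (hr : 2 < r) {a b : ℂ} (ha : a ≠ 0) (hb : b ≠ 0) : 0 < clk r a b := by
  have hq : 1 < r / 2 := by linarith
  have hpar : ‖a + b‖ ^ 2 + ‖a - b‖ ^ 2 = 2 * (‖a‖ ^ 2 + ‖b‖ ^ 2) := by
    have := parallelogram_law_with_norm ℂ a b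
    nlinarith [this]
  obtain ⟨_, hc⟩ := convexOn_rpow hq.le
  have h1 := hc (Set.mem_Ici.mpr (sq_nonneg ‖a + b‖)) (Set.mem_Ici.mpr (sq_nonneg ‖a - b‖))
    (show (0 : ℝ) ≤ 1 / 2 by norm_num) (show (0 : ℝ) ≤ 1 / 2 by norm_num) (by norm_num)
  simp only [smul_eq_mul] at h1
  have h2 : (1 / 2 : ℝ) * ‖a + b‖ ^ 2 + 1 / 2 * ‖a - b‖ ^ 2 = ‖a‖ ^ 2 + ‖b‖ ^ 2 := by linarith
  rw [h2] at h1
  have h3 := add_rpow_lt (x := ‖a‖ ^ 2) (y := ‖b‖ ^ 2) (by positivity) (by positivity) hq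
  unfold clk
  rw [norm_rpow_half r (a + b), norm_rpow_half r (a - b), norm_rpow_half r a, norm_rpow_half r b]
  linarith

lemma clk_neg {r : ℝ} (hr0 : 0 < r) (hr : r < 2) {a b : ℂ} (ha : a ≠ 0) (hb : b ≠ 0) :
    clk r a b < 0 := by
  have hq : r / 2 < 1 := by linarith
  have hpar : ‖a + b‖ ^ 2 + ‖a - b‖ ^ 2 = 2 * (‖a‖ ^ 2 + ‖b‖ ^ 2) := by
    have := parallelogram_law_with_norm ℂ a b
    nlinarith [this]
  obtain ⟨_, hc⟩ := Real.concaveOn_rpow (p := r / 2) (by linarith) hq.le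
  have h1 := hc (Set.mem_Ici.mpr (sq_nonneg ‖a + b‖)) (Set.mem_Ici.mpr (sq_nonneg ‖a - b‖))
    (show (0 : ℝ) ≤ 1 / 2 by norm_num) (show (0 : ℝ) ≤ 1 / 2 by norm_num) (by norm_num)
  simp only [smul_eq_mul] at h1
  have h2 : (1 / 2 : ℝ) * ‖a + b‖ ^ 2 + 1 / 2 * ‖a - b‖ ^ 2 = ‖a‖ ^ 2 + ‖b‖ ^ 2 := by linarith
  rw [h2] at h1
  have h3 := lt_add_rpow (x := ‖a‖ ^ 2) (y := ‖b‖ ^ 2) (by positivity) (by positivity) hq
  unfold clk
  rw [norm_rpow_half r (a + b), norm_rpow_half r (a - b), norm_rpow_half r a, norm_rpow_half r b]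
  linarith

end real

section Lp

variable {Y : Type*} [MeasurableSpace Y] {μ : Measure Y} {p : ℝ≥0∞} [Fact (1 ≤ p)]

lemma toReal_pos' (hp : p ≠ ∞) : 0 < p.toReal :=
  ENNReal.toReal_pos (zero_lt_one.trans_le (Fact.out : 1 ≤ p)).ne' hp

omit [Fact (1 ≤ p)] in
lemma toReal_ne_two (hp : p ≠ ∞) (hp2 : p ≠ 2) : p.toReal ≠ 2 := by
  intro h
  apply hp2
  rw [← ENNReal.ofReal_toReal hp, h]
  simp

lemma Lp_norm_rpow (hp : p ≠ ∞) (f : Lp ℂ p μ) :
    ‖f‖ ^ p.toReal = ∫ x, ‖f x‖ ^ p.toReal ∂μ := by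
  have hp0 : p ≠ 0 := (zero_lt_one.trans_le (Fact.out : 1 ≤ p)).ne'
  have h1 := (Lp.memLp f).eLpNorm_eq_integral_rpow_norm hp0 hp
  have h2 : 0 ≤ ∫ x, ‖f x‖ ^ p.toReal ∂μ := integral_nonneg fun x => by positivity
  rw [Lp.norm_def, h1, ENNReal.toReal_ofReal (by positivity), ← Real.rpow_mul h2,
    inv_mul_cancel₀ (toReal_pos' hp).ne', Real.rpow_one]

lemma Lp_integrable (hp : p ≠ ∞) (f : Lp ℂ p μ) :
    Integrable (fun x => ‖f x‖ ^ p.toReal) μ :=
  (Lp.memLp f).integrable_norm_rpow (zero_lt_one.trans_le (Fact.out : 1 ≤ p)).ne' hp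

lemma Lp_clk_integral (hp : p ≠ ∞) (f g : Lp ℂ p μ) :
    Integrable (fun x => clk p.toReal (f x) (g x)) μ ∧
    ∫ x, clk p.toReal (f x) (g x) ∂μ =
      ‖f + g‖ ^ p.toReal + ‖f - g‖ ^ p.toReal - 2 * (‖f‖ ^ p.toReal + ‖g‖ ^ p.toReal) := by
  have e1 : (fun x => clk p.toReal (f x) (g x)) =ᵐ[μ] fun x =>
      ‖(f + g : Lp ℂ p μ) x‖ ^ p.toReal + ‖(f - g : Lp ℂ p μ) x‖ ^ p.toReal
        - 2 * (‖f x‖ ^ p.toReal + ‖g x‖ ^ p.toReal) := by
    filter_upwards [Lp.coeFn_add f g, Lp.coeFn_sub f g] with x h1 h2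
    rw [h1, h2]
    rfl
  have i1 := Lp_integrable hp (f + g)
  have i2 := Lp_integrable hp (f - g)
  have i3 := Lp_integrable hp f
  have i4 := Lp_integrable hp g
  refine ⟨(((i1.add i2).sub ((i3.add i4).const_mul 2)).congr ?_), ?_⟩
  · filter_upwards [e1] with x hx
    rw [hx]
    rfl
  · rw [integral_congr_ae e1]
    have j1 : ∫ x, (‖(f + g : Lp ℂ p μ) x‖ ^ p.toReal + ‖(f - g : Lp ℂ p μ) x‖ ^ p.toReal
        - 2 * (‖f x‖ ^ p.toReal + ‖g x‖ ^ p.toReal)) ∂μ =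
        ∫ x, (‖(f + g : Lp ℂ p μ) x‖ ^ p.toReal + ‖(f - g : Lp ℂ p μ) x‖ ^ p.toReal) ∂μ -
        ∫ x, 2 * (‖f x‖ ^ p.toReal + ‖g x‖ ^ p.toReal) ∂μ :=
      integral_sub (i1.add i2) ((i3.add i4).const_mul 2)
    rw [j1, integral_add i1 i2, integral_const_mul, integral_add i3 i4, ← Lp_norm_rpow hp,
      ← Lp_norm_rpow hp, ← Lp_norm_rpow hp, ← Lp_norm_rpow hp]

/-- Equality in Clarkson's inequality characterizes disjointness. -/
lemma disj_iff (hp : p ≠ ∞) (hp2 : p ≠ 2) (f g : Lp ℂ p μ) :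
    (∀ᵐ x ∂μ, f x = 0 ∨ g x = 0) ↔
      ‖f + g‖ ^ p.toReal + ‖f - g‖ ^ p.toReal = 2 * (‖f‖ ^ p.toReal + ‖g‖ ^ p.toReal) := by
  obtain ⟨hi, he⟩ := Lp_clk_integral hp f g
  constructor
  · intro hd
    have h0 : ∫ x, clk p.toReal (f x) (g x) ∂μ = 0 := by
      rw [integral_congr_ae (g := fun _ => (0 : ℝ)), integral_zero]
      filter_upwards [hd] with x hx
      exact clk_eq_zero_of (toReal_pos' hp) hx
    rw [h0] at he
    linarith
  · intro hd
    have h0 : ∫ x, clk p.toReal (f x) (g x) ∂μ = 0 := by rw [he, hd, sub_self]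
    rcases lt_or_gt_of_ne (toReal_ne_two hp hp2) with hlt | hgt
    · have hneg : ∀ x, 0 ≤ -clk p.toReal (f x) (g x) := by
        intro x
        by_cases hx : f x = 0 ∨ g x = 0
        · rw [clk_eq_zero_of (toReal_pos' hp) hx, neg_zero]
        · push Not at hx
          exact (neg_pos.mpr (clk_neg (toReal_pos' hp) hlt hx.1 hx.2)).le
      have h1 : ∫ x, -clk p.toReal (f x) (g x) ∂μ = 0 := by rw [integral_neg, h0, neg_zero]
      rw [integral_eq_zero_iff_of_nonneg hneg hi.neg] at h1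
      filter_upwards [h1] with x hx
      by_contra hcon
      push Not at hcon
      have := clk_neg (toReal_pos' hp) hlt hcon.1 hcon.2
      simp only [Pi.zero_apply] at hx
      linarith
    · have hpos : ∀ x, 0 ≤ clk p.toReal (f x) (g x) := by
        intro x
        by_cases hx : f x = 0 ∨ g x = 0
        · rw [clk_eq_zero_of (toReal_pos' hp) hx]
        · push Not at hx
          exact (clk_pos hgt hx.1 hx.2).le
      have h1 := h0
      rw [integral_eq_zero_iff_of_nonneg hpos hi] at h1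
      filter_upwards [h1] with x hx
      by_contra hcon
      push Not at hcon
      have := clk_pos hgt hcon.1 hcon.2
      simp only [Pi.zero_apply] at hx
      linarith

/-- `P + λ (1 - P)`, applied to `z`. -/
def sOp (P : Lp ℂ p μ →L[ℂ] Lp ℂ p μ) (l : ℂ) (z : Lp ℂ p μ) : Lp ℂ p μ := P z + l • (z - P z)

lemma sOp_add (P : Lp ℂ p μ →L[ℂ] Lp ℂ p μ) (l : ℂ) (z w : Lp ℂ p μ) :
    sOp P l (z + w) = sOp P l z + sOp P l w := by
  simp only [sOp, map_add]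
  module

lemma sOp_sub (P : Lp ℂ p μ →L[ℂ] Lp ℂ p μ) (l : ℂ) (z w : Lp ℂ p μ) :
    sOp P l (z - w) = sOp P l z - sOp P l w := by
  simp only [sOp, map_sub]
  module

variable {P : Lp ℂ p μ →L[ℂ] Lp ℂ p μ}

lemma sOp_norm (hPP : ∀ z, P (P z) = P z)
    (hc : ∀ l : ℂ, ‖l‖ = 1 → ∀ z, ‖sOp P l z‖ ≤ ‖z‖) {l : ℂ} (hl : ‖l‖ = 1) (z : Lp ℂ p μ) :
    ‖sOp P l z‖ = ‖z‖ := by
  apply le_antisymm (hc l hl z)
  have h1 : sOp P (starRingEnd ℂ l) (sOp P l z) = z := by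
    have h2 : P (sOp P l z) = P z := by
      simp only [sOp, map_add, map_smul, map_sub, hPP, sub_self, smul_zero, add_zero]
    have h3 : (starRingEnd ℂ) l * l = 1 := by
      rw [mul_comm, Complex.mul_conj, Complex.normSq_eq_norm_sq, hl]
      simp
    have h4 : sOp P (starRingEnd ℂ l) (sOp P l z) = P z + (starRingEnd ℂ l) • (l • (z - P z)) := by
      conv_lhs => rw [sOp, h2]
      simp only [sOp]
      congr 2
      abel
    rw [h4, smul_smul, h3, one_smul]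
    abel
  calc ‖z‖ = ‖sOp P (starRingEnd ℂ l) (sOp P l z)‖ := by rw [h1]
    _ ≤ _ := hc _ (by rw [RCLike.norm_conj, hl]) _

/-- `f` and `g` are disjoint. -/
def Dj (f g : Lp ℂ p μ) : Prop := ∀ᵐ x ∂μ, f x = 0 ∨ g x = 0

lemma Dj.map_sOp (hp : p ≠ ∞) (hp2 : p ≠ 2) (hPP : ∀ z, P (P z) = P z)
    (hc : ∀ l : ℂ, ‖l‖ = 1 → ∀ z, ‖sOp P l z‖ ≤ ‖z‖) {l : ℂ} (hl : ‖l‖ = 1) {f g : Lp ℂ p μ}
    (hfg : Dj f g) : Dj (sOp P l f) (sOp P l g) := by
  unfold Dj at *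
  rw [disj_iff hp hp2] at hfg ⊢
  rw [← sOp_add, ← sOp_sub, sOp_norm hPP hc hl, sOp_norm hPP hc hl, sOp_norm hPP hc hl,
    sOp_norm hPP hc hl]
  exact hfg

lemma sOp_coe (l : ℂ) (z : Lp ℂ p μ) :
    ∀ᵐ x ∂μ, sOp P l z x = P z x + l * (z - P z) x := by
  filter_upwards [Lp.coeFn_add (P z) (l • (z - P z)), Lp.coeFn_smul l (z - P z)] with x h1 h2
  simp only [sOp, h1, Pi.add_apply, h2, Pi.smul_apply, smul_eq_mul]

lemma four_terms {A B C D : ℂ} (h1 : A + 1 * B = 0 ∨ C + 1 * D = 0)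
    (h2 : A + (-1) * B = 0 ∨ C + (-1) * D = 0)
    (h3 : A + Complex.I * B = 0 ∨ C + Complex.I * D = 0)
    (h4 : A + (-Complex.I) * B = 0 ∨ C + (-Complex.I) * D = 0) : B = 0 ∨ C = 0 := by
  have k1 : (A + 1 * B) * (starRingEnd ℂ (C + 1 * D)) = 0 := by
    rcases h1 with h | h <;> rw [h] <;> simp
  have k2 : (A + (-1) * B) * (starRingEnd ℂ (C + (-1) * D)) = 0 := by
    rcases h2 with h | h <;> rw [h] <;> simp
  have k3 : (A + Complex.I * B) * (starRingEnd ℂ (C + Complex.I * D)) = 0 := by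
    rcases h3 with h | h <;> rw [h] <;> simp
  have k4 : (A + (-Complex.I) * B) * (starRingEnd ℂ (C + (-Complex.I) * D)) = 0 := by
    rcases h4 with h | h <;> rw [h] <;> simp
  simp only [map_add, map_mul, map_neg, map_one, Complex.conj_I] at k1 k2 k3 k4
  have k5 : B * (starRingEnd ℂ C) = 0 := by
    have hI : Complex.I * Complex.I = -1 := Complex.I_mul_I
    linear_combination (1 / 4) * k1 - (1 / 4) * k2 - (Complex.I / 4) * k3 + (Complex.I / 4) * k4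
      + ((1 / 2) * B * (starRingEnd ℂ C) - (1 / 2) * A * (starRingEnd ℂ D)) * hI
  rcases mul_eq_zero.mp k5 with h | h
  · exact Or.inl h
  · exact Or.inr (by simpa using h)

lemma Dj.cross (hp : p ≠ ∞) (hp2 : p ≠ 2) (hPP : ∀ z, P (P z) = P z)
    (hc : ∀ l : ℂ, ‖l‖ = 1 → ∀ z, ‖sOp P l z‖ ≤ ‖z‖) {f g : Lp ℂ p μ}
    (hfg : Dj f g) : Dj (f - P f) (P g) := by
  have d1 := Dj.map_sOp hp hp2 hPP hc (l := 1) (by simp) hfg
  have d2 := Dj.map_sOp hp hp2 hPP hc (l := -1) (by simp) hfg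
  have d3 := Dj.map_sOp hp hp2 hPP hc (l := Complex.I) (by simp) hfg
  have d4 := Dj.map_sOp hp hp2 hPP hc (l := -Complex.I) (by simp) hfg
  filter_upwards [d1, d2, d3, d4, sOp_coe (P := P) 1 f, sOp_coe (P := P) 1 g,
    sOp_coe (P := P) (-1) f, sOp_coe (P := P) (-1) g, sOp_coe (P := P) Complex.I f,
    sOp_coe (P := P) Complex.I g, sOp_coe (P := P) (-Complex.I) f,
    sOp_coe (P := P) (-Complex.I) g] with x d1 d2 d3 d4 e1 e2 e3 e4 e5 e6 e7 e8
  rw [e1, e2] at d1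
  rw [e3, e4] at d2
  rw [e5, e6] at d3
  rw [e7, e8] at d4
  exact four_terms d1 d2 d3 d4

/-- Multiplication by the indicator function of `B`. -/
def ind (B : Set Y) (hB : MeasurableSet B) (f : Lp ℂ p μ) : Lp ℂ p μ :=
  ((Lp.memLp f).indicator hB).toLp (B.indicator f)

omit [Fact (1 ≤ p)] in
lemma ind_coe (B : Set Y) (hB : MeasurableSet B) (f : Lp ℂ p μ) :
    ∀ᵐ x ∂μ, ind B hB f x = B.indicator f x := MemLp.coeFn_toLp _

lemma ind_rpow (hp : p ≠ ∞) (B : Set Y) (hB : MeasurableSet B) (f : Lp ℂ p μ) :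
    ‖ind B hB f‖ ^ p.toReal = ∫ x in B, ‖f x‖ ^ p.toReal ∂μ := by
  rw [Lp_norm_rpow hp, ← integral_indicator hB]
  apply integral_congr_ae
  filter_upwards [ind_coe B hB f] with x hx
  rw [hx]
  by_cases hxB : x ∈ B
  · simp [hxB]
  · simp [hxB, Real.zero_rpow (toReal_pos' hp).ne']

/-- `P` preserves the functions supported in `B`. -/
lemma supp_preserved (hp : p ≠ ∞) (hp2 : p ≠ 2) (hPP : ∀ z, P (P z) = P z)
    (hc : ∀ l : ℂ, ‖l‖ = 1 → ∀ z, ‖sOp P l z‖ ≤ ‖z‖) (B : Set Y) (hB : MeasurableSet B)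
    (f : Lp ℂ p μ) (hf : ∀ᵐ x ∂μ, x ∉ B → f x = 0) : ∀ᵐ x ∂μ, x ∉ B → P f x = 0 := by
  set g := ind Bᶜ hB.compl (P f) with hg
  have hfg : Dj f g := by
    filter_upwards [hf, ind_coe Bᶜ hB.compl (P f)] with x h1 h2
    by_cases hx : x ∈ B
    · right
      rw [hg, h2]
      simp [hx]
    · left
      exact h1 hx
  have hgf : Dj g f := by
    filter_upwards [hfg] with x hx using hx.symm
  have c1 := hfg.cross hp hp2 hPP hc
  have c2 := hgf.cross hp hp2 hPP hc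
  filter_upwards [hf, ind_coe Bᶜ hB.compl (P f), c1, c2, Lp.coeFn_sub f (P f),
    Lp.coeFn_sub g (P g)] with x h1 h2 h3 h4 h5 h6 hx
  by_contra hne
  have h7 := h1 hx
  rw [h5, Pi.sub_apply, h7] at h3
  have h8 : P g x = 0 := by
    rcases h3 with h | h
    · exact absurd (by simpa using h) hne
    · exact h
  have h9 : g x - P g x = 0 := by
    rcases h4 with h | h
    · rw [h6] at h
      exact h
    · exact absurd h hne
  rw [h8, sub_zero, hg, h2] at h9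
  simp only [Set.mem_compl_iff, hx, not_false_eq_true, Set.indicator_of_mem] at h9
  exact hne h9

omit [Fact (1 ≤ p)] in
lemma ind_add_compl (B : Set Y) (hB : MeasurableSet B) (f : Lp ℂ p μ) :
    ind B hB f + ind Bᶜ hB.compl f = f := by
  apply Lp.ext
  filter_upwards [Lp.coeFn_add (ind B hB f) (ind Bᶜ hB.compl f), ind_coe B hB f,
    ind_coe Bᶜ hB.compl f] with x h1 h2 h3
  rw [h1, Pi.add_apply, h2, h3]
  by_cases hx : x ∈ B
  · simp [hx]
  · simp [hx]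

lemma ind_comm (hp : p ≠ ∞) (hp2 : p ≠ 2) (hPP : ∀ z, P (P z) = P z)
    (hc : ∀ l : ℂ, ‖l‖ = 1 → ∀ z, ‖sOp P l z‖ ≤ ‖z‖) (B : Set Y) (hB : MeasurableSet B)
    (f : Lp ℂ p μ) : P (ind B hB f) = ind B hB (P f) := by
  have h1 := supp_preserved hp hp2 hPP hc B hB (ind B hB f) (by
    filter_upwards [ind_coe B hB f] with x hx hxB
    rw [hx]
    simp [hxB])
  have h2 := supp_preserved hp hp2 hPP hc Bᶜ hB.compl (ind Bᶜ hB.compl f) (by
    filter_upwards [ind_coe Bᶜ hB.compl f] with x hx hxB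
    rw [hx]
    have hxB' : x ∈ B := by simpa using hxB
    simp [hxB'])
  have h3 : P f = P (ind B hB f) + P (ind Bᶜ hB.compl f) := by
    rw [← map_add, ind_add_compl]
  apply Lp.ext
  have h4 := Lp.coeFn_add (P (ind B hB f)) (P (ind Bᶜ hB.compl f))
  rw [← h3] at h4
  filter_upwards [h1, h2, h4, ind_coe B hB (P f)] with x h1 h2 h4 h5
  rw [h5]
  by_cases hx : x ∈ B
  · simp only [hx, Set.indicator_of_mem]
    rw [h4, Pi.add_apply, h2 (by simpa using hx), add_zero]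
  · simp only [hx, not_false_eq_true, Set.indicator_of_notMem]
    exact h1 hx

omit [Fact (1 ≤ p)] in
lemma ind_sub_smul (B : Set Y) (hB : MeasurableSet B) (l : ℂ) (f g : Lp ℂ p μ) :
    ind B hB f + l • (ind B hB g - ind B hB f) = ind B hB (f + l • (g - f)) := by
  apply Lp.ext
  filter_upwards [Lp.coeFn_add (ind B hB f) (l • (ind B hB g - ind B hB f)), ind_coe B hB f,
    ind_coe B hB g, Lp.coeFn_smul l (ind B hB g - ind B hB f),
    Lp.coeFn_sub (ind B hB g) (ind B hB f), ind_coe B hB (f + l • (g - f)),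
    Lp.coeFn_add f (l • (g - f)), Lp.coeFn_smul l (g - f), Lp.coeFn_sub g f] with
    x h1 h2 h3 h4 h5 h6 h7 h8 h9
  rw [h1, Pi.add_apply, h4, Pi.smul_apply, h5, Pi.sub_apply, h6, h2, h3]
  by_cases hx : x ∈ B
  · simp only [hx, Set.indicator_of_mem]
    rw [h7, Pi.add_apply, h8, Pi.smul_apply, h9, Pi.sub_apply]
  · simp [hx]

lemma sOp_ind (hp : p ≠ ∞) (hp2 : p ≠ 2) (hPP : ∀ z, P (P z) = P z)
    (hc : ∀ l : ℂ, ‖l‖ = 1 → ∀ z, ‖sOp P l z‖ ≤ ‖z‖) (B : Set Y) (hB : MeasurableSet B) (l : ℂ)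
    (z : Lp ℂ p μ) : sOp P l (ind B hB z) = ind B hB (sOp P l z) := by
  unfold sOp
  rw [ind_comm hp hp2 hPP hc, ind_sub_smul]

lemma norm_sOp_ae (hp : p ≠ ∞) (hp2 : p ≠ 2) (hPP : ∀ z, P (P z) = P z)
    (hc : ∀ l : ℂ, ‖l‖ = 1 → ∀ z, ‖sOp P l z‖ ≤ ‖z‖) {l : ℂ} (hl : ‖l‖ = 1)
    (z : Lp ℂ p μ) : ∀ᵐ x ∂μ, ‖sOp P l z x‖ = ‖z x‖ := by
  have h1 : (fun x => ‖sOp P l z x‖ ^ p.toReal) =ᵐ[μ] fun x => ‖z x‖ ^ p.toReal := by
    apply Integrable.ae_eq_of_forall_setIntegral_eq _ _ (Lp_integrable hp _) (Lp_integrable hp _)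
    intro B hB _
    rw [← ind_rpow hp B hB, ← ind_rpow hp B hB, ← sOp_ind hp hp2 hPP hc, sOp_norm hPP hc hl]
  filter_upwards [h1] with x hx
  exact (Real.rpow_left_injOn (toReal_pos' hp).ne') (norm_nonneg _) (norm_nonneg _) hx

lemma norm_cases {A B : ℂ} (h1 : ‖A + (-1) * B‖ = ‖A + B‖)
    (h2 : ‖A + Complex.I * B‖ = ‖A + B‖) : A = 0 ∨ B = 0 := by
  have k1 : Complex.normSq (A + (-1) * B) = Complex.normSq (A + B) := by
    rw [Complex.normSq_eq_norm_sq, Complex.normSq_eq_norm_sq, h1]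
  have k2 : Complex.normSq (A + Complex.I * B) = Complex.normSq (A + B) := by
    rw [Complex.normSq_eq_norm_sq, Complex.normSq_eq_norm_sq, h2]
  simp only [Complex.normSq_apply, Complex.add_re, Complex.add_im, Complex.mul_re, Complex.mul_im,
    Complex.neg_re, Complex.neg_im, Complex.one_re, Complex.one_im, Complex.I_re, Complex.I_im] at k1 k2
  have e1 : A.re * B.re + A.im * B.im = 0 := by linarith
  have e2 : A.im * B.re - A.re * B.im = 0 := by linarith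
  have e3 : (A.re ^ 2 + A.im ^ 2) * (B.re ^ 2 + B.im ^ 2) = 0 := by
    have : (A.re ^ 2 + A.im ^ 2) * (B.re ^ 2 + B.im ^ 2)
      = (A.re * B.re + A.im * B.im) ^ 2 + (A.im * B.re - A.re * B.im) ^ 2 := by ring
    rw [this, e1, e2]
    ring
  rcases mul_eq_zero.mp e3 with h | h
  · left
    have ha : A.re = 0 := by nlinarith [sq_nonneg A.re, sq_nonneg A.im]
    have hb : A.im = 0 := by nlinarith [sq_nonneg A.re, sq_nonneg A.im]
    exact Complex.ext ha hb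
  · right
    have ha : B.re = 0 := by nlinarith [sq_nonneg B.re, sq_nonneg B.im]
    have hb : B.im = 0 := by nlinarith [sq_nonneg B.re, sq_nonneg B.im]
    exact Complex.ext ha hb

/-- The two parts `P z` and `z - P z` are disjoint. -/
lemma Dj_parts (hp : p ≠ ∞) (hp2 : p ≠ 2) (hPP : ∀ z, P (P z) = P z)
    (hc : ∀ l : ℂ, ‖l‖ = 1 → ∀ z, ‖sOp P l z‖ ≤ ‖z‖) (z : Lp ℂ p μ) : Dj (P z) (z - P z) := by
  filter_upwards [norm_sOp_ae hp hp2 hPP hc (l := -1) (by simp) z,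
    norm_sOp_ae hp hp2 hPP hc (l := Complex.I) (by simp) z, sOp_coe (P := P) (-1) z,
    sOp_coe (P := P) Complex.I z, Lp.coeFn_sub z (P z)] with x h1 h2 h3 h4 h5
  have h6 : z x = P z x + (z - P z) x := by
    rw [h5, Pi.sub_apply]
    ring
  rw [h3, h6] at h1
  rw [h4, h6] at h2
  exact norm_cases h1 h2

/-- **Additivity**: `‖z‖^p = ‖P z‖^p + ‖(1 - P) z‖^p`. -/
theorem p_additive (hp : p ≠ ∞) (hp2 : p ≠ 2) (hPP : ∀ z, P (P z) = P z)
    (hc : ∀ l : ℂ, ‖l‖ = 1 → ∀ z, ‖P z + l • (z - P z)‖ ≤ ‖z‖) (z : Lp ℂ p μ) :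
    ‖z‖ ^ p.toReal = ‖P z‖ ^ p.toReal + ‖z - P z‖ ^ p.toReal := by
  have hd := Dj_parts hp hp2 hPP hc z
  rw [Lp_norm_rpow hp, Lp_norm_rpow hp, Lp_norm_rpow hp,
    ← integral_add (Lp_integrable hp _) (Lp_integrable hp _)]
  apply integral_congr_ae
  filter_upwards [hd, Lp.coeFn_sub z (P z)] with x h1 h2
  have h6 : z x = P z x + (z - P z) x := by
    rw [h2, Pi.sub_apply]
    ring
  rcases h1 with h | h
  · rw [h6, h]
    simp [Real.zero_rpow (toReal_pos' hp).ne']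
  · rw [h6, h]
    simp [Real.zero_rpow (toReal_pos' hp).ne']

end Lp

end Pool.Agent.H25.SR
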