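import Pool.Agent.H25.SrNorm

/-!
# Algebra in `C_c(ℤ, C(X))`
-/

open scoped ENNReal
open Multiplicative

noncomputable section

namespace Pool.Agent.H25.SR

variable {X : Type} [TopologicalSpace X] {h : X ≃ₜ X}

section basics

@[simp] lemma alphaPow_one (n : ℤ) : alphaPow n (1 : CX h) = 1 := rfl
@[simp] lemma alphaPow_zero' (n : ℤ) : alphaPow n (0 : CX h) = 0 := rfl
lemma alphaPow_mul (n : ℤ) (f g : CX h) : alphaPow n (f * g) = alphaPow n f * alphaPow n g := rfl
lemma alphaPow_add (n : ℤ) (f g : CX h) : alphaPow n (f + g) = alphaPow n f + alphaPow n g := rfl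
@[simp] lemma alphaPow_zero (f : CX h) : alphaPow 0 f = f := by
  ext x; simp
@[simp] lemma alphaPow_alphaPow (m n : ℤ) (f : CX h) :
    alphaPow m (alphaPow n f) = alphaPow (m + n) f := by
  ext x
  simp only [alphaPow_apply, ← Homeomorph.mul_apply, ← zpow_add]
  congr 3
  ring

lemma fu_zero (n : ℤ) : fu (0 : CX h) n = 0 := SkewMonoidAlgebra.single_zero _
lemma fu_add (f g : CX h) (n : ℤ) : fu (f + g) n = fu f n + fu g n :=
  SkewMonoidAlgebra.single_add _ _ _
lemma fu_sub (f g : CX h) (n : ℤ) : fu (f - g) n = fu f n - fu g n := by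
  rw [eq_sub_iff_add_eq, ← fu_add, sub_add_cancel]
lemma fu_smul (c : ℂ) (f : CX h) (n : ℤ) : fu (c • f) n = c • fu f n :=
  (SkewMonoidAlgebra.smul_single c _ f).symm
lemma fu_one : (fu 1 0 : Cc h) = 1 := rfl

lemma coeff_fu (f : CX h) (n : ℤ) (m : Multiplicative ℤ) :
    (fu f n).coeff m = if toAdd m = n then f else 0 := by
  classical
  unfold fu
  rw [SkewMonoidAlgebra.coeff_single_apply]
  by_cases hm : toAdd m = n
  · rw [if_pos hm, if_pos]
    rw [← hm]
    rfl
  · rw [if_neg hm, if_neg]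
    rintro rfl
    exact hm rfl

lemma Cc_induction {P : Cc h → Prop} (a : Cc h) (h0 : P 0) (hf : ∀ f n, P (fu f n))
    (hadd : ∀ a b, P a → P b → P (a + b)) : P a :=
  SkewMonoidAlgebra.induction_on a h0 (fun g f => hf f (toAdd g)) hadd

lemma eq_sum_fu (a : Cc h) : a = ∑ n ∈ a.support, fu (a.coeff n) (toAdd n) := by
  conv_lhs => rw [← SkewMonoidAlgebra.sum_single a, SkewMonoidAlgebra.sum_def']
  rfl

end basics

section LC

lemma IsLocallyConstant.finset_sum {ι : Type*} (s : Finset ι) (F : ι → X → ℂ)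
    (hF : ∀ i ∈ s, IsLocallyConstant (F i)) : IsLocallyConstant (fun x => ∑ i ∈ s, F i x) := by
  classical
  induction s using Finset.induction_on with
  | empty =>
    simp only [Finset.sum_empty]
    exact IsLocallyConstant.const (0 : ℂ)
  | insert i s hi ih =>
    simp only [Finset.sum_insert hi]
    exact (hF i (Finset.mem_insert_self _ _)).add
      (ih fun j hj => hF j (Finset.mem_insert_of_mem hj))

/-- `f : CX h` is locally constant. -/
def IsLC (f : CX h) : Prop := IsLocallyConstant (f : X → ℂ)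

lemma IsLC.alphaPow {f : CX h} (hf : IsLC f) (n : ℤ) : IsLC (alphaPow n f) :=
  (show IsLocallyConstant ((f : X → ℂ) ∘ (h ^ (-n) : X ≃ₜ X)) from
    IsLocallyConstant.comp_continuous hf (h ^ (-n) : X ≃ₜ X).continuous)

lemma CX.coe_sum {ι : Type*} (s : Finset ι) (F : ι → CX h) (x : X) :
    (∑ i ∈ s, F i) x = ∑ i ∈ s, F i x := by
  classical
  induction s using Finset.induction_on with
  | empty => simp
  | insert i s hi ih => rw [Finset.sum_insert hi, Finset.sum_insert hi, CX.add_apply, ih]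

/-- The subalgebra of elements with locally constant coefficients. -/
def LC (h : X ≃ₜ X) : Subalgebra ℂ (Cc h) where
  carrier := {a | ∀ n, IsLC (a.coeff n)}
  mul_mem' := by
    intro a b ha hb n
    have h1 : ((a * b).coeff n : X → ℂ) = fun x => ∑ m ∈ a.support,
        (a.coeff m * m • b.coeff (m⁻¹ * n)) x := by
      ext x
      rw [SkewMonoidAlgebra.coeff_mul_left, SkewMonoidAlgebra.sum_def', CX.coe_sum]
    unfold IsLC
    rw [h1]
    apply IsLocallyConstant.finset_sum
    intro m _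
    exact IsLocallyConstant.mul (ha m) ((hb (m⁻¹ * n)).alphaPow (toAdd m))
  add_mem' := by
    intro a b ha hb n
    rw [SkewMonoidAlgebra.coeff_add]
    exact IsLocallyConstant.add (ha n) (hb n)
  algebraMap_mem' := by
    intro c n
    have h1 : algebraMap ℂ (Cc h) c = fu (algebraMap ℂ (CX h) c) 0 := rfl
    rw [h1, coeff_fu]
    split_ifs
    · exact IsLocallyConstant.const c
    · exact IsLocallyConstant.const (0 : ℂ)

lemma mem_LC {a : Cc h} : a ∈ LC h ↔ ∀ n, IsLC (a.coeff n) := Iff.rfl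

lemma fu_mem_LC {f : CX h} (hf : IsLC f) (n : ℤ) : fu f n ∈ LC h := by
  intro m
  rw [coeff_fu]
  split_ifs
  · exact hf
  · exact IsLocallyConstant.const (0 : ℂ)

lemma isLC_one : IsLC (1 : CX h) := IsLocallyConstant.const (1 : ℂ)

lemma isLC_chi (U : Set X) (hU : IsClopen U) : IsLC (chi U hU : CX h) := by
  classical
  rw [IsLC, IsLocallyConstant.iff_exists_open]
  intro x
  by_cases hx : x ∈ U
  · exact ⟨U, hU.isOpen, hx, fun y hy => by rw [chi_of_mem hU hx, chi_of_mem hU hy]⟩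
  · exact ⟨Uᶜ, hU.compl.isOpen, hx, fun y hy => by
      rw [chi_of_notMem hU hx, chi_of_notMem hU hy]⟩

end LC

section transpose

open MulOpposite

/-- `f ↦ f u⁰`, into the opposite algebra. -/
def trF (h : X ≃ₜ X) : CX h →ₐ[ℂ] (Cc h)ᵐᵒᵖ where
  toFun f := op (fu f 0)
  map_one' := rfl
  map_mul' f g := by
    rw [← op_mul, fu_mul_fu, alphaPow_zero, add_zero, mul_comm]
  map_zero' := by rw [fu_zero]; rfl
  map_add' f g := by rw [fu_add]; rfl
  commutes' c := rfl

/-- `n ↦ u⁻ⁿ`, into the opposite algebra. -/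
def trU (h : X ≃ₜ X) : Multiplicative ℤ →* (Cc h)ᵐᵒᵖ where
  toFun n := op (fu 1 (-(toAdd n)))
  map_one' := rfl
  map_mul' m n := by
    rw [← op_mul, fu_mul_fu, alphaPow_one, one_mul, toAdd_mul]
    congr 2
    ring

/-- The transposition, as an algebra homomorphism to the opposite algebra. -/
def trHom (h : X ≃ₜ X) : Cc h →ₐ[ℂ] (Cc h)ᵐᵒᵖ :=
  SkewMonoidAlgebra.liftNCAlgHom (trF h) (trU h) (by
    intro f n
    change op (fu (alphaPow (toAdd n) f) 0) * op (fu 1 (-(toAdd n))) =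
      op (fu 1 (-(toAdd n))) * op (fu f 0)
    rw [← op_mul, ← op_mul, fu_mul_fu, fu_mul_fu]
    simp)

/-- The transposition `(f uⁿ)ᵀ = u⁻ⁿ f`. -/
def tr (a : Cc h) : Cc h := unop (trHom h a)

lemma tr_fu (f : CX h) (n : ℤ) : tr (fu f n) = fu (alphaPow (-n) f) (-n) := by
  have h1 : trHom h (fu f n) = trF h f * trU h (ofAdd n) :=
    SkewMonoidAlgebra.liftNC_single _ _ _ _
  have h2 : tr (fu f n) = fu 1 (-n) * fu f 0 := by
    rw [tr, h1]
    rfl
  rw [h2, fu_mul_fu]
  simp

lemma tr_zero : tr (0 : Cc h) = 0 := by rw [tr, map_zero]; rfl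
lemma tr_one : tr (1 : Cc h) = 1 := by rw [tr, map_one]; rfl
lemma tr_add (a b : Cc h) : tr (a + b) = tr a + tr b := by rw [tr, map_add]; rfl
lemma tr_sub (a b : Cc h) : tr (a - b) = tr a - tr b := by rw [tr, map_sub]; rfl
lemma tr_smul (c : ℂ) (a : Cc h) : tr (c • a) = c • tr a := by rw [tr, map_smul]; rfl
lemma tr_mul (a b : Cc h) : tr (a * b) = tr b * tr a := by rw [tr, map_mul]; rfl

lemma tr_tr (a : Cc h) : tr (tr a) = a := by
  induction a using Cc_induction with
  | h0 => rw [tr_zero, tr_zero]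
  | hf f n =>
    rw [tr_fu, tr_fu]
    simp
  | hadd a b ha hb => rw [tr_add, tr_add, ha, hb]

lemma coeff_tr (a : Cc h) (m : Multiplicative ℤ) :
    (tr a).coeff m = alphaPow (toAdd m) (a.coeff m⁻¹) := by
  induction a using Cc_induction with
  | h0 => rw [tr_zero]; rfl
  | hf f n =>
    rw [tr_fu, coeff_fu, coeff_fu, toAdd_inv]
    by_cases hm : toAdd m = -n
    · rw [if_pos hm, if_pos (by omega), hm]
    · rw [if_neg hm, if_neg (by omega)]
      rfl
  | hadd a b ha hb =>
    rw [tr_add, SkewMonoidAlgebra.coeff_add, SkewMonoidAlgebra.coeff_add, Finsupp.add_apply,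
      Finsupp.add_apply, alphaPow_add, ha, hb]

lemma tr_mem_LC {a : Cc h} (ha : a ∈ LC h) : tr a ∈ LC h := by
  intro m
  rw [coeff_tr]
  exact (ha _).alphaPow _

lemma isUnit_tr {a : Cc h} (ha : IsUnit a) : IsUnit (tr a) := by
  obtain ⟨u, rfl⟩ := ha
  refine ⟨⟨tr u.1, tr u.2, ?_, ?_⟩, rfl⟩
  · rw [← tr_mul, ← tr_one, Units.inv_eq_val_inv, Units.inv_mul]
  · rw [← tr_mul, ← tr_one, Units.inv_eq_val_inv, Units.mul_inv]

lemma isUnit_tr_iff {a : Cc h} : IsUnit (tr a) ↔ IsUnit a :=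
  ⟨fun H => by simpa [tr_tr] using isUnit_tr H, isUnit_tr⟩

lemma support_tr (a : Cc h) : (tr a).support = a.support.map (Equiv.inv _).toEmbedding := by
  ext m
  simp only [SkewMonoidAlgebra.mem_support_iff, Finset.mem_map_equiv, coeff_tr, Equiv.inv_symm,
    Equiv.inv_apply, ne_eq, not_iff_not]
  constructor
  · intro h0
    ext x
    have h1 : alphaPow (-(toAdd m)) (alphaPow (toAdd m) (a.coeff m⁻¹)) = 0 := by rw [h0]; rfl
    rw [alphaPow_alphaPow, neg_add_cancel, alphaPow_zero] at h1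
    rw [h1]
  · intro h0
    rw [h0]
    rfl

lemma norm_alphaPow [CompactSpace X] (n : ℤ) (f : CX h) :
    ‖CX.toC (alphaPow n f)‖ = ‖CX.toC f‖ := by
  have key : ∀ (n : ℤ) (f : CX h), ‖CX.toC (alphaPow n f)‖ ≤ ‖CX.toC f‖ := by
    intro n f
    rw [ContinuousMap.norm_le _ (norm_nonneg _)]
    intro x
    exact (CX.toC f).norm_coe_le_norm _
  apply le_antisymm (key n f)
  have h1 := key (-n) (alphaPow n f)
  rwa [alphaPow_alphaPow, neg_add_cancel, alphaPow_zero] at h1

lemma l1_tr [CompactSpace X] (a : Cc h) : l1 (tr a) = l1 a := by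
  unfold l1
  rw [support_tr, Finset.sum_map]
  refine Finset.sum_congr rfl fun m _ => ?_
  rw [coeff_tr, norm_alphaPow]
  simp

end transpose

end Pool.Agent.H25.SR
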