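import Pool.Agent.H25.SrAlg

/-!
# Block diagonal elements are algebraic
-/

open scoped ENNReal Topology
open Multiplicative Filter

noncomputable section

namespace Pool.Agent.H25.SR

variable {X : Type} [TopologicalSpace X] {h : X ≃ₜ X}

section opRep

/-- Multiplication operators on the space of all functions `X → ℂ`. -/
def mulF (h : X ≃ₜ X) : CX h →ₐ[ℂ] Module.End ℂ (X → ℂ) where
  toFun f := LinearMap.mulLeft ℂ (fun x => f x)
  map_one' := by ext φ x; simp
  map_mul' f g := by ext φ x; simp [mul_assoc]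
  map_zero' := by ext φ x; simp
  map_add' f g := by
    apply LinearMap.ext
    intro φ
    ext x
    simp [add_mul]
  commutes' c := by
    apply LinearMap.ext
    intro φ
    ext x
    simp

/-- Translation operators on the space of all functions `X → ℂ`. -/
def trnF (h : X ≃ₜ X) : Multiplicative ℤ →* Module.End ℂ (X → ℂ) where
  toFun n := LinearMap.funLeft ℂ ℂ (fun x => (h ^ (-(toAdd n)) : X ≃ₜ X) x)
  map_one' := by
    apply LinearMap.ext
    intro φ
    ext x
    simp [LinearMap.funLeft_apply]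
  map_mul' m n := by
    apply LinearMap.ext
    intro φ
    ext x
    simp only [Module.End.mul_apply, LinearMap.funLeft_apply]
    rw [← Homeomorph.mul_apply, ← zpow_add, toAdd_mul]
    congr 3
    ring

/-- The representation of `C_c(ℤ, C(X))` on all functions `X → ℂ`:
`(f uⁿ φ)(x) = f(x) φ(h⁻ⁿ x)`. -/
def opRep (h : X ≃ₜ X) : Cc h →ₐ[ℂ] Module.End ℂ (X → ℂ) :=
  SkewMonoidAlgebra.liftNCAlgHom (mulF h) (trnF h) (by
    intro f n
    apply LinearMap.ext
    intro φ
    ext x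
    simp [mulF, trnF, LinearMap.funLeft_apply])

lemma opRep_fu_apply (f : CX h) (n : ℤ) (φ : X → ℂ) (x : X) :
    opRep h (fu f n) φ x = f x * φ ((h ^ (-n) : X ≃ₜ X) x) := by
  have : opRep h (fu f n) = mulF h f * trnF h (ofAdd n) :=
    SkewMonoidAlgebra.liftNC_single _ _ _ _
  rw [this]
  rfl

lemma opRep_apply (a : Cc h) (φ : X → ℂ) (x : X) :
    opRep h a φ x = ∑ n ∈ a.support, a.coeff n x * φ ((h ^ (-(toAdd n)) : X ≃ₜ X) x) := by
  conv_lhs => rw [eq_sum_fu a]
  rw [map_sum, LinearMap.sum_apply, Finset.sum_apply]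
  exact Finset.sum_congr rfl fun n _ => opRep_fu_apply _ _ _ _

/-- `h` has no periodic points. -/
def Aper (h : X ≃ₜ X) : Prop := ∀ (x : X) (n : ℤ), n ≠ 0 → (h ^ n : X ≃ₜ X) x ≠ x

lemma Aper.inj (ha : Aper h) {x : X} {m n : ℤ}
    (H : (h ^ m : X ≃ₜ X) x = (h ^ n : X ≃ₜ X) x) : m = n := by
  by_contra hne
  apply ha ((h ^ n : X ≃ₜ X) x) (m - n) (by omega)
  rw [← Homeomorph.mul_apply, ← zpow_add, sub_add_cancel]
  exact H

lemma opRep_single [DecidableEq X] (ha : Aper h) (a : Cc h) (x : X) (n : ℤ) :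
    opRep h a (Pi.single ((h ^ (-n) : X ≃ₜ X) x) 1) x = a.coeff (ofAdd n) x := by
  rw [opRep_apply, Finset.sum_eq_single (ofAdd n)]
  · simp
  · intro m _ hm
    rw [Pi.single_eq_of_ne, mul_zero]
    intro h0
    have h1 := ha.inj h0
    apply hm
    have h2 : toAdd m = n := by omega
    rw [← h2, ofAdd_toAdd]
  · intro hn
    rw [SkewMonoidAlgebra.notMem_support_iff] at hn
    rw [hn]
    simp

lemma opRep_injective (ha : Aper h) {a : Cc h} (H : opRep h a = 0) : a = 0 := by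
  classical
  apply SkewMonoidAlgebra.ext
  intro n
  ext x
  have := opRep_single ha a x (toAdd n)
  rw [H] at this
  simpa using this.symm

end opRep

section block

/-- `T` is block diagonal with respect to the partition into the fibres of `β`. -/
def IsBlk (β : X → X) (T : Module.End ℂ (X → ℂ)) : Prop :=
  ∀ (x : X) (φ : X → ℂ), (∀ y, β y = β x → φ y = 0) → T φ x = 0

variable {β : X → X}

omit [TopologicalSpace X] in
lemma IsBlk.mul {S T : Module.End ℂ (X → ℂ)} (hS : IsBlk β S) (hT : IsBlk β T) :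
    IsBlk β (S * T) := by
  intro x φ hφ
  rw [Module.End.mul_apply]
  exact hS x _ fun y hy => hT y φ fun z hz => hφ z (hz.trans hy)

omit [TopologicalSpace X] in
lemma IsBlk.add {S T : Module.End ℂ (X → ℂ)} (hS : IsBlk β S) (hT : IsBlk β T) :
    IsBlk β (S + T) := by
  intro x φ hφ
  rw [LinearMap.add_apply, Pi.add_apply, hS x φ hφ, hT x φ hφ, add_zero]

omit [TopologicalSpace X] in
lemma IsBlk.sub {S T : Module.End ℂ (X → ℂ)} (hS : IsBlk β S) (hT : IsBlk β T) :
    IsBlk β (S - T) := by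
  intro x φ hφ
  rw [LinearMap.sub_apply, Pi.sub_apply, hS x φ hφ, hT x φ hφ, sub_zero]

omit [TopologicalSpace X] in
lemma IsBlk.zero : IsBlk β (0 : Module.End ℂ (X → ℂ)) := fun _ _ _ => rfl

omit [TopologicalSpace X] in
lemma IsBlk.one : IsBlk β (1 : Module.End ℂ (X → ℂ)) := fun x _ hφ => hφ x rfl

omit [TopologicalSpace X] in
lemma IsBlk.sum {ι : Type*} (s : Finset ι) {T : ι → Module.End ℂ (X → ℂ)}
    (hT : ∀ i ∈ s, IsBlk β (T i)) : IsBlk β (∑ i ∈ s, T i) := by
  classical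
  induction s using Finset.induction_on with
  | empty => simpa using IsBlk.zero
  | insert i s hi ih =>
    rw [Finset.sum_insert hi]
    exact (hT i (Finset.mem_insert_self _ _)).add
      (ih fun j hj => hT j (Finset.mem_insert_of_mem hj))

lemma isBlk_fu (f : CX h) (n : ℤ) (H : ∀ x, f x ≠ 0 → β ((h ^ (-n) : X ≃ₜ X) x) = β x) :
    IsBlk β (opRep h (fu f n)) := by
  intro x φ hφ
  rw [opRep_fu_apply]
  by_cases hx : f x = 0
  · rw [hx, zero_mul]
  · rw [hφ _ (H x hx), mul_zero]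

end block

section tau

variable {B : Set X}

/-- The first time `n ≥ 0` with `h⁻ⁿ x ∈ B`. -/
def tau (hB : ∀ x, ∃ n : ℕ, (h ^ (-(n : ℤ)) : X ≃ₜ X) x ∈ B) (x : X) : ℕ :=
  by classical exact Nat.find (hB x)

/-- The base point of the block of `x`. -/
def bet (hB : ∀ x, ∃ n : ℕ, (h ^ (-(n : ℤ)) : X ≃ₜ X) x ∈ B) (x : X) : X :=
  (h ^ (-(tau hB x : ℤ)) : X ≃ₜ X) x

variable {hB : ∀ x, ∃ n : ℕ, (h ^ (-(n : ℤ)) : X ≃ₜ X) x ∈ B}

lemma bet_mem (x : X) : bet hB x ∈ B := by
  classical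
  exact Nat.find_spec (hB x)

lemma tau_min {x : X} {m : ℕ} (hm : m < tau hB x) : (h ^ (-(m : ℤ)) : X ≃ₜ X) x ∉ B := by
  classical
  exact Nat.find_min (hB x) hm

lemma tau_eq {x : X} {n : ℕ} (h1 : (h ^ (-(n : ℤ)) : X ≃ₜ X) x ∈ B)
    (h2 : ∀ m < n, (h ^ (-(m : ℤ)) : X ≃ₜ X) x ∉ B) : tau hB x = n := by
  classical
  exact (Nat.find_eq_iff (hB x)).mpr ⟨h1, h2⟩

lemma tau_of_mem {x : X} (hx : x ∈ B) : tau hB x = 0 := tau_eq (by simpa using hx) (by simp)

lemma bet_of_mem {x : X} (hx : x ∈ B) : bet hB x = x := by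
  rw [bet, tau_of_mem hx]
  simp

lemma eq_bet (x : X) : x = (h ^ (tau hB x : ℤ) : X ≃ₜ X) (bet hB x) := by
  rw [bet, ← Homeomorph.mul_apply, ← zpow_add]
  simp

lemma tau_iter {y : X} {n : ℕ} (H : ∀ i : ℕ, 1 ≤ i → i ≤ n → (h ^ (i : ℤ) : X ≃ₜ X) y ∉ B) :
    tau hB ((h ^ (n : ℤ) : X ≃ₜ X) y) = tau hB y + n := by
  apply tau_eq
  · rw [← Homeomorph.mul_apply, ← zpow_add]
    have : (-((tau hB y + n : ℕ) : ℤ) + (n : ℤ)) = -(tau hB y : ℤ) := by push_cast; ring
    rw [this]
    exact bet_mem y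
  · intro m hm
    rw [← Homeomorph.mul_apply, ← zpow_add]
    rcases lt_or_ge m n with hmn | hmn
    · have h1 := H (n - m) (by omega) (by omega)
      have : (-(m : ℤ) + (n : ℤ)) = ((n - m : ℕ) : ℤ) := by omega
      rwa [this]
    · have h1 := tau_min (hB := hB) (x := y) (m := m - n) (by omega)
      have : (-(m : ℤ) + (n : ℤ)) = -((m - n : ℕ) : ℤ) := by omega
      rwa [this]

lemma bet_iter {y : X} {n : ℕ} (H : ∀ i : ℕ, 1 ≤ i → i ≤ n → (h ^ (i : ℤ) : X ≃ₜ X) y ∉ B) :
    bet hB ((h ^ (n : ℤ) : X ≃ₜ X) y) = bet hB y := by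
  rw [bet, tau_iter H, ← Homeomorph.mul_apply, ← zpow_add, bet]
  congr 2
  push_cast
  ring

lemma eventually_mem_iff {U : Set X} (hU : IsClopen U) (x : X) : ∀ᶠ y in 𝓝 x, (y ∈ U ↔ x ∈ U) := by
  by_cases hx : x ∈ U
  · filter_upwards [hU.isOpen.mem_nhds hx] with y hy
    simp [hx, hy]
  · filter_upwards [hU.compl.isOpen.mem_nhds hx] with y hy
    simp only [hx, iff_false]
    exact hy

lemma isLocallyConstant_tau (hBc : IsClopen B) : IsLocallyConstant (tau hB) := by
  rw [IsLocallyConstant.iff_eventually_eq]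
  intro x
  have h1 : ∀ᶠ y in 𝓝 x, ∀ m : Fin (tau hB x + 1),
      ((h ^ (-(m.val : ℤ)) : X ≃ₜ X) y ∈ B ↔ (h ^ (-(m.val : ℤ)) : X ≃ₜ X) x ∈ B) := by
    rw [Filter.eventually_all]
    intro m
    exact ((h ^ (-(m.val : ℤ)) : X ≃ₜ X).continuous.tendsto x).eventually
      (eventually_mem_iff hBc _)
  filter_upwards [h1] with y hy
  apply tau_eq
  · exact (hy ⟨tau hB x, by omega⟩).mpr (bet_mem x)
  · intro m hm
    have := hy ⟨m, by omega⟩
    simp only at this
    rw [this]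
    exact tau_min hm

end tau

section algebraic

open Classical in
/-- The matrix of `l` on the block of `s`. -/
def blkMat {B : Set X} (hB : ∀ x, ∃ n : ℕ, (h ^ (-(n : ℤ)) : X ≃ₜ X) x ∈ B) (l : Cc h) (W : ℕ)
    (s : X) : Matrix (Fin W) (Fin W) ℂ :=
  Matrix.of fun i j =>
    if tau hB ((h ^ (i.val : ℤ) : X ≃ₜ X) s) = i.val ∧
        tau hB ((h ^ (j.val : ℤ) : X ≃ₜ X) s) = j.val then
      l.coeff (ofAdd ((i.val : ℤ) - j.val)) ((h ^ (i.val : ℤ) : X ≃ₜ X) s) else 0

open Classical in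
/-- Restriction of functions to the block of `s`. -/
def blkRes {B : Set X} (hB : ∀ x, ∃ n : ℕ, (h ^ (-(n : ℤ)) : X ≃ₜ X) x ∈ B) (W : ℕ) (s : X) :
    (X → ℂ) →ₗ[ℂ] (Fin W → ℂ) where
  toFun φ := fun i => if tau hB ((h ^ (i.val : ℤ) : X ≃ₜ X) s) = i.val then
    φ ((h ^ (i.val : ℤ) : X ≃ₜ X) s) else 0
  map_add' φ ψ := by
    ext i
    simp only [Pi.add_apply]
    split_ifs <;> simp
  map_smul' c φ := by
    ext i
    simp only [Pi.smul_apply, RingHom.id_apply]
    split_ifs <;> simp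

variable {B : Set X} {hB : ∀ x, ∃ n : ℕ, (h ^ (-(n : ℤ)) : X ≃ₜ X) x ∈ B}

lemma blkRes_apply (W : ℕ) (s : X) (φ : X → ℂ) (i : Fin W) :
    blkRes hB W s φ i = if tau hB ((h ^ (i.val : ℤ) : X ≃ₜ X) s) = i.val then
      φ ((h ^ (i.val : ℤ) : X ≃ₜ X) s) else 0 := by
  classical
  simp only [blkRes, LinearMap.coe_mk, AddHom.coe_mk]

lemma bet_of_tau {s : X} {i : ℕ}
    (hi : tau hB ((h ^ (i : ℤ) : X ≃ₜ X) s) = i) : bet hB ((h ^ (i : ℤ) : X ≃ₜ X) s) = s := by
  rw [bet, hi, ← Homeomorph.mul_apply, ← zpow_add]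
  simp

lemma blk_intertwine (ha : Aper h) {l : Cc h} (hl : IsBlk (bet hB) (opRep h l)) {W : ℕ}
    (hW : ∀ x, tau hB x < W) {s : X} (φ : X → ℂ) :
    blkRes hB W s (opRep h l φ) = (blkMat hB l W s).mulVec (blkRes hB W s φ) := by
  classical
  ext i
  rw [blkRes_apply]
  by_cases hi : tau hB ((h ^ (i.val : ℤ) : X ≃ₜ X) s) = i.val
  · rw [if_pos hi]
    set x := (h ^ (i.val : ℤ) : X ≃ₜ X) s with hx
    set φ' : X → ℂ := ∑ j : Fin W, if tau hB ((h ^ (j.val : ℤ) : X ≃ₜ X) s) = j.val then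
      φ ((h ^ (j.val : ℤ) : X ≃ₜ X) s) • (Pi.single ((h ^ (j.val : ℤ) : X ≃ₜ X) s) (1 : ℂ)) else 0
      with hφ'
    have h1 : ∀ y, bet hB y = bet hB x → (φ - φ') y = 0 := by
      intro y hy
      have hbx : bet hB x = s := bet_of_tau hi
      rw [hbx] at hy
      have hy2 : y = (h ^ (tau hB y : ℤ) : X ≃ₜ X) s := by
        conv_lhs => rw [eq_bet (hB := hB) y]
        rw [hy]
      rw [Pi.sub_apply, hφ', Finset.sum_apply, Finset.sum_eq_single ⟨tau hB y, hW y⟩]
      · simp only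
        rw [← hy2, if_pos rfl]
        simp
      · intro j _ hj
        split_ifs with hjt
        · rw [Pi.smul_apply, Pi.single_eq_of_ne, smul_zero]
          intro h0
          rw [hy2] at h0
          have := ha.inj h0
          apply hj
          ext
          simp only
          omega
        · rfl
      · intro hcon
        exact absurd (Finset.mem_univ _) hcon
    have h2 := hl x (φ - φ') h1
    rw [map_sub, Pi.sub_apply, sub_eq_zero] at h2
    rw [h2, hφ', map_sum, Finset.sum_apply]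
    simp only [Matrix.mulVec, dotProduct]
    refine Finset.sum_congr rfl fun j _ => ?_
    rw [blkRes_apply]
    by_cases hj : tau hB ((h ^ (j.val : ℤ) : X ≃ₜ X) s) = j.val
    · rw [if_pos hj, if_pos hj, map_smul, Pi.smul_apply]
      have h3 : (h ^ (j.val : ℤ) : X ≃ₜ X) s = (h ^ (-((i.val : ℤ) - j.val)) : X ≃ₜ X) x := by
        rw [hx, ← Homeomorph.mul_apply, ← zpow_add]
        congr 2
        ring
      have h4 := opRep_single ha l x ((i.val : ℤ) - j.val)
      rw [← h3] at h4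
      rw [h4]
      simp only [blkMat, Matrix.of_apply]
      rw [if_pos ⟨hi, hj⟩, smul_eq_mul, mul_comm]
    · rw [if_neg hj, if_neg hj, map_zero, mul_zero]
      rfl
  · rw [if_neg hi]
    simp only [Matrix.mulVec, dotProduct]
    symm
    apply Finset.sum_eq_zero
    intro j _
    simp only [blkMat, Matrix.of_apply]
    rw [if_neg (fun H => hi H.1), zero_mul]

lemma blk_intertwine_poly (ha : Aper h) {l : Cc h} (hl : IsBlk (bet hB) (opRep h l)) {W : ℕ}
    (hW : ∀ x, tau hB x < W) {s : X} (P : Polynomial ℂ) (φ : X → ℂ) :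
    blkRes hB W s (Polynomial.aeval (opRep h l) P φ) =
      (Polynomial.aeval (blkMat hB l W s) P).mulVec (blkRes hB W s φ) := by
  induction P using Polynomial.induction_on' generalizing φ with
  | add P Q hP hQ =>
    rw [map_add, map_add, LinearMap.add_apply, map_add, hP, hQ, Matrix.add_mulVec]
  | monomial n a =>
    rw [Polynomial.aeval_monomial, Polynomial.aeval_monomial, ← Algebra.smul_def,
      ← Algebra.smul_def, LinearMap.smul_apply, map_smul, Matrix.smul_mulVec]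
    congr 1
    induction n generalizing φ with
    | zero => simp
    | succ n ih =>
      rw [pow_succ, pow_succ, Module.End.mul_apply, ih, blk_intertwine ha hl hW,
        Matrix.mulVec_mulVec]

lemma isLocallyConstant_blkMat (hBc : IsClopen B) {l : Cc h} (hl : l ∈ LC h) (W : ℕ) :
    IsLocallyConstant (blkMat hB l W) := by
  classical
  rw [IsLocallyConstant.iff_eventually_eq]
  intro s
  have h1 : ∀ᶠ t in 𝓝 s, ∀ i : Fin W, tau hB ((h ^ (i.val : ℤ) : X ≃ₜ X) t) =
      tau hB ((h ^ (i.val : ℤ) : X ≃ₜ X) s) := by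
    rw [Filter.eventually_all]
    intro i
    exact ((h ^ (i.val : ℤ) : X ≃ₜ X).continuous.tendsto s).eventually
      ((IsLocallyConstant.iff_eventually_eq _).mp (isLocallyConstant_tau hBc) _)
  have h2 : ∀ᶠ t in 𝓝 s, ∀ i j : Fin W,
      l.coeff (ofAdd ((i.val : ℤ) - j.val)) ((h ^ (i.val : ℤ) : X ≃ₜ X) t) =
      l.coeff (ofAdd ((i.val : ℤ) - j.val)) ((h ^ (i.val : ℤ) : X ≃ₜ X) s) := by
    rw [Filter.eventually_all]
    intro i
    rw [Filter.eventually_all]
    intro j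
    exact ((h ^ (i.val : ℤ) : X ≃ₜ X).continuous.tendsto s).eventually
      ((IsLocallyConstant.iff_eventually_eq _).mp (hl _) _)
  filter_upwards [h1, h2] with t h1 h2
  ext i j
  simp only [blkMat, Matrix.of_apply]
  rw [h1 i, h1 j, h2 i j]

/-- A block diagonal element with locally constant coefficients is algebraic. -/
theorem blk_algebraic [CompactSpace X] (ha : Aper h) (hBc : IsClopen B) {l : Cc h}
    (hl : l ∈ LC h) (hblk : IsBlk (bet hB) (opRep h l)) :
    ∃ P : Polynomial ℂ, P ≠ 0 ∧ Polynomial.aeval l P = 0 := by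
  classical
  obtain ⟨W, hW⟩ : ∃ W : ℕ, ∀ x, tau hB x < W := by
    have hfin := (isLocallyConstant_tau (hB := hB) hBc).range_finite
    obtain ⟨M, hM⟩ := hfin.bddAbove
    exact ⟨M + 1, fun x => Nat.lt_succ_of_le (hM ⟨x, rfl⟩)⟩
  have hfin := (isLocallyConstant_blkMat (hB := hB) hBc hl W).range_finite
  refine ⟨∏ A ∈ hfin.toFinset, A.charpoly, ?_, ?_⟩
  · rw [Finset.prod_ne_zero_iff]
    intro A _
    exact A.charpoly_monic.ne_zero
  · apply opRep_injective ha
    rw [← Polynomial.aeval_algHom_apply]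
    apply LinearMap.ext
    intro φ
    ext x
    have h1 := blk_intertwine_poly ha hblk hW (s := bet hB x) (∏ A ∈ hfin.toFinset, A.charpoly) φ
    have h2 : Polynomial.aeval (blkMat hB l W (bet hB x)) (∏ A ∈ hfin.toFinset, A.charpoly) = 0 := by
      have hmem : blkMat hB l W (bet hB x) ∈ hfin.toFinset := by
        rw [Set.Finite.mem_toFinset]
        exact ⟨_, rfl⟩
      rw [← Finset.mul_prod_erase _ _ hmem, map_mul, Matrix.aeval_self_charpoly, zero_mul]
    rw [h2, Matrix.zero_mulVec] at h1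
    have h3 := congrFun h1 ⟨tau hB x, hW x⟩
    rw [blkRes_apply] at h3
    simp only [← eq_bet (hB := hB) x] at h3
    simpa using h3

end algebraic

end Pool.Agent.H25.SR
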