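import Mathlib

/-!
# Reduced `L^p` crossed products of a homeomorphism of a compact space

Definitions: the algebra of finite sums `∑ aₙ uⁿ`, the regular representations attached to
contractive unital representations of `C(X)` on `L^p`-spaces, and the reduced `L^p` crossed product.
-/

open scoped ENNReal
open MeasureTheory Multiplicative

noncomputable section

namespace Pool.Agent.H25.SR

variable {X : Type} [TopologicalSpace X]

/-- `C(X)` (complex valued), remembering the homeomorphism `h`. -/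
def CX (_h : X ≃ₜ X) : Type := C(X, ℂ)

variable {h : X ≃ₜ X}

instance : CommRing (CX h) := inferInstanceAs (CommRing C(X, ℂ))

instance : Algebra ℂ (CX h) := inferInstanceAs (Algebra ℂ C(X, ℂ))

instance : FunLike (CX h) X ℂ := inferInstanceAs (FunLike C(X, ℂ) X ℂ)

@[ext] lemma CX.ext {f g : CX h} (H : ∀ x, f x = g x) : f = g := DFunLike.ext _ _ H

/-- The identification of `CX h` with `C(X, ℂ)`. -/
def CX.toC : CX h ≃ₐ[ℂ] C(X, ℂ) := AlgEquiv.refl

@[simp] lemma CX.toC_apply (f : CX h) (x : X) : CX.toC f x = f x := rfl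
@[simp] lemma CX.toC_symm_apply (f : C(X, ℂ)) (x : X) : (CX.toC.symm f : CX h) x = f x := rfl

/-- `αⁿ(f) = f ∘ h⁻ⁿ`. -/
def alphaPow (n : ℤ) (f : CX h) : CX h :=
  CX.toC.symm ((CX.toC f).comp
    ⟨fun x => (h ^ (-n) : X ≃ₜ X) x, (h ^ (-n) : X ≃ₜ X).continuous⟩)

@[simp] lemma alphaPow_apply (n : ℤ) (f : CX h) (x : X) :
    alphaPow n f x = f ((h ^ (-n) : X ≃ₜ X) x) := rfl

@[simp] lemma CX.zero_apply (x : X) : (0 : CX h) x = 0 := rfl
@[simp] lemma CX.one_apply (x : X) : (1 : CX h) x = 1 := rfl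
@[simp] lemma CX.add_apply (f g : CX h) (x : X) : (f + g) x = f x + g x := rfl
@[simp] lemma CX.sub_apply (f g : CX h) (x : X) : (f - g) x = f x - g x := rfl
@[simp] lemma CX.neg_apply (f : CX h) (x : X) : (-f) x = -f x := rfl
@[simp] lemma CX.mul_apply (f g : CX h) (x : X) : (f * g) x = f x * g x := rfl
@[simp] lemma CX.smul_apply (c : ℂ) (f : CX h) (x : X) : (c • f) x = c * f x := rfl
@[simp] lemma CX.algebraMap_apply (c : ℂ) (x : X) : (algebraMap ℂ (CX h) c) x = c := rfl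

/-- The action of `ℤ` on `C(X)` by the powers of `α`. -/
instance : MulSemiringAction (Multiplicative ℤ) (CX h) where
  smul n f := alphaPow (toAdd n) f
  one_smul f := by
    ext x
    change f _ = f x
    simp
  mul_smul m n f := by
    ext x
    change f ((h ^ (-(toAdd (m * n)))) x) = f ((h ^ (-(toAdd n))) ((h ^ (-(toAdd m))) x))
    congr 1
    rw [← Homeomorph.mul_apply, ← zpow_add, toAdd_mul]
    congr 2
    ring
  smul_zero n := rfl
  smul_add n f g := rfl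
  smul_one n := rfl
  smul_mul n f g := rfl

@[simp] lemma act_apply (n : Multiplicative ℤ) (f : CX h) (x : X) :
    (n • f) x = f ((h ^ (-(toAdd n)) : X ≃ₜ X) x) := rfl

instance : SMulCommClass (Multiplicative ℤ) ℂ (CX h) where
  smul_comm _ _ _ := rfl

/-- The algebra `C_c(ℤ, C(X))` of finite sums `∑ aₙ uⁿ`, with
`(a uᵐ)(b uⁿ) = a αᵐ(b) uᵐ⁺ⁿ`. -/
abbrev Cc (h : X ≃ₜ X) : Type := SkewMonoidAlgebra (CX h) (Multiplicative ℤ)

example : Ring (Cc h) := inferInstance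
example : Algebra ℂ (Cc h) := inferInstance

/-- The element `f uⁿ`. -/
def fu (f : CX h) (n : ℤ) : Cc h := SkewMonoidAlgebra.single (ofAdd n) f

lemma fu_mul_fu (f g : CX h) (m n : ℤ) : fu f m * fu g n = fu (f * alphaPow m g) (m + n) := by
  simp only [fu, SkewMonoidAlgebra.single_mul_single]
  rfl


section ops

variable {E : Type} [NormedAddCommGroup E] [NormedSpace ℂ E] {p : ℝ≥0∞} [Fact (1 ≤ p)]

lemma p_ne_zero : p ≠ 0 := (zero_lt_one.trans_le (Fact.out : 1 ≤ p)).ne'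

/-- The sequence space `ℓ^p(ℤ, E)`. -/
abbrev LZ (p : ℝ≥0∞) (E : Type) [NormedAddCommGroup E] : Type := lp (fun _ : ℤ => E) p

/-- The diagonal operator `(D ξ)(n) = dₙ (ξ(n))` on `ℓ^p(ℤ, E)`. -/
def diagOp (d : ℤ → E →L[ℂ] E) (C : ℝ) (hd : ∀ n, ‖d n‖ ≤ C) : LZ p E →L[ℂ] LZ p E :=
  LinearMap.mkContinuous
    { toFun := fun ξ => ⟨fun n => d n (ξ n), by
        refine (((lp.memℓp ξ).norm).const_smul C).mono (fun n => ?_)
        simp only [Pi.smul_apply, smul_eq_mul]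
        exact ((d n).le_opNorm _).trans (by gcongr; exact hd n)⟩
      map_add' := fun ξ η => by
        ext n; simp
      map_smul' := fun c ξ => by
        ext n; simp } C (by
    intro ξ
    have h0 : 0 ≤ C := (norm_nonneg _).trans (hd 0)
    calc _ ≤ ‖C • lp.toNorm ξ‖ := by
          apply lp.norm_mono p_ne_zero
          intro n
          simp only [lp.coeFn_smul, Pi.smul_apply, smul_eq_mul, lp.toNorm_coe, norm_mul,
            Real.norm_eq_abs, abs_of_nonneg h0, abs_norm]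
          exact ((d n).le_opNorm _).trans (by gcongr; exact hd n)
      _ = C * ‖ξ‖ := by
          rw [norm_smul, lp.norm_toNorm, Real.norm_eq_abs, abs_of_nonneg h0])

lemma norm_diagOp_le (d : ℤ → E →L[ℂ] E) (C : ℝ) (hd : ∀ n, ‖d n‖ ≤ C) :
    ‖(diagOp d C hd : LZ p E →L[ℂ] LZ p E)‖ ≤ C :=
  LinearMap.mkContinuous_norm_le _ ((norm_nonneg _).trans (hd 0)) _

@[simp] lemma diagOp_apply (d : ℤ → E →L[ℂ] E) (C : ℝ) (hd : ∀ n, ‖d n‖ ≤ C) (ξ : LZ p E)
    (n : ℤ) : diagOp d C hd ξ n = d n (ξ n) := rfl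

omit [NormedSpace ℂ E] in
lemma memℓp_shift {ξ : ℤ → E} (k : ℤ) (hξ : Memℓp (E := fun _ : ℤ => E) ξ p) :
    Memℓp (E := fun _ : ℤ => E) (fun n => ξ (n - k)) p := by
  obtain (hp | hp | hp) := p.trichotomy
  · exact absurd hp p_ne_zero
  · subst hp
    rw [memℓp_infty_iff] at hξ ⊢
    refine hξ.mono ?_
    rintro _ ⟨n, rfl⟩
    exact ⟨n - k, rfl⟩
  · rw [memℓp_gen_iff hp] at hξ ⊢
    exact (Equiv.subRight k).summable_iff.mpr hξ

/-- Translations of `ℓ^p(ℤ, E)`: `(vᵏ ξ)(n) = ξ(n - k)`. -/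
def shiftOp (k : ℤ) : LZ p E →L[ℂ] LZ p E :=
  LinearMap.mkContinuous
    { toFun := fun ξ => ⟨fun n => ξ (n - k), memℓp_shift k (lp.memℓp ξ)⟩
      map_add' := fun ξ η => by
        ext n; simp
      map_smul' := fun c ξ => by
        ext n; simp } 1 (by
    intro ξ
    rw [one_mul]
    obtain (hp | hp | hp) := p.trichotomy
    · exact absurd hp p_ne_zero
    · subst hp
      exact lp.norm_le_of_forall_le (norm_nonneg _) fun n =>
        lp.norm_apply_le_norm (by simp) ξ (n - k)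
    · refine lp.norm_le_of_tsum_le hp (norm_nonneg _) ?_
      rw [lp.norm_rpow_eq_tsum hp ξ]
      exact ((Equiv.subRight k).tsum_eq (fun n => ‖ξ n‖ ^ p.toReal)).le)

@[simp] lemma shiftOp_apply (k : ℤ) (ξ : LZ p E) (n : ℤ) : shiftOp k ξ n = ξ (n - k) := rfl

/-- The representation `k ↦ vᵏ` of `ℤ` on `ℓ^p(ℤ, E)`. -/
def shiftHom (p : ℝ≥0∞) [Fact (1 ≤ p)] (E : Type) [NormedAddCommGroup E] [NormedSpace ℂ E] :
    Multiplicative ℤ →* (LZ p E →L[ℂ] LZ p E) where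
  toFun k := shiftOp (toAdd k)
  map_one' := by
    ext ξ n; simp
  map_mul' k l := by
    ext ξ n
    simp only [shiftOp_apply, toAdd_mul, mul_apply_eq_comp, sub_sub]

omit [Fact (1 ≤ p)] in
lemma norm_pi_aux [CompactSpace X] (π₀ : C(X, ℂ) →ₐ[ℂ] (E →L[ℂ] E))
    (hc : ∀ f, ‖π₀ f‖ ≤ ‖f‖) (f : CX h) (n : ℤ) :
    ‖π₀ (CX.toC (alphaPow n f))‖ ≤ ‖CX.toC f‖ := by
  refine (hc _).trans ?_
  rw [ContinuousMap.norm_le _ (norm_nonneg _)]
  intro x
  exact (CX.toC f).norm_coe_le_norm _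

/-- The representation `(π(f) ξ)(n) = π₀(α⁻ⁿ(f)) ξ(n)` of `C(X)` on `ℓ^p(ℤ, E)` attached to a
contractive unital representation `π₀` of `C(X)` on `E`. -/
def piHom [CompactSpace X] (h : X ≃ₜ X) (π₀ : C(X, ℂ) →ₐ[ℂ] (E →L[ℂ] E))
    (hc : ∀ f, ‖π₀ f‖ ≤ ‖f‖) :
    CX h →ₐ[ℂ] (LZ p E →L[ℂ] LZ p E) where
  toFun f := diagOp (fun n => π₀ (CX.toC (alphaPow (-n) f))) ‖CX.toC f‖
    (fun n => norm_pi_aux π₀ hc f (-n))
  map_one' := by
    ext ξ n
    simp only [diagOp_apply, one_apply_eq_self]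
    have : CX.toC (alphaPow (-n) (1 : CX h)) = 1 := rfl
    rw [this, map_one]
    rfl
  map_mul' f g := by
    ext ξ n
    simp only [diagOp_apply, mul_apply_eq_comp]
    have : CX.toC (alphaPow (-n) (f * g)) =
      CX.toC (alphaPow (-n) f) * CX.toC (alphaPow (-n) g) := rfl
    rw [this, map_mul]
    rfl
  map_zero' := by
    ext ξ n
    simp only [diagOp_apply]
    have : CX.toC (alphaPow (-n) (0 : CX h)) = 0 := rfl
    rw [this, map_zero]
    rfl
  map_add' f g := by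
    ext ξ n
    simp only [diagOp_apply]
    have : CX.toC (alphaPow (-n) (f + g)) =
      CX.toC (alphaPow (-n) f) + CX.toC (alphaPow (-n) g) := rfl
    rw [this, map_add]
    rfl
  commutes' c := by
    ext ξ n
    simp only [diagOp_apply]
    have : CX.toC (alphaPow (-n) (algebraMap ℂ (CX h) c)) = algebraMap ℂ C(X, ℂ) c := rfl
    rw [this, AlgHom.commutes]
    rfl

lemma piHom_apply [CompactSpace X] (π₀ : C(X, ℂ) →ₐ[ℂ] (E →L[ℂ] E))
    (hc : ∀ f, ‖π₀ f‖ ≤ ‖f‖) (f : CX h) (ξ : LZ p E) (n : ℤ) :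
    piHom h π₀ hc f ξ n = π₀ (CX.toC (alphaPow (-n) f)) (ξ n) := rfl

/-- The regular representation of `C_c(ℤ, C(X))` on `ℓ^p(ℤ, E)` attached to `π₀`; it sends
`∑ aₙ uⁿ` to `∑ π(aₙ) vⁿ`. -/
def regRep [CompactSpace X] (h : X ≃ₜ X) (p : ℝ≥0∞) [Fact (1 ≤ p)]
    (π₀ : C(X, ℂ) →ₐ[ℂ] (E →L[ℂ] E)) (hc : ∀ f, ‖π₀ f‖ ≤ ‖f‖) :
    Cc h →ₐ[ℂ] (LZ p E →L[ℂ] LZ p E) :=
  SkewMonoidAlgebra.liftNCAlgHom (piHom h π₀ hc) (shiftHom p E) (by
    intro f k
    ext ξ n
    simp only [mul_apply_eq_comp, piHom_apply, shiftHom, MonoidHom.coe_mk,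
      OneHom.coe_mk, shiftOp_apply]
    congr 2
    ext x
    simp only [CX.toC_apply, alphaPow_apply, act_apply, ← Homeomorph.mul_apply, ← zpow_add]
    ring_nf)

lemma norm_piHom_le [CompactSpace X] (π₀ : C(X, ℂ) →ₐ[ℂ] (E →L[ℂ] E))
    (hc : ∀ f, ‖π₀ f‖ ≤ ‖f‖) (f : CX h) :
    ‖(piHom h π₀ hc f : LZ p E →L[ℂ] LZ p E)‖ ≤ ‖CX.toC f‖ :=
  norm_diagOp_le _ _ (fun n => norm_pi_aux π₀ hc f (-n))

lemma norm_shiftOp_le (k : ℤ) : ‖(shiftOp k : LZ p E →L[ℂ] LZ p E)‖ ≤ 1 :=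
  LinearMap.mkContinuous_norm_le _ zero_le_one _

lemma regRep_eq_sum [CompactSpace X] (π₀ : C(X, ℂ) →ₐ[ℂ] (E →L[ℂ] E))
    (hc : ∀ f, ‖π₀ f‖ ≤ ‖f‖) (a : Cc h) :
    regRep h p π₀ hc a = ∑ n ∈ a.support,
      piHom h π₀ hc (a.coeff n) * (shiftOp (toAdd n) : LZ p E →L[ℂ] LZ p E) := by
  conv_lhs => rw [← SkewMonoidAlgebra.sum_single a, SkewMonoidAlgebra.sum_def', map_sum]
  refine Finset.sum_congr rfl (fun n _ => ?_)
  exact SkewMonoidAlgebra.liftNC_single _ _ _ _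

lemma regRep_apply [CompactSpace X] (π₀ : C(X, ℂ) →ₐ[ℂ] (E →L[ℂ] E))
    (hc : ∀ f, ‖π₀ f‖ ≤ ‖f‖) (a : Cc h) (ξ : LZ p E) (i : ℤ) :
    regRep h p π₀ hc a ξ i = ∑ n ∈ a.support,
      π₀ (CX.toC (alphaPow (-i) (a.coeff n))) (ξ (i - toAdd n)) := by
  rw [regRep_eq_sum]
  simp only [FunLike.coe_sum, Finset.sum_apply, lp.coeFn_sum]
  rfl

/-- The `ℓ¹`-norm `∑ ‖aₙ‖_∞` of `∑ aₙ uⁿ`. -/
def l1 [CompactSpace X] (a : Cc h) : ℝ := ∑ n ∈ a.support, ‖CX.toC (a.coeff n)‖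

lemma norm_regRep_le [CompactSpace X] (π₀ : C(X, ℂ) →ₐ[ℂ] (E →L[ℂ] E))
    (hc : ∀ f, ‖π₀ f‖ ≤ ‖f‖) (a : Cc h) : ‖regRep h p π₀ hc a‖ ≤ l1 a := by
  rw [regRep_eq_sum]
  refine (norm_sum_le _ _).trans (Finset.sum_le_sum fun n _ => ?_)
  refine (norm_mul_le _ _).trans ?_
  calc _ ≤ ‖CX.toC (a.coeff n)‖ * 1 := by
        gcongr
        · exact norm_piHom_le _ _ _
        · exact norm_shiftOp_le _
    _ = _ := mul_one _

end ops

/-- A contractive unital representation of `C(X)` on a complex normed space `E`. -/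
structure ContrRep (X : Type) [TopologicalSpace X] [CompactSpace X] (E : Type)
    [NormedAddCommGroup E] [NormedSpace ℂ E] where
  /-- the representation -/
  π₀ : C(X, ℂ) →ₐ[ℂ] (E →L[ℂ] E)
  /-- the representation is contractive -/
  contractive : ∀ f, ‖π₀ f‖ ≤ ‖f‖

/-- The regular representation attached to `π₀`: the finite sum `a = ∑ aₘ uᵐ` acts on a function
`ξ : ℤ → E` by `(a ξ)(n) = ∑ₘ π₀(α⁻ⁿ(aₘ)) ξ(n - m)`. -/
def ContrRep.reg [CompactSpace X] {E : Type} [NormedAddCommGroup E] [NormedSpace ℂ E]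
    (ρ : ContrRep X E) (a : Cc h) (ξ : ℤ → E) (n : ℤ) : E :=
  ∑ m ∈ a.support, ρ.π₀ (CX.toC (alphaPow (-n) (a.coeff m))) (ξ (n - toAdd m))

/-- The set of all norms `‖a ξ‖`, where `ξ` is in the unit ball of `ℓ^p(ℤ, E)` and `a` acts by the
regular representation attached to `ρ`. Its supremum is the norm of that operator. -/
def ContrRep.normSet [CompactSpace X] {E : Type} [NormedAddCommGroup E] [NormedSpace ℂ E]
    (ρ : ContrRep X E) (p : ℝ≥0∞) [Fact (1 ≤ p)] (a : Cc h) : Set ℝ :=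
  {t | ∃ ξ η : lp (fun _ : ℤ => E) p, ‖ξ‖ ≤ 1 ∧ (∀ n, η n = ρ.reg a ξ n) ∧ ‖η‖ = t}

/-- The norm of `a ∈ C_c(ℤ, C(X))` in the reduced `L^p` crossed product: the supremum of the norms
`‖a ξ‖`, where `ξ` is in the unit ball of `ℓ^p(ℤ, L^p(Y, μ))` and `a` acts by the regular
representation attached to a contractive unital representation of `C(X)` on `L^p(Y, μ)`, for a
`σ`-finite measure space `(Y, μ)`. -/
def redNorm [CompactSpace X] (p : ℝ≥0∞) [Fact (1 ≤ p)] (a : Cc h) : ℝ :=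
  sSup {t | ∃ (Y : Type) (_ : MeasurableSpace Y) (μ : Measure Y) (_ : SigmaFinite μ)
    (ρ : ContrRep X (Lp ℂ p μ)), t ∈ ρ.normSet p a}

/-- A `σ`-finite measure space `(Y, μ)` together with a contractive nondegenerate (that is, since
`C(X)` is unital, unital) representation of `C(X)` on `L^p(Y, μ)`. -/
structure LpRep (X : Type) [TopologicalSpace X] [CompactSpace X] (p : ℝ≥0∞) [Fact (1 ≤ p)] :
    Type 1 where
  /-- the underlying set of the measure space -/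
  Y : Type
  /-- its `σ`-algebra -/
  mY : MeasurableSpace Y
  /-- the measure -/
  μ : Measure Y
  /-- the measure is `σ`-finite -/
  sigmaFinite : SigmaFinite μ
  /-- the representation -/
  π₀ : C(X, ℂ) →ₐ[ℂ] (Lp ℂ p μ →L[ℂ] Lp ℂ p μ)
  /-- the representation is contractive -/
  contractive : ∀ f, ‖π₀ f‖ ≤ ‖f‖

section norm

variable [CompactSpace X] {p : ℝ≥0∞} [Fact (1 ≤ p)]

lemma bddAbove_redNorm (a : Cc h) :
    BddAbove (Set.range fun ρ : LpRep X p => ‖regRep h p ρ.π₀ ρ.contractive a‖) :=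
  ⟨l1 a, by rintro _ ⟨ρ, rfl⟩; exact norm_regRep_le _ _ _⟩

lemma mem_normSet_le {E : Type} [NormedAddCommGroup E] [NormedSpace ℂ E] (ρ : ContrRep X E)
    {a : Cc h} {t : ℝ} (ht : t ∈ ρ.normSet p a) : t ≤ ‖regRep h p ρ.π₀ ρ.contractive a‖ := by
  obtain ⟨ξ, η, hξ, hη, rfl⟩ := ht
  have h1 : η = regRep h p ρ.π₀ ρ.contractive a ξ := by
    ext n
    rw [hη n, regRep_apply]
    rfl
  rw [h1]
  refine (ContinuousLinearMap.le_opNorm _ _).trans ?_
  exact mul_le_of_le_one_right (norm_nonneg _) hξ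

lemma redNorm_nonneg (a : Cc h) : 0 ≤ redNorm p a := by
  apply Real.sSup_nonneg
  rintro t ⟨Y, _, μ, _, ρ, ξ, η, -, -, rfl⟩
  exact norm_nonneg _

lemma redNorm_le {a : Cc h} {C : ℝ} (hC : 0 ≤ C)
    (H : ∀ ρ : LpRep X p, ‖regRep h p ρ.π₀ ρ.contractive a‖ ≤ C) : redNorm p a ≤ C := by
  refine Real.sSup_le ?_ hC
  rintro t ⟨Y, mY, μ, hμ, ρ, ht⟩
  exact (mem_normSet_le ρ ht).trans (H ⟨Y, mY, μ, hμ, ρ.π₀, ρ.contractive⟩)

lemma bddAbove_set (a : Cc h) :
    BddAbove {t : ℝ | ∃ (Y : Type) (_ : MeasurableSpace Y) (μ : Measure Y) (_ : SigmaFinite μ)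
      (ρ : ContrRep X (Lp ℂ p μ)), t ∈ ρ.normSet p a} := by
  refine ⟨l1 a, ?_⟩
  rintro t ⟨Y, mY, μ, hμ, ρ, ht⟩
  exact (mem_normSet_le ρ ht).trans (norm_regRep_le _ _ _)

lemma le_redNorm (ρ : LpRep X p) (a : Cc h) :
    ‖regRep h p ρ.π₀ ρ.contractive a‖ ≤ redNorm p a := by
  let _ := ρ.mY
  have := ρ.sigmaFinite
  refine ContinuousLinearMap.opNorm_le_of_unit_norm (redNorm_nonneg a) fun ξ hξ => ?_
  refine le_csSup (bddAbove_set a) ⟨ρ.Y, ρ.mY, ρ.μ, ρ.sigmaFinite, ⟨ρ.π₀, ρ.contractive⟩,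
    ξ, regRep h p ρ.π₀ ρ.contractive a ξ, hξ.le, fun n => ?_, rfl⟩
  rw [regRep_apply]
  rfl

/-- The norm of the reduced `L^p` crossed product is the supremum of the norms of the images under
all regular representations. -/
lemma redNorm_eq_iSup (a : Cc h) :
    redNorm p a = ⨆ ρ : LpRep X p, ‖regRep h p ρ.π₀ ρ.contractive a‖ := by
  apply le_antisymm
  · exact redNorm_le (Real.iSup_nonneg fun _ => norm_nonneg _) fun ρ =>
      le_ciSup (bddAbove_redNorm a) ρ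
  · exact Real.iSup_le (fun ρ => le_redNorm ρ a) (redNorm_nonneg a)

lemma l1_nonneg (a : Cc h) : 0 ≤ l1 a := Finset.sum_nonneg fun _ _ => norm_nonneg _

lemma redNorm_le_l1 (a : Cc h) : redNorm p a ≤ l1 a :=
  redNorm_le (l1_nonneg a) fun _ => norm_regRep_le _ _ _

lemma redNorm_zero : redNorm p (0 : Cc h) = 0 := by
  apply le_antisymm _ (redNorm_nonneg _)
  exact redNorm_le le_rfl fun ρ => by rw [map_zero, norm_zero]

lemma redNorm_add_le (a b : Cc h) : redNorm p (a + b) ≤ redNorm p a + redNorm p b :=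
  redNorm_le (add_nonneg (redNorm_nonneg _) (redNorm_nonneg _)) fun ρ => by
    rw [map_add]
    exact (norm_add_le _ _).trans (add_le_add (le_redNorm ρ a) (le_redNorm ρ b))

lemma redNorm_neg (a : Cc h) : redNorm p (-a) = redNorm p a := by
  simp only [redNorm_eq_iSup, map_neg, norm_neg]

lemma redNorm_mul_le (a b : Cc h) : redNorm p (a * b) ≤ redNorm p a * redNorm p b :=
  redNorm_le (mul_nonneg (redNorm_nonneg _) (redNorm_nonneg _)) fun ρ => by
    rw [map_mul]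
    exact (norm_mul_le _ _).trans
      (mul_le_mul (le_redNorm ρ a) (le_redNorm ρ b) (norm_nonneg _) (redNorm_nonneg _))

lemma redNorm_smul_le (c : ℂ) (a : Cc h) : redNorm p (c • a) ≤ ‖c‖ * redNorm p a :=
  redNorm_le (mul_nonneg (norm_nonneg _) (redNorm_nonneg _)) fun ρ => by
    rw [map_smul, norm_smul]
    exact mul_le_mul_of_nonneg_left (le_redNorm ρ a) (norm_nonneg _)

section point

variable {E : Type} [NormedAddCommGroup E] [NormedSpace ℂ E]

/-- The point evaluation at `x`, as a representation of `C(X)` on `E` by scalars. -/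
def evRep (x : X) (E : Type) [NormedAddCommGroup E] [NormedSpace ℂ E] :
    C(X, ℂ) →ₐ[ℂ] (E →L[ℂ] E) :=
  (Algebra.ofId ℂ (E →L[ℂ] E)).comp (ContinuousMap.evalAlgHom ℂ ℂ x)

omit [CompactSpace X] in
lemma evRep_apply (x : X) (f : C(X, ℂ)) (v : E) : evRep x E f v = f x • v := by
  simp [evRep, Algebra.ofId_apply, Algebra.algebraMap_eq_smul_one]

lemma evRep_contractive (x : X) (f : C(X, ℂ)) : ‖evRep x E f‖ ≤ ‖f‖ := by
  refine ContinuousLinearMap.opNorm_le_bound _ (norm_nonneg _) fun v => ?_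
  rw [evRep_apply, norm_smul]
  gcongr
  exact f.norm_coe_le_norm x

/-- The regular representation on `ℓ^p(ℤ, E)` attached to the point evaluation at `x`. -/
abbrev ptRep (h : X ≃ₜ X) (p : ℝ≥0∞) [Fact (1 ≤ p)] (x : X) (E : Type) [NormedAddCommGroup E]
    [NormedSpace ℂ E] : Cc h →ₐ[ℂ] (LZ p E →L[ℂ] LZ p E) :=
  regRep h p (evRep x E) (evRep_contractive x)

lemma ptRep_apply (x : X) (a : Cc h) (ξ : LZ p E) (i : ℤ) :
    ptRep h p x E a ξ i = ∑ n ∈ a.support,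
      (a.coeff n) ((h ^ i : X ≃ₜ X) x) • (ξ (i - toAdd n)) := by
  rw [ptRep, regRep_apply]
  refine Finset.sum_congr rfl fun n _ => ?_
  rw [evRep_apply]
  simp

lemma norm_coeff_le_ptRep [Nontrivial E] (x : X) (a : Cc h) (i : ℤ) :
    ‖(a.coeff (ofAdd i)) ((h ^ i : X ≃ₜ X) x)‖ ≤ ‖ptRep h p x E a‖ := by
  classical
  obtain ⟨v, hv⟩ := exists_ne (0 : E)
  have hv' : 0 < ‖v‖ := norm_pos_iff.mpr hv
  have h1 := (ptRep h p x E a).le_opNorm (lp.single p (0 : ℤ) v)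
  rw [lp.norm_single (pos_iff_ne_zero.mpr p_ne_zero)] at h1
  have h2 := (lp.norm_apply_le_norm p_ne_zero (ptRep h p x E a (lp.single p (0 : ℤ) v)) i).trans h1
  have h3 : ptRep h p x E a (lp.single p (0 : ℤ) v) i
      = (a.coeff (ofAdd i)) ((h ^ i : X ≃ₜ X) x) • v := by
    rw [ptRep_apply, Finset.sum_eq_single (ofAdd i)]
    · simp
    · intro n _ hn
      rw [lp.single_apply_ne, smul_zero]
      intro h0
      apply hn
      have : toAdd n = i := by omega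
      rw [← this]
      rfl
    · intro hn
      rw [SkewMonoidAlgebra.notMem_support_iff] at hn
      rw [hn]
      simp
  rw [h3, norm_smul] at h2
  exact le_of_mul_le_mul_right h2 hv'

end point

/-- Evaluation at a point, as a representation on `L^p` of a one point space. -/
def ptLpRep (x : X) : LpRep X p where
  Y := Unit
  mY := inferInstance
  μ := Measure.dirac ()
  sigmaFinite := inferInstance
  π₀ := evRep x _
  contractive := evRep_contractive x

instance : Nontrivial (Lp ℂ p (Measure.dirac () : Measure Unit)) := by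
  refine ⟨⟨0, Lp.const p (Measure.dirac ()) (1 : ℂ), ?_⟩⟩
  intro h0
  have h1 := Lp.norm_const (p := p) (μ := (Measure.dirac () : Measure Unit)) (c := (1 : ℂ))
    p_ne_zero
  rw [← h0] at h1
  simp at h1

lemma norm_coeff_le_redNorm (a : Cc h) (i : ℤ) (x : X) :
    ‖(a.coeff (ofAdd i)) x‖ ≤ redNorm p a := by
  have h1 := norm_coeff_le_ptRep (p := p) (E := Lp ℂ p (Measure.dirac () : Measure Unit))
    ((h ^ (-i) : X ≃ₜ X) x) a i
  rw [← Homeomorph.mul_apply, ← zpow_add, add_neg_cancel, zpow_zero, Homeomorph.one_apply] at h1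
  exact h1.trans (le_redNorm (ptLpRep _) a)

lemma eq_zero_of_redNorm_eq_zero (a : Cc h) (ha : redNorm p a = 0) : a = 0 := by
  apply SkewMonoidAlgebra.ext
  intro n
  ext x
  have := norm_coeff_le_redNorm (p := p) a (toAdd n) x
  rw [ha, norm_le_zero_iff] at this
  simpa using this

/-- The norm of the reduced `L^p` crossed product as a ring norm on `C_c(ℤ, C(X))`. -/
def redRingNorm (h : X ≃ₜ X) (p : ℝ≥0∞) [Fact (1 ≤ p)] : RingNorm (Cc h) where
  toFun := redNorm p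
  map_zero' := redNorm_zero
  add_le' := redNorm_add_le
  neg' := redNorm_neg
  mul_le' := redNorm_mul_le
  eq_zero_of_map_eq_zero' := eq_zero_of_redNorm_eq_zero

end norm

/-- The algebra `C_c(ℤ, C(X))`, to be given the norm of the reduced `L^p` crossed product. -/
def CcN (h : X ≃ₜ X) (_p : ℝ≥0∞) : Type := Cc h

variable [CompactSpace X] {p : ℝ≥0∞} [Fact (1 ≤ p)]

instance : NormedRing (CcN h p) := (redRingNorm h p).toNormedRing

instance : NormedAlgebra ℂ (CcN h p) where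
  toAlgebra := inferInstanceAs (Algebra ℂ (Cc h))
  norm_smul_le := redNorm_smul_le

/-- The reduced `L^p` crossed product `F^p_r(ℤ, X, h)`: the completion of `C_c(ℤ, C(X))` in
the norm `redNorm`. -/
abbrev Fpr (h : X ≃ₜ X) (p : ℝ≥0∞) [Fact (1 ≤ p)] : Type := UniformSpace.Completion (CcN h p)

example : NormedRing (Fpr h p) := inferInstance
example : CompleteSpace (Fpr h p) := inferInstance
example : Algebra ℂ (Fpr h p) := inferInstance
example : NormedSpace ℂ (Fpr h p) := inferInstance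

end Pool.Agent.H25.SR
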