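import Pool.Agent.H25.SrZ

/-!
# Functionals on `ℓ^p(ℤ)` and approximate (co)kernels
-/

open scoped ENNReal Topology
open Multiplicative Filter

noncomputable section

namespace Pool.Agent.H25.SR

variable {X : Type} [TopologicalSpace X] {h : X ≃ₜ X}

section func

variable {p : ℝ≥0∞} [Fact (1 ≤ p)]

/-- The `j`-th unit vector. -/
def dlt (p : ℝ≥0∞) (j : ℤ) : LZ p ℂ := lp.single p j (1 : ℂ)

omit [Fact (1 ≤ p)] in
lemma dlt_apply (i j : ℤ) : (dlt p j) i = if i = j then 1 else 0 := by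
  unfold dlt
  split_ifs with hij
  · rw [hij]
    exact lp.single_apply_self p j _
  · exact lp.single_apply_ne p j _ hij

/-- A functional on `ℓ^p(ℤ)` satisfies Hölder's inequality with its own norm as constant. -/
lemma dual_bound (hp : p ≠ ∞) (φ : LZ p ℂ →L[ℂ] ℂ) (F : Finset ℤ) (t : ℤ → ℝ)
    (ht : ∀ j, 0 ≤ t j) :
    ∑ j ∈ F, ‖φ (dlt p j)‖ * t j ≤ ‖φ‖ * (∑ j ∈ F, t j ^ p.toReal) ^ (1 / p.toReal) := by
  have hr : 0 < p.toReal := toReal_pos' hp
  have hs : ∀ j, ∃ s : ℂ, ‖s‖ ≤ 1 ∧ s * φ (dlt p j) = ‖φ (dlt p j)‖ := by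
    intro j
    by_cases h0 : φ (dlt p j) = 0
    · exact ⟨0, by simp, by simp [h0]⟩
    · refine ⟨(starRingEnd ℂ (φ (dlt p j))) / ‖φ (dlt p j)‖, ?_, ?_⟩
      · rw [norm_div, RCLike.norm_conj]
        simp [div_self (norm_ne_zero_iff.mpr h0)]
      · have h1 : (‖φ (dlt p j)‖ : ℂ) ≠ 0 := by
          exact_mod_cast norm_ne_zero_iff.mpr h0
        rw [div_mul_eq_mul_div, mul_comm, Complex.mul_conj, Complex.normSq_eq_norm_sq]
        field_simp
        push_cast
        ring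
  choose s hs1 hs2 using hs
  set v : LZ p ℂ := ∑ j ∈ F, lp.single p j (s j * t j) with hv
  have h1 : φ v = ((∑ j ∈ F, ‖φ (dlt p j)‖ * t j : ℝ) : ℂ) := by
    rw [hv, map_sum]
    push_cast
    refine Finset.sum_congr rfl fun j _ => ?_
    have h2 : (lp.single p j (s j * t j) : LZ p ℂ) = (s j * t j) • dlt p j := by
      unfold dlt
      rw [← lp.single_smul]
      simp
    rw [h2, map_smul, smul_eq_mul, mul_right_comm, hs2]
  have h2 : ‖v‖ ^ p.toReal = ∑ j ∈ F, ‖s j * t j‖ ^ p.toReal :=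
    lp.norm_sum_single hr (fun j => s j * t j) F
  have h3 : ‖v‖ ≤ (∑ j ∈ F, t j ^ p.toReal) ^ (1 / p.toReal) := by
    have h4 : ‖v‖ ^ p.toReal ≤ ∑ j ∈ F, t j ^ p.toReal := by
      rw [h2]
      refine Finset.sum_le_sum fun j _ => ?_
      gcongr
      rw [norm_mul, Complex.norm_real, Real.norm_of_nonneg (ht j)]
      exact mul_le_of_le_one_left (ht j) (hs1 j)
    calc ‖v‖ = (‖v‖ ^ p.toReal) ^ (1 / p.toReal) := by
          rw [← Real.rpow_mul (norm_nonneg _), mul_one_div_cancel hr.ne', Real.rpow_one]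
      _ ≤ _ := by gcongr
  have h5 : 0 ≤ ∑ j ∈ F, ‖φ (dlt p j)‖ * t j :=
    Finset.sum_nonneg fun j _ => mul_nonneg (norm_nonneg _) (ht j)
  calc ∑ j ∈ F, ‖φ (dlt p j)‖ * t j = ‖φ v‖ := by
        rw [h1, Complex.norm_real, Real.norm_of_nonneg h5]
    _ ≤ ‖φ‖ * ‖v‖ := φ.le_opNorm v
    _ ≤ _ := by gcongr

end func

section products

/-- On `U`, the coefficients of `a` behave as at `x` in the window `|k| ≤ R`. -/
def Stab (a : Cc h) (U : Set X) (x : X) (R : ℕ) : Prop :=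
  ∀ y ∈ U, ∀ n ∈ a.support, ∀ k : ℤ, |k| ≤ R →
    a.coeff n ((h ^ k : X ≃ₜ X) y) = a.coeff n ((h ^ k : X ≃ₜ X) x)

/-- All degrees of `a` are at most `K` in absolute value. -/
def Band (a : Cc h) (K : ℕ) : Prop := ∀ n ∈ a.support, |toAdd n| ≤ (K : ℤ)

lemma exists_band (a : Cc h) : ∃ K, Band a K := by
  refine ⟨∑ n ∈ a.support, (toAdd n).natAbs, fun n hn => ?_⟩
  have h1 := Finset.single_le_sum (f := fun n : Multiplicative ℤ => (toAdd n).natAbs)
    (fun _ _ => Nat.zero_le _) hn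
  rw [Int.abs_eq_natAbs]
  exact_mod_cast h1

lemma exists_stab [CompactSpace X] [T2Space X] [TotallyDisconnectedSpace X] (ha : Aper h)
    {a : Cc h} (haLC : a ∈ LC h) (x : X) (R T : ℕ) :
    ∃ U : Set X, IsClopen U ∧ x ∈ U ∧ Stab a U x R ∧ SepT h U T := by
  have hev : ∀ᶠ y in 𝓝 x, ∀ n ∈ a.support, ∀ k ∈ Finset.Icc (-(R : ℤ)) R,
      a.coeff n ((h ^ k : X ≃ₜ X) y) = a.coeff n ((h ^ k : X ≃ₜ X) x) := by
    rw [Filter.eventually_all_finset]
    intro n _
    rw [Filter.eventually_all_finset]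
    intro k _
    exact ((h ^ k : X ≃ₜ X).continuous.tendsto x).eventually
      ((IsLocallyConstant.iff_eventually_eq _).mp (haLC n) _)
  obtain ⟨V, hV, hVo, hxV⟩ := mem_nhds_iff.mp hev
  obtain ⟨U, hU, hxU, hUV, hs⟩ := exists_small ha x T hVo hxV
  refine ⟨U, hU, hxU, fun y hy n hn k hk => ?_, hs⟩
  exact hV (hUV hy) n hn k (by rw [Finset.mem_Icc]; exact abs_le.mp hk)

lemma sum_shift {M : Type*} [AddCommMonoid M] (R K : ℕ) (n : ℤ) (hn : |n| ≤ K) (G : ℤ → M)
    (hG : ∀ k, R < |k - n| → G k = 0) :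
    ∑ i ∈ Finset.Icc (-(R : ℤ)) R, G (n + i) =
      ∑ k ∈ Finset.Icc (-((R + K : ℕ) : ℤ)) ((R + K : ℕ) : ℤ), G k := by
  have h1 : ∑ i ∈ Finset.Icc (-(R : ℤ)) R, G (n + i) =
      ∑ k ∈ (Finset.Icc (-(R : ℤ)) R).map (Equiv.addLeft n).toEmbedding, G k := by
    rw [Finset.sum_map]
    rfl
  rw [h1]
  rw [abs_le] at hn
  apply Finset.sum_subset
  · intro k hk
    rw [Finset.mem_map_equiv, Finset.mem_Icc, Equiv.addLeft_symm, Equiv.coe_addLeft] at hk
    dsimp only at hk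
    rw [Finset.mem_Icc]
    push_cast
    constructor <;> omega
  · intro k _ hk2
    apply hG
    by_contra hcon
    apply hk2
    rw [not_lt, abs_le] at hcon
    rw [Finset.mem_map_equiv, Finset.mem_Icc, Equiv.addLeft_symm, Equiv.coe_addLeft]
    dsimp only
    constructor <;> omega

variable {U : Set X} {hU : IsClopen U} {a : Cc h} {x : X} {R K T : ℕ}

/-- The coordinates of `T_x(a) ξ`. -/
def actV (a : Cc h) (x : X) (ξ : ℤ → ℂ) (k : ℤ) : ℂ :=
  ∑ n ∈ a.support, a.coeff n ((h ^ k : X ≃ₜ X) x) * ξ (k - toAdd n)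

/-- The coordinates of `η T_x(a)`. -/
def actR (a : Cc h) (x : X) (η : ℤ → ℂ) (k : ℤ) : ℂ :=
  ∑ n ∈ a.support, η (k + toAdd n) * a.coeff n ((h ^ (k + toAdd n) : X ≃ₜ X) x)

lemma mul_col (hK : Band a K) (hst : Stab a U x (R + K)) (ξ : ℤ → ℂ)
    (hξ : ∀ i, (R : ℤ) < |i| → ξ i = 0) :
    a * colElt (Finset.Icc (-(R : ℤ)) R) ξ U hU =
      colElt (Finset.Icc (-((R + K : ℕ) : ℤ)) ((R + K : ℕ) : ℤ)) (actV a x ξ) U hU := by
  set E : ℤ → Cc h := fun k => fu 1 k * fu (chi U hU) 0 with hE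
  have h1 : ∀ i, |i| ≤ (R : ℤ) → a * E i = ∑ n ∈ a.support,
      a.coeff n ((h ^ (toAdd n + i) : X ≃ₜ X) x) • E (toAdd n + i) := by
    intro i hi
    conv_lhs => rw [eq_sum_fu a]
    rw [Finset.sum_mul]
    refine Finset.sum_congr rfl fun n hn => ?_
    simp only [hE]
    rw [fu_mul_fu, fu_mul_fu, fu_mul_fu, ← fu_smul]
    simp only [one_mul, add_zero, alphaPow_alphaPow]
    congr 1
    ext y
    rw [CX.mul_apply, CX.smul_apply, alphaPow_apply]
    by_cases hy : (h ^ (-(toAdd n + i)) : X ≃ₜ X) y ∈ U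
    · rw [chi_of_mem hU hy, mul_one, mul_one]
      have h2 := hst _ hy n hn (toAdd n + i) (by
        have := hK n hn
        rw [abs_le] at *
        push_cast
        constructor <;> omega)
      rw [← h2, ← Homeomorph.mul_apply, ← zpow_add, add_neg_cancel, zpow_zero,
        Homeomorph.one_apply]
    · rw [chi_of_notMem hU hy, mul_zero, mul_zero]
  have h2 : a * colElt (Finset.Icc (-(R : ℤ)) R) ξ U hU = ∑ n ∈ a.support,
      ∑ i ∈ Finset.Icc (-(R : ℤ)) R, (fun k => (a.coeff n ((h ^ k : X ≃ₜ X) x) *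
        ξ (k - toAdd n)) • E k) (toAdd n + i) := by
    unfold colElt
    rw [Finset.mul_sum, Finset.sum_comm]
    refine Finset.sum_congr rfl fun i hi => ?_
    rw [Finset.mem_Icc] at hi
    rw [mul_smul_comm]
    change ξ i • (a * E i) = _
    rw [h1 i (abs_le.mpr hi), Finset.smul_sum]
    refine Finset.sum_congr rfl fun n _ => ?_
    simp only [add_sub_cancel_left]
    rw [smul_smul, mul_comm]
  have h3 : colElt (Finset.Icc (-((R + K : ℕ) : ℤ)) ((R + K : ℕ) : ℤ)) (actV a x ξ) U hU =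
      ∑ n ∈ a.support, ∑ k ∈ Finset.Icc (-((R + K : ℕ) : ℤ)) ((R + K : ℕ) : ℤ),
        (a.coeff n ((h ^ k : X ≃ₜ X) x) * ξ (k - toAdd n)) • E k := by
    unfold colElt actV
    simp only [Finset.sum_smul]
    exact Finset.sum_comm
  rw [h2, h3]
  refine Finset.sum_congr rfl fun n hn => ?_
  exact sum_shift R K (toAdd n) (hK n hn) (fun k => (a.coeff n ((h ^ k : X ≃ₜ X) x) *
    ξ (k - toAdd n)) • E k) (fun k hk => by rw [hξ _ hk, mul_zero, zero_smul])

lemma row_mul (hK : Band a K) (hst : Stab a U x R) (η : ℤ → ℂ)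
    (hη : ∀ i, (R : ℤ) < |i| → η i = 0) :
    rowElt (Finset.Icc (-(R : ℤ)) R) η U hU * a =
      rowElt (Finset.Icc (-((R + K : ℕ) : ℤ)) ((R + K : ℕ) : ℤ)) (actR a x η) U hU := by
  set E : ℤ → Cc h := fun k => fu (chi U hU) 0 * fu 1 (-k) with hE
  have h1 : ∀ j, |j| ≤ (R : ℤ) → E j * a = ∑ n ∈ a.support,
      a.coeff n ((h ^ j : X ≃ₜ X) x) • E (-(toAdd n) + j) := by
    intro j hj
    conv_lhs => rw [eq_sum_fu a]
    rw [Finset.mul_sum]
    refine Finset.sum_congr rfl fun n hn => ?_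
    simp only [hE]
    rw [fu_mul_fu, fu_mul_fu, fu_mul_fu, ← fu_smul]
    simp only [alphaPow_one, mul_one, zero_add]
    have h0 : -j + toAdd n = -(-(toAdd n) + j) := by ring
    rw [h0]
    congr 1
    ext y
    rw [CX.mul_apply, CX.smul_apply, alphaPow_apply, neg_neg]
    by_cases hy : y ∈ U
    · rw [chi_of_mem hU hy, mul_one, one_mul, hst y hy n hn j hj]
    · rw [chi_of_notMem hU hy, mul_zero, zero_mul]
  have h2 : rowElt (Finset.Icc (-(R : ℤ)) R) η U hU * a = ∑ n ∈ a.support,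
      ∑ i ∈ Finset.Icc (-(R : ℤ)) R, (fun k => (η (k + toAdd n) *
        a.coeff n ((h ^ (k + toAdd n) : X ≃ₜ X) x)) • E k) (-(toAdd n) + i) := by
    unfold rowElt
    rw [Finset.sum_mul, Finset.sum_comm]
    refine Finset.sum_congr rfl fun j hj => ?_
    rw [Finset.mem_Icc] at hj
    rw [smul_mul_assoc]
    change η j • (E j * a) = _
    rw [h1 j (abs_le.mpr hj), Finset.smul_sum]
    refine Finset.sum_congr rfl fun n _ => ?_
    simp only
    rw [smul_smul]
    have h0 : -(toAdd n) + j + toAdd n = j := by ring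
    rw [h0]
  have h3 : rowElt (Finset.Icc (-((R + K : ℕ) : ℤ)) ((R + K : ℕ) : ℤ)) (actR a x η) U hU =
      ∑ n ∈ a.support, ∑ k ∈ Finset.Icc (-((R + K : ℕ) : ℤ)) ((R + K : ℕ) : ℤ),
        (η (k + toAdd n) * a.coeff n ((h ^ (k + toAdd n) : X ≃ₜ X) x)) • E k := by
    unfold rowElt actR
    simp only [Finset.sum_smul]
    exact Finset.sum_comm
  rw [h2, h3]
  refine Finset.sum_congr rfl fun n hn => ?_
  refine sum_shift R K (-(toAdd n)) (by rw [abs_neg]; exact hK n hn) (fun k =>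
    (η (k + toAdd n) * a.coeff n ((h ^ (k + toAdd n) : X ≃ₜ X) x)) • E k) (fun k hk => ?_)
  rw [sub_neg_eq_add] at hk
  rw [hη _ hk, zero_mul, zero_smul]

lemma row_col (hs : SepT h U (2 * R)) (η ξ : ℤ → ℂ) :
    rowElt (Finset.Icc (-(R : ℤ)) R) η U hU * colElt (Finset.Icc (-(R : ℤ)) R) ξ U hU =
      (∑ i ∈ Finset.Icc (-(R : ℤ)) R, η i * ξ i) • (fu (chi U hU) 0 : Cc h) := by
  unfold rowElt colElt
  rw [Finset.sum_mul, Finset.sum_smul]
  refine Finset.sum_congr rfl fun j hj => ?_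
  rw [Finset.mul_sum, Finset.sum_eq_single j]
  · rw [smul_mul_smul_comm]
    congr 1
    rw [fu_mul_fu, fu_mul_fu, fu_mul_fu]
    simp only [alphaPow_one, mul_one, one_mul, zero_add, add_zero, neg_add_cancel,
      alphaPow_alphaPow, alphaPow_zero]
    congr 1
    ext y
    rw [CX.mul_apply]
    by_cases hy : y ∈ U
    · rw [chi_of_mem hU hy, mul_one]
    · rw [chi_of_notMem hU hy, mul_zero]
  · intro i hi hij
    rw [smul_mul_smul_comm, fu_mul_fu, fu_mul_fu, fu_mul_fu]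
    simp only [alphaPow_one, mul_one, one_mul, zero_add, add_zero, alphaPow_alphaPow]
    have h1 : (chi U hU * alphaPow (-j + i) (chi U hU) : CX h) = 0 := by
      ext y
      rw [CX.mul_apply, CX.zero_apply]
      by_cases hy : y ∈ U
      · rw [Finset.mem_Icc] at hi hj
        have h2 := hs y hy (-(-j + i)) (by omega) (by
          rw [abs_le]
          push_cast
          constructor <;> omega)
        rw [alphaPow_apply, chi_of_notMem hU h2, mul_zero]
      · rw [chi_of_notMem hU hy, zero_mul]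
    rw [h1, fu_zero, smul_zero]
  · intro H
    exact absurd hj H

lemma SepT.sep (hs : SepT h U (2 * R)) : Sep h U (Finset.Icc (-(R : ℤ)) R) := by
  intro i hi j hj hij y hy
  rw [Finset.mem_Icc] at hi hj
  apply hs y hy _ (sub_ne_zero.mpr hij)
  rw [abs_le]
  push_cast
  constructor <;> omega

lemma SepT.mono {T' : ℕ} (hs : SepT h U T) (hT : T' ≤ T) : SepT h U T' :=
  fun x hx k hk hkT => hs x hx k hk (hkT.trans (by exact_mod_cast hT))

lemma col_mem_LC (F : Finset ℤ) (ξ : ℤ → ℂ) : (colElt F ξ U hU : Cc h) ∈ LC h :=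
  sum_mem fun _ _ => (LC h).smul_mem
    (mul_mem (fu_mem_LC isLC_one _) (fu_mem_LC (isLC_chi _ _) _)) _

lemma row_mem_LC (F : Finset ℤ) (ξ : ℤ → ℂ) : (rowElt F ξ U hU : Cc h) ∈ LC h :=
  sum_mem fun _ _ => (LC h).smul_mem
    (mul_mem (fu_mem_LC (isLC_chi _ _) _) (fu_mem_LC isLC_one _)) _

lemma chi_row (F : Finset ℤ) (η : ℤ → ℂ) :
    fu (chi U hU) 0 * rowElt F η U hU = (rowElt F η U hU : Cc h) := by
  unfold rowElt
  rw [Finset.mul_sum]
  refine Finset.sum_congr rfl fun j _ => ?_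
  rw [mul_smul_comm, ← mul_assoc, fu_mul_fu, alphaPow_zero, add_zero]
  congr 3
  ext y
  rw [CX.mul_apply]
  by_cases hy : y ∈ U
  · rw [chi_of_mem hU hy, mul_one]
  · rw [chi_of_notMem hU hy, mul_zero]

lemma col_chi (F : Finset ℤ) (ξ : ℤ → ℂ) :
    colElt F ξ U hU * fu (chi U hU) 0 = (colElt F ξ U hU : Cc h) := by
  unfold colElt
  rw [Finset.sum_mul]
  refine Finset.sum_congr rfl fun j _ => ?_
  rw [smul_mul_assoc, mul_assoc, fu_mul_fu (chi U hU) (chi U hU), alphaPow_zero, add_zero]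
  congr 3
  ext y
  rw [CX.mul_apply]
  by_cases hy : y ∈ U
  · rw [chi_of_mem hU hy, mul_one]
  · rw [chi_of_notMem hU hy, mul_zero]

end products

end Pool.Agent.H25.SR
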