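import Pool.Agent.H25.SrKer

/-!
# Invertibility from uniform invertibility at all points
-/

open scoped ENNReal Topology
open Multiplicative Filter

noncomputable section

namespace Pool.Agent.H25.SR

variable {X : Type} [TopologicalSpace X] {h : X ≃ₜ X}

section rows

variable [CompactSpace X]

/-- Exponentially decaying rows of left inverses at every point. -/
def RowInv (a : Cc h) (C θ : ℝ) : Prop :=
  ∀ x : X, ∃ s : ℤ → ℂ, (∀ j, ‖s j‖ ≤ C * θ ^ j.natAbs) ∧
    ∀ k, actR a x s k = if k = 0 then 1 else 0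

lemma l1_le (a : Cc h) (G : Finset ℤ) (D : ℝ) (h1 : ∀ m, m ∉ G → a.coeff (ofAdd m) = 0)
    (h2 : ∀ m, ‖CX.toC (a.coeff (ofAdd m))‖ ≤ D) : l1 a ≤ G.card * D := by
  have hD : 0 ≤ D := (norm_nonneg _).trans (h2 0)
  have hsub : a.support ⊆ G.map ofAdd.toEmbedding := by
    intro n hn
    rw [SkewMonoidAlgebra.mem_support_iff] at hn
    rw [Finset.mem_map_equiv]
    by_contra hcon
    exact hn (by simpa using h1 _ hcon)
  have hcard : a.support.card ≤ G.card := by
    simpa using Finset.card_le_card hsub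
  calc l1 a ≤ ∑ n ∈ a.support, D := Finset.sum_le_sum fun n _ => by simpa using h2 (toAdd n)
    _ = a.support.card * D := by rw [Finset.sum_const, nsmul_eq_mul]
    _ ≤ G.card * D := by gcongr

lemma exists_R (K : ℕ) (B θ : ℝ) (h0 : 0 ≤ θ) (h1 : θ < 1) :
    ∃ R : ℕ, (2 * ((R : ℝ) + K) + 1) * (B * θ ^ R) < 1 := by
  have e1 : Tendsto (fun R : ℕ => (R : ℝ) * θ ^ R) atTop (𝓝 0) :=
    tendsto_self_mul_const_pow_of_lt_one h0 h1
  have e2 : Tendsto (fun R : ℕ => θ ^ R) atTop (𝓝 0) := tendsto_pow_atTop_nhds_zero_of_lt_one h0 h1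
  have e3 : Tendsto (fun R : ℕ => (2 * ((R : ℝ) + K) + 1) * (B * θ ^ R)) atTop (𝓝 0) := by
    have := (e1.const_mul (2 * B)).add (e2.const_mul ((2 * K + 1) * B))
    simp only [mul_zero, add_zero] at this
    refine this.congr fun R => ?_
    ring
  exact ((e3.eventually_lt_const one_pos).exists)

theorem exists_left_approx [Nonempty X] {a : Cc h} (haLC : a ∈ LC h) {C θ : ℝ} (hC : 0 ≤ C)
    (hθ0 : 0 ≤ θ) (hθ1 : θ < 1) (H : RowInv a C θ) : ∃ b : Cc h, l1 (b * a - 1) < 1 := by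
  classical
  choose s hs1 hs2 using H
  obtain ⟨K, hK⟩ := exists_band a
  obtain ⟨R, hR⟩ := exists_R K (l1 a * C) θ hθ0 hθ1
  -- local data
  set L : X → (ℤ → Multiplicative ℤ → ℂ) := fun x j n =>
    if |j| ≤ (R : ℤ) ∧ n ∈ a.support then a.coeff n ((h ^ j : X ≃ₜ X) x) else 0 with hL
  have hLlc : IsLocallyConstant L := by
    rw [IsLocallyConstant.iff_eventually_eq]
    intro x
    have hev : ∀ᶠ y in 𝓝 x, ∀ n ∈ a.support, ∀ k ∈ Finset.Icc (-(R : ℤ)) R,
        a.coeff n ((h ^ k : X ≃ₜ X) y) = a.coeff n ((h ^ k : X ≃ₜ X) x) := by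
      rw [Filter.eventually_all_finset]
      intro n _
      rw [Filter.eventually_all_finset]
      intro k _
      exact ((h ^ k : X ≃ₜ X).continuous.tendsto x).eventually
        ((IsLocallyConstant.iff_eventually_eq _).mp (haLC n) _)
    filter_upwards [hev] with y hy
    ext j n
    simp only [hL]
    split_ifs with hjn
    · exact hy n hjn.2 j (by rw [Finset.mem_Icc]; exact abs_le.mp hjn.1)
    · rfl
  set rep : X → X := fun x => Function.invFun L (L x) with hrep
  have hLrep : ∀ x, L (rep x) = L x := fun x => Function.invFun_eq ⟨x, rfl⟩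
  have hcoef : ∀ x, ∀ n ∈ a.support, ∀ j : ℤ, |j| ≤ (R : ℤ) →
      a.coeff n ((h ^ j : X ≃ₜ X) x) = a.coeff n ((h ^ j : X ≃ₜ X) (rep x)) := by
    intro x n hn j hj
    have h1 := congrFun (congrFun (hLrep x) j) n
    simp only [hL] at h1
    rw [if_pos ⟨hj, hn⟩, if_pos ⟨hj, hn⟩] at h1
    exact h1.symm
  have hβlc : ∀ j : ℤ, IsLocallyConstant (fun x => s (rep x) j) := by
    intro j
    exact hLlc.comp (fun d => s (Function.invFun L d) j)
  set β : ℤ → CX h := fun j => CX.toC.symm ⟨fun x => s (rep x) j, (hβlc j).continuous⟩ with hβ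
  have hβa : ∀ j x, β j x = s (rep x) j := fun j x => rfl
  set b : Cc h := ∑ j ∈ Finset.Icc (-(R : ℤ)) R, fu (β j) (-j) with hb
  have hba : b * a = ∑ n ∈ a.support, ∑ j ∈ Finset.Icc (-(R : ℤ)) R,
      fu (β j * alphaPow (-j) (a.coeff n)) (-j + toAdd n) := by
    conv_lhs => rw [hb, eq_sum_fu a]
    rw [Finset.mul_sum]
    refine Finset.sum_congr rfl fun n _ => ?_
    rw [Finset.sum_mul]
    refine Finset.sum_congr rfl fun j _ => ?_
    rw [fu_mul_fu]
  have hcoeff : ∀ (m : ℤ) (x : X), (b * a).coeff (ofAdd m) x = ∑ n ∈ a.support,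
      if |toAdd n - m| ≤ (R : ℤ) then s (rep x) (toAdd n - m) *
        a.coeff n ((h ^ (toAdd n - m) : X ≃ₜ X) (rep x)) else 0 := by
    intro m x
    have h1 : ∀ (S : Finset (Multiplicative ℤ)) (G : Multiplicative ℤ → Cc h),
        (∑ n ∈ S, G n).coeff (ofAdd m) x = ∑ n ∈ S, (G n).coeff (ofAdd m) x := by
      intro S G
      induction S using Finset.induction_on with
      | empty => simp
      | insert i S hi ih =>
        rw [Finset.sum_insert hi, Finset.sum_insert hi, SkewMonoidAlgebra.coeff_add,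
          Finsupp.add_apply, CX.add_apply, ih]
    have h2 : ∀ (S : Finset ℤ) (G : ℤ → Cc h),
        (∑ n ∈ S, G n).coeff (ofAdd m) x = ∑ n ∈ S, (G n).coeff (ofAdd m) x := by
      intro S G
      induction S using Finset.induction_on with
      | empty => simp
      | insert i S hi ih =>
        rw [Finset.sum_insert hi, Finset.sum_insert hi, SkewMonoidAlgebra.coeff_add,
          Finsupp.add_apply, CX.add_apply, ih]
    rw [hba, h1]
    refine Finset.sum_congr rfl fun n hn => ?_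
    rw [h2]
    have h3 : ∀ j : ℤ, (fu (β j * alphaPow (-j) (a.coeff n)) (-j + toAdd n)).coeff (ofAdd m) x =
        if j = toAdd n - m then s (rep x) j * a.coeff n ((h ^ j : X ≃ₜ X) x) else 0 := by
      intro j
      rw [coeff_fu, toAdd_ofAdd]
      by_cases hj : j = toAdd n - m
      · rw [if_pos (by omega), if_pos hj, CX.mul_apply, hβa, alphaPow_apply, neg_neg]
      · rw [if_neg (by omega), if_neg hj, CX.zero_apply]
    simp only [h3]
    rw [Finset.sum_ite_eq']
    by_cases hm : |toAdd n - m| ≤ (R : ℤ)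
    · rw [if_pos (by rw [Finset.mem_Icc]; exact abs_le.mp hm), if_pos hm,
        hcoef x n hn _ hm]
    · rw [if_neg (by rw [Finset.mem_Icc]; exact fun H => hm (abs_le.mpr H)), if_neg hm]
  have hdiff : ∀ (m : ℤ) (x : X), (b * a - 1).coeff (ofAdd m) x = -∑ n ∈ a.support,
      if |toAdd n - m| ≤ (R : ℤ) then 0 else s (rep x) (toAdd n - m) *
        a.coeff n ((h ^ (toAdd n - m) : X ≃ₜ X) (rep x)) := by
    intro m x
    have h1 : (1 : Cc h).coeff (ofAdd m) x = if m = 0 then 1 else 0 := by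
      rw [← fu_one, coeff_fu, toAdd_ofAdd]
      split_ifs <;> rfl
    have h2 := hs2 (rep x) (-m)
    have h3 : (if -m = 0 then (1 : ℂ) else 0) = if m = 0 then 1 else 0 := by
      by_cases hm : m = 0
      · simp [hm]
      · rw [if_neg hm, if_neg (by omega)]
    rw [h3, ← h1] at h2
    rw [SkewMonoidAlgebra.coeff_sub, Finsupp.sub_apply, CX.sub_apply, hcoeff, ← h2, actR,
      ← Finset.sum_sub_distrib, ← Finset.sum_neg_distrib]
    refine Finset.sum_congr rfl fun n _ => ?_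
    have h4 : -m + toAdd n = toAdd n - m := by ring
    rw [h4]
    split_ifs <;> ring
  refine ⟨b, lt_of_le_of_lt (l1_le _ (Finset.Icc (-((R + K : ℕ) : ℤ)) ((R + K : ℕ) : ℤ))
    (l1 a * C * θ ^ R) ?_ ?_) ?_⟩
  · intro m hm
    rw [Finset.mem_Icc, ← abs_le, not_le] at hm
    have h0 : ∀ n ∈ a.support, ¬ |toAdd n - m| ≤ (R : ℤ) := by
      intro n hn hcon
      have h1 := hK n hn
      rw [abs_le] at hcon h1
      rw [lt_abs] at hm
      push_cast at hm
      omega
    rw [SkewMonoidAlgebra.coeff_sub, Finsupp.sub_apply]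
    ext x
    rw [CX.sub_apply, hcoeff, Finset.sum_eq_zero, CX.zero_apply]
    · rw [← fu_one, coeff_fu, toAdd_ofAdd, if_neg, CX.zero_apply, sub_zero]
      rintro rfl
      simp at hm
      omega
    · intro n hn
      rw [if_neg (h0 n hn)]
  · intro m
    have hA : 0 ≤ l1 a := l1_nonneg a
    rw [ContinuousMap.norm_le _ (by positivity)]
    intro x
    rw [CX.toC_apply, hdiff, norm_neg]
    refine (norm_sum_le _ _).trans ?_
    rw [l1, Finset.sum_mul, Finset.sum_mul]
    refine Finset.sum_le_sum fun n _ => ?_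
    split_ifs with hn
    · rw [norm_zero]
      positivity
    · rw [norm_mul]
      have h1 : ‖s (rep x) (toAdd n - m)‖ ≤ C * θ ^ R := by
        refine (hs1 _ _).trans ?_
        gcongr 1
        apply pow_le_pow_of_le_one hθ0 hθ1.le
        rw [not_le, Int.abs_eq_natAbs] at hn
        omega
      have h2 : ‖a.coeff n ((h ^ (toAdd n - m) : X ≃ₜ X) (rep x))‖ ≤ ‖CX.toC (a.coeff n)‖ :=
        (CX.toC (a.coeff n)).norm_coe_le_norm _
      calc _ ≤ (C * θ ^ R) * ‖CX.toC (a.coeff n)‖ := by gcongr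
        _ = _ := by ring
  · refine lt_of_le_of_lt (le_of_eq ?_) hR
    rw [Int.card_Icc]
    have h1 : (((R + K : ℕ) : ℤ) + 1 - -((R + K : ℕ) : ℤ)).toNat = 2 * (R + K) + 1 := by omega
    rw [h1]
    push_cast
    ring

end rows

section maj

variable {p : ℝ≥0∞} [Fact (1 ≤ p)]

/-- The sequence of absolute values. -/
def absSeq (y : LZ p ℂ) : LZ p ℂ :=
  ⟨fun i => ((‖y i‖ : ℝ) : ℂ), (lp.memℓp y).mono' fun i => by simp⟩

lemma norm_absSeq_le (y : LZ p ℂ) : ‖absSeq y‖ ≤ ‖y‖ :=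
  lp.norm_mono p_ne_zero fun i => by simp [absSeq]

lemma norm_le_of_maj (u y : LZ p ℂ) (F : Finset (Multiplicative ℤ)) (k : Multiplicative ℤ → ℝ)
    (hk : ∀ n, 0 ≤ k n) (H : ∀ i, ‖u i‖ ≤ ∑ n ∈ F, k n * ‖y (i - toAdd n)‖) :
    ‖u‖ ≤ (∑ n ∈ F, k n) * ‖y‖ := by
  set z : LZ p ℂ := ∑ n ∈ F, ((k n : ℝ) : ℂ) • shiftOp (toAdd n) (absSeq y) with hz
  have h1 : ‖u‖ ≤ ‖z‖ := by
    apply lp.norm_mono p_ne_zero
    intro i
    refine (H i).trans ?_
    have h2 : z i = ((∑ n ∈ F, k n * ‖y (i - toAdd n)‖ : ℝ) : ℂ) := by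
      rw [hz, lp.coeFn_sum, Finset.sum_apply]
      push_cast
      refine Finset.sum_congr rfl fun n _ => ?_
      rw [lp.coeFn_smul, Pi.smul_apply, shiftOp_apply, smul_eq_mul]
      rfl
    rw [h2, Complex.norm_real]
    exact Real.le_norm_self _
  refine h1.trans ?_
  rw [hz, Finset.sum_mul]
  refine (norm_sum_le _ _).trans (Finset.sum_le_sum fun n _ => ?_)
  rw [norm_smul, Complex.norm_real, Real.norm_of_nonneg (hk n)]
  gcongr
  · exact hk n
  · calc ‖shiftOp (toAdd n) (absSeq y)‖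
        ≤ ‖(shiftOp (toAdd n) : LZ p ℂ →L[ℂ] LZ p ℂ)‖ * ‖absSeq y‖ :=
          ContinuousLinearMap.le_opNorm _ _
      _ ≤ 1 * ‖y‖ := by
        gcongr
        · exact norm_shiftOp_le _
        · exact norm_absSeq_le y
      _ = ‖y‖ := one_mul _

end maj

section decay

variable [CompactSpace X] {p : ℝ≥0∞} [Fact (1 ≤ p)]

/-- Exponential decay of the columns of the inverse. -/
lemma decay {a : Cc h} {K : ℕ} (hK : Band a K) {c ρ : ℝ} (hc : 0 < c) (hρ : 1 ≤ ρ)
    (hρc : (ρ ^ K - 1) * l1 a ≤ c / 2) {x : X}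
    (hlow : ∀ ξ : LZ p ℂ, c * ‖ξ‖ ≤ ‖ptRep h p x ℂ a ξ‖) {j : ℤ} {v : LZ p ℂ}
    (hv : ptRep h p x ℂ a v = dlt p j) (i0 : ℤ) :
    ‖v i0‖ ≤ 2 / c * ρ⁻¹ ^ (i0 - j).natAbs := by
  have hρ0 : 0 < ρ := by linarith
  set Rb : ℝ := ρ ^ (i0 - j).natAbs with hRb
  have hRb1 : 1 ≤ Rb := one_le_pow₀ hρ
  set w : ℤ → ℝ := fun i => min (ρ ^ (i - j).natAbs) Rb with hw
  have hw0 : ∀ i, 0 < w i := fun i => lt_min (by positivity) (by positivity)
  have hwR : ∀ i, w i ≤ Rb := fun i => min_le_right _ _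
  have hwj : w j = 1 := by
    simp only [hw, sub_self, Int.natAbs_zero, pow_zero]
    exact min_eq_left hRb1
  have hwi0 : w i0 = Rb := min_self _
  have hρK : 1 ≤ ρ ^ K := one_le_pow₀ hρ
  have hw1 : ∀ i k : ℤ, (i - k).natAbs ≤ K → w i ≤ ρ ^ K * w k := by
    intro i k hik
    simp only [hw]
    rw [mul_min_of_nonneg _ _ (by positivity)]
    apply min_le_min
    · rw [← pow_add]
      exact pow_le_pow_right₀ hρ (by omega)
    · exact le_mul_of_one_le_left (by positivity) hρK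
  have hw2 : ∀ i k : ℤ, (i - k).natAbs ≤ K → |w k - w i| ≤ (ρ ^ K - 1) * w k := by
    intro i k hik
    have h1 := hw1 i k hik
    have h2 := hw1 k i (by omega)
    have h3 := hw0 k
    have h4 := hw0 i
    rw [abs_le]
    constructor
    · nlinarith
    · -- w k - w i ≤ (ρ^K - 1) w k
      have h5 : w k ≤ ρ ^ K * w i := h2
      by_cases hki : w k ≤ w i
      · have : 0 ≤ (ρ ^ K - 1) * w k := mul_nonneg (by linarith) h3.le
        linarith
      · push Not at hki
        nlinarith [mul_nonneg (sub_nonneg.mpr hρK) (sub_nonneg.mpr hki.le)]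
  -- the weighted vector
  set vw : LZ p ℂ := diagOp (fun i => ((w i : ℝ) : ℂ) • (1 : ℂ →L[ℂ] ℂ)) Rb (by
    intro i
    rw [norm_smul, Complex.norm_real, Real.norm_of_nonneg (hw0 i).le]
    calc w i * ‖(1 : ℂ →L[ℂ] ℂ)‖ ≤ Rb * 1 := by
          gcongr
          · exact hwR i
          · exact ContinuousLinearMap.norm_id_le
      _ = Rb := mul_one _) v with hvw
  have hvwi : ∀ i, vw i = (w i : ℂ) * v i := by
    intro i
    rw [hvw, diagOp_apply]
    simp
  have herr : ‖ptRep h p x ℂ a vw - dlt p j‖ ≤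
      (∑ n ∈ a.support, (ρ ^ K - 1) * ‖CX.toC (a.coeff n)‖) * ‖vw‖ := by
    apply norm_le_of_maj
    · intro n
      exact mul_nonneg (by linarith) (norm_nonneg _)
    · intro i
      have h1 : (dlt p j) i = (w i : ℂ) * (ptRep h p x ℂ a v) i := by
        rw [hv, dlt_apply]
        split_ifs with hij
        · rw [hij, hwj]; simp
        · simp
      have h2 : (ptRep h p x ℂ a vw - dlt p j) i = ∑ n ∈ a.support,
          ((w (i - toAdd n) - w i : ℝ) : ℂ) * a.coeff n ((h ^ i : X ≃ₜ X) x) *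
            v (i - toAdd n) := by
        rw [lp.coeFn_sub, Pi.sub_apply, h1, ptRep_apply, ptRep_apply, Finset.mul_sum,
          ← Finset.sum_sub_distrib]
        refine Finset.sum_congr rfl fun n _ => ?_
        rw [hvwi, smul_eq_mul, smul_eq_mul]
        push_cast
        ring
      rw [h2]
      refine (norm_sum_le _ _).trans (Finset.sum_le_sum fun n hn => ?_)
      rw [norm_mul, norm_mul, Complex.norm_real, Real.norm_eq_abs, hvwi, norm_mul,
        Complex.norm_real, Real.norm_of_nonneg (hw0 _).le]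
      have h3 := hw2 i (i - toAdd n) (by
        have := hK n hn
        rw [Int.abs_eq_natAbs] at this
        omega)
      have h4 : ‖a.coeff n ((h ^ i : X ≃ₜ X) x)‖ ≤ ‖CX.toC (a.coeff n)‖ :=
        (CX.toC (a.coeff n)).norm_coe_le_norm _
      calc _ ≤ ((ρ ^ K - 1) * w (i - toAdd n)) * ‖CX.toC (a.coeff n)‖ * ‖v (i - toAdd n)‖ := by
            gcongr
        _ = _ := by ring
  rw [← Finset.mul_sum] at herr
  have h5 : ‖ptRep h p x ℂ a vw - dlt p j‖ ≤ c / 2 * ‖vw‖ :=
    herr.trans (by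
      have : (ρ ^ K - 1) * ∑ n ∈ a.support, ‖CX.toC (a.coeff n)‖ = (ρ ^ K - 1) * l1 a := rfl
      rw [this]
      gcongr)
  have h6 : ‖dlt p j‖ = 1 := by
    unfold dlt
    rw [lp.norm_single (pos_iff_ne_zero.mpr p_ne_zero)]
    simp
  have h7 : ‖ptRep h p x ℂ a vw‖ ≤ c / 2 * ‖vw‖ + 1 := by
    calc _ = ‖(ptRep h p x ℂ a vw - dlt p j) + dlt p j‖ := by rw [sub_add_cancel]
      _ ≤ _ := (norm_add_le _ _).trans (by rw [h6]; gcongr)
  have h8 := hlow vw
  have h9 : ‖vw‖ ≤ 2 / c := by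
    rw [le_div_iff₀ hc]
    nlinarith
  have h10 : Rb * ‖v i0‖ ≤ 2 / c := by
    have := (lp.norm_apply_le_norm p_ne_zero vw i0).trans h9
    rwa [hvwi, norm_mul, Complex.norm_real, Real.norm_of_nonneg (hw0 _).le, hwi0] at this
  rw [inv_pow, ← div_eq_mul_inv, le_div_iff₀ (by positivity), mul_comm]
  exact h10

lemma exists_rho (K : ℕ) (A c : ℝ) (hc : 0 < c) :
    ∃ ρ : ℝ, 1 < ρ ∧ (ρ ^ K - 1) * A ≤ c / 2 := by
  have h1 : Tendsto (fun ρ : ℝ => (ρ ^ K - 1) * A) (𝓝 1) (𝓝 ((1 ^ K - 1) * A)) := by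
    apply Continuous.tendsto
    fun_prop
  rw [one_pow, sub_self, zero_mul] at h1
  have h2 : ∀ᶠ ρ in 𝓝[>] (1 : ℝ), (ρ ^ K - 1) * A < c / 2 :=
    (h1.mono_left nhdsWithin_le_nhds).eventually_lt_const (by linarith)
  obtain ⟨ρ, hρ1, hρ2⟩ := (h2.and self_mem_nhdsWithin).exists
  exact ⟨ρ, hρ2, hρ1.le⟩

/-- Uniform invertibility at all points gives decaying rows for `a` and its transpose. -/
theorem inv_case {a : Cc h} {c : ℝ} (hc : 0 < c)
    (hlow : ∀ (x : X) (ξ : LZ p ℂ), c * ‖ξ‖ ≤ ‖ptRep h p x ℂ a ξ‖)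
    (hsurj : ∀ x : X, Function.Surjective (ptRep h p x ℂ a)) :
    ∃ C θ : ℝ, 0 ≤ C ∧ 0 ≤ θ ∧ θ < 1 ∧ RowInv a C θ ∧ RowInv (tr a) C θ := by
  obtain ⟨K, hK⟩ := exists_band a
  obtain ⟨ρ, hρ1, hρ2⟩ := exists_rho K (l1 a) c hc
  choose v hv using fun (x : X) (j : ℤ) => hsurj x (dlt p j)
  have hdec : ∀ x j i, ‖v x j i‖ ≤ 2 / c * ρ⁻¹ ^ (i - j).natAbs := fun x j i =>
    decay hK hc hρ1.le hρ2 (hlow x) (hv x j) i
  have hinj : ∀ x : X, Function.Injective (ptRep h p x ℂ a) := by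
    intro x ξ ξ' hξ
    have h1 := hlow x (ξ - ξ')
    rw [map_sub, hξ, sub_self, norm_zero] at h1
    have h2 : ‖ξ - ξ'‖ ≤ 0 := by
      by_contra hcon
      push Not at hcon
      have := mul_pos hc hcon
      linarith
    exact sub_eq_zero.mp (norm_le_zero_iff.mp h2)
  refine ⟨2 / c, ρ⁻¹, by positivity, by positivity, inv_lt_one_of_one_lt₀ hρ1, ?_, ?_⟩
  · intro x
    refine ⟨fun j => v x j 0, fun j => ?_, fun k => ?_⟩
    · have := hdec x j 0
      rwa [zero_sub, Int.natAbs_neg] at this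
    · have h1 : ∑ n ∈ a.support, (a.coeff n ((h ^ (k + toAdd n) : X ≃ₜ X) x)) •
          v x (k + toAdd n) = dlt p k := by
        apply hinj x
        rw [map_sum, ptRep_dlt]
        refine Finset.sum_congr rfl fun n _ => ?_
        rw [map_smul, hv]
      have h2 := congrArg (fun ξ : LZ p ℂ => ξ 0) h1
      simp only [lp.coeFn_sum, Finset.sum_apply, lp.coeFn_smul, Pi.smul_apply, smul_eq_mul] at h2
      rw [dlt_apply] at h2
      have h3 : (if (0 : ℤ) = k then (1 : ℂ) else 0) = if k = 0 then 1 else 0 := by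
        by_cases hk : k = 0
        · rw [if_pos hk.symm, if_pos hk]
        · rw [if_neg (fun H => hk H.symm), if_neg hk]
      rw [h3] at h2
      rw [← h2, actR]
      refine Finset.sum_congr rfl fun n _ => ?_
      rw [mul_comm]
  · intro x
    refine ⟨fun j => v x 0 j, fun j => ?_, fun k => ?_⟩
    · have := hdec x 0 j
      rwa [sub_zero] at this
    · have h1 := congrArg (fun ξ : LZ p ℂ => ξ k) (hv x 0)
      simp only [dlt_apply, ptRep_apply] at h1
      rw [← h1, actR, support_tr, Finset.sum_map]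
      refine Finset.sum_congr rfl fun n _ => ?_
      have h2 : toAdd ((Equiv.inv (Multiplicative ℤ)).toEmbedding n) = -(toAdd n) := rfl
      rw [h2, coeff_tr, h2, alphaPow_apply, ← Homeomorph.mul_apply, ← zpow_add, smul_eq_mul,
        mul_comm]
      have h3 : (((Equiv.inv (Multiplicative ℤ)).toEmbedding n)⁻¹ : Multiplicative ℤ) = n := by
        simp
      rw [h3]
      congr 2
      congr 2
      ring

end decay

end Pool.Agent.H25.SR
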