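import Pool.Agent.H25.SrFun

/-!
# Approximate kernels and cokernels produce zero divisors
-/

open scoped ENNReal Topology
open Multiplicative Filter

noncomputable section

namespace Pool.Agent.H25.SR

variable {X : Type} [TopologicalSpace X] {h : X ≃ₜ X}

section alg

variable {U : Set X} {hU : IsClopen U} {R : ℕ}

lemma fu_chi_ne_zero {x : X} (hx : x ∈ U) : (fu (chi U hU) 0 : Cc h) ≠ 0 := by
  intro h0
  have h1 := congrArg (fun a : Cc h => a.coeff (ofAdd 0) x) h0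
  simp only [coeff_fu, toAdd_ofAdd, if_true] at h1
  rw [chi_of_mem hU hx] at h1
  exact one_ne_zero h1

lemma idem_facts {X1 Y1 : Cc h} (hYX : Y1 * X1 = fu (chi U hU) 0)
    (hcY : fu (chi U hU) 0 * Y1 = Y1) {x : X} (hx : x ∈ U) :
    (X1 * Y1) * (X1 * Y1) = X1 * Y1 ∧ X1 * Y1 ≠ 0 := by
  constructor
  · rw [mul_assoc, ← mul_assoc Y1, hYX, hcY]
  · intro h0
    have h1 : (fu (chi U hU) 0 : Cc h) * fu (chi U hU) 0 = 0 := by
      rw [← hYX]
      have : Y1 * X1 * (Y1 * X1) = Y1 * (X1 * Y1) * X1 := by noncomm_ring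
      rw [this, h0, mul_zero, zero_mul]
    have h2 : (fu (chi U hU) 0 : Cc h) * fu (chi U hU) 0 = fu (chi U hU) 0 := by
      rw [fu_mul_fu, alphaPow_zero, add_zero]
      congr 1
      ext y
      rw [CX.mul_apply]
      by_cases hy : y ∈ U
      · rw [chi_of_mem hU hy, mul_one]
      · rw [chi_of_notMem hU hy, mul_zero]
    rw [h2] at h1
    exact fu_chi_ne_zero hx h1

end alg

section vec

variable {p : ℝ≥0∞} [Fact (1 ≤ p)]

omit [Fact (1 ≤ p)] in
lemma dlt_smul (j : ℤ) (c : ℂ) : c • dlt p j = lp.single p j c := by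
  unfold dlt
  rw [← lp.single_smul]
  simp

omit [Fact (1 ≤ p)] in
/-- A finitely supported vector is a finite sum of unit vectors. -/
lemma eq_sum_dlt (R : ℕ) (ξ : LZ p ℂ) (hξ : ∀ i : ℤ, (R : ℤ) < |i| → ξ i = 0) :
    ξ = ∑ i ∈ Finset.Icc (-(R : ℤ)) R, (ξ i) • dlt p i := by
  ext k
  rw [lp.coeFn_sum, Finset.sum_apply]
  simp only [lp.coeFn_smul, Pi.smul_apply, dlt_apply, smul_eq_mul, mul_ite, mul_one, mul_zero]
  rw [Finset.sum_ite_eq]
  split_ifs with hk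
  · rfl
  · apply hξ
    by_contra hcon
    apply hk
    rw [not_lt, abs_le] at hcon
    rw [Finset.mem_Icc]
    exact hcon

variable [CompactSpace X]

lemma ptRep_apply' (x : X) (a : Cc h) (ξ : LZ p ℂ) (i : ℤ) :
    ptRep h p x ℂ a ξ i = actV a x ξ i := by
  rw [ptRep_apply]
  rfl

lemma ptRep_dlt (x : X) (a : Cc h) (k : ℤ) :
    ptRep h p x ℂ a (dlt p k) = ∑ n ∈ a.support,
      (a.coeff n ((h ^ (k + toAdd n) : X ≃ₜ X) x)) • dlt p (k + toAdd n) := by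
  ext i
  rw [ptRep_apply, lp.coeFn_sum, Finset.sum_apply]
  refine Finset.sum_congr rfl fun n _ => ?_
  rw [lp.coeFn_smul, Pi.smul_apply, dlt_apply, dlt_apply]
  by_cases hi : i = k + toAdd n
  · rw [if_pos (by omega), if_pos hi, hi]
  · rw [if_neg (by omega), if_neg hi, smul_zero, smul_zero]

end vec

section cases

variable {p : ℝ≥0∞} [Fact (1 ≤ p)] [CompactSpace X] [T2Space X] [TotallyDisconnectedSpace X]

/-- An approximate kernel vector gives a nearby right zero divisor. -/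
theorem kernel_case (hp : p ≠ ∞) (hp2 : p ≠ 2) (ha : Aper h) {a : Cc h} (haLC : a ∈ LC h) {x : X}
    {ξ : LZ p ℂ} (R : ℕ) (hξ : ∀ i : ℤ, (R : ℤ) < |i| → ξ i = 0) (hξ1 : ‖ξ‖ = 1) {ε : ℝ}
    (hε : ‖ptRep h p x ℂ a ξ‖ ≤ ε) :
    ∃ a' e : Cc h, a' ∈ LC h ∧ e ∈ LC h ∧ e ≠ 0 ∧ a' * e = 0 ∧ redNorm p (a - a') ≤ ε := by
  have hr : 0 < p.toReal := toReal_pos' hp
  obtain ⟨φ, hφ1, hφ2⟩ := exists_dual_vector ℂ ξ (by rw [hξ1]; exact one_ne_zero)
  obtain ⟨K, hK⟩ := exists_band a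
  obtain ⟨U, hU, hxU, hst, hs⟩ := exists_stab ha haLC x (R + K) (2 * (R + K))
  set η : ℤ → ℂ := fun j => φ (dlt p j) with hη
  set X1 : Cc h := colElt (Finset.Icc (-(R : ℤ)) R) ξ U hU with hX1
  set Y1 : Cc h := rowElt (Finset.Icc (-(R : ℤ)) R) η U hU with hY1
  have hs' : SepT h U (2 * R) := hs.mono (by omega)
  have hsum : ∑ i ∈ Finset.Icc (-(R : ℤ)) R, η i * ξ i = 1 := by
    have h1 := congrArg φ (eq_sum_dlt R ξ hξ)
    rw [hφ2, hξ1, map_sum] at h1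
    simp only [map_smul, smul_eq_mul] at h1
    have h2 : (((1 : ℝ) : ℂ)) = 1 := by norm_num
    rw [← h2]
    refine Eq.trans (Finset.sum_congr rfl fun i _ => ?_) h1.symm
    rw [mul_comm]
  have hYX : Y1 * X1 = fu (chi U hU) 0 := by
    rw [hX1, hY1, row_col hs', hsum, one_smul]
  have hcY : fu (chi U hU) 0 * Y1 = Y1 := chi_row _ _
  obtain ⟨hidem, hne⟩ := idem_facts hYX hcY hxU
  have hX1LC : X1 ∈ LC h := col_mem_LC _ _
  have hY1LC : Y1 ∈ LC h := row_mem_LC _ _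
  have heLC : X1 * Y1 ∈ LC h := mul_mem hX1LC hY1LC
  have haX : redNorm p (a * X1) ≤ ε := by
    rw [hX1, mul_col hK hst ξ hξ]
    refine (redNorm_col_le hp hp2 _ _ U hU hs.sep).trans (le_trans ?_ hε)
    have h1 := lp.sum_rpow_le_norm_rpow hr (ptRep h p x ℂ a ξ)
      (Finset.Icc (-((R + K : ℕ) : ℤ)) ((R + K : ℕ) : ℤ))
    simp only [ptRep_apply'] at h1
    calc _ ≤ (‖ptRep h p x ℂ a ξ‖ ^ p.toReal) ^ (1 / p.toReal) := by
          gcongr
      _ = _ := by rw [← Real.rpow_mul (norm_nonneg _), mul_one_div_cancel hr.ne', Real.rpow_one]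
  have hY : redNorm p Y1 ≤ 1 := by
    refine redNorm_row_le hp hp2 _ _ 1 zero_le_one ?_ U hU hs'.sep
    intro t ht
    have := dual_bound hp φ (Finset.Icc (-(R : ℤ)) R) t ht
    rwa [hφ1] at this
  refine ⟨a - a * (X1 * Y1), X1 * Y1, sub_mem haLC (mul_mem haLC heLC), heLC, hne, ?_, ?_⟩
  · rw [sub_mul, mul_assoc a, hidem, sub_self]
  · rw [sub_sub_cancel, ← mul_assoc]
    have hε0 : 0 ≤ ε := (norm_nonneg _).trans hε
    calc redNorm p (a * X1 * Y1) ≤ redNorm p (a * X1) * redNorm p Y1 := redNorm_mul_le _ _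
      _ ≤ ε * 1 := mul_le_mul haX hY (redNorm_nonneg _) hε0
      _ = ε := mul_one _

/-- A functional vanishing on the range of `T_x(a)` gives a nearby left zero divisor. -/
theorem cokernel_case (hp : p ≠ ∞) (hp2 : p ≠ 2) (ha : Aper h) {a : Cc h} (haLC : a ∈ LC h) {x : X}
    {φ : LZ p ℂ →L[ℂ] ℂ} (hφ : φ ≠ 0) (hφT : ∀ ξ, φ (ptRep h p x ℂ a ξ) = 0) {ε : ℝ}
    (hε : 0 < ε) :
    ∃ a' e : Cc h, a' ∈ LC h ∧ e ∈ LC h ∧ e ≠ 0 ∧ e * a' = 0 ∧ redNorm p (a - a') ≤ ε := by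
  classical
  have hr : 0 < p.toReal := toReal_pos' hp
  obtain ⟨i, hi⟩ : ∃ i, φ (dlt p i) ≠ 0 := by
    by_contra hcon
    push Not at hcon
    apply hφ
    ext ξ
    have h1 := (lp.hasSum_single hp ξ).mapL φ
    have h2 : ∀ i, φ (lp.single p i (ξ i)) = 0 := by
      intro i
      rw [← dlt_smul, map_smul, hcon, smul_zero]
    simp only [h2] at h1
    exact h1.unique hasSum_zero
  set c := φ (dlt p i) with hc
  have hcpos : 0 < ‖c‖ := norm_pos_iff.mpr hi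
  obtain ⟨K, hK⟩ := exists_band a
  set A : ℝ := l1 a with hA
  have hA0 : 0 ≤ A := l1_nonneg a
  -- the slope of the cut-off
  set δ : ℝ := ε * ‖c‖ / (K * ‖φ‖ * A + 1) with hδ
  have hden : 0 < K * ‖φ‖ * A + 1 := by positivity
  have hδ0 : 0 < δ := by positivity
  have hδ1 : ‖c‖⁻¹ * (δ * K * ‖φ‖ * A) ≤ ε := by
    have h1 : δ * (K * ‖φ‖ * A) ≤ ε * ‖c‖ := by
      rw [hδ, div_mul_eq_mul_div, div_le_iff₀ hden]
      nlinarith [mul_pos hε hcpos]
    calc ‖c‖⁻¹ * (δ * K * ‖φ‖ * A) = ‖c‖⁻¹ * (δ * (K * ‖φ‖ * A)) := by ring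
      _ ≤ ‖c‖⁻¹ * (ε * ‖c‖) := by gcongr
      _ = ε := by field_simp
  set χ : ℤ → ℝ := fun j => max 0 (1 - δ * |((j - i : ℤ) : ℝ)|) with hχ
  have hχ1 : ∀ j k : ℤ, |χ j - χ k| ≤ δ * |((j - k : ℤ) : ℝ)| := by
    intro j k
    have h1 : |χ j - χ k| ≤ |(1 - δ * |((j - i : ℤ) : ℝ)|) - (1 - δ * |((k - i : ℤ) : ℝ)|)| := by
      have h0 := abs_max_sub_max_le_abs (1 - δ * |((j - i : ℤ) : ℝ)|)
        (1 - δ * |((k - i : ℤ) : ℝ)|) (0 : ℝ)
      rw [max_comm _ (0 : ℝ), max_comm _ (0 : ℝ)] at h0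
      exact h0
    have h2 : (1 - δ * |((j - i : ℤ) : ℝ)|) - (1 - δ * |((k - i : ℤ) : ℝ)|) =
        δ * (|((k - i : ℤ) : ℝ)| - |((j - i : ℤ) : ℝ)|) := by ring
    rw [h2, abs_mul, abs_of_pos hδ0] at h1
    refine h1.trans (mul_le_mul_of_nonneg_left ?_ hδ0.le)
    have h3 := abs_abs_sub_abs_le (((k - i : ℤ) : ℝ)) (((j - i : ℤ) : ℝ))
    refine h3.trans (le_of_eq ?_)
    push_cast
    rw [abs_sub_comm]
    congr 1
    ring
  have hχi : χ i = 1 := by simp [hχ]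
  obtain ⟨R, hR⟩ : ∃ R : ℕ, |(i : ℝ)| + δ⁻¹ ≤ R := exists_nat_ge _
  have hχR : ∀ j : ℤ, (R : ℤ) < |j| → χ j = 0 := by
    intro j hj
    simp only [hχ]
    apply max_eq_left
    have h1 : (R : ℝ) < |(j : ℝ)| := by
      have : ((R : ℤ) : ℝ) < ((|j| : ℤ) : ℝ) := by exact_mod_cast hj
      rwa [Int.cast_natCast, Int.cast_abs] at this
    have h2 : |(j : ℝ)| - |(i : ℝ)| ≤ |((j - i : ℤ) : ℝ)| := by
      push_cast
      exact abs_sub_abs_le_abs_sub _ _
    have h3 : δ⁻¹ ≤ |((j - i : ℤ) : ℝ)| := by linarith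
    have h4 : 1 ≤ δ * |((j - i : ℤ) : ℝ)| := by
      calc (1 : ℝ) = δ * δ⁻¹ := by field_simp
        _ ≤ _ := by gcongr
    linarith
  have hiR : |i| ≤ (R : ℤ) := by
    have h1 : |(i : ℝ)| ≤ R := by
      have : 0 < δ⁻¹ := by positivity
      linarith
    exact_mod_cast h1
  obtain ⟨U, hU, hxU, hst, hs⟩ := exists_stab ha haLC x R (2 * (R + K))
  set η : ℤ → ℂ := fun j => χ j * φ (dlt p j) with hη
  have hη0 : ∀ j : ℤ, (R : ℤ) < |j| → η j = 0 := by
    intro j hj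
    simp only [hη, hχR j hj]
    simp
  set ξ : ℤ → ℂ := Pi.single i c⁻¹ with hξ
  set X1 : Cc h := colElt (Finset.Icc (-(R : ℤ)) R) ξ U hU with hX1
  set Y1 : Cc h := rowElt (Finset.Icc (-(R : ℤ)) R) η U hU with hY1
  have hs' : SepT h U (2 * R) := hs.mono (by omega)
  have hiF : i ∈ Finset.Icc (-(R : ℤ)) R := by
    rw [Finset.mem_Icc]
    exact abs_le.mp hiR
  have hsum : ∑ j ∈ Finset.Icc (-(R : ℤ)) R, η j * ξ j = 1 := by
    rw [Finset.sum_eq_single i]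
    · simp only [hη, hχi, hξ, Pi.single_eq_same, Complex.ofReal_one, one_mul]
      exact mul_inv_cancel₀ hi
    · intro j _ hj
      rw [hξ, Pi.single_eq_of_ne hj, mul_zero]
    · intro H
      exact absurd hiF H
  have hYX : Y1 * X1 = fu (chi U hU) 0 := by
    rw [hX1, hY1, row_col hs', hsum, one_smul]
  have hcY : fu (chi U hU) 0 * Y1 = Y1 := chi_row _ _
  obtain ⟨hidem, hne⟩ := idem_facts hYX hcY hxU
  have hX1LC : X1 ∈ LC h := col_mem_LC _ _
  have hY1LC : Y1 ∈ LC h := row_mem_LC _ _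
  have heLC : X1 * Y1 ∈ LC h := mul_mem hX1LC hY1LC
  have hX : redNorm p X1 ≤ ‖c‖⁻¹ := by
    refine (redNorm_col_le hp hp2 _ _ U hU hs'.sep).trans (le_of_eq ?_)
    rw [Finset.sum_eq_single i]
    · rw [hξ, Pi.single_eq_same, ← Real.rpow_mul (norm_nonneg _), mul_one_div_cancel hr.ne',
        Real.rpow_one, norm_inv]
    · intro j _ hj
      rw [hξ, Pi.single_eq_of_ne hj, norm_zero, Real.zero_rpow hr.ne']
    · intro H
      exact absurd hiF H
  -- the functional `η T`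
  have hact : ∀ k : ℤ, ‖actR a x η k‖ ≤
      ∑ n ∈ a.support, δ * K * ‖CX.toC (a.coeff n)‖ * ‖φ (dlt p (k + toAdd n))‖ := by
    intro k
    have h1 : ∑ n ∈ a.support,
        (a.coeff n ((h ^ (k + toAdd n) : X ≃ₜ X) x)) * φ (dlt p (k + toAdd n)) = 0 := by
      have := hφT (dlt p k)
      rw [ptRep_dlt, map_sum] at this
      simpa only [map_smul, smul_eq_mul] using this
    have h2 : actR a x η k = ∑ n ∈ a.support, ((χ (k + toAdd n) - χ k : ℝ) : ℂ) *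
        (a.coeff n ((h ^ (k + toAdd n) : X ≃ₜ X) x)) * φ (dlt p (k + toAdd n)) := by
      have h3 : (χ k : ℂ) * ∑ n ∈ a.support,
        (a.coeff n ((h ^ (k + toAdd n) : X ≃ₜ X) x)) * φ (dlt p (k + toAdd n)) = 0 := by
        rw [h1, mul_zero]
      rw [Finset.mul_sum] at h3
      rw [← sub_zero (actR a x η k), ← h3, actR, ← Finset.sum_sub_distrib]
      refine Finset.sum_congr rfl fun n _ => ?_
      simp only [hη]
      push_cast
      ring
    rw [h2]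
    refine (norm_sum_le _ _).trans (Finset.sum_le_sum fun n hn => ?_)
    rw [norm_mul, norm_mul, Complex.norm_real, Real.norm_eq_abs]
    have h4 : |χ (k + toAdd n) - χ k| ≤ δ * K := by
      refine (hχ1 _ _).trans ?_
      gcongr
      have h5 : k + toAdd n - k = toAdd n := by ring
      rw [h5]
      have := hK n hn
      have h6 : ((|toAdd n| : ℤ) : ℝ) ≤ ((K : ℤ) : ℝ) := by exact_mod_cast this
      rwa [Int.cast_abs, Int.cast_natCast] at h6
    have h5 : ‖a.coeff n ((h ^ (k + toAdd n) : X ≃ₜ X) x)‖ ≤ ‖CX.toC (a.coeff n)‖ :=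
      (CX.toC (a.coeff n)).norm_coe_le_norm _
    gcongr
  have hD0 : 0 ≤ δ * K * ‖φ‖ * A := by positivity
  have hbd : DualBd p.toReal (Finset.Icc (-((R + K : ℕ) : ℤ)) ((R + K : ℕ) : ℤ)) (actR a x η)
      (δ * K * ‖φ‖ * A) := by
    intro t ht
    set F := Finset.Icc (-((R + K : ℕ) : ℤ)) ((R + K : ℕ) : ℤ) with hF
    set S : ℝ := (∑ j ∈ F, t j ^ p.toReal) ^ (1 / p.toReal) with hS
    have hin : ∀ n : ℤ, ∑ k ∈ F, ‖φ (dlt p (k + n))‖ * t k ≤ ‖φ‖ * S := by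
      intro n
      have h1 := dual_bound hp φ (F.map (Equiv.addRight n).toEmbedding) (fun j => t (j - n))
        (fun j => ht _)
      rw [Finset.sum_map, Finset.sum_map] at h1
      simpa [hS] using h1
    calc ∑ k ∈ F, ‖actR a x η k‖ * t k
        ≤ ∑ k ∈ F, (∑ n ∈ a.support, δ * K * ‖CX.toC (a.coeff n)‖ *
            ‖φ (dlt p (k + toAdd n))‖) * t k := by
          refine Finset.sum_le_sum fun k _ => ?_
          exact mul_le_mul_of_nonneg_right (hact k) (ht k)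
      _ = ∑ n ∈ a.support, δ * K * ‖CX.toC (a.coeff n)‖ *
            ∑ k ∈ F, ‖φ (dlt p (k + toAdd n))‖ * t k := by
          simp only [Finset.sum_mul, Finset.mul_sum]
          rw [Finset.sum_comm]
          refine Finset.sum_congr rfl fun n _ => Finset.sum_congr rfl fun k _ => ?_
          ring
      _ ≤ ∑ n ∈ a.support, δ * K * ‖CX.toC (a.coeff n)‖ * (‖φ‖ * S) := by
          refine Finset.sum_le_sum fun n _ => ?_
          exact mul_le_mul_of_nonneg_left (hin _) (by positivity)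
      _ = δ * K * ‖φ‖ * A * S := by
          rw [hA, l1, Finset.mul_sum, Finset.sum_mul]
          refine Finset.sum_congr rfl fun n _ => ?_
          ring
  have hYa : redNorm p (Y1 * a) ≤ δ * K * ‖φ‖ * A := by
    rw [hY1, row_mul hK hst η hη0]
    exact redNorm_row_le hp hp2 _ _ _ hD0 hbd U hU hs.sep
  refine ⟨a - (X1 * Y1) * a, X1 * Y1, sub_mem haLC (mul_mem heLC haLC), heLC, hne, ?_, ?_⟩
  · rw [mul_sub, ← mul_assoc (X1 * Y1) (X1 * Y1), hidem, sub_self]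
  · rw [sub_sub_cancel, mul_assoc]
    calc redNorm p (X1 * (Y1 * a)) ≤ redNorm p X1 * redNorm p (Y1 * a) := redNorm_mul_le _ _
      _ ≤ ‖c‖⁻¹ * (δ * K * ‖φ‖ * A) := mul_le_mul hX hYa (redNorm_nonneg _) (by positivity)
      _ ≤ ε := hδ1

end cases

end Pool.Agent.H25.SR
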