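import Pool.Agent.H25.SrInv

/-!
# Stable rank one
-/

open scoped ENNReal Topology
open Multiplicative Filter

noncomputable section

namespace Pool.Agent.H25.SR

variable {X : Type} [TopologicalSpace X] {h : X ≃ₜ X}

/-- A homeomorphism is minimal if every orbit is dense. -/
def IsMinimalHomeo (h : X ≃ₜ X) : Prop :=
  ∀ x : X, Dense (Set.range fun n : ℤ => (h ^ n : X ≃ₜ X) x)

lemma zpow_fix {g : X ≃ₜ X} {x : X} (hx : g x = x) (q : ℤ) : (g ^ q : X ≃ₜ X) x = x := by
  have hinv : (g⁻¹ : X ≃ₜ X) x = x := by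
    calc (g⁻¹ : X ≃ₜ X) x = (g⁻¹ : X ≃ₜ X) (g x) := by rw [hx]
      _ = x := by rw [← Homeomorph.mul_apply, inv_mul_cancel, Homeomorph.one_apply]
  induction q using Int.induction_on with
  | zero => simp
  | succ n ih => rw [zpow_add_one, Homeomorph.mul_apply, hx, ih]
  | pred n ih => rw [zpow_sub_one, Homeomorph.mul_apply, hinv, ih]

lemma aper_of_minimal [T2Space X] [Infinite X] (hmin : IsMinimalHomeo h) : Aper h := by
  intro x n hn hx
  have hfin : (Set.range fun m : ℤ => (h ^ m : X ≃ₜ X) x).Finite := by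
    refine Set.Finite.subset ((Finset.Icc (0 : ℤ) |n|).finite_toSet.image
      (fun m : ℤ => (h ^ m : X ≃ₜ X) x)) ?_
    rintro _ ⟨m, rfl⟩
    refine ⟨m % n, ?_, ?_⟩
    · simp only [Finset.coe_Icc, Set.mem_Icc]
      exact ⟨Int.emod_nonneg _ hn, (Int.emod_lt_abs _ hn).le⟩
    · have h1 : m = m % n + n * (m / n) := (Int.emod_add_mul_ediv m n).symm
      have h2 : (h ^ m : X ≃ₜ X) x = (h ^ (m % n + n * (m / n)) : X ≃ₜ X) x := by rw [← h1]
      simp only
      rw [h2, zpow_add, Homeomorph.mul_apply, zpow_mul, zpow_fix hx]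
  have h1 := (hmin x).closure_eq
  rw [hfin.isClosed.closure_eq] at h1
  rw [h1] at hfin
  exact Set.infinite_univ hfin

lemma backHit_of_minimal [CompactSpace X] (hmin : IsMinimalHomeo h) : BackHit h := by
  intro U hUo hUne x
  have hcov : (Set.univ : Set X) ⊆ ⋃ k : ℤ, (h ^ k : X ≃ₜ X) ⁻¹' U := by
    intro y _
    obtain ⟨z, hzU, ⟨k, hk⟩⟩ := (hmin y).inter_open_nonempty U hUo hUne
    rw [Set.mem_iUnion]
    refine ⟨k, ?_⟩
    simp only at hk
    rw [Set.mem_preimage, hk]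
    exact hzU
  obtain ⟨t, ht⟩ := isCompact_univ.elim_finite_subcover _
    (fun k => hUo.preimage (h ^ k : X ≃ₜ X).continuous) hcov
  set K : ℕ := ∑ k ∈ t, k.natAbs with hK
  have hx := ht (Set.mem_univ ((h ^ (-(K : ℤ)) : X ≃ₜ X) x))
  simp only [Set.mem_iUnion, Set.mem_preimage] at hx
  obtain ⟨k, hkt, hk⟩ := hx
  have hkK : k.natAbs ≤ K := Finset.single_le_sum (f := fun k : ℤ => k.natAbs)
    (fun _ _ => Nat.zero_le _) hkt
  refine ⟨(K - k).toNat, ?_⟩
  rw [← Homeomorph.mul_apply, ← zpow_add] at hk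
  have h1 : -(((K : ℤ) - k).toNat : ℤ) = k + -(K : ℤ) := by omega
  rw [h1]
  exact hk

section approx

variable [CompactSpace X] [T2Space X] [TotallyDisconnectedSpace X]

/-- The star subalgebra of locally constant functions. -/
def lcStar (X : Type) [TopologicalSpace X] : StarSubalgebra ℂ C(X, ℂ) where
  carrier := {f | IsLocallyConstant (f : X → ℂ)}
  mul_mem' := fun hf hg => IsLocallyConstant.mul hf hg
  add_mem' := fun hf hg => IsLocallyConstant.add hf hg
  algebraMap_mem' := fun c => IsLocallyConstant.const c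
  star_mem' := fun hf => IsLocallyConstant.comp hf star

lemma lcStar_sep : (lcStar X).SeparatesPoints := by
  intro x y hxy
  obtain ⟨U, hU, hxU, hUy⟩ := compact_exists_isClopen_in_isOpen
    (isOpen_compl_singleton (x := y)) (show x ∈ ({y}ᶜ : Set X) from hxy)
  have hyU : y ∉ U := fun hy => hUy hy rfl
  refine ⟨chiC U hU, ⟨chiC U hU, isLC_chi (h := Homeomorph.refl X) U hU, rfl⟩, ?_⟩
  rw [chiC_apply, chiC_apply, Set.indicator_of_mem hxU, Set.indicator_of_notMem hyU]
  exact one_ne_zero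

lemma exists_lc_approx (f : CX h) {ε : ℝ} (hε : 0 < ε) :
    ∃ g : CX h, IsLC g ∧ ‖CX.toC (f - g)‖ ≤ ε := by
  have h1 := ContinuousMap.starSubalgebra_topologicalClosure_eq_top_of_separatesPoints
    (lcStar X) lcStar_sep
  have h2 : CX.toC f ∈ (lcStar X).topologicalClosure := by rw [h1]; trivial
  have h3 : CX.toC f ∈ closure ((lcStar X : Set C(X, ℂ))) := h2
  rw [Metric.mem_closure_iff] at h3
  obtain ⟨g, hg, hfg⟩ := h3 ε hε
  refine ⟨CX.toC.symm g, hg, ?_⟩
  rw [dist_eq_norm] at hfg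
  exact hfg.le

omit [T2Space X] [TotallyDisconnectedSpace X] in
lemma l1_fu_le (f : CX h) (n : ℤ) : l1 (fu f n) ≤ ‖CX.toC f‖ := by
  have h1 := l1_le (fu f n) {n} ‖CX.toC f‖ (by
    intro m hm
    rw [coeff_fu, if_neg]
    simpa using hm) (by
    intro m
    rw [coeff_fu]
    split_ifs
    · exact le_rfl
    · rw [map_zero, norm_zero]
      exact norm_nonneg _)
  simpa using h1

omit [T2Space X] [TotallyDisconnectedSpace X] in
lemma redNorm_sum_le {p : ℝ≥0∞} [Fact (1 ≤ p)] {ι : Type*} (s : Finset ι) (F : ι → Cc h) :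
    redNorm p (∑ i ∈ s, F i) ≤ ∑ i ∈ s, redNorm p (F i) := by
  classical
  induction s using Finset.induction_on with
  | empty => simp [redNorm_zero]
  | insert i s hi ih =>
    rw [Finset.sum_insert hi, Finset.sum_insert hi]
    exact (redNorm_add_le _ _).trans (by gcongr)

lemma exists_LC_approx {p : ℝ≥0∞} [Fact (1 ≤ p)] (a : Cc h) {ε : ℝ} (hε : 0 < ε) :
    ∃ a' ∈ LC h, redNorm p (a - a') ≤ ε := by
  set N : ℝ := a.support.card + 1 with hN
  have hN0 : 0 < N := by positivity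
  choose g hg1 hg2 using fun n : Multiplicative ℤ =>
    exists_lc_approx (a.coeff n) (ε := ε / N) (by positivity)
  refine ⟨∑ n ∈ a.support, fu (g n) (toAdd n), sum_mem fun n _ => fu_mem_LC (hg1 n) _, ?_⟩
  have h1 : a - ∑ n ∈ a.support, fu (g n) (toAdd n) =
      ∑ n ∈ a.support, fu (a.coeff n - g n) (toAdd n) := by
    refine (congrArg (fun b => b - ∑ n ∈ a.support, fu (g n) (toAdd n)) (eq_sum_fu a)).trans ?_
    rw [← Finset.sum_sub_distrib]
    refine Finset.sum_congr rfl fun n _ => ?_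
    rw [fu_sub]
  rw [h1]
  calc _ ≤ ∑ n ∈ a.support, redNorm p (fu (a.coeff n - g n) (toAdd n)) := redNorm_sum_le _ _
    _ ≤ ∑ n ∈ a.support, ε / N := by
      refine Finset.sum_le_sum fun n _ => ?_
      exact (redNorm_le_l1 _).trans ((l1_fu_le _ _).trans (hg2 n))
    _ = a.support.card * (ε / N) := by rw [Finset.sum_const, nsmul_eq_mul]
    _ ≤ N * (ε / N) := by gcongr; rw [hN]; linarith
    _ = ε := by field_simp

omit [T2Space X] [TotallyDisconnectedSpace X] in
lemma GoodLim.exists_unit {p : ℝ≥0∞} [Fact (1 ≤ p)] {c : Cc h} (H : GoodLim c) {ε : ℝ}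
    (hε : 0 < ε) : ∃ g : Cc h, IsUnit g ∧ redNorm p (c - g) ≤ ε := by
  obtain ⟨w, hw⟩ := H
  set δ : ℝ := ε / (redNorm p w + 1) with hδ
  have hden : 0 < redNorm p w + 1 := by
    have := redNorm_nonneg (p := p) w
    linarith
  have hδ0 : 0 < δ := by positivity
  have hinf : (Metric.ball (0 : ℂ) δ).Infinite :=
    infinite_of_mem_nhds (0 : ℂ) (Metric.ball_mem_nhds 0 hδ0)
  obtain ⟨l, hl1, hl2⟩ : ∃ l ∈ Metric.ball (0 : ℂ) δ, l ∉ {l : ℂ | ¬ IsUnit (c + l • w)} := by
    by_contra hcon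
    push Not at hcon
    exact hinf (hw.subset hcon)
  simp only [Set.mem_ofPred_eq, not_not] at hl2
  refine ⟨c + l • w, hl2, ?_⟩
  rw [sub_add_cancel_left, redNorm_neg]
  rw [mem_ball_zero_iff] at hl1
  calc redNorm p (l • w) ≤ ‖l‖ * redNorm p w := redNorm_smul_le _ _
    _ ≤ δ * (redNorm p w + 1) := by
      apply mul_le_mul hl1.le (by linarith) (redNorm_nonneg _) hδ0.le
    _ = ε := by rw [hδ]; field_simp

end approx

section final

variable {p : ℝ≥0∞} [Fact (1 ≤ p)]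

section vec

variable {E : Type} [NormedAddCommGroup E] [NormedSpace ℂ E] [CompleteSpace E]

/-- A bounded below operator that is not onto is annihilated by a nonzero functional. -/
lemma exists_functional {T : E →L[ℂ] E} {c : ℝ} (hc : 0 < c) (hlow : ∀ ξ, c * ‖ξ‖ ≤ ‖T ξ‖)
    (hns : ¬ Function.Surjective T) : ∃ φ : E →L[ℂ] ℂ, φ ≠ 0 ∧ ∀ ξ, φ (T ξ) = 0 := by
  have hanti : AntilipschitzWith (Real.toNNReal c⁻¹) T := by
    apply AddMonoidHomClass.antilipschitz_of_bound
    intro ξ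
    have h1 := hlow ξ
    rw [Real.coe_toNNReal _ (by positivity), inv_mul_eq_div, le_div_iff₀ hc, mul_comm]
    exact h1
  have hcl : IsClosed (Set.range T) := hanti.isClosed_range T.uniformContinuous
  obtain ⟨y, hy⟩ : ∃ y, y ∉ Set.range T := by
    by_contra hcon
    push Not at hcon
    exact hns hcon
  have hconv : Convex ℝ (Set.range T) := by
    have h1 : Set.range T = ((LinearMap.range (T : E →ₗ[ℂ] E)).restrictScalars ℝ : Set E) := by
      ext z
      simp
    rw [h1]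
    exact Submodule.convex _
  obtain ⟨φ, u, h1, h2⟩ := RCLike.geometric_hahn_banach_point_closed (𝕜 := ℂ) hconv hcl hy
  have h3 : ∀ ξ, φ (T ξ) = 0 := by
    intro ξ
    by_contra hne
    have h4 := h2 (T (((((u - 1 : ℝ) : ℂ)) / φ (T ξ)) • ξ)) ⟨_, rfl⟩
    rw [map_smul, map_smul, smul_eq_mul, div_mul_cancel₀ _ hne] at h4
    simp only [RCLike.re_to_complex, Complex.ofReal_re] at h4
    linarith
  refine ⟨φ, ?_, h3⟩
  rintro rfl
  have h5 := h2 0 ⟨0, map_zero T⟩
  simp only [zero_apply, map_zero] at h1 h5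
  linarith

end vec

/-- Approximation of vectors by finitely supported ones. -/
lemma exists_fin_supp (hp : p ≠ ∞) {T : LZ p ℂ →L[ℂ] LZ p ℂ} {ε : ℝ} {ξ : LZ p ℂ}
    (H : ‖T ξ‖ < ε * ‖ξ‖) : ∃ (R : ℕ) (ζ : LZ p ℂ), (∀ i : ℤ, (R : ℤ) < |i| → ζ i = 0) ∧
      ‖T ζ‖ < ε * ‖ζ‖ := by
  have h1 : Tendsto (fun R : ℕ => Finset.Icc (-(R : ℤ)) R) atTop atTop := by
    apply Filter.tendsto_atTop_finset_of_monotone
    · intro R R' hR
      apply Finset.Icc_subset_Icc <;> omega
    · intro i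
      refine ⟨i.natAbs, ?_⟩
      rw [Finset.mem_Icc]
      constructor <;> omega
  have h2 := (lp.hasSum_single hp ξ).comp h1
  have h3 : Continuous fun ζ : LZ p ℂ => ε * ‖ζ‖ - ‖T ζ‖ := by fun_prop
  have h4 := (h3.tendsto ξ).comp h2
  have h5 : 0 < ε * ‖ξ‖ - ‖T ξ‖ := by linarith
  obtain ⟨R, hR⟩ := (h4.eventually_const_lt h5).exists
  refine ⟨R, ∑ i ∈ Finset.Icc (-(R : ℤ)) R, lp.single p i (ξ i), ?_, ?_⟩
  · intro i hi
    rw [lp.coeFn_sum, Finset.sum_apply]
    apply Finset.sum_eq_zero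
    intro j hj
    rw [lp.single_apply_ne]
    rintro rfl
    rw [Finset.mem_Icc, ← abs_le] at hj
    omega
  · simp only [Function.comp_apply] at hR
    linarith

variable [CompactSpace X] [T2Space X] [TotallyDisconnectedSpace X] [Nonempty X]

/-- The trichotomy. -/
theorem trichotomy (hp : p ≠ ∞) (hp2 : p ≠ 2) (ha : Aper h) (hbh : BackHit h) {a : Cc h}
    (haLC : a ∈ LC h) {ε : ℝ} (hε : 0 < ε) :
    (∃ b b' : Cc h, redNorm p (b * a - 1) < 1 ∧ redNorm p (a * b' - 1) < 1) ∨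
      ∃ g : Cc h, IsUnit g ∧ redNorm p (a - g) ≤ ε := by
  have hε2 : 0 < ε / 2 := by positivity
  -- it suffices to find a nearby one-sided zero divisor
  have key : (∃ a' e : Cc h, a' ∈ LC h ∧ e ∈ LC h ∧ e ≠ 0 ∧ (a' * e = 0 ∨ e * a' = 0) ∧
      redNorm p (a - a') ≤ ε / 2) → ∃ g : Cc h, IsUnit g ∧ redNorm p (a - g) ≤ ε := by
    rintro ⟨a', e, ha', he, hne, h0, hd⟩
    have hG : GoodLim a' := by
      rcases h0 with h0 | h0
      · exact goodLim_of_right ha hbh ha' he hne h0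
      · exact goodLim_of_left ha hbh ha' he hne h0
    obtain ⟨g, hg, hg2⟩ := hG.exists_unit (p := p) hε2
    refine ⟨g, hg, ?_⟩
    calc redNorm p (a - g) = redNorm p ((a - a') + (a' - g)) := by rw [sub_add_sub_cancel]
      _ ≤ redNorm p (a - a') + redNorm p (a' - g) := redNorm_add_le _ _
      _ ≤ ε / 2 + ε / 2 := add_le_add hd hg2
      _ = ε := by ring
  by_cases hlow : ∀ (x : X) (ξ : LZ p ℂ), ε / 2 * ‖ξ‖ ≤ ‖ptRep h p x ℂ a ξ‖
  · by_cases hsurj : ∀ x : X, Function.Surjective (ptRep h p x ℂ a)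
    · left
      obtain ⟨C, θ, hC, hθ0, hθ1, hr1, hr2⟩ := inv_case hε2 hlow hsurj
      obtain ⟨b, hb⟩ := exists_left_approx haLC hC hθ0 hθ1 hr1
      obtain ⟨b', hb'⟩ := exists_left_approx (tr_mem_LC haLC) hC hθ0 hθ1 hr2
      refine ⟨b, tr b', (redNorm_le_l1 _).trans_lt hb, (redNorm_le_l1 _).trans_lt ?_⟩
      rw [← l1_tr]
      have : tr (a * tr b' - 1) = b' * tr a - 1 := by
        rw [tr_sub, tr_mul, tr_tr, tr_one]
      rw [this]
      exact hb'
    · right
      push Not at hsurj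
      obtain ⟨x, hx⟩ := hsurj
      obtain ⟨φ, hφ, hφT⟩ := exists_functional hε2 (hlow x) hx
      obtain ⟨a', e, h1, h2, h3, h4, h5⟩ := cokernel_case hp hp2 ha haLC hφ hφT hε2
      exact key ⟨a', e, h1, h2, h3, Or.inr h4, h5⟩
  · right
    push Not at hlow
    obtain ⟨x, ξ, hξ⟩ := hlow
    obtain ⟨R, ζ, hζ1, hζ2⟩ := exists_fin_supp hp hξ
    have hζ0 : 0 < ‖ζ‖ := by
      by_contra hcon
      push Not at hcon
      have : ‖ζ‖ = 0 := le_antisymm hcon (norm_nonneg _)
      rw [this, mul_zero] at hζ2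
      exact absurd hζ2 (not_lt.mpr (norm_nonneg _))
    have hn : ‖((‖ζ‖⁻¹ : ℝ) : ℂ)‖ = ‖ζ‖⁻¹ := by
      rw [Complex.norm_real, Real.norm_of_nonneg (by positivity)]
    obtain ⟨a', e, h1, h2, h3, h4, h5⟩ := kernel_case hp hp2 ha haLC (x := x)
      (ξ := ((‖ζ‖⁻¹ : ℝ) : ℂ) • ζ) R (by
        intro i hi
        rw [lp.coeFn_smul, Pi.smul_apply, hζ1 i hi, smul_zero]) (by
        rw [norm_smul, hn, inv_mul_cancel₀ hζ0.ne']) (ε := ε / 2) (by
        rw [map_smul, norm_smul, hn, inv_mul_le_iff₀ hζ0, mul_comm]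
        exact hζ2.le)
    exact key ⟨a', e, h1, h2, h3, Or.inl h4, h5⟩

/-- The embedding of `C_c(ℤ, C(X))` in the reduced crossed product. -/
def emb (h : X ≃ₜ X) (p : ℝ≥0∞) [Fact (1 ≤ p)] : Cc h →+* Fpr h p :=
  (UniformSpace.Completion.coeRingHom : CcN h p →+* Fpr h p).comp
    (RingHom.id (Cc h) : Cc h →+* CcN h p)

omit [T2Space X] [TotallyDisconnectedSpace X] [Nonempty X] in
lemma norm_emb (a : Cc h) : ‖emb h p a‖ = redNorm p a :=
  UniformSpace.Completion.norm_coe (E := CcN h p) a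

omit [T2Space X] [TotallyDisconnectedSpace X] [Nonempty X] in
lemma emb_denseRange : DenseRange (emb h p) :=
  UniformSpace.Completion.denseRange_coe (α := CcN h p)

omit [T2Space X] [TotallyDisconnectedSpace X] [Nonempty X] in
lemma isUnit_of_near {y : Fpr h p} (hy : ‖y - 1‖ < 1) : IsUnit y := by
  have h1 : ‖1 - y‖ < 1 := by rwa [norm_sub_rev]
  have h2 := isUnit_one_sub_of_norm_lt_one h1
  rwa [sub_sub_cancel] at h2

omit [Nonempty X] in
/-- **Stable rank one.** -/
theorem dense_isUnit [Infinite X] (hp : p ≠ ∞) (hp2 : p ≠ 2) (hmin : IsMinimalHomeo h) :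
    Dense {y : Fpr h p | IsUnit y} := by
  have ha : Aper h := aper_of_minimal hmin
  have hbh : BackHit h := backHit_of_minimal hmin
  rw [Metric.dense_iff]
  intro y r hr
  obtain ⟨a0, ha0⟩ := emb_denseRange.exists_dist_lt y (show 0 < r / 4 by positivity)
  obtain ⟨a, haLC, ha1⟩ := exists_LC_approx (p := p) a0 (show 0 < r / 4 by positivity)
  have hya : ‖y - emb h p a‖ < r / 2 := by
    rw [dist_eq_norm] at ha0
    calc ‖y - emb h p a‖ = ‖(y - emb h p a0) + emb h p (a0 - a)‖ := by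
          rw [map_sub]; congr 1; abel
      _ ≤ ‖y - emb h p a0‖ + ‖emb h p (a0 - a)‖ := norm_add_le _ _
      _ < r / 4 + r / 4 := by
        rw [norm_emb]
        linarith
      _ = r / 2 := by ring
  rcases trichotomy hp hp2 ha hbh haLC (show 0 < r / 4 by positivity) with
    ⟨b, b', hb, hb'⟩ | ⟨g, hg, hg2⟩
  · refine ⟨emb h p a, ?_, ?_⟩
    · rw [Metric.mem_ball, dist_eq_norm, norm_sub_rev]
      linarith
    · have h1 : IsUnit (emb h p b * emb h p a) := by
        apply isUnit_of_near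
        rw [← map_mul, ← map_one (emb h p), ← map_sub, norm_emb]
        exact hb
      have h2 : IsUnit (emb h p a * emb h p b') := by
        apply isUnit_of_near
        rw [← map_mul, ← map_one (emb h p), ← map_sub, norm_emb]
        exact hb'
      obtain ⟨u, hu⟩ := h1
      obtain ⟨w, hw⟩ := h2
      have e1 : ((u⁻¹ : (Fpr h p)ˣ) : Fpr h p) * emb h p b * emb h p a = 1 := by
        rw [mul_assoc, ← hu, Units.inv_mul]
      have e2 : emb h p a * (emb h p b' * ((w⁻¹ : (Fpr h p)ˣ) : Fpr h p)) = 1 := by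
        rw [← mul_assoc, ← hw, Units.mul_inv]
      have e3 := left_inv_eq_right_inv e1 e2
      exact ⟨⟨emb h p a, emb h p b' * ((w⁻¹ : (Fpr h p)ˣ) : Fpr h p), e2, by rw [← e3]; exact e1⟩,
        rfl⟩
  · refine ⟨emb h p g, ?_, hg.map _⟩
    rw [Metric.mem_ball, dist_eq_norm, norm_sub_rev]
    calc ‖y - emb h p g‖ = ‖(y - emb h p a) + emb h p (a - g)‖ := by
          rw [map_sub]; congr 1; abel
      _ ≤ ‖y - emb h p a‖ + ‖emb h p (a - g)‖ := norm_add_le _ _
      _ < r / 2 + r / 4 + r / 4 := by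
        rw [norm_emb]
        linarith
      _ = r := by ring

end final

end Pool.Agent.H25.SR
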