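import Pool.Agent.H25.SrDefs
import Pool.Agent.H25.SrAdd

/-!
# Norm estimates in the reduced `L^p` crossed product
-/

open scoped ENNReal
open MeasureTheory Multiplicative

noncomputable section

namespace Pool.Agent.H25.SR

variable {X : Type} [TopologicalSpace X] {h : X ≃ₜ X}

/-- The characteristic function of a clopen set, as a continuous function. -/
def chiC (U : Set X) (hU : IsClopen U) : C(X, ℂ) :=
  ⟨U.indicator (fun _ => (1 : ℂ)), continuous_indicator (by simp [hU.frontier_eq])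
    continuous_const.continuousOn⟩

lemma chiC_apply (U : Set X) (hU : IsClopen U) (x : X) :
    chiC U hU x = U.indicator (fun _ => (1 : ℂ)) x := rfl

/-- The characteristic function of a clopen set. -/
def chi (U : Set X) (hU : IsClopen U) : CX h := CX.toC.symm (chiC U hU)

lemma chi_apply (U : Set X) (hU : IsClopen U) (x : X) :
    (chi U hU : CX h) x = U.indicator (fun _ => (1 : ℂ)) x := rfl

lemma chi_of_mem {U : Set X} (hU : IsClopen U) {x : X} (hx : x ∈ U) : (chi U hU : CX h) x = 1 := by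
  simp [chi_apply, hx]

lemma chi_of_notMem {U : Set X} (hU : IsClopen U) {x : X} (hx : x ∉ U) :
    (chi U hU : CX h) x = 0 := by
  simp [chi_apply, hx]

/-- The preimage `{x | hⁿ x ∈ U}`. -/
def pre (h : X ≃ₜ X) (n : ℤ) (U : Set X) : Set X := {x | (h ^ n : X ≃ₜ X) x ∈ U}

lemma isClopen_pre {U : Set X} (hU : IsClopen U) (n : ℤ) : IsClopen (pre h n U) :=
  hU.preimage (h ^ n : X ≃ₜ X).continuous

lemma alphaPow_chi (n : ℤ) (U : Set X) (hU : IsClopen U) :
    alphaPow n (chi U hU : CX h) = chi (pre h (-n) U) (isClopen_pre hU _) := by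
  ext x
  rfl

section additive

variable {E : Type} [NormedAddCommGroup E] [NormedSpace ℂ E] {r : ℝ}

/-- `r`-additivity of a representation of `C(X)`. -/
def Addv (π₀ : C(X, ℂ) →ₐ[ℂ] (E →L[ℂ] E)) (r : ℝ) : Prop :=
  ∀ (U : Set X) (hU : IsClopen U) (z : E),
    ‖z‖ ^ r = ‖π₀ (chiC U hU) z‖ ^ r + ‖z - π₀ (chiC U hU) z‖ ^ r

variable {π₀ : C(X, ℂ) →ₐ[ℂ] (E →L[ℂ] E)}

lemma pi_chi_mul (U V : Set X) (hU : IsClopen U) (hV : IsClopen V) (z : E) :
    π₀ (chiC U hU) (π₀ (chiC V hV) z) = π₀ (chiC (U ∩ V) (hU.inter hV)) z := by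
  rw [← mul_apply_eq_comp, ← map_mul]
  congr 2
  ext x
  by_cases h1 : x ∈ U <;> by_cases h2 : x ∈ V <;> simp [chiC_apply, h1, h2]

lemma pi_chi_empty (z : E) (U : Set X) (hU : IsClopen U) (h0 : U = ∅) :
    π₀ (chiC U hU) z = 0 := by
  have : chiC U hU = 0 := by
    ext x
    simp [chiC_apply, h0]
  rw [this, map_zero]
  rfl

variable {ι : Type*} {U : ι → Set X} {hU : ∀ i, IsClopen (U i)}

lemma Addv.sum_le (hA : Addv π₀ r) (s : Finset ι)
    (hd : ∀ i ∈ s, ∀ j ∈ s, i ≠ j → U i ∩ U j = ∅) (z : E) :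
    ∑ i ∈ s, ‖π₀ (chiC (U i) (hU i)) z‖ ^ r ≤ ‖z‖ ^ r := by
  classical
  induction s using Finset.induction_on generalizing z with
  | empty => simp; positivity
  | insert i s hi ih =>
    rw [Finset.sum_insert hi, hA (U i) (hU i) z]
    gcongr
    have h1 := ih (fun j hj k hk => hd j (Finset.mem_insert_of_mem hj) k
      (Finset.mem_insert_of_mem hk)) (z - π₀ (chiC (U i) (hU i)) z)
    refine le_trans (le_of_eq ?_) h1
    refine Finset.sum_congr rfl fun j hj => ?_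
    rw [map_sub, pi_chi_mul, pi_chi_empty (π₀ := π₀) z (U j ∩ U i) _ (hd j
      (Finset.mem_insert_of_mem hj) i (Finset.mem_insert_self _ _) (by rintro rfl; exact hi hj)),
      sub_zero]

lemma Addv.norm_sum (hA : Addv π₀ r) (hr : 0 < r) (s : Finset ι)
    (hd : ∀ i ∈ s, ∀ j ∈ s, i ≠ j → U i ∩ U j = ∅) (z : ι → E) :
    ‖∑ i ∈ s, π₀ (chiC (U i) (hU i)) (z i)‖ ^ r =
      ∑ i ∈ s, ‖π₀ (chiC (U i) (hU i)) (z i)‖ ^ r := by
  classical
  induction s using Finset.induction_on with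
  | empty => simp [Real.zero_rpow hr.ne']
  | insert i s hi ih =>
    have h0 : π₀ (chiC (U i) (hU i)) (∑ j ∈ s, π₀ (chiC (U j) (hU j)) (z j)) = 0 := by
      rw [map_sum]
      refine Finset.sum_eq_zero fun j hj => ?_
      rw [pi_chi_mul, pi_chi_empty (π₀ := π₀) _ _ _ (hd i (Finset.mem_insert_self _ _) j
        (Finset.mem_insert_of_mem hj) (by rintro rfl; exact hi hj))]
    have h1 : π₀ (chiC (U i) (hU i)) (π₀ (chiC (U i) (hU i)) (z i)) =
        π₀ (chiC (U i) (hU i)) (z i) := by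
      rw [pi_chi_mul]
      congr 2
      ext x
      by_cases hx : x ∈ U i <;> simp [chiC_apply, hx]
    rw [Finset.sum_insert hi, hA (U i) (hU i), map_add, h0, h1, add_zero, Finset.sum_insert hi,
      add_sub_cancel_left, ih (fun j hj k hk => hd j (Finset.mem_insert_of_mem hj) k
      (Finset.mem_insert_of_mem hk))]

end additive

/-- For `p ≠ 2`, the contractive representations of `C(X)` on `L^p` are `p`-additive. -/
lemma LpRep.addv [CompactSpace X] {p : ℝ≥0∞} [Fact (1 ≤ p)] (hp : p ≠ ∞) (hp2 : p ≠ 2)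
    (ρ : LpRep X p) : Addv ρ.π₀ p.toReal := by
  letI := ρ.mY
  intro U hU z
  apply p_additive hp hp2
  · intro z
    rw [pi_chi_mul]
    congr 2
    ext x
    by_cases hx : x ∈ U <;> simp [chiC_apply, hx]
  · intro l hl z
    have h1 : ρ.π₀ (chiC U hU) z + l • (z - ρ.π₀ (chiC U hU) z) =
        ρ.π₀ (chiC U hU + l • (1 - chiC U hU)) z := by
      rw [map_add, map_smul, map_sub, map_one]
      rfl
    rw [h1]
    refine ((ρ.π₀ _).le_opNorm _).trans ?_
    have h2 : ‖chiC U hU + l • (1 - chiC U hU)‖ ≤ 1 := by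
      rw [ContinuousMap.norm_le _ zero_le_one]
      intro x
      by_cases hx : x ∈ U
      · simp [chiC_apply, hx]
      · simp [chiC_apply, hx, hl]
    calc _ ≤ 1 * ‖z‖ := by
          gcongr
          exact (ρ.contractive _).trans h2
      _ = ‖z‖ := one_mul _

section est

variable [CompactSpace X] {E : Type} [NormedAddCommGroup E] [NormedSpace ℂ E]
  {p : ℝ≥0∞} [Fact (1 ≤ p)] {π₀ : C(X, ℂ) →ₐ[ℂ] (E →L[ℂ] E)} {hc : ∀ f, ‖π₀ f‖ ≤ ‖f‖}

/-- The element `(∑_{i ∈ F} ζᵢ uⁱ) 1_U`. -/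
def colElt (F : Finset ℤ) (ζ : ℤ → ℂ) (U : Set X) (hU : IsClopen U) : Cc h :=
  ∑ i ∈ F, ζ i • (fu 1 i * fu (chi U hU) 0)

/-- The element `1_U (∑_{j ∈ F} ηⱼ u⁻ʲ)`. -/
def rowElt (F : Finset ℤ) (η : ℤ → ℂ) (U : Set X) (hU : IsClopen U) : Cc h :=
  ∑ j ∈ F, η j • (fu (chi U hU) 0 * fu 1 (-j))

lemma regRep_fu_apply (f : CX h) (k : ℤ) (ξ : LZ p E) (n : ℤ) :
    regRep h p π₀ hc (fu f k) ξ n = π₀ (CX.toC (alphaPow (-n) f)) (ξ (n - k)) := by
  have : regRep h p π₀ hc (fu f k) = piHom h π₀ hc f * shiftOp k :=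
    SkewMonoidAlgebra.liftNC_single _ _ _ _
  rw [this]
  rfl

lemma regRep_col_apply (F : Finset ℤ) (ζ : ℤ → ℂ) (U : Set X) (hU : IsClopen U) (ξ : LZ p E)
    (n : ℤ) : regRep h p π₀ hc (colElt F ζ U hU) ξ n =
      ∑ i ∈ F, π₀ (chiC (pre h (n - i) U) (isClopen_pre hU _)) (ζ i • ξ (n - i)) := by
  unfold colElt
  rw [map_sum, FunLike.coe_sum, Finset.sum_apply, lp.coeFn_sum, Finset.sum_apply]
  refine Finset.sum_congr rfl fun i _ => ?_
  rw [map_smul, map_mul, _root_.smul_apply, lp.coeFn_smul, Pi.smul_apply,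
    mul_apply_eq_comp, regRep_fu_apply, regRep_fu_apply, sub_zero, map_smul]
  have h1 : CX.toC (alphaPow (-n) (1 : CX h)) = 1 := rfl
  have h2 : CX.toC (alphaPow (-(n - i)) (chi U hU : CX h)) =
      chiC (pre h (n - i) U) (isClopen_pre hU _) := by
    rw [alphaPow_chi]
    ext x
    simp [chi_apply, chiC_apply, pre]
  rw [h1, map_one, h2]
  rfl

lemma regRep_row_apply (F : Finset ℤ) (η : ℤ → ℂ) (U : Set X) (hU : IsClopen U) (ξ : LZ p E)
    (n : ℤ) : regRep h p π₀ hc (rowElt F η U hU) ξ n =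
      ∑ j ∈ F, η j • π₀ (chiC (pre h n U) (isClopen_pre hU _)) (ξ (n + j)) := by
  unfold rowElt
  rw [map_sum, FunLike.coe_sum, Finset.sum_apply, lp.coeFn_sum, Finset.sum_apply]
  refine Finset.sum_congr rfl fun j _ => ?_
  rw [map_smul, map_mul, _root_.smul_apply, lp.coeFn_smul, Pi.smul_apply,
    mul_apply_eq_comp, regRep_fu_apply, regRep_fu_apply, sub_zero, sub_neg_eq_add]
  have h1 : CX.toC (alphaPow (-n) (1 : CX h)) = 1 := rfl
  have h2 : CX.toC (alphaPow (-n) (chi U hU : CX h)) =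
      chiC (pre h n U) (isClopen_pre hU _) := by
    rw [alphaPow_chi]
    ext x
    simp [chi_apply, chiC_apply, pre]
  rw [h1, map_one, h2]
  rfl

/-- The translates `hⁱ(U)`, `i ∈ F`, are pairwise disjoint. -/
def Sep (h : X ≃ₜ X) (U : Set X) (F : Finset ℤ) : Prop :=
  ∀ i ∈ F, ∀ j ∈ F, i ≠ j → ∀ x ∈ U, (h ^ (i - j) : X ≃ₜ X) x ∉ U

omit [CompactSpace X] in
lemma Sep.disj {U : Set X} {F : Finset ℤ} (hs : Sep h U F) (n : ℤ) :
    ∀ i ∈ F, ∀ j ∈ F, i ≠ j → pre h (n - i) U ∩ pre h (n - j) U = ∅ := by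
  intro i hi j hj hij
  ext x
  simp only [pre, Set.mem_inter_iff, Set.mem_ofPred_eq, Set.mem_empty_iff_false, iff_false,
    not_and]
  intro h1
  have h3 := hs i hi j hj hij _ h1
  rw [← Homeomorph.mul_apply, ← zpow_add] at h3
  have h4 : i - j + (n - i) = n - j := by ring
  rwa [h4] at h3

lemma norm_pi_chi_le (hc : ∀ f, ‖π₀ f‖ ≤ ‖f‖) (U : Set X) (hU : IsClopen U) (z : E) :
    ‖π₀ (chiC U hU) z‖ ≤ ‖z‖ := by
  refine ((π₀ _).le_opNorm _).trans ?_
  calc _ ≤ 1 * ‖z‖ := by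
        gcongr
        refine (hc _).trans ?_
        rw [ContinuousMap.norm_le _ zero_le_one]
        intro x
        by_cases hx : x ∈ U <;> simp [chiC_apply, hx]
    _ = _ := one_mul _

lemma norm_col_le (hp : p ≠ ∞) (hA : Addv π₀ p.toReal) (F : Finset ℤ) (ζ : ℤ → ℂ) (U : Set X)
    (hU : IsClopen U) (hd : Sep h U F) :
    ‖regRep h p π₀ hc (colElt F ζ U hU)‖ ≤ (∑ i ∈ F, ‖ζ i‖ ^ p.toReal) ^ (1 / p.toReal) := by
  have hr : 0 < p.toReal := toReal_pos' hp
  have hS : 0 ≤ ∑ i ∈ F, ‖ζ i‖ ^ p.toReal := Finset.sum_nonneg fun i _ => by positivity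
  refine ContinuousLinearMap.opNorm_le_bound _ (by positivity) fun ξ => ?_
  refine lp.norm_le_of_forall_sum_le hr (by positivity) fun s => ?_
  rw [Real.mul_rpow (by positivity) (norm_nonneg _), ← Real.rpow_mul hS,
    one_div_mul_cancel hr.ne', Real.rpow_one]
  calc ∑ n ∈ s, ‖regRep h p π₀ hc (colElt F ζ U hU) ξ n‖ ^ p.toReal
      ≤ ∑ n ∈ s, ∑ i ∈ F, ‖ζ i‖ ^ p.toReal * ‖ξ (n - i)‖ ^ p.toReal := by
        refine Finset.sum_le_sum fun n _ => ?_
        rw [regRep_col_apply, hA.norm_sum hr F]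
        · refine Finset.sum_le_sum fun i _ => ?_
          rw [← Real.mul_rpow (norm_nonneg _) (norm_nonneg _), ← norm_smul]
          gcongr
          exact norm_pi_chi_le hc _ _ _
        · exact hd.disj n
    _ = ∑ i ∈ F, ‖ζ i‖ ^ p.toReal * ∑ n ∈ s, ‖ξ (n - i)‖ ^ p.toReal := by
        rw [Finset.sum_comm]
        simp only [Finset.mul_sum]
    _ ≤ ∑ i ∈ F, ‖ζ i‖ ^ p.toReal * ‖ξ‖ ^ p.toReal := by
        refine Finset.sum_le_sum fun i _ => ?_
        gcongr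
        have h1 := lp.sum_rpow_le_norm_rpow hr (shiftOp i ξ) s
        have h2 : ‖shiftOp i ξ‖ ≤ ‖ξ‖ := by
          calc _ ≤ ‖(shiftOp i : LZ p E →L[ℂ] LZ p E)‖ * ‖ξ‖ := ContinuousLinearMap.le_opNorm _ _
            _ ≤ 1 * ‖ξ‖ := by
              gcongr
              exact norm_shiftOp_le i
            _ = ‖ξ‖ := one_mul _
        refine h1.trans ?_
        gcongr
    _ = _ := by rw [Finset.sum_mul]

/-- `η`, restricted to `F`, has norm at most `C` as a functional on `ℓ^r`. -/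
def DualBd (r : ℝ) (F : Finset ℤ) (η : ℤ → ℂ) (C : ℝ) : Prop :=
  ∀ t : ℤ → ℝ, (∀ j, 0 ≤ t j) → ∑ j ∈ F, ‖η j‖ * t j ≤ C * (∑ j ∈ F, t j ^ r) ^ (1 / r)

lemma norm_row_le (hp : p ≠ ∞) (hA : Addv π₀ p.toReal) (F : Finset ℤ) (η : ℤ → ℂ) (C : ℝ)
    (hC : 0 ≤ C) (hη : DualBd p.toReal F η C) (U : Set X) (hU : IsClopen U) (hd : Sep h U F) :
    ‖regRep h p π₀ hc (rowElt F η U hU)‖ ≤ C := by
  have hr : 0 < p.toReal := toReal_pos' hp
  refine ContinuousLinearMap.opNorm_le_bound _ hC fun ξ => ?_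
  refine lp.norm_le_of_forall_sum_le hr (by positivity) fun s => ?_
  rw [Real.mul_rpow hC (norm_nonneg _)]
  have hsum : ∀ j ∈ F, Summable fun m : ℤ =>
      ‖π₀ (chiC (pre h (m - j) U) (isClopen_pre hU _)) (ξ m)‖ ^ p.toReal := by
    intro j _
    refine Summable.of_nonneg_of_le (fun m => by positivity) (fun m => ?_)
      ((lp.memℓp ξ).summable hr)
    gcongr
    exact norm_pi_chi_le hc _ _ _
  calc ∑ n ∈ s, ‖regRep h p π₀ hc (rowElt F η U hU) ξ n‖ ^ p.toReal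
      ≤ ∑ n ∈ s, C ^ p.toReal *
          ∑ j ∈ F, ‖π₀ (chiC (pre h n U) (isClopen_pre hU _)) (ξ (n + j))‖ ^ p.toReal := by
        refine Finset.sum_le_sum fun n _ => ?_
        rw [regRep_row_apply]
        have h1 : ‖∑ j ∈ F, η j • π₀ (chiC (pre h n U) (isClopen_pre hU _)) (ξ (n + j))‖ ≤
            C * (∑ j ∈ F, ‖π₀ (chiC (pre h n U) (isClopen_pre hU _)) (ξ (n + j))‖ ^ p.toReal) ^
              (1 / p.toReal) := by
          refine (norm_sum_le _ _).trans ?_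
          simp only [norm_smul]
          exact hη (fun j => ‖π₀ (chiC (pre h n U) (isClopen_pre hU _)) (ξ (n + j))‖)
            (fun j => norm_nonneg _)
        have hS : 0 ≤ ∑ j ∈ F,
            ‖π₀ (chiC (pre h n U) (isClopen_pre hU _)) (ξ (n + j))‖ ^ p.toReal :=
          Finset.sum_nonneg fun i _ => by positivity
        calc _ ≤ (C * (∑ j ∈ F, ‖π₀ (chiC (pre h n U) (isClopen_pre hU _)) (ξ (n + j))‖ ^
                p.toReal) ^ (1 / p.toReal)) ^ p.toReal := by gcongr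
          _ = _ := by
            rw [Real.mul_rpow hC (by positivity), ← Real.rpow_mul hS, one_div_mul_cancel hr.ne',
              Real.rpow_one]
    _ = C ^ p.toReal * ∑ j ∈ F, ∑ n ∈ s,
          ‖π₀ (chiC (pre h n U) (isClopen_pre hU _)) (ξ (n + j))‖ ^ p.toReal := by
        rw [← Finset.mul_sum, Finset.sum_comm]
    _ ≤ C ^ p.toReal * ∑ j ∈ F, ∑' m : ℤ,
          ‖π₀ (chiC (pre h (m - j) U) (isClopen_pre hU _)) (ξ m)‖ ^ p.toReal := by
        gcongr with j hj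
        have h2 := (hsum j hj).sum_le_tsum (s.map (Equiv.addRight j).toEmbedding)
          (fun m _ => by positivity)
        rw [Finset.sum_map] at h2
        refine le_trans (le_of_eq ?_) h2
        refine Finset.sum_congr rfl fun n _ => ?_
        simp
    _ = C ^ p.toReal * ∑' m : ℤ, ∑ j ∈ F,
          ‖π₀ (chiC (pre h (m - j) U) (isClopen_pre hU _)) (ξ m)‖ ^ p.toReal := by
        rw [Summable.tsum_finsetSum hsum]
    _ ≤ C ^ p.toReal * ∑' m : ℤ, ‖ξ m‖ ^ p.toReal := by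
        have h3 := summable_sum hsum
        gcongr with m
        · exact (lp.memℓp ξ).summable hr
        · exact hA.sum_le F (hd.disj m) (ξ m)
    _ = _ := by rw [lp.norm_rpow_eq_tsum hr]

end est

section red

variable [CompactSpace X] {p : ℝ≥0∞} [Fact (1 ≤ p)]

lemma redNorm_col_le (hp : p ≠ ∞) (hp2 : p ≠ 2) (F : Finset ℤ) (ζ : ℤ → ℂ) (U : Set X)
    (hU : IsClopen U) (hd : Sep h U F) :
    redNorm p (colElt F ζ U hU : Cc h) ≤ (∑ i ∈ F, ‖ζ i‖ ^ p.toReal) ^ (1 / p.toReal) :=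
  redNorm_le (by
    have hS : 0 ≤ ∑ i ∈ F, ‖ζ i‖ ^ p.toReal := Finset.sum_nonneg fun i _ => by positivity
    positivity) fun ρ => norm_col_le hp (ρ.addv hp hp2) F ζ U hU hd

lemma redNorm_row_le (hp : p ≠ ∞) (hp2 : p ≠ 2) (F : Finset ℤ) (η : ℤ → ℂ) (C : ℝ)
    (hC : 0 ≤ C) (hη : DualBd p.toReal F η C) (U : Set X) (hU : IsClopen U) (hd : Sep h U F) :
    redNorm p (rowElt F η U hU : Cc h) ≤ C :=
  redNorm_le hC fun ρ => norm_row_le hp (ρ.addv hp hp2) F η C hC hη U hU hd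

end red

end Pool.Agent.H25.SR
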