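import Pool.Agent.H25.SrBlk

/-!
# One-sided zero divisors with locally constant coefficients are limits of units
-/

open scoped ENNReal Topology
open Multiplicative Filter

noncomputable section

namespace Pool.Agent.H25.SR

section ring

variable {A : Type*} [Ring A] [Algebra ℂ A]

/-- For all but finitely many scalars `l`, the element `c + l w` is a unit, for a suitable `w`. -/
def GoodLim (c : A) : Prop := ∃ w : A, {l : ℂ | ¬ IsUnit (c + l • w)}.Finite

lemma GoodLim.of_units {c g g' : A} (hg : IsUnit g) (hg' : IsUnit g')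
    (H : GoodLim (g * c * g')) : GoodLim c := by
  obtain ⟨g, rfl⟩ := hg
  obtain ⟨g', rfl⟩ := hg'
  obtain ⟨w, hw⟩ := H
  refine ⟨(g⁻¹ : Aˣ) * w * (g'⁻¹ : Aˣ), hw.subset ?_⟩
  intro l hl hu
  apply hl
  have h1 : c + l • ((g⁻¹ : Aˣ) * w * (g'⁻¹ : Aˣ)) =
      (g⁻¹ : Aˣ) * (g * c * g' + l • w) * (g'⁻¹ : Aˣ) := by
    rw [mul_add, add_mul]
    congr 1
    · rw [← mul_assoc, ← mul_assoc, Units.inv_mul, one_mul, mul_assoc, Units.mul_inv, mul_one]
    · rw [mul_smul_comm, smul_mul_assoc]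
  rw [h1]
  exact ((Units.isUnit _).mul hu).mul (Units.isUnit _)

omit [Algebra ℂ A] in
lemma isUnit_one_add_of_sq {m : A} (hm : m * m = 0) : IsUnit (1 + m) := by
  refine ⟨⟨1 + m, 1 - m, ?_, ?_⟩, rfl⟩
  · have : (1 + m) * (1 - m) = 1 - m * m := by noncomm_ring
    rw [this, hm, sub_zero]
  · have : (1 - m) * (1 + m) = 1 - m * m := by noncomm_ring
    rw [this, hm, sub_zero]

lemma isUnit_add_smul_of_eval {l : A} {P : Polynomial ℂ} (hP : Polynomial.aeval l P = 0) {t : ℂ}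
    (ht : P.eval (-t) ≠ 0) : IsUnit (l + t • 1) := by
  have h1 : -t ∉ spectrum ℂ l := by
    intro hmem
    have h2 := spectrum.subset_polynomial_aeval l P ⟨-t, hmem, rfl⟩
    rw [hP, spectrum.mem_iff, sub_zero] at h2
    apply h2
    exact (IsUnit.mk0 _ ht).map (algebraMap ℂ A)
  rw [spectrum.notMem_iff] at h1
  have h3 : l + t • 1 = -(algebraMap ℂ A (-t) - l) := by
    rw [Algebra.algebraMap_eq_smul_one]
    module
  rw [h3]
  exact h1.neg

lemma goodLim_of_corner {b q : A} (hq : q * b = 0) {P : Polynomial ℂ} (hP0 : P ≠ 0)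
    (hP : Polynomial.aeval (b * (1 - q)) P = 0) : GoodLim b := by
  refine ⟨1, ?_⟩
  have hfin : ({0} ∪ {t : ℂ | P.eval (-t) = 0}).Finite := by
    apply (Set.finite_singleton _).union
    have h1 : {t : ℂ | P.IsRoot t}.Finite := by
      have := P.roots.toFinset.finite_toSet
      refine this.subset ?_
      intro t ht
      simp only [Finset.mem_coe, Multiset.mem_toFinset]
      exact (Polynomial.mem_roots hP0).mpr ht
    exact h1.preimage (fun a _ b _ hab => neg_injective hab)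
  refine hfin.subset ?_
  intro t ht
  by_contra hcon
  simp only [Set.singleton_union, Set.mem_insert_iff, Set.mem_ofPred_eq, not_or] at hcon
  apply ht
  have hm : (t⁻¹ • (b * q)) * (t⁻¹ • (b * q)) = 0 := by
    rw [smul_mul_smul_comm, mul_assoc, ← mul_assoc q b q, hq, zero_mul, mul_zero, smul_zero]
  have h1 : b + t • 1 = (1 + t⁻¹ • (b * q)) * (b * (1 - q) + t • 1) := by
    have e1 : (b * q) * (b * (1 - q)) = 0 := by
      rw [mul_assoc, ← mul_assoc q b, hq, zero_mul, mul_zero]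
    rw [add_mul, one_mul, mul_add, smul_mul_assoc, e1, smul_zero, zero_add, smul_mul_smul_comm,
      inv_mul_cancel₀ hcon.1, one_smul, mul_one, mul_sub, mul_one]
    abel
  rw [h1]
  exact (isUnit_one_add_of_sq hm).mul (isUnit_add_smul_of_eval hP hcon.2)

end ring

variable {X : Type} [TopologicalSpace X] {h : X ≃ₜ X}

lemma GoodLim.of_tr {c : Cc h} (H : GoodLim (tr c)) : GoodLim c := by
  obtain ⟨w, hw⟩ := H
  refine ⟨tr w, hw.subset ?_⟩
  intro l hl hu
  apply hl
  rw [← isUnit_tr_iff, tr_add, tr_smul, tr_tr]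
  exact hu

/-- The translates of `B` by `hᵏ`, `|k| ≤ T`, are disjoint from `B`. -/
def SepT (h : X ≃ₜ X) (B : Set X) (T : ℕ) : Prop :=
  ∀ x ∈ B, ∀ k : ℤ, k ≠ 0 → |k| ≤ T → (h ^ k : X ≃ₜ X) x ∉ B

section munits

variable {B : Set X} {hB : IsClopen B} {T : ℕ}

/-- The matrix unit `uʲ 1_B u⁻ᵏ`. -/
def mu (B : Set X) (hB : IsClopen B) (j k : ℤ) : Cc h := fu (alphaPow j (chi B hB)) (j - k)

lemma mu_mul_same (j k m : ℤ) : (mu B hB j k * mu B hB k m : Cc h) = mu B hB j m := by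
  unfold mu
  rw [fu_mul_fu, alphaPow_alphaPow]
  have h1 : j - k + k = j := by ring
  have h2 : j - k + (k - m) = j - m := by ring
  rw [h1, h2]
  congr 1
  ext x
  simp only [CX.mul_apply, alphaPow_apply, chi_apply]
  by_cases hx : (h ^ (-j) : X ≃ₜ X) x ∈ B
  · rw [Set.indicator_of_mem hx, mul_one]
  · rw [Set.indicator_of_notMem hx, mul_zero]

lemma mu_mul_ne (hs : SepT h B T) {j k l m : ℤ} (hkl : k ≠ l) (hT : |k - l| ≤ T) :
    (mu B hB j k * mu B hB l m : Cc h) = 0 := by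
  unfold mu
  rw [fu_mul_fu, alphaPow_alphaPow]
  have h1 : (alphaPow j (chi B hB) * alphaPow (j - k + l) (chi B hB) : CX h) = 0 := by
    ext x
    simp only [CX.mul_apply, alphaPow_apply, chi_apply, CX.zero_apply]
    by_cases hx : (h ^ (-j) : X ≃ₜ X) x ∈ B
    · have h2 := hs _ hx (k - l) (sub_ne_zero.mpr hkl) hT
      rw [← Homeomorph.mul_apply, ← zpow_add] at h2
      have h3 : k - l + -j = -(j - k + l) := by ring
      rw [h3] at h2
      rw [Set.indicator_of_notMem h2, mul_zero]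
    · rw [Set.indicator_of_notMem hx, zero_mul]
  rw [h1, fu_zero]

lemma mu_mem_LC (j k : ℤ) : (mu B hB j k : Cc h) ∈ LC h :=
  fu_mem_LC ((isLC_chi B hB).alphaPow j) _

variable {ι : Type*} [Fintype ι] [DecidableEq ι] {κ : ι → ℤ} {σ : ι → ι}

omit [Fintype ι] in
lemma mu_mul (hs : SepT h B T) (hκ : Function.Injective κ) (hT : ∀ a b, |κ a - κ b| ≤ T)
    (a b c d : ι) : (mu B hB (κ a) (κ b) * mu B hB (κ c) (κ d) : Cc h) =
      if b = c then mu B hB (κ a) (κ d) else 0 := by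
  split_ifs with hbc
  · rw [hbc, mu_mul_same]
  · exact mu_mul_ne hs (fun H => hbc (hκ H)) (hT b c)

/-- The diagonal idempotent. -/
def muE (h : X ≃ₜ X) (B : Set X) (hB : IsClopen B) (κ : ι → ℤ) : Cc h :=
  ∑ a, mu B hB (κ a) (κ a)

/-- The permutation part. -/
def muV (h : X ≃ₜ X) (B : Set X) (hB : IsClopen B) (κ : ι → ℤ) (σ : ι → ι) : Cc h :=
  ∑ a, mu B hB (κ a) (κ (σ a))

/-- The involution attached to an involution `σ` of the index set. -/
def muW (h : X ≃ₜ X) (B : Set X) (hB : IsClopen B) (κ : ι → ℤ) (σ : ι → ι) : Cc h :=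
  1 - muE h B hB κ + muV h B hB κ σ

lemma mu_mul_E (hs : SepT h B T) (hκ : Function.Injective κ) (hT : ∀ a b, |κ a - κ b| ≤ T)
    (a b : ι) : mu B hB (κ a) (κ b) * muE h B hB κ = mu B hB (κ a) (κ b) := by
  rw [muE, Finset.mul_sum]
  simp [mu_mul hs hκ hT]

lemma E_mul_mu (hs : SepT h B T) (hκ : Function.Injective κ) (hT : ∀ a b, |κ a - κ b| ≤ T)
    (a b : ι) : muE h B hB κ * mu B hB (κ a) (κ b) = mu B hB (κ a) (κ b) := by
  rw [muE, Finset.sum_mul]
  simp [mu_mul hs hκ hT]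

lemma mu_mul_V (hs : SepT h B T) (hκ : Function.Injective κ) (hT : ∀ a b, |κ a - κ b| ≤ T)
    (a b : ι) : mu B hB (κ a) (κ b) * muV h B hB κ σ = mu B hB (κ a) (κ (σ b)) := by
  rw [muV, Finset.mul_sum]
  simp [mu_mul hs hκ hT]

lemma E_mul_E (hs : SepT h B T) (hκ : Function.Injective κ) (hT : ∀ a b, |κ a - κ b| ≤ T) :
    muE h B hB κ * muE h B hB κ = muE h B hB κ := by
  conv_lhs => enter [1]; rw [muE]
  rw [Finset.sum_mul]
  simp only [mu_mul_E hs hκ hT]
  rfl

lemma E_mul_V (hs : SepT h B T) (hκ : Function.Injective κ) (hT : ∀ a b, |κ a - κ b| ≤ T) :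
    muE h B hB κ * muV h B hB κ σ = muV h B hB κ σ := by
  conv_lhs => enter [1]; rw [muE]
  rw [Finset.sum_mul]
  simp only [mu_mul_V hs hκ hT]
  rfl

lemma V_mul_E (hs : SepT h B T) (hκ : Function.Injective κ) (hT : ∀ a b, |κ a - κ b| ≤ T) :
    muV h B hB κ σ * muE h B hB κ = muV h B hB κ σ := by
  conv_lhs => enter [1]; rw [muV]
  rw [Finset.sum_mul]
  simp only [mu_mul_E hs hκ hT]
  rfl

lemma V_mul_V (hs : SepT h B T) (hκ : Function.Injective κ) (hT : ∀ a b, |κ a - κ b| ≤ T)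
    (hσ : ∀ a, σ (σ a) = a) :
    muV h B hB κ σ * muV h B hB κ σ = muE h B hB κ := by
  conv_lhs => enter [1]; rw [muV]
  rw [Finset.sum_mul]
  simp only [mu_mul_V hs hκ hT, hσ]
  rfl

lemma W_mul_W (hs : SepT h B T) (hκ : Function.Injective κ) (hT : ∀ a b, |κ a - κ b| ≤ T)
    (hσ : ∀ a, σ (σ a) = a) : muW h B hB κ σ * muW h B hB κ σ = 1 := by
  unfold muW
  have e1 := E_mul_E (hB := hB) hs hκ hT
  have e2 := E_mul_V (hB := hB) (σ := σ) hs hκ hT
  have e3 := V_mul_E (hB := hB) (σ := σ) hs hκ hT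
  have e4 := V_mul_V (hB := hB) hs hκ hT hσ
  have : (1 - muE h B hB κ + muV h B hB κ σ) * (1 - muE h B hB κ + muV h B hB κ σ) =
      1 - muE h B hB κ - muE h B hB κ + muE h B hB κ * muE h B hB κ
      + muV h B hB κ σ - muE h B hB κ * muV h B hB κ σ + muV h B hB κ σ
      - muV h B hB κ σ * muE h B hB κ + muV h B hB κ σ * muV h B hB κ σ := by
    noncomm_ring
  rw [this, e1, e2, e3, e4]
  abel

lemma mu_mul_W (hs : SepT h B T) (hκ : Function.Injective κ) (hT : ∀ a b, |κ a - κ b| ≤ T)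
    (a : ι) : mu B hB (κ a) (κ a) * muW h B hB κ σ = mu B hB (κ a) (κ (σ a)) := by
  unfold muW
  rw [mul_add, mul_sub, mul_one, mu_mul_E hs hκ hT, mu_mul_V hs hκ hT, sub_self, zero_add]

omit [DecidableEq ι] in
lemma W_mem_LC : muW h B hB κ σ ∈ LC h := by
  unfold muW muE muV
  exact add_mem (sub_mem (one_mem _) (sum_mem fun a _ => mu_mem_LC _ _))
    (sum_mem fun a _ => mu_mem_LC _ _)

end munits

section small

variable [CompactSpace X] [T2Space X] [TotallyDisconnectedSpace X]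

/-- Arbitrarily small clopen neighbourhoods with disjoint translates. -/
lemma exists_small (ha : Aper h) (y : X) (T : ℕ) {V : Set X} (hV : IsOpen V) (hy : y ∈ V) :
    ∃ B : Set X, IsClopen B ∧ y ∈ B ∧ B ⊆ V ∧ SepT h B T := by
  classical
  have h1 : ∀ k : ℤ, ∃ U : Set X, IsOpen U ∧ y ∈ U ∧
      (k ≠ 0 → ∀ x ∈ U, (h ^ k : X ≃ₜ X) x ∉ U) := by
    intro k
    by_cases hk : k = 0
    · exact ⟨Set.univ, isOpen_univ, Set.mem_univ _, fun H => absurd hk H⟩
    · obtain ⟨U1, U2, hU1, hU2, hy1, hy2, hd⟩ := t2_separation (ha y k hk)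
      refine ⟨U2 ∩ (h ^ k : X ≃ₜ X) ⁻¹' U1, hU2.inter (hU1.preimage (h ^ k : X ≃ₜ X).continuous),
        ⟨hy2, hy1⟩, fun _ x hx hx2 => ?_⟩
      exact Set.disjoint_left.mp hd hx.2 hx2.1
  choose U hUo hyU hU using h1
  have h2 : IsOpen (V ∩ ⋂ k ∈ Finset.Icc (-(T : ℤ)) T, U k) :=
    hV.inter (isOpen_biInter_finset fun k _ => hUo k)
  have h3 : y ∈ V ∩ ⋂ k ∈ Finset.Icc (-(T : ℤ)) T, U k := by
    refine ⟨hy, ?_⟩
    simp only [Set.mem_iInter]
    exact fun k _ => hyU k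
  obtain ⟨B, hBc, hyB, hBs⟩ := compact_exists_isClopen_in_isOpen h2 h3
  refine ⟨B, hBc, hyB, fun x hx => (hBs hx).1, ?_⟩
  intro x hx k hk hkT hkx
  have hk2 : k ∈ Finset.Icc (-(T : ℤ)) T := by
    rw [Finset.mem_Icc]
    exact abs_le.mp hkT
  have h4 : ∀ z ∈ B, z ∈ U k := by
    intro z hz
    have := (hBs hz).2
    simp only [Set.mem_iInter] at this
    exact this k hk2
  exact hU k hk x (h4 x hx) (h4 _ hkx)

end small

section blocks

variable {B : Set X} {hBc : IsClopen B} {T : ℕ}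
  {hB : ∀ x, ∃ n : ℕ, (h ^ (-(n : ℤ)) : X ≃ₜ X) x ∈ B}

lemma bet_level (hs : SepT h B T) {s : X} (hsB : s ∈ B) {j : ℤ} (hj1 : -(T : ℤ) ≤ j)
    (hj2 : j ≤ -1) : bet hB ((h ^ j : X ≃ₜ X) s) = bet hB ((h ^ (-(T : ℤ)) : X ≃ₜ X) s) := by
  obtain ⟨n, hn⟩ : ∃ n : ℕ, j = n + -(T : ℤ) := ⟨(j + T).toNat, by omega⟩
  have h1 : (h ^ j : X ≃ₜ X) s = (h ^ (n : ℤ) : X ≃ₜ X) ((h ^ (-(T : ℤ)) : X ≃ₜ X) s) := by
    rw [← Homeomorph.mul_apply, ← zpow_add, hn]
  rw [h1]
  apply bet_iter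
  intro i hi1 hi2
  rw [← Homeomorph.mul_apply, ← zpow_add]
  apply hs s hsB
  · omega
  · rw [abs_le]
    omega

lemma mu_isBlk (hs : SepT h B T) {j k : ℤ} (hj1 : -(T : ℤ) ≤ j) (hj2 : j ≤ -1)
    (hk1 : -(T : ℤ) ≤ k) (hk2 : k ≤ -1) : IsBlk (bet hB) (opRep h (mu B hBc j k)) := by
  apply isBlk_fu
  intro x hx
  have hxB : (h ^ (-j) : X ≃ₜ X) x ∈ B := by
    by_contra hcon
    apply hx
    rw [alphaPow_apply, chi_of_notMem hBc hcon]
  have h1 : x = (h ^ j : X ≃ₜ X) ((h ^ (-j) : X ≃ₜ X) x) := by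
    rw [← Homeomorph.mul_apply, ← zpow_add]
    simp
  have h2 : (h ^ (-(j - k)) : X ≃ₜ X) x = (h ^ k : X ≃ₜ X) ((h ^ (-j) : X ≃ₜ X) x) := by
    rw [← Homeomorph.mul_apply, ← zpow_add]
    congr 2
    ring
  rw [h2]
  conv_rhs => rw [h1]
  rw [bet_level hs hxB hk1 hk2, bet_level hs hxB hj1 hj2]

lemma muW_isBlk {ι : Type*} [Fintype ι] {κ : ι → ℤ} {σ : ι → ι} (hs : SepT h B T)
    (hκ : ∀ a, -(T : ℤ) ≤ κ a ∧ κ a ≤ -1) :
    IsBlk (bet hB) (opRep h (muW h B hBc κ σ)) := by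
  unfold muW muE muV
  rw [map_add, map_sub, map_one, map_sum, map_sum]
  exact (IsBlk.one.sub (IsBlk.sum _ fun a _ => mu_isBlk hs (hκ _).1 (hκ _).2 (hκ _).1 (hκ _).2)).add
    (IsBlk.sum _ fun a _ => mu_isBlk hs (hκ _).1 (hκ _).2 (hκ _).1 (hκ _).2)

lemma mul_one_sub_isBlk (hs : SepT h B T) {M : ℕ} (hMT : M ≤ T) {c : Cc h}
    (hc : ∀ n, c.coeff n ≠ 0 → 0 ≤ toAdd n ∧ toAdd n ≤ M) :
    IsBlk (bet hB) (opRep h (c * (1 - ∑ i : Fin M, mu B hBc (-(i.val + 1)) (-(i.val + 1))))) := by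
  have h0 : (∑ i : Fin M, mu B hBc (-((i.val : ℤ) + 1)) (-((i.val : ℤ) + 1)) : Cc h) =
      fu (∑ i : Fin M, alphaPow (-((i.val : ℤ) + 1)) (chi B hBc)) 0 := by
    have : ∀ s : Finset (Fin M), (∑ i ∈ s, mu B hBc (-((i.val : ℤ) + 1)) (-((i.val : ℤ) + 1)) : Cc h)
        = fu (∑ i ∈ s, alphaPow (-((i.val : ℤ) + 1)) (chi B hBc)) 0 := by
      intro s
      classical
      induction s using Finset.induction_on with
      | empty => simp [fu_zero]
      | insert i s hi ih =>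
        rw [Finset.sum_insert hi, Finset.sum_insert hi, fu_add, ih]
        congr 1
        unfold mu
        rw [sub_self]
    exact this _
  rw [h0, ← fu_one, ← fu_sub]
  set g : CX h := 1 - ∑ i : Fin M, alphaPow (-((i.val : ℤ) + 1)) (chi B hBc) with hg
  have h1 : c * fu g 0 = ∑ n ∈ c.support, fu (c.coeff n * alphaPow (toAdd n) g) (toAdd n) := by
    conv_lhs => rw [eq_sum_fu c]
    rw [Finset.sum_mul]
    refine Finset.sum_congr rfl fun n _ => ?_
    rw [fu_mul_fu, add_zero]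
  rw [h1, map_sum]
  apply IsBlk.sum
  intro n hn
  rw [SkewMonoidAlgebra.mem_support_iff] at hn
  obtain ⟨hn1, hn2⟩ := hc n hn
  apply isBlk_fu
  intro x hx
  rw [CX.mul_apply, alphaPow_apply] at hx
  set y := (h ^ (-(toAdd n)) : X ≃ₜ X) x with hy
  have hgy : g y ≠ 0 := right_ne_zero_of_mul hx
  obtain ⟨m, hm⟩ : ∃ m : ℕ, toAdd n = m := ⟨(toAdd n).toNat, by omega⟩
  have hxy : x = (h ^ (m : ℤ) : X ≃ₜ X) y := by
    rw [hy, ← Homeomorph.mul_apply, ← zpow_add, hm]
    simp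
  rw [hxy]
  symm
  apply bet_iter
  intro i hi1 hi2 hiB
  apply hgy
  rw [hg, CX.sub_apply, CX.one_apply, CX.coe_sum, Finset.sum_eq_single ⟨i - 1, by omega⟩]
  · have h2 : -(-(((i - 1 : ℕ) : ℤ) + 1)) = (i : ℤ) := by omega
    simp only [alphaPow_apply]
    rw [h2, chi_of_mem hBc hiB, sub_self]
  · intro j _ hj
    rw [alphaPow_apply, chi_of_notMem hBc]
    have h3 := hs _ hiB (((j.val : ℤ) + 1) - i) (by
      intro h0
      apply hj
      ext
      simp only
      omega) (by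
      have := j.isLt
      rw [abs_le]
      omega)
    rw [← Homeomorph.mul_apply, ← zpow_add] at h3
    have h4 : (j.val : ℤ) + 1 - i + i = -(-((j.val : ℤ) + 1)) := by ring
    rwa [h4] at h3
  · intro H
    exact absurd (Finset.mem_univ _) H

end blocks

/-- Every backward orbit meets every nonempty open set. -/
def BackHit (h : X ≃ₜ X) : Prop :=
  ∀ U : Set X, IsOpen U → U.Nonempty → ∀ x, ∃ n : ℕ, (h ^ (-(n : ℤ)) : X ≃ₜ X) x ∈ U

section main

variable [CompactSpace X] [T2Space X] [TotallyDisconnectedSpace X]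

/-- An element supported in nonnegative degrees, with some zero rows, is a limit of units. -/
theorem goodLim_lower (ha : Aper h) (hbh : BackHit h) {M : ℕ} {c : Cc h} (hcLC : c ∈ LC h)
    (hc : ∀ n, c.coeff n ≠ 0 → 0 ≤ toAdd n ∧ toAdd n ≤ M) {Y : Set X} (hY : IsClopen Y)
    (hYne : Y.Nonempty) (hzero : fu (chi Y hY) 0 * c = 0) : GoodLim c := by
  classical
  obtain ⟨y0, -⟩ := id hYne
  set S : Set ℕ := {n | M < n ∧ (h ^ (-(n : ℤ)) : X ≃ₜ X) y0 ∈ Y} with hS
  have hSinf : S.Infinite := by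
    apply Set.infinite_of_forall_exists_gt
    intro a
    obtain ⟨n, hn⟩ := hbh Y hY.isOpen hYne ((h ^ (-((a + M + 1 : ℕ) : ℤ)) : X ≃ₜ X) y0)
    rw [← Homeomorph.mul_apply, ← zpow_add] at hn
    refine ⟨n + (a + M + 1), ⟨by omega, ?_⟩, by omega⟩
    have : -((n + (a + M + 1) : ℕ) : ℤ) = -(n : ℤ) + -((a + M + 1 : ℕ) : ℤ) := by
      push_cast; ring
    rw [this]
    exact hn
  set e := hSinf.natEmbedding
  set z : Fin M → ℤ := fun i => -((e i.val : ℕ) : ℤ) with hz
  set T : ℕ := M + ∑ i : Fin M, (e i.val : ℕ) with hT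
  have heT : ∀ i : Fin M, (e i.val : ℕ) ≤ T := by
    intro i
    have := Finset.single_le_sum (f := fun i : Fin M => (e i.val : ℕ)) (fun _ _ => Nat.zero_le _)
      (Finset.mem_univ i)
    omega
  have heM : ∀ i : Fin M, M < (e i.val : ℕ) := fun i => (e i.val).2.1
  have heY : ∀ i : Fin M, (h ^ (z i) : X ≃ₜ X) y0 ∈ Y := fun i => (e i.val).2.2
  have hVo : IsOpen (⋂ i : Fin M, (h ^ (z i) : X ≃ₜ X) ⁻¹' Y) :=
    isOpen_iInter_of_finite fun i => hY.isOpen.preimage (h ^ (z i) : X ≃ₜ X).continuous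
  obtain ⟨B, hBc, hyB, hBV, hBs⟩ := exists_small ha y0 T hVo (Set.mem_iInter.mpr heY)
  have hBY : ∀ i : Fin M, ∀ x ∈ B, (h ^ (z i) : X ≃ₜ X) x ∈ Y :=
    fun i x hx => Set.mem_iInter.mp (hBV hx) i
  set κ : Fin M ⊕ Fin M → ℤ := Sum.elim (fun i => -((i.val : ℤ) + 1)) z with hκ
  have hκr : ∀ a, -(T : ℤ) ≤ κ a ∧ κ a ≤ -1 := by
    rintro (i | i)
    · simp only [hκ, Sum.elim_inl]
      have := i.isLt
      constructor <;> omega
    · simp only [hκ, Sum.elim_inr, hz]
      have h1 := heT i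
      have h2 := heM i
      constructor <;> omega
  have hκi : Function.Injective κ := by
    rintro (i | i) (j | j) hij
    · simp only [hκ, Sum.elim_inl] at hij
      congr 1
      ext
      omega
    · exfalso
      simp only [hκ, Sum.elim_inl, Sum.elim_inr, hz] at hij
      have h1 := i.isLt
      have h2 := heM j
      omega
    · exfalso
      simp only [hκ, Sum.elim_inl, Sum.elim_inr, hz] at hij
      have h1 := j.isLt
      have h2 := heM i
      omega
    · simp only [hκ, Sum.elim_inr, hz, neg_inj, Nat.cast_inj] at hij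
      have h1 := e.injective (Subtype.ext hij)
      congr 1
      ext
      exact h1
  have hκT : ∀ a b, |κ a - κ b| ≤ T := by
    intro a b
    have h1 := hκr a
    have h2 := hκr b
    rw [abs_le]
    constructor <;> omega
  set w := muW h B hBc κ Sum.swap with hw
  set q : Cc h := ∑ i : Fin M, mu B hBc (-((i.val : ℤ) + 1)) (-((i.val : ℤ) + 1)) with hq
  have hww : w * w = 1 := W_mul_W hBs hκi hκT (fun a => Sum.swap_swap a)
  have hwu : IsUnit w := ⟨⟨w, w, hww, hww⟩, rfl⟩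
  have hqw : q * (w * c) = 0 := by
    rw [hq, Finset.sum_mul]
    apply Finset.sum_eq_zero
    intro i _
    rw [← mul_assoc]
    have h1 : mu B hBc (-((i.val : ℤ) + 1)) (-((i.val : ℤ) + 1)) * w =
        mu B hBc (-((i.val : ℤ) + 1)) (z i) :=
      mu_mul_W (σ := Sum.swap) hBs hκi hκT (Sum.inl i)
    rw [h1, ← mu_mul_same (-((i.val : ℤ) + 1)) (z i) (z i), mul_assoc]
    have h2 : (mu B hBc (z i) (z i) : Cc h) = mu B hBc (z i) (z i) * fu (chi Y hY) 0 := by
      unfold mu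
      rw [fu_mul_fu, sub_self, alphaPow_zero, add_zero]
      congr 1
      ext x
      rw [CX.mul_apply, alphaPow_apply]
      by_cases hx : (h ^ (-(z i)) : X ≃ₜ X) x ∈ B
      · have h3 := hBY i _ hx
        rw [← Homeomorph.mul_apply, ← zpow_add, add_neg_cancel, zpow_zero,
          Homeomorph.one_apply] at h3
        rw [chi_of_mem hY h3, mul_one]
      · rw [chi_of_notMem hBc hx, zero_mul]
    rw [h2, mul_assoc, hzero, mul_zero, mul_zero]
  have hB : ∀ x, ∃ n : ℕ, (h ^ (-(n : ℤ)) : X ≃ₜ X) x ∈ B := hbh B hBc.isOpen ⟨y0, hyB⟩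
  have hqLC : q ∈ LC h := sum_mem fun i _ => mu_mem_LC _ _
  obtain ⟨P, hP0, hP⟩ := blk_algebraic (hB := hB) ha hBc (l := (w * c) * (1 - q))
    (mul_mem (mul_mem W_mem_LC hcLC) (sub_mem (one_mem _) hqLC)) (by
      rw [mul_assoc, map_mul]
      exact (muW_isBlk hBs hκr).mul (mul_one_sub_isBlk hBs (by omega) hc))
  have h3 := goodLim_of_corner hqw hP0 hP
  exact GoodLim.of_units hwu isUnit_one (by rwa [mul_one])

omit [CompactSpace X] [T2Space X] [TotallyDisconnectedSpace X] in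
lemma fu_isUnit (n : ℤ) : IsUnit (fu 1 n : Cc h) := by
  refine ⟨⟨fu 1 n, fu 1 (-n), ?_, ?_⟩, rfl⟩
  · rw [fu_mul_fu, alphaPow_one, one_mul, add_neg_cancel, fu_one]
  · rw [fu_mul_fu, alphaPow_one, one_mul, neg_add_cancel, fu_one]

omit [CompactSpace X] [T2Space X] [TotallyDisconnectedSpace X] in
lemma coeff_mul_fu_one (c : Cc h) (k : ℤ) (n : Multiplicative ℤ) :
    (c * fu 1 k).coeff n = c.coeff (ofAdd (toAdd n - k)) := by
  unfold fu
  rw [SkewMonoidAlgebra.coeff_mul_single, smul_one, mul_one]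
  congr 1

/-- A locally constant element with some zero rows is a limit of units. -/
theorem goodLim_of_row (ha : Aper h) (hbh : BackHit h) {c : Cc h} (hcLC : c ∈ LC h)
    {Y : Set X} (hY : IsClopen Y) (hYne : Y.Nonempty) (hzero : fu (chi Y hY) 0 * c = 0) :
    GoodLim c := by
  classical
  obtain ⟨K, hK⟩ : ∃ K : ℕ, ∀ n ∈ c.support, |toAdd n| ≤ K := by
    refine ⟨∑ n ∈ c.support, (toAdd n).natAbs, fun n hn => ?_⟩
    have h1 := Finset.single_le_sum (f := fun n : Multiplicative ℤ => (toAdd n).natAbs)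
      (fun _ _ => Nat.zero_le _) hn
    rw [Int.abs_eq_natAbs]
    exact_mod_cast h1
  have h1 : GoodLim (c * fu 1 (K : ℤ)) := by
    refine goodLim_lower ha hbh (M := 2 * K) (mul_mem hcLC (fu_mem_LC isLC_one _)) ?_ hY hYne ?_
    · intro n hn
      rw [coeff_mul_fu_one, ← SkewMonoidAlgebra.mem_support_iff] at hn
      have h2 := hK _ hn
      rw [toAdd_ofAdd, abs_le] at h2
      push_cast
      constructor <;> omega
    · rw [← mul_assoc, hzero, zero_mul]
  exact GoodLim.of_units isUnit_one (fu_isUnit K) (by rwa [one_mul])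

/-- If `e c = 0` with `e ≠ 0`, then `c` is a limit of units. -/
theorem goodLim_of_left (ha : Aper h) (hbh : BackHit h) {c e : Cc h} (hcLC : c ∈ LC h)
    (heLC : e ∈ LC h) (he : e ≠ 0) (hec : e * c = 0) : GoodLim c := by
  classical
  obtain ⟨n, hn⟩ : ∃ n, e.coeff n ≠ 0 := by
    by_contra hcon
    push Not at hcon
    exact he (SkewMonoidAlgebra.ext hcon)
  obtain ⟨x, hx⟩ : ∃ x, e.coeff n x ≠ 0 := by
    by_contra hcon
    push Not at hcon
    exact hn (CX.ext hcon)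
  -- a neighbourhood on which the coefficients are constant
  have hev : ∀ᶠ y in 𝓝 x, ∀ m ∈ e.support, e.coeff m y = e.coeff m x := by
    rw [Filter.eventually_all_finset]
    intro m _
    exact (IsLocallyConstant.iff_eventually_eq _).mp (heLC m) x
  obtain ⟨V, hV, hVo, hxV⟩ := mem_nhds_iff.mp hev
  obtain ⟨K, hK⟩ : ∃ K : ℕ, ∀ m ∈ e.support, |toAdd m| ≤ K := by
    refine ⟨∑ n ∈ e.support, (toAdd n).natAbs, fun n hn => ?_⟩
    have h1 := Finset.single_le_sum (f := fun n : Multiplicative ℤ => (toAdd n).natAbs)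
      (fun _ _ => Nat.zero_le _) hn
    rw [Int.abs_eq_natAbs]
    exact_mod_cast h1
  obtain ⟨B, hBc, hxB, hBV, hBs⟩ := exists_small ha x (2 * K) hVo hxV
  set t := e.coeff n x with ht
  set χ : CX h := chi (pre h (toAdd n) B) (isClopen_pre hBc _) with hχ
  have hχχ : χ * χ = χ := by
    ext y
    rw [CX.mul_apply]
    by_cases hy : y ∈ pre h (toAdd n) B
    · rw [hχ, chi_of_mem _ hy, mul_one]
    · rw [hχ, chi_of_notMem _ hy, mul_zero]
  -- `g = 1 + nil`
  set nil : Cc h := ∑ m ∈ e.support.erase n,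
    (e.coeff m x / t) • (fu χ (toAdd m - toAdd n)) with hnil
  have hnn : nil * nil = 0 := by
    rw [hnil, Finset.sum_mul]
    refine Finset.sum_eq_zero fun m hm => ?_
    rw [Finset.mul_sum]
    refine Finset.sum_eq_zero fun m' hm' => ?_
    rw [smul_mul_smul_comm, fu_mul_fu]
    have h1 : χ * alphaPow (toAdd m - toAdd n) χ = 0 := by
      ext y
      rw [CX.mul_apply, CX.zero_apply]
      by_cases hy : y ∈ pre h (toAdd n) B
      · have h2 : (h ^ (toAdd n) : X ≃ₜ X) y ∈ B := hy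
        have hmn : toAdd m - toAdd n ≠ 0 := by
          intro h0
          exact (Finset.ne_of_mem_erase hm) (by
            have : toAdd m = toAdd n := by omega
            exact toAdd.injective this)
        have hK1 := hK m (Finset.mem_of_mem_erase hm)
        have hK2 := hK n (by rw [SkewMonoidAlgebra.mem_support_iff]; exact hn)
        have h3 := hBs _ h2 (-(toAdd m - toAdd n)) (neg_ne_zero.mpr hmn) (by
          rw [abs_le] at hK1 hK2 ⊢
          push_cast
          constructor <;> omega)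
        rw [alphaPow_apply, hχ, chi_of_notMem (x := (h ^ (-(toAdd m - toAdd n)) : X ≃ₜ X) y),
          mul_zero]
        intro h4
        apply h3
        have h5 : (h ^ (toAdd n) : X ≃ₜ X) ((h ^ (-(toAdd m - toAdd n)) : X ≃ₜ X) y) ∈ B := h4
        rw [← Homeomorph.mul_apply, ← zpow_add] at h5 ⊢
        rwa [add_comm]
      · rw [hχ, chi_of_notMem _ hy, zero_mul]
    rw [h1, fu_zero, smul_zero]
  have hχnil : fu χ 0 * nil = nil := by
    rw [hnil, Finset.mul_sum]
    refine Finset.sum_congr rfl fun m _ => ?_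
    rw [mul_smul_comm, fu_mul_fu, alphaPow_zero, hχχ, zero_add]
  have hkey : (fu χ 0 + nil) * c = 0 := by
    have h1 : fu χ 0 + nil = t⁻¹ • (fu 1 (-(toAdd n)) * (fu (chi B hBc) 0 * e)) := by
      have h2 : fu (chi B hBc) 0 * e = ∑ m ∈ e.support, e.coeff m x • fu (chi B hBc) (toAdd m) := by
        conv_lhs => rw [eq_sum_fu e]
        rw [Finset.mul_sum]
        refine Finset.sum_congr rfl fun m hm => ?_
        rw [fu_mul_fu, zero_add, alphaPow_zero, ← fu_smul]
        congr 1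
        ext y
        rw [CX.mul_apply, CX.smul_apply]
        by_cases hy : y ∈ B
        · rw [chi_of_mem hBc hy, one_mul, mul_one, hV (hBV hy) m hm]
        · rw [chi_of_notMem hBc hy, zero_mul, mul_zero]
      have h3 : ∀ m, fu 1 (-(toAdd n)) * fu (chi B hBc) (toAdd m) = fu χ (toAdd m - toAdd n) := by
        intro m
        rw [fu_mul_fu, one_mul, alphaPow_chi]
        have h4 : -(toAdd n) + toAdd m = toAdd m - toAdd n := by ring
        rw [h4, hχ]
        congr 1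
        ext y
        simp only [chi_apply, neg_neg]
      have hnmem : n ∈ e.support := by rw [SkewMonoidAlgebra.mem_support_iff]; exact hn
      rw [h2, Finset.mul_sum, ← Finset.add_sum_erase _ _ hnmem, smul_add, Finset.smul_sum]
      congr 1
      · rw [mul_smul_comm, h3, sub_self, smul_smul, inv_mul_cancel₀ hx, one_smul]
      · rw [hnil]
        refine Finset.sum_congr rfl fun m _ => ?_
        rw [mul_smul_comm, h3, smul_smul, div_eq_inv_mul]
    rw [h1, smul_mul_assoc, mul_assoc, mul_assoc, hec, mul_zero, mul_zero, smul_zero]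
  have hnilLC : nil ∈ LC h := by
    rw [hnil]
    exact sum_mem fun m _ => (LC h).smul_mem (fu_mem_LC (isLC_chi _ _) _) _
  have hgu : IsUnit (1 + nil) := isUnit_one_add_of_sq hnn
  have h1 : GoodLim ((1 + nil) * c) := by
    refine goodLim_of_row ha hbh (mul_mem (add_mem (one_mem _) hnilLC) hcLC)
      (isClopen_pre (h := h) hBc (toAdd n)) ⟨(h ^ (-(toAdd n)) : X ≃ₜ X) x, ?_⟩ ?_
    · change (h ^ (toAdd n) : X ≃ₜ X) ((h ^ (-(toAdd n)) : X ≃ₜ X) x) ∈ B
      rw [← Homeomorph.mul_apply, ← zpow_add, add_neg_cancel, zpow_zero, Homeomorph.one_apply]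
      exact hxB
    · rw [← mul_assoc, mul_add, mul_one]
      change (fu χ 0 + fu χ 0 * nil) * c = 0
      rw [hχnil, hkey]
  exact GoodLim.of_units hgu isUnit_one (by rwa [mul_one])

/-- If `c e = 0` with `e ≠ 0`, then `c` is a limit of units. -/
theorem goodLim_of_right (ha : Aper h) (hbh : BackHit h) {c e : Cc h} (hcLC : c ∈ LC h)
    (heLC : e ∈ LC h) (he : e ≠ 0) (hce : c * e = 0) : GoodLim c := by
  apply GoodLim.of_tr
  refine goodLim_of_left ha hbh (tr_mem_LC hcLC) (tr_mem_LC heLC) ?_ ?_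
  · intro h0
    apply he
    rw [← tr_tr e, h0, tr_zero]
  · rw [← tr_mul, hce, tr_zero]

end main

end Pool.Agent.H25.SR
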